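import Pool.Agent.Lib.MP_d3fc00_an.TN

/-! Branch and bound checker for the decrease of the quadratic form along orbits. -/

namespace Pool.Agent.Lib.MP_d3fc00_an

noncomputable def fmap (p a b : ℝ) : ℝ := p * (a - b) / (1 + (p * (a - b) - (a - b) - a * b))

def IsOrb (p : ℝ) (u : ℕ → ℝ) : Prop := ∀ n, u (n + 3) = fmap p (u n) (u (n + 1))

noncomputable def Wf (a b c : ℝ) : ℝ :=
  (-616542 * a + 1378210 * b + -616542 * c) ^ 2 + (-600021 * a + 200028 * b + 1247580 * c) ^ 2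
    + (996402 * a + 615568 * b + 996402 * c) ^ 2

noncomputable def step3 (num D : TN) (k : TN → Bool) : Bool :=
  Bool.rec false (k (divN num D (divCandN num D (cN D)) (loN D))) (Nat.blt 0 (loN D))

noncomputable def step2 (d num ab : TN) (k : TN → Bool) : Bool :=
  step3 num (nrm (addcN 1000000000039 (subN (subN num d) ab))) k

noncomputable def step1 (pc ph : Nat) (d ab : TN) (k : TN → Bool) : Bool :=
  step2 d (shrN (mulPN pc ph d)) ab k

noncomputable def stepK (pc ph : Nat) (a b : TN) (k : TN → Bool) : Bool :=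
  step1 pc ph (nrm (subN a b)) (shrN (mulN a b)) k

theorem and_rec {x y : Bool} (h : (Bool.rec false y x : Bool) = true) : x = true ∧ y = true := by
  cases x
  · cases h
  · exact ⟨rfl, h⟩

theorem or_rec {x y : Bool} (h : (Bool.rec y true x : Bool) = true) : x = true ∨ y = true := by
  cases x
  · exact Or.inr h
  · exact Or.inl rfl

theorem stepK_sound {t : Pt} {p x y : ℝ} {pc ph : Nat} {a b : TN} {k : TN → Bool}
    (hp : p * 1000000000039 = pc + ph * t.t4) (ha : HasN t 1000000000039 a x)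
    (hb : HasN t 1000000000039 b y) (h : stepK pc ph a b k = true) :
    ∃ d, HasN t 1000000000039 d (fmap p x y) ∧ k d = true := by
  simp only [stepK, step1, step2, step3] at h
  have hd := (ha.sub hb).nrm
  have hn := (HasN.mulP hp hd).shr
  have hab := (ha.mul hb).shr
  have hD := (HasN.addc (y := 1) 1000000000039 (by norm_num) ((hn.sub hd).sub hab)).nrm
  obtain ⟨h1, h2⟩ := and_rec h
  rw [Nat.blt_eq] at h1
  exact ⟨_, HasN.div hn hD h1, h2⟩

noncomputable def iterK (pc ph : Nat) (fin : TN → TN → TN → Bool) (k : Nat) :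
    TN → TN → TN → Bool :=
  Nat.rec fin (fun _ ih a b c => stepK pc ph a b (fun d => ih b c d)) k

theorem iterK_sound {t : Pt} {p : ℝ} {u : ℕ → ℝ} {pc ph : Nat} {fin : TN → TN → TN → Bool}
    (hp : p * 1000000000039 = pc + ph * t.t4) (hu : IsOrb p u) (k : Nat) :
    ∀ (n : Nat) (a b c : TN), HasN t 1000000000039 a (u n) → HasN t 1000000000039 b (u (n + 1)) →
      HasN t 1000000000039 c (u (n + 2)) → iterK pc ph fin k a b c = true →
      ∃ a' b' c', HasN t 1000000000039 a' (u (n + k)) ∧ HasN t 1000000000039 b' (u (n + k + 1)) ∧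
        HasN t 1000000000039 c' (u (n + k + 2)) ∧ fin a' b' c' = true := by
  induction k with
  | zero => intro n a b c ha hb hc h; exact ⟨a, b, c, ha, hb, hc, h⟩
  | succ k ih =>
    intro n a b c ha hb hc h
    obtain ⟨d, hd, hk⟩ := stepK_sound hp ha hb h
    rw [← hu n] at hd
    have := ih (n + 1) b c d hb hc hd hk
    rwa [show n + 1 + k = n + (k + 1) by ring] at this

/-- level of the quadratic form below which the local analysis applies, at the squared scale -/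
def C0 : Nat := 518670000000000000000000000000001

noncomputable def smallB (W : TN) : Bool := geN 0 (nrm (addcN C0 (negN W)))

theorem smallB_sound {t : Pt} {w : ℝ} {W : TN}
    (hW : HasN t (1000000000039 * 1000000000039) W w) (h : smallB W = true) :
    w * 1000000000078000000001521 ≤ C0 := by
  have h2 := (HasN.addc (y := C0 / 1000000000078000000001521) C0 (by norm_num) hW.neg).nrm.ge h
  have h4 : ((C0 : ℝ) / 1000000000078000000001521 + -w) * (1000000000039 * 1000000000039)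
      = C0 - w * 1000000000078000000001521 := by
    field_simp; ring
  push_cast at h2
  linarith

noncomputable def fin3 (W0 W : TN) : Bool :=
  Bool.rec (smallB W) true (geN 1 (nrm (subN W0 W)))

noncomputable def fin2 (W0 X Y Z : TN) : Bool :=
  fin3 W0 (addN (addN (mulN X X) (mulN Y Y)) (mulN Z Z))

noncomputable def fin1 (W0 a b c s : TN) : Bool :=
  fin2 W0 (nrm (subN (scalN 1378210 b) (scalN 616542 s)))
    (nrm (subN (addN (scalN 200028 b) (scalN 1247580 c)) (scalN 600021 a)))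
    (nrm (addN (scalN 996402 s) (scalN 615568 b)))

noncomputable def finK (W0 : TN) (a b c : TN) : Bool := fin1 W0 a b c (addN a c)

theorem finK_sound {t : Pt} {w0 x y z : ℝ} {W0 a b c : TN}
    (h0 : HasN t (1000000000039 * 1000000000039) W0 w0) (ha : HasN t 1000000000039 a x)
    (hb : HasN t 1000000000039 b y) (hc : HasN t 1000000000039 c z) (h : finK W0 a b c = true) :
    Wf x y z * 1000000000078000000001521 + 1 ≤ w0 * 1000000000078000000001521 ∨
      Wf x y z * 1000000000078000000001521 ≤ C0 := by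
  simp only [finK, fin1, fin2] at h
  have hs := ha.add hc
  have hX := ((hb.scal 1378210).sub (hs.scal 616542)).nrm
  have hY := (((hb.scal 200028).add (hc.scal 1247580)).sub (ha.scal 600021)).nrm
  have hZ := ((hs.scal 996402).add (hb.scal 615568)).nrm
  have hW0 := ((hX.mul hX).add (hY.mul hY)).add (hZ.mul hZ)
  generalize addN (addN (mulN _ _) (mulN _ _)) (mulN _ _) = W at h hW0
  have hW : HasN t (1000000000039 * 1000000000039) W (Wf x y z) := by
    convert hW0 using 1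
    simp only [Wf]; push_cast; ring
  rcases or_rec h with h1 | h1
  · left
    have h2 := (h0.sub hW).nrm.ge h1
    push_cast at h2
    linarith
  · exact Or.inr (smallB_sound hW h1)

def rowA (p1 n1 p2 n2 p3 n3 h1 h2 h3 : Nat) : TN :=
  ⟨Nat.add (Nat.add (Nat.mul 316 n1) (Nat.mul 974 n2)) (Nat.mul 1024 p3),
   Nat.add (Nat.add (Nat.mul 316 p1) (Nat.mul 974 p2)) (Nat.mul 1024 n3),
   0, Nat.mul 316 h1, 0, Nat.mul 974 h2, Nat.mul 1024 h3, 0,
   0, 0, 0, 0, 0, 0, 0, 0, 0, 0, 0, 0, 0, 0, 0, 0, 0, 0, 0, 0, 0, 0, 0⟩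

def rowB (p1 n1 p3 n3 h1 h3 : Nat) : TN :=
  ⟨Nat.add (Nat.mul 1023 p1) (Nat.mul 633 p3), Nat.add (Nat.mul 1023 n1) (Nat.mul 633 n3),
   Nat.mul 1023 h1, 0, 0, 0, Nat.mul 633 h3, 0,
   0, 0, 0, 0, 0, 0, 0, 0, 0, 0, 0, 0, 0, 0, 0, 0, 0, 0, 0, 0, 0, 0, 0⟩

def rowC (p1 n1 p2 n2 p3 n3 h1 h2 h3 : Nat) : TN :=
  ⟨Nat.add (Nat.add (Nat.mul 316 n1) (Nat.mul 974 p2)) (Nat.mul 391 p3),
   Nat.add (Nat.add (Nat.mul 316 p1) (Nat.mul 974 n2)) (Nat.mul 391 n3),
   0, Nat.mul 316 h1, Nat.mul 974 h2, 0, Nat.mul 391 h3, 0,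
   0, 0, 0, 0, 0, 0, 0, 0, 0, 0, 0, 0, 0, 0, 0, 0, 0, 0, 0, 0, 0, 0, 0⟩

def w0N (p1 n1 p2 n2 p3 n3 h1 h2 h3 : Nat) : TN :=
  ⟨Nat.mul 3238428337042263876 (Nat.add (Nat.add (Nat.add (Nat.mul p1 p1) (Nat.mul n1 n1))
     (Nat.add (Nat.mul p2 p2) (Nat.mul n2 n2))) (Nat.add (Nat.mul p3 p3) (Nat.mul n3 n3))),
   Nat.mul 6476856674084527752 (Nat.add (Nat.add (Nat.mul p1 n1) (Nat.mul p2 n2)) (Nat.mul p3 n3)),
   Nat.mul 6476856674084527752 (Nat.mul p1 h1), Nat.mul 6476856674084527752 (Nat.mul n1 h1),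
   Nat.mul 6476856674084527752 (Nat.mul p2 h2), Nat.mul 6476856674084527752 (Nat.mul n2 h2),
   Nat.mul 6476856674084527752 (Nat.mul p3 h3), Nat.mul 6476856674084527752 (Nat.mul n3 h3),
   0, 0, Nat.mul 3238428337042263876 (Nat.mul h1 h1), 0, 0, 0, 0, 0, 0, 0,
   Nat.mul 3238428337042263876 (Nat.mul h2 h2), 0, 0, 0, 0, 0,
   Nat.mul 3238428337042263876 (Nat.mul h3 h3), 0, 0, 0, 0, 0, 0⟩

/-- the range of `A` misses the interval of admissible values -/
noncomputable def outB (A : TN) : Bool :=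
  Bool.rec (geN 447300000019 (negN A)) true (geN 904761904799 A)

noncomputable def leaf2 (k pc ph : Nat) (a b c W0 : TN) : Bool :=
  Nat.rec
    (Bool.rec (Bool.rec (Bool.rec (smallB W0) true (outB c)) true (outB b)) true (outB a))
    (fun _ _ => iterK pc ph (finK W0) k a b c) k

noncomputable def leaf1 (k pc ph p1 n1 p2 n2 p3 n3 h1 h2 h3 : Nat) : Bool :=
  leaf2 k pc ph (nrm (rowA p1 n1 p2 n2 p3 n3 h1 h2 h3)) (nrm (rowB p1 n1 p3 n3 h1 h3))
    (nrm (rowC p1 n1 p2 n2 p3 n3 h1 h2 h3)) (w0N p1 n1 p2 n2 p3 n3 h1 h2 h3)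

noncomputable def leafK (k c1 c2 c3 c4 h1 h2 h3 h4 : Nat) : Bool :=
  leaf1 k (Nat.add c4 h4) h4
    (Nat.sub (Nat.add c1 h1) 1953125001) (Nat.sub 1953125001 (Nat.add c1 h1))
    (Nat.sub (Nat.add c2 h2) 1953125001) (Nat.sub 1953125001 (Nat.add c2 h2))
    (Nat.sub (Nat.add c3 h3) 1953125001) (Nat.sub 1953125001 (Nat.add c3 h3)) h1 h2 h3

def Adm (v : ℝ) : Prop := -447300000018 ≤ v * 1000000000039 ∧ v * 1000000000039 ≤ 904761904798

/-- `x` lies in the interval with lower end `c` and half width `h` -/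
def InI (x : ℝ) (c h : Nat) : Prop := (c : ℝ) ≤ x ∧ x ≤ c + 2 * h

def Good (c1 c2 c3 c4 h1 h2 h3 h4 : Nat) : Prop :=
  ∀ (p x y z : ℝ) (u : ℕ → ℝ), IsOrb p u → InI (x + 1953125001) c1 h1 →
    InI (y + 1953125001) c2 h2 → InI (z + 1953125001) c3 h3 → InI (p * 1000000000039) c4 h4 →
    u 0 * 1000000000039 = -316 * x + -974 * y + 1024 * z →
    u 1 * 1000000000039 = 1023 * x + 633 * z →
    u 2 * 1000000000039 = -316 * x + 974 * y + 391 * z →
    Adm (u 0) → Adm (u 1) → Adm (u 2) →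
    ∃ k, Wf (u k) (u (k + 1)) (u (k + 2)) * 1000000000078000000001521 + 1
        ≤ Wf (u 0) (u 1) (u 2) * 1000000000078000000001521 ∨
      Wf (u k) (u (k + 1)) (u (k + 2)) * 1000000000078000000001521 ≤ C0

theorem exists_t {x : ℝ} {c h : ℕ} (hx : InI x c h) :
    ∃ s : ℝ, |s| ≤ 1 ∧ x = c + h + h * s := by
  obtain ⟨h1, h2⟩ := hx
  rcases Nat.eq_zero_or_pos h with rfl | hp
  · refine ⟨0, by simp, ?_⟩
    simp at h2 ⊢; linarith
  · have hp' : (0 : ℝ) < h := by exact_mod_cast hp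
    refine ⟨(x - c - h) / h, ?_, by field_simp; ring⟩
    rw [abs_div, abs_of_pos hp', div_le_one hp', abs_le]; constructor <;> linarith

theorem outB_sound {t : Pt} {A : TN} {v : ℝ} (hA : HasN t 1000000000039 A v) (hv : Adm v)
    (h : outB A = true) : False := by
  rcases or_rec h with h1 | h1
  · have := hA.ge h1
    push_cast at this
    linarith [hv.2]
  · have := hA.neg.ge h1
    push_cast at this
    linarith [hv.1]

theorem pn_cast (c : Nat) :
    ((Nat.sub c 1953125001 : Nat) : ℝ) - (Nat.sub 1953125001 c : Nat) = c - 1953125001 := by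
  have : ((Nat.sub c 1953125001 : Nat) : Int) - (Nat.sub 1953125001 c : Nat) = c - 1953125001 := by
    simp only [nsub]; omega
  exact_mod_cast this

theorem leaf1_sound (k pc ph p1 n1 p2 n2 p3 n3 h1 h2 h3 : Nat)
    (h : leaf1 k pc ph p1 n1 p2 n2 p3 n3 h1 h2 h3 = true) (t : Pt) (p : ℝ) (u : ℕ → ℝ)
    (hu : IsOrb p u) (hp : p * 1000000000039 = pc + ph * t.t4)
    (e0 : u 0 * 1000000000039 = -316 * ((p1 : ℝ) - n1 + h1 * t.t1) + -974 * (p2 - n2 + h2 * t.t2)
      + 1024 * (p3 - n3 + h3 * t.t3))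
    (e1 : u 1 * 1000000000039 = 1023 * ((p1 : ℝ) - n1 + h1 * t.t1) + 633 * (p3 - n3 + h3 * t.t3))
    (e2 : u 2 * 1000000000039 = -316 * ((p1 : ℝ) - n1 + h1 * t.t1) + 974 * (p2 - n2 + h2 * t.t2)
      + 391 * (p3 - n3 + h3 * t.t3))
    (a0 : Adm (u 0)) (a1 : Adm (u 1)) (a2 : Adm (u 2)) :
    ∃ k, Wf (u k) (u (k + 1)) (u (k + 2)) * 1000000000078000000001521 + 1
        ≤ Wf (u 0) (u 1) (u 2) * 1000000000078000000001521 ∨
      Wf (u k) (u (k + 1)) (u (k + 2)) * 1000000000078000000001521 ≤ C0 := by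
  have ha : HasN t 1000000000039 (rowA p1 n1 p2 n2 p3 n3 h1 h2 h3) (u 0) := by
    simp only [HasN, Has, toTM, rowA, TM.ev, TM.L, TM.Q, nmul, nadd, e0]
    push_cast; apply le_of_eq; rw [abs_eq_zero]; ring
  have hb : HasN t 1000000000039 (rowB p1 n1 p3 n3 h1 h3) (u 1) := by
    simp only [HasN, Has, toTM, rowB, TM.ev, TM.L, TM.Q, nmul, nadd, e1]
    push_cast; apply le_of_eq; rw [abs_eq_zero]; ring
  have hc : HasN t 1000000000039 (rowC p1 n1 p2 n2 p3 n3 h1 h2 h3) (u 2) := by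
    simp only [HasN, Has, toTM, rowC, TM.ev, TM.L, TM.Q, nmul, nadd, e2]
    push_cast; apply le_of_eq; rw [abs_eq_zero]; ring
  have hW : HasN t (1000000000039 * 1000000000039) (w0N p1 n1 p2 n2 p3 n3 h1 h2 h3)
      (Wf (u 0) (u 1) (u 2)) := by
    have : Wf (u 0) (u 1) (u 2) * (1000000000039 * 1000000000039) =
        Wf (u 0 * 1000000000039) (u 1 * 1000000000039) (u 2 * 1000000000039) := by
      simp only [Wf]; ring
    unfold HasN Has
    rw [this, e0, e1, e2]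
    simp only [toTM, w0N, TM.ev, TM.L, TM.Q, nadd, nmul, Wf]
    push_cast; apply le_of_eq; rw [abs_eq_zero]; ring
  have ha := ha.nrm
  have hb := hb.nrm
  have hc := hc.nrm
  unfold leaf1 leaf2 at h
  cases k with
  | zero =>
    refine ⟨0, Or.inr ?_⟩
    rcases or_rec h with h | h
    · exact (outB_sound ha a0 h).elim
    rcases or_rec h with h | h
    · exact (outB_sound hb a1 h).elim
    rcases or_rec h with h | h
    · exact (outB_sound hc a2 h).elim
    exact smallB_sound hW h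
  | succ k =>
    obtain ⟨a', b', c', ha', hb', hc', hf⟩ :=
      iterK_sound (fin := finK (w0N p1 n1 p2 n2 p3 n3 h1 h2 h3)) hp hu (k + 1) 0 _ _ _ ha hb hc h
    rw [zero_add] at ha' hb' hc'
    exact ⟨k + 1, finK_sound hW ha' hb' hc' hf⟩

theorem leafK_sound (k c1 c2 c3 c4 h1 h2 h3 h4 : Nat)
    (h : leafK k c1 c2 c3 c4 h1 h2 h3 h4 = true) : Good c1 c2 c3 c4 h1 h2 h3 h4 := by
  intro p x y z u hu hx hy hz hp e0 e1 e2 a0 a1 a2
  obtain ⟨s1, b1, f1⟩ := exists_t hx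
  obtain ⟨s2, b2, f2⟩ := exists_t hy
  obtain ⟨s3, b3, f3⟩ := exists_t hz
  obtain ⟨s4, b4, f4⟩ := exists_t hp
  refine leaf1_sound _ _ _ _ _ _ _ _ _ _ _ _ h ⟨s1, s2, s3, s4, b1, b2, b3, b4⟩ p u hu
    ?_ ?_ ?_ ?_ a0 a1 a2
  · simp only [nadd]; push_cast; exact f4
  · simp only [pn_cast]; simp only [nadd]; push_cast; linarith
  · simp only [pn_cast]; simp only [nadd]; push_cast; linarith
  · simp only [pn_cast]; simp only [nadd]; push_cast; linarith

inductive Tree where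
  | l (k : Nat) : Tree
  | a (s t : Tree) : Tree
  | b (s t : Tree) : Tree
  | c (s t : Tree) : Tree
  | d (s t : Tree) : Tree

def hf (h : Nat) : Nat := Nat.shiftRight (Nat.succ h) 1

theorem half_cases {x : ℝ} {c h : Nat} (hx : InI x c h) :
    InI x c (hf h) ∨ InI x (Nat.add c h) (hf h) := by
  have h1 : h ≤ 2 * hf h := by
    show h ≤ 2 * ((h + 1) >>> 1)
    rw [Nat.shiftRight_eq_div_pow]; omega
  have h2 : (h : ℝ) ≤ 2 * (hf h : ℝ) := by exact_mod_cast h1
  obtain ⟨h3, h4⟩ := hx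
  simp only [InI, nadd]
  push_cast
  rcases le_total x (c + h) with h5 | h5
  · left; constructor <;> linarith
  · right; constructor <;> linarith

theorem good_a {c1 c2 c3 c4 h1 h2 h3 h4 : Nat} (hL : Good c1 c2 c3 c4 (hf h1) h2 h3 h4)
    (hR : Good (Nat.add c1 h1) c2 c3 c4 (hf h1) h2 h3 h4) : Good c1 c2 c3 c4 h1 h2 h3 h4 := by
  intro p x y z u hu hx hy hz hp
  rcases half_cases hx with h | h
  · exact hL p x y z u hu h hy hz hp
  · exact hR p x y z u hu h hy hz hp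

theorem good_b {c1 c2 c3 c4 h1 h2 h3 h4 : Nat} (hL : Good c1 c2 c3 c4 h1 (hf h2) h3 h4)
    (hR : Good c1 (Nat.add c2 h2) c3 c4 h1 (hf h2) h3 h4) : Good c1 c2 c3 c4 h1 h2 h3 h4 := by
  intro p x y z u hu hx hy hz hp
  rcases half_cases hy with h | h
  · exact hL p x y z u hu hx h hz hp
  · exact hR p x y z u hu hx h hz hp

theorem good_c {c1 c2 c3 c4 h1 h2 h3 h4 : Nat} (hL : Good c1 c2 c3 c4 h1 h2 (hf h3) h4)
    (hR : Good c1 c2 (Nat.add c3 h3) c4 h1 h2 (hf h3) h4) : Good c1 c2 c3 c4 h1 h2 h3 h4 := by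
  intro p x y z u hu hx hy hz hp
  rcases half_cases hz with h | h
  · exact hL p x y z u hu hx hy h hp
  · exact hR p x y z u hu hx hy h hp

theorem good_d {c1 c2 c3 c4 h1 h2 h3 h4 : Nat} (hL : Good c1 c2 c3 c4 h1 h2 h3 (hf h4))
    (hR : Good c1 c2 c3 (Nat.add c4 h4) h1 h2 h3 (hf h4)) : Good c1 c2 c3 c4 h1 h2 h3 h4 := by
  intro p x y z u hu hx hy hz hp
  rcases half_cases hp with h | h
  · exact hL p x y z u hu hx hy hz h
  · exact hR p x y z u hu hx hy hz h

noncomputable def chk (T : Tree) : Nat → Nat → Nat → Nat → Nat → Nat → Nat → Nat → Bool :=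
  Tree.rec (motive := fun _ => Nat → Nat → Nat → Nat → Nat → Nat → Nat → Nat → Bool)
    (fun k => leafK k)
    (fun _ _ s t c1 c2 c3 c4 h1 h2 h3 h4 => forceN (hf h1) fun h => forceN (Nat.add c1 h1) fun c =>
      Bool.rec false (t c c2 c3 c4 h h2 h3 h4) (s c1 c2 c3 c4 h h2 h3 h4))
    (fun _ _ s t c1 c2 c3 c4 h1 h2 h3 h4 => forceN (hf h2) fun h => forceN (Nat.add c2 h2) fun c =>
      Bool.rec false (t c1 c c3 c4 h1 h h3 h4) (s c1 c2 c3 c4 h1 h h3 h4))
    (fun _ _ s t c1 c2 c3 c4 h1 h2 h3 h4 => forceN (hf h3) fun h => forceN (Nat.add c3 h3) fun c =>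
      Bool.rec false (t c1 c2 c c4 h1 h2 h h4) (s c1 c2 c3 c4 h1 h2 h h4))
    (fun _ _ s t c1 c2 c3 c4 h1 h2 h3 h4 => forceN (hf h4) fun h => forceN (Nat.add c4 h4) fun c =>
      Bool.rec false (t c1 c2 c3 c h1 h2 h3 h) (s c1 c2 c3 c4 h1 h2 h3 h)) T

theorem chk_sound (T : Tree) : ∀ c1 c2 c3 c4 h1 h2 h3 h4,
    chk T c1 c2 c3 c4 h1 h2 h3 h4 = true → Good c1 c2 c3 c4 h1 h2 h3 h4 := by
  induction T with
  | l k => intro c1 c2 c3 c4 h1 h2 h3 h4 h; exact leafK_sound k _ _ _ _ _ _ _ _ h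
  | a s t ihs iht =>
    intro c1 c2 c3 c4 h1 h2 h3 h4 h
    change forceN (hf h1) (fun h' => forceN (Nat.add c1 h1) fun c => Bool.rec false
      (chk t c c2 c3 c4 h' h2 h3 h4) (chk s c1 c2 c3 c4 h' h2 h3 h4)) = true at h
    rw [forceN_eq, forceN_eq] at h
    obtain ⟨e1, e2⟩ := and_rec h
    exact good_a (ihs _ _ _ _ _ _ _ _ e1) (iht _ _ _ _ _ _ _ _ e2)
  | b s t ihs iht =>
    intro c1 c2 c3 c4 h1 h2 h3 h4 h
    change forceN (hf h2) (fun h' => forceN (Nat.add c2 h2) fun c => Bool.rec false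
      (chk t c1 c c3 c4 h1 h' h3 h4) (chk s c1 c2 c3 c4 h1 h' h3 h4)) = true at h
    rw [forceN_eq, forceN_eq] at h
    obtain ⟨e1, e2⟩ := and_rec h
    exact good_b (ihs _ _ _ _ _ _ _ _ e1) (iht _ _ _ _ _ _ _ _ e2)
  | c s t ihs iht =>
    intro c1 c2 c3 c4 h1 h2 h3 h4 h
    change forceN (hf h3) (fun h' => forceN (Nat.add c3 h3) fun c => Bool.rec false
      (chk t c1 c2 c c4 h1 h2 h' h4) (chk s c1 c2 c3 c4 h1 h2 h' h4)) = true at h
    rw [forceN_eq, forceN_eq] at h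
    obtain ⟨e1, e2⟩ := and_rec h
    exact good_c (ihs _ _ _ _ _ _ _ _ e1) (iht _ _ _ _ _ _ _ _ e2)
  | d s t ihs iht =>
    intro c1 c2 c3 c4 h1 h2 h3 h4 h
    change forceN (hf h4) (fun h' => forceN (Nat.add c4 h4) fun c => Bool.rec false
      (chk t c1 c2 c3 c h1 h2 h3 h') (chk s c1 c2 c3 c4 h1 h2 h3 h')) = true at h
    rw [forceN_eq, forceN_eq] at h
    obtain ⟨e1, e2⟩ := and_rec h
    exact good_d (ihs _ _ _ _ _ _ _ _ e1) (iht _ _ _ _ _ _ _ _ e2)

end Pool.Agent.Lib.MP_d3fc00_an
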