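import Pool.Agent.Lib.MP_d3fc00_an.Check

set_option maxRecDepth 100000

namespace Pool.Agent.Lib.MP_d3fc00_an

def t0 : Tree :=
  (.l 0)

theorem g0 : Good 0 0 0 493034000019 488281251 976562501 976562501 62500000003 :=
  chk_sound t0 _ _ _ _ _ _ _ _ (by decide +kernel)

def t1 : Tree :=
  (.l 0)

theorem g1 : Good 976562501 0 0 493034000019 488281251 488281251 976562501 62500000003 :=
  chk_sound t1 _ _ _ _ _ _ _ _ (by decide +kernel)

def t2 : Tree :=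
  (.l 0)

theorem g2 : Good 976562501 976562501 0 493034000019 488281251 488281251 488281251 62500000003 :=
  chk_sound t2 _ _ _ _ _ _ _ _ (by decide +kernel)

def t3 : Tree :=
  (.l 0)

theorem g3 : Good 976562501 976562501 976562501 493034000019 244140626 488281251 488281251 62500000003 :=
  chk_sound t3 _ _ _ _ _ _ _ _ (by decide +kernel)

def t4 : Tree :=
  (.c (.l 0) (.b (.l 0) (.a (.c (.a (.l 0) (.l 0)) (.b (.a (.l 3) (.l 0)) (.c (.l 3) (.a (.l 3)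
  (.l 3))))) (.b (.l 0) (.c (.l 0) (.b (.l 0) (.a (.l 3) (.c (.l 0) (.l 3)))))))))

theorem g4 : Good 1464843752 976562501 976562501 493034000019 244140626 244140626 488281251 62500000003 :=
  chk_sound t4 _ _ _ _ _ _ _ _ (by decide +kernel)

def t5 : Tree :=
  (.a (.l 0) (.c (.l 0) (.a (.b (.l 1) (.l 1)) (.l 1))))

theorem g5 : Good 1464843752 1464843752 976562501 493034000019 244140626 244140626 244140626 62500000003 :=
  chk_sound t5 _ _ _ _ _ _ _ _ (by decide +kernel)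

def t6 : Tree :=
  (.c (.l 0) (.c (.l 0) (.b (.d (.b (.l 3) (.l 6)) (.b (.a (.l 6) (.l 3)) (.d (.a (.l 6) (.l 6))
  (.b (.l 6) (.a (.l 6) (.l 6)))))) (.d (.b (.a (.l 3) (.l 3)) (.a (.l 3) (.l 3))) (.b (.d (.a (.l
  6) (.l 6)) (.a (.b (.l 9) (.c (.l 0) (.l 9))) (.b (.c (.l 6) (.l 9)) (.c (.l 9) (.l 9))))) (.d
  (.a (.l 6) (.l 6)) (.a (.b (.l 9) (.l 9)) (.d (.l 9) (.b (.l 9) (.l 9))))))))))

theorem g6 : Good 1464843752 1464843752 1464843752 493034000019 61035157 244140626 244140626 62500000003 :=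
  chk_sound t6 _ _ _ _ _ _ _ _ (by decide +kernel)

def t7 : Tree :=
  (.a (.l 0) (.c (.l 0) (.b (.l 3) (.l 3))))

theorem g7 : Good 1586914065 1464843752 1464843752 493034000019 61035157 244140626 122070313 62500000003 :=
  chk_sound t7 _ _ _ _ _ _ _ _ (by decide +kernel)

def t8 : Tree :=
  (.b (.c (.l 3) (.b (.l 3) (.a (.l 3) (.l 3)))) (.d (.c (.l 3) (.l 3)) (.c (.a (.l 6) (.l 3)) (.d
  (.a (.l 6) (.l 6)) (.b (.l 6) (.a (.l 6) (.l 6)))))))

theorem g8 : Good 1586914065 1464843752 1708984378 493034000019 61035157 122070313 122070313 62500000003 :=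
  chk_sound t8 _ _ _ _ _ _ _ _ (by decide +kernel)

def t9 : Tree :=
  (.d (.b (.c (.l 3) (.a (.l 6) (.l 6))) (.a (.l 6) (.c (.l 2) (.l 6)))) (.b (.c (.d (.l 3) (.a
  (.b (.l 6) (.l 6)) (.l 6))) (.d (.a (.l 6) (.b (.l 6) (.l 6))) (.b (.d (.a (.l 6) (.l 6)) (.a
  (.l 9) (.c (.l 6) (.l 6)))) (.d (.a (.l 6) (.l 6)) (.a (.c (.l 6) (.l 9)) (.a (.l 9) (.l
  9))))))) (.c (.d (.l 3) (.a (.b (.l 6) (.l 3)) (.l 3))) (.d (.a (.l 6) (.b (.l 6) (.l 6))) (.b
  (.a (.a (.l 9) (.l 9)) (.d (.l 9) (.a (.l 9) (.l 10)))) (.a (.a (.l 9) (.l 9)) (.d (.l 9) (.a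
  (.l 9) (.l 9)))))))))

theorem g9 : Good 1586914065 1708984378 1708984378 493034000019 61035157 122070313 122070313 62500000003 :=
  chk_sound t9 _ _ _ _ _ _ _ _ (by decide +kernel)

def t10 : Tree :=
  (.c (.b (.l 3) (.l 3)) (.b (.b (.l 3) (.c (.l 3) (.l 3))) (.d (.c (.l 3) (.l 3)) (.c (.l 3) (.b
  (.l 3) (.d (.l 3) (.a (.l 6) (.l 3))))))))

theorem g10 : Good 1708984378 1464843752 1464843752 493034000019 61035157 122070313 244140626 62500000003 :=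
  chk_sound t10 _ _ _ _ _ _ _ _ (by decide +kernel)

def t11 : Tree :=
  (.b (.l 3) (.l 1))

theorem g11 : Good 1708984378 1708984378 1464843752 493034000019 61035157 122070313 122070313 62500000003 :=
  chk_sound t11 _ _ _ _ _ _ _ _ (by decide +kernel)

def t12 : Tree :=
  (.b (.c (.l 3) (.a (.l 6) (.b (.l 3) (.l 3)))) (.c (.l 1) (.a (.l 9) (.b (.l 6) (.l 6)))))

theorem g12 : Good 1708984378 1708984378 1708984378 493034000019 61035157 122070313 122070313 31250000002 :=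
  chk_sound t12 _ _ _ _ _ _ _ _ (by decide +kernel)

def t13 : Tree :=
  (.c (.b (.l 3) (.l 3)) (.d (.b (.a (.l 3) (.l 3)) (.a (.l 6) (.l 6))) (.b (.a (.a (.l 6) (.l 6))
  (.a (.l 6) (.l 6))) (.a (.d (.l 6) (.c (.l 6) (.a (.l 9) (.b (.l 6) (.l 9))))) (.d (.l 6) (.b
  (.l 6) (.b (.l 6) (.a (.l 6) (.l 6)))))))))

theorem g13 : Good 1708984378 1708984378 1708984378 555534000022 61035157 61035157 122070313 31250000002 :=
  chk_sound t13 _ _ _ _ _ _ _ _ (by decide +kernel)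

def t14 : Tree :=
  (.c (.a (.l 3) (.l 1)) (.d (.a (.b (.l 6) (.l 6)) (.c (.l 3) (.b (.l 9) (.l 9)))) (.c (.a (.d
  (.l 6) (.b (.l 9) (.l 9))) (.b (.a (.l 3) (.l 3)) (.l 3))) (.b (.d (.a (.l 9) (.a (.l 6) (.l
  6))) (.a (.a (.l 10) (.b (.l 9) (.l 9))) (.d (.a (.l 9) (.l 9)) (.a (.b (.l 9) (.l 10)) (.c (.l
  9) (.d (.l 9) (.b (.l 9) (.l 10)))))))) (.d (.a (.l 9) (.a (.l 6) (.l 9))) (.a (.a (.l 9) (.b
  (.l 9) (.l 9))) (.d (.a (.l 9) (.l 9)) (.a (.a (.l 9) (.l 9)) (.d (.l 9) (.a (.l 9) (.b (.l 9)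
  (.l 9))))))))))))

theorem g14 : Good 1708984378 1831054691 1708984378 555534000022 61035157 61035157 122070313 31250000002 :=
  chk_sound t14 _ _ _ _ _ _ _ _ (by decide +kernel)

def t15 : Tree :=
  (.c (.b (.l 3) (.l 1)) (.b (.d (.l 3) (.b (.l 3) (.c (.l 3) (.l 3)))) (.d (.b (.l 3) (.l 3)) (.c
  (.l 3) (.b (.a (.l 3) (.l 3)) (.a (.l 3) (.c (.l 3) (.l 3))))))))

theorem g15 : Good 1831054691 1464843752 1464843752 493034000019 61035157 122070313 244140626 62500000003 :=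
  chk_sound t15 _ _ _ _ _ _ _ _ (by decide +kernel)

def t16 : Tree :=
  (.l 1)

theorem g16 : Good 1831054691 1708984378 1464843752 493034000019 61035157 122070313 122070313 62500000003 :=
  chk_sound t16 _ _ _ _ _ _ _ _ (by decide +kernel)

def t17 : Tree :=
  (.b (.b (.l 3) (.l 1)) (.l 1))

theorem g17 : Good 1831054691 1708984378 1708984378 493034000019 61035157 122070313 61035157 62500000003 :=
  chk_sound t17 _ _ _ _ _ _ _ _ (by decide +kernel)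

def t18 : Tree :=
  (.a (.b (.b (.l 3) (.l 3)) (.c (.b (.l 1) (.l 1)) (.d (.b (.l 3) (.l 5)) (.b (.l 6) (.l 10)))))
  (.b (.b (.l 3) (.l 7)) (.c (.l 1) (.a (.b (.b (.l 3) (.l 3)) (.d (.l 9) (.b (.l 4) (.l 9)))) (.b
  (.b (.l 3) (.l 3)) (.c (.l 1) (.b (.b (.l 3) (.l 8)) (.c (.a (.l 2) (.l 1)) (.d (.a (.l 7) (.b
  (.l 3) (.l 9))) (.a (.b (.l 3) (.l 5)) (.b (.l 5) (.a (.b (.l 3) (.l 5)) (.l 8)))))))))))))

theorem g18 : Good 1831054691 1708984378 1831054691 493034000019 61035157 122070313 61035157 31250000002 :=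
  chk_sound t18 _ _ _ _ _ _ _ _ (by decide +kernel)

def t19 : Tree :=
  (.b (.b (.l 3) (.a (.l 6) (.l 3))) (.c (.l 3) (.d (.l 3) (.d (.a (.l 6) (.l 3)) (.b (.l 6) (.a
  (.l 6) (.l 6)))))))

theorem g19 : Good 1831054691 1708984378 1831054691 555534000022 30517579 61035157 61035157 31250000002 :=
  chk_sound t19 _ _ _ _ _ _ _ _ (by decide +kernel)

def t20 : Tree :=
  (.b (.a (.l 3) (.l 1)) (.l 1))

theorem g20 : Good 1831054691 1831054691 1831054691 555534000022 30517579 61035157 30517579 31250000002 :=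
  chk_sound t20 _ _ _ _ _ _ _ _ (by decide +kernel)

def t21 : Tree :=
  (.b (.a (.l 6) (.b (.l 3) (.l 6))) (.a (.l 6) (.b (.l 6) (.l 6))))

theorem g21 : Good 1831054691 1831054691 1892089848 555534000022 30517579 61035157 30517579 15625000001 :=
  chk_sound t21 _ _ _ _ _ _ _ _ (by decide +kernel)

def t22 : Tree :=
  (.b (.b (.l 6) (.a (.l 6) (.l 6))) (.a (.l 9) (.b (.l 10) (.l 9))))

theorem g22 : Good 1831054691 1831054691 1892089848 586784000024 30517579 61035157 30517579 7812500001 :=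
  chk_sound t22 _ _ _ _ _ _ _ _ (by decide +kernel)

def t23 : Tree :=
  (.b (.d (.l 6) (.b (.l 6) (.a (.l 6) (.l 6)))) (.c (.a (.l 6) (.l 3)) (.d (.a (.l 6) (.l 6)) (.a
  (.d (.l 9) (.a (.l 9) (.b (.l 6) (.l 9)))) (.b (.l 6) (.b (.l 6) (.a (.a (.l 9) (.l 6)) (.l
  6))))))))

theorem g23 : Good 1831054691 1831054691 1892089848 602409000025 30517579 30517579 30517579 7812500001 :=
  chk_sound t23 _ _ _ _ _ _ _ _ (by decide +kernel)

def t24 : Tree :=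
  (.c (.b (.a (.l 3) (.l 3)) (.l 3)) (.d (.a (.l 9) (.b (.a (.l 6) (.l 9)) (.l 9))) (.a (.d (.b
  (.l 9) (.l 9)) (.a (.b (.l 10) (.l 9)) (.d (.l 9) (.b (.b (.l 9) (.l 9)) (.l 9))))) (.d (.c (.l
  10) (.a (.l 9) (.b (.l 9) (.l 9)))) (.c (.b (.l 9) (.l 9)) (.b (.d (.a (.l 9) (.l 9)) (.a (.b
  (.l 9) (.l 9)) (.d (.l 10) (.b (.l 10) (.a (.l 9) (.l 9)))))) (.d (.a (.l 9) (.l 9)) (.a (.b (.l
  9) (.l 9)) (.a (.l 9) (.d (.l 9) (.b (.l 9) (.l 9))))))))))))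

theorem g24 : Good 1831054691 1892089848 1892089848 602409000025 30517579 30517579 30517579 7812500001 :=
  chk_sound t24 _ _ _ _ _ _ _ _ (by decide +kernel)

def t25 : Tree :=
  (.b (.b (.l 3) (.a (.l 3) (.l 3))) (.c (.l 3) (.d (.l 10) (.b (.a (.l 3) (.l 3)) (.b (.l 3) (.a
  (.l 3) (.l 3)))))))

theorem g25 : Good 1892089848 1708984378 1831054691 555534000022 30517579 61035157 61035157 31250000002 :=
  chk_sound t25 _ _ _ _ _ _ _ _ (by decide +kernel)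

def t26 : Tree :=
  (.l 1)

theorem g26 : Good 1892089848 1831054691 1831054691 555534000022 30517579 61035157 30517579 31250000002 :=
  chk_sound t26 _ _ _ _ _ _ _ _ (by decide +kernel)

def t27 : Tree :=
  (.c (.b (.a (.l 1) (.l 1)) (.l 1)) (.a (.b (.b (.l 3) (.l 3)) (.d (.b (.l 3) (.l 6)) (.b (.l 6)
  (.a (.l 3) (.l 4))))) (.d (.b (.l 3) (.b (.l 5) (.a (.l 10) (.b (.l 5) (.a (.l 10) (.b (.l 5)
  (.l 3))))))) (.b (.l 10) (.c (.l 2) (.b (.l 10) (.a (.b (.l 3) (.l 10)) (.b (.l 10) (.c (.l 1)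
  (.c (.a (.l 2) (.l 2)) (.a (.b (.l 3) (.l 7)) (.b (.l 10) (.l 0)))))))))))))

theorem g27 : Good 1892089848 1831054691 1892089848 555534000022 30517579 61035157 30517579 15625000001 :=
  chk_sound t27 _ _ _ _ _ _ _ _ (by decide +kernel)

def t28 : Tree :=
  (.c (.b (.l 3) (.l 3)) (.d (.b (.l 3) (.a (.l 3) (.l 10))) (.b (.b (.l 3) (.b (.l 3) (.a (.l 3)
  (.l 3)))) (.d (.b (.l 3) (.a (.l 3) (.l 3))) (.c (.a (.l 6) (.l 3)) (.a (.b (.l 6) (.a (.l 6)
  (.l 6))) (.b (.l 3) (.l 3))))))))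

theorem g28 : Good 1892089848 1831054691 1892089848 586784000024 30517579 30517579 30517579 15625000001 :=
  chk_sound t28 _ _ _ _ _ _ _ _ (by decide +kernel)

def t29 : Tree :=
  (.l 1)

theorem g29 : Good 1892089848 1892089848 1892089848 586784000024 30517579 30517579 15258790 15625000001 :=
  chk_sound t29 _ _ _ _ _ _ _ _ (by decide +kernel)

def t30 : Tree :=
  (.b (.d (.l 6) (.l 10)) (.a (.l 6) (.b (.l 9) (.l 9))))

theorem g30 : Good 1892089848 1892089848 1922607427 586784000024 15258790 30517579 15258790 7812500001 :=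
  chk_sound t30 _ _ _ _ _ _ _ _ (by decide +kernel)

def t31 : Tree :=
  (.b (.b (.a (.l 3) (.l 3)) (.l 3)) (.l 3))

theorem g31 : Good 1892089848 1892089848 1922607427 602409000025 15258790 30517579 7629395 7812500001 :=
  chk_sound t31 _ _ _ _ _ _ _ _ (by decide +kernel)

def t32 : Tree :=
  (.b (.d (.l 9) (.a (.l 6) (.l 6))) (.a (.l 9) (.b (.l 9) (.l 9))))

theorem g32 : Good 1892089848 1892089848 1937866217 602409000025 15258790 30517579 7629395 3906250001 :=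
  chk_sound t32 _ _ _ _ _ _ _ _ (by decide +kernel)

def t33 : Tree :=
  (.d (.b (.l 6) (.a (.l 6) (.l 6))) (.b (.b (.l 6) (.a (.l 6) (.l 6))) (.d (.a (.l 9) (.l 6)) (.c
  (.a (.l 9) (.l 6)) (.a (.d (.l 9) (.a (.l 9) (.b (.l 9) (.l 9)))) (.b (.l 6) (.a (.d (.l 6) (.a
  (.l 9) (.l 10))) (.l 6))))))))

theorem g33 : Good 1892089848 1892089848 1937866217 610221500026 15258790 15258790 7629395 3906250001 :=
  chk_sound t33 _ _ _ _ _ _ _ _ (by decide +kernel)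

def t34 : Tree :=
  (.d (.a (.l 9) (.b (.l 10) (.l 9))) (.d (.c (.l 10) (.a (.l 9) (.b (.a (.l 9) (.l 9)) (.l 9))))
  (.c (.a (.l 9) (.l 9)) (.a (.d (.b (.l 9) (.l 9)) (.c (.b (.l 9) (.l 9)) (.d (.b (.l 9) (.l 9))
  (.a (.l 9) (.b (.l 9) (.l 9)))))) (.d (.a (.l 9) (.b (.l 9) (.l 9))) (.c (.b (.l 10) (.l 9)) (.d
  (.a (.b (.l 9) (.l 9)) (.b (.l 9) (.l 9))) (.b (.a (.b (.l 9) (.l 9)) (.d (.l 10) (.b (.l 10)
  (.a (.l 9) (.l 9))))) (.a (.l 9) (.a (.l 9) (.l 9)))))))))))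

theorem g34 : Good 1892089848 1922607427 1937866217 610221500026 15258790 15258790 7629395 3906250001 :=
  chk_sound t34 _ _ _ _ _ _ _ _ (by decide +kernel)

def t35 : Tree :=
  (.b (.b (.l 3) (.l 1)) (.l 1))

theorem g35 : Good 1922607427 1892089848 1922607427 586784000024 15258790 30517579 7629395 15625000001 :=
  chk_sound t35 _ _ _ _ _ _ _ _ (by decide +kernel)

def t36 : Tree :=
  (.a (.b (.b (.l 3) (.l 3)) (.c (.l 2) (.d (.b (.l 1) (.l 4)) (.b (.l 6) (.a (.l 3) (.l 3))))))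
  (.d (.b (.l 3) (.b (.l 5) (.c (.l 1) (.c (.l 2) (.a (.b (.l 1) (.l 2)) (.b (.l 5) (.l 0)))))))
  (.b (.l 10) (.c (.l 1) (.b (.a (.l 3) (.l 10)) (.c (.l 2) (.a (.b (.l 3) (.l 10)) (.b (.l 10)
  (.l 0)))))))))

theorem g36 : Good 1922607427 1892089848 1937866217 586784000024 15258790 30517579 7629395 7812500001 :=
  chk_sound t36 _ _ _ _ _ _ _ _ (by decide +kernel)

def t37 : Tree :=
  (.b (.b (.l 3) (.a (.l 3) (.l 10))) (.c (.a (.l 1) (.l 1)) (.a (.d (.b (.l 3) (.l 9)) (.b (.l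
  10) (.a (.l 3) (.l 6)))) (.c (.b (.a (.l 2) (.l 1)) (.l 1)) (.a (.b (.b (.l 3) (.l 3)) (.d (.b
  (.l 1) (.l 4)) (.d (.l 10) (.b (.l 3) (.l 4))))) (.d (.b (.l 3) (.b (.l 5) (.l 0))) (.b (.l 10)
  (.b (.a (.l 3) (.l 10)) (.l 0)))))))))

theorem g37 : Good 1922607427 1892089848 1937866217 602409000025 15258790 30517579 7629395 3906250001 :=
  chk_sound t37 _ _ _ _ _ _ _ _ (by decide +kernel)

def t38 : Tree :=
  (.b (.b (.l 3) (.b (.l 3) (.a (.l 6) (.l 3)))) (.c (.l 3) (.d (.a (.l 6) (.l 3)) (.a (.d (.l 6)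
  (.b (.l 6) (.a (.l 6) (.l 6)))) (.b (.l 3) (.l 3))))))

theorem g38 : Good 1922607427 1892089848 1937866217 610221500026 15258790 15258790 7629395 3906250001 :=
  chk_sound t38 _ _ _ _ _ _ _ _ (by decide +kernel)

def t39 : Tree :=
  (.a (.l 3) (.l 1))

theorem g39 : Good 1922607427 1922607427 1937866217 610221500026 15258790 15258790 3814698 3906250001 :=
  chk_sound t39 _ _ _ _ _ _ _ _ (by decide +kernel)

def t40 : Tree :=
  (.d (.b (.l 6) (.l 10)) (.a (.l 10) (.b (.l 6) (.l 9))))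

theorem g40 : Good 1922607427 1922607427 1945495612 610221500026 7629395 15258790 3814698 1953125001 :=
  chk_sound t40 _ _ _ _ _ _ _ _ (by decide +kernel)

def t41 : Tree :=
  (.b (.d (.l 10) (.a (.l 9) (.l 10))) (.a (.l 9) (.b (.l 10) (.l 9))))

theorem g41 : Good 1922607427 1922607427 1945495612 614127750027 7629395 15258790 3814698 976562501 :=
  chk_sound t41 _ _ _ _ _ _ _ _ (by decide +kernel)

def t42 : Tree :=
  (.c (.b (.l 6) (.l 3)) (.b (.d (.l 10) (.a (.l 9) (.l 10))) (.a (.l 9) (.d (.l 9) (.b (.l 9) (.l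
  9))))))

theorem g42 : Good 1922607427 1922607427 1945495612 616080875028 7629395 15258790 3814698 488281251 :=
  chk_sound t42 _ _ _ _ _ _ _ _ (by decide +kernel)

def t43 : Tree :=
  (.b (.l 10) (.l 9))

theorem g43 : Good 1922607427 1922607427 1945495612 617057437529 7629395 15258790 1907349 488281251 :=
  chk_sound t43 _ _ _ _ _ _ _ _ (by decide +kernel)

def t44 : Tree :=
  (.b (.b (.l 6) (.a (.l 6) (.l 6))) (.d (.a (.l 9) (.l 6)) (.c (.a (.l 9) (.l 6)) (.d (.a (.l 9)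
  (.l 10)) (.a (.a (.l 9) (.b (.l 10) (.l 10))) (.a (.b (.l 6) (.a (.l 10) (.l 10))) (.l 6)))))))

theorem g44 : Good 1922607427 1922607427 1949310310 617057437529 7629395 7629395 1907349 488281251 :=
  chk_sound t44 _ _ _ _ _ _ _ _ (by decide +kernel)

def t45 : Tree :=
  (.d (.a (.l 9) (.b (.a (.l 9) (.l 9)) (.l 9))) (.c (.a (.l 9) (.l 9)) (.a (.d (.l 9) (.a (.l 9)
  (.b (.l 9) (.l 9)))) (.d (.b (.a (.l 9) (.l 9)) (.l 9)) (.c (.b (.l 10) (.l 9)) (.b (.d (.a (.l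
  9) (.l 10)) (.a (.b (.l 10) (.l 9)) (.d (.l 10) (.b (.l 10) (.a (.l 9) (.l 10)))))) (.a (.l 9)
  (.b (.l 9) (.l 9)))))))))

theorem g45 : Good 1922607427 1937866217 1949310310 617057437529 7629395 7629395 1907349 488281251 :=
  chk_sound t45 _ _ _ _ _ _ _ _ (by decide +kernel)

def t46 : Tree :=
  (.b (.d (.l 10) (.b (.l 3) (.l 10))) (.c (.l 1) (.a (.d (.b (.l 3) (.l 9)) (.b (.l 10) (.a (.l
  3) (.l 6)))) (.b (.d (.l 10) (.a (.l 3) (.l 10))) (.l 0)))))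

theorem g46 : Good 1937866217 1922607427 1945495612 610221500026 7629395 15258790 3814698 1953125001 :=
  chk_sound t46 _ _ _ _ _ _ _ _ (by decide +kernel)

def t47 : Tree :=
  (.b (.l 3) (.l 1))

theorem g47 : Good 1937866217 1922607427 1945495612 614127750027 7629395 15258790 1907349 1953125001 :=
  chk_sound t47 _ _ _ _ _ _ _ _ (by decide +kernel)

def t48 : Tree :=
  (.b (.b (.l 3) (.a (.l 6) (.l 3))) (.c (.a (.l 3) (.l 3)) (.a (.d (.b (.l 6) (.l 9)) (.b (.l 10)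
  (.a (.l 6) (.l 6)))) (.b (.d (.l 10) (.a (.l 3) (.l 10))) (.l 0)))))

theorem g48 : Good 1937866217 1922607427 1949310310 614127750027 7629395 15258790 1907349 976562501 :=
  chk_sound t48 _ _ _ _ _ _ _ _ (by decide +kernel)

def t49 : Tree :=
  (.b (.a (.l 6) (.l 3)) (.d (.a (.l 6) (.l 6)) (.b (.l 6) (.a (.l 6) (.l 6)))))

theorem g49 : Good 1937866217 1922607427 1949310310 616080875028 3814698 7629395 1907349 976562501 :=
  chk_sound t49 _ _ _ _ _ _ _ _ (by decide +kernel)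

def t50 : Tree :=
  (.d (.l 3) (.l 10))

theorem g50 : Good 1937866217 1937866217 1949310310 616080875028 3814698 7629395 953675 976562501 :=
  chk_sound t50 _ _ _ _ _ _ _ _ (by decide +kernel)

def t51 : Tree :=
  (.d (.b (.l 10) (.l 10)) (.a (.l 10) (.b (.l 6) (.l 9))))

theorem g51 : Good 1937866217 1937866217 1951217659 616080875028 3814698 7629395 953675 488281251 :=
  chk_sound t51 _ _ _ _ _ _ _ _ (by decide +kernel)

def t52 : Tree :=
  (.b (.d (.l 10) (.a (.l 9) (.l 10))) (.a (.l 9) (.a (.l 9) (.l 0))))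

theorem g52 : Good 1937866217 1937866217 1951217659 617057437529 3814698 7629395 953675 244140626 :=
  chk_sound t52 _ _ _ _ _ _ _ _ (by decide +kernel)

def t53 : Tree :=
  (.d (.c (.b (.l 10) (.l 9)) (.b (.d (.l 10) (.a (.l 10) (.l 10))) (.a (.l 9) (.a (.l 9) (.l
  0))))) (.c (.b (.l 10) (.l 9)) (.d (.b (.b (.l 6) (.a (.l 10) (.l 10))) (.a (.l 9) (.a (.l 9)
  (.l 0)))) (.b (.b (.a (.l 6) (.l 6)) (.c (.a (.l 10) (.l 6)) (.d (.a (.l 10) (.l 10)) (.a (.a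
  (.l 10) (.b (.l 10) (.l 10))) (.a (.b (.l 6) (.a (.l 10) (.l 6))) (.l 6)))))) (.c (.a (.l 9) (.l
  9)) (.a (.a (.l 9) (.b (.l 9) (.l 9))) (.a (.d (.l 9) (.b (.b (.a (.l 10) (.l 10)) (.l 9)) (.l
  0))) (.l 0))))))))

theorem g53 : Good 1937866217 1937866217 1951217659 617545718780 3814698 7629395 953675 244140626 :=
  chk_sound t53 _ _ _ _ _ _ _ _ (by decide +kernel)

def t54 : Tree :=
  (.b (.b (.l 3) (.b (.l 3) (.a (.l 3) (.l 3)))) (.b (.c (.l 3) (.b (.b (.l 3) (.b (.l 3) (.b (.l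
  3) (.l 3)))) (.b (.d (.l 3) (.a (.a (.l 6) (.l 3)) (.l 0))) (.l 0)))) (.l 0)))

theorem g54 : Good 1945495612 1922607427 1949310310 616080875028 3814698 15258790 1907349 976562501 :=
  chk_sound t54 _ _ _ _ _ _ _ _ (by decide +kernel)

def t55 : Tree :=
  (.b (.l 0) (.c (.a (.l 0) (.b (.c (.l 0) (.l 0)) (.c (.l 0) (.c (.l 0) (.l 0))))) (.l 0)))

theorem g55 : Good 0 0 1953125001 493034000019 488281251 976562501 976562501 62500000003 :=
  chk_sound t55 _ _ _ _ _ _ _ _ (by decide +kernel)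

def t56 : Tree :=
  (.l 0)

theorem g56 : Good 976562501 0 1953125001 493034000019 488281251 488281251 976562501 62500000003 :=
  chk_sound t56 _ _ _ _ _ _ _ _ (by decide +kernel)

def t57 : Tree :=
  (.c (.a (.c (.l 0) (.l 0)) (.c (.a (.l 0) (.b (.c (.l 0) (.l 0)) (.b (.c (.l 3) (.l 3)) (.c (.l
  3) (.a (.l 3) (.l 3)))))) (.c (.b (.l 0) (.b (.l 0) (.c (.a (.l 0) (.a (.l 3) (.l 3))) (.l 0))))
  (.l 0)))) (.l 0))

theorem g57 : Good 976562501 976562501 1953125001 493034000019 244140626 244140626 488281251 62500000003 :=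
  chk_sound t57 _ _ _ _ _ _ _ _ (by decide +kernel)

def t58 : Tree :=
  (.c (.l 0) (.c (.l 0) (.a (.l 0) (.c (.l 0) (.b (.l 0) (.l 2))))))

theorem g58 : Good 976562501 1464843752 1953125001 493034000019 122070313 244140626 244140626 62500000003 :=
  chk_sound t58 _ _ _ _ _ _ _ _ (by decide +kernel)

def t59 : Tree :=
  (.c (.a (.l 0) (.d (.b (.c (.l 3) (.l 3)) (.c (.l 3) (.l 3))) (.b (.b (.c (.l 3) (.l 3)) (.c (.l
  6) (.a (.l 3) (.l 3)))) (.d (.c (.l 6) (.a (.l 3) (.l 6))) (.c (.a (.l 0) (.l 6)) (.a (.l 6) (.b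
  (.l 6) (.l 6)))))))) (.b (.a (.c (.a (.l 0) (.l 3)) (.l 0)) (.c (.d (.l 3) (.a (.l 3) (.b (.l 3)
  (.l 3)))) (.c (.b (.l 0) (.d (.l 3) (.l 3))) (.l 0)))) (.a (.c (.a (.l 0) (.b (.l 3) (.l 3)))
  (.a (.l 3) (.l 3))) (.c (.d (.l 3) (.d (.a (.l 3) (.l 3)) (.a (.l 6) (.b (.l 6) (.l 6))))) (.d
  (.a (.l 3) (.l 3)) (.a (.l 3) (.b (.c (.l 3) (.l 3)) (.l 3))))))))

theorem g59 : Good 1220703127 1464843752 1953125001 493034000019 122070313 122070313 244140626 62500000003 :=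
  chk_sound t59 _ _ _ _ _ _ _ _ (by decide +kernel)

def t60 : Tree :=
  (.c (.a (.l 0) (.b (.d (.c (.l 6) (.l 3)) (.d (.a (.l 6) (.c (.l 6) (.l 6))) (.c (.a (.l 0) (.b
  (.l 6) (.l 6))) (.a (.l 6) (.b (.l 6) (.l 6)))))) (.d (.c (.l 6) (.l 3)) (.d (.c (.a (.l 0) (.l
  6)) (.l 6)) (.c (.a (.l 0) (.b (.l 9) (.l 9))) (.a (.l 6) (.b (.l 6) (.l 6)))))))) (.b (.a (.c
  (.d (.l 3) (.a (.l 0) (.l 3))) (.a (.l 3) (.l 3))) (.c (.d (.l 3) (.a (.l 6) (.b (.l 6) (.l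
  6)))) (.d (.l 3) (.c (.l 3) (.l 3))))) (.c (.d (.a (.l 2) (.l 2)) (.a (.l 3) (.b (.a (.l 3) (.l
  3)) (.l 2)))) (.a (.l 2) (.a (.l 2) (.l 2))))))

theorem g60 : Good 1220703127 1708984378 1953125001 493034000019 122070313 122070313 244140626 62500000003 :=
  chk_sound t60 _ _ _ _ _ _ _ _ (by decide +kernel)

end Pool.Agent.Lib.MP_d3fc00_an
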