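import Pool.Agent.Lib.MP_d3fc00_an.Check

set_option maxRecDepth 100000

namespace Pool.Agent.Lib.MP_d3fc00_an

def t61 : Tree :=
  (.a (.c (.b (.l 0) (.a (.l 2) (.b (.c (.l 2) (.l 0)) (.l 2)))) (.l 0)) (.a (.c (.b (.l 0) (.b
  (.c (.b (.l 3) (.l 2)) (.l 0)) (.c (.l 2) (.l 2)))) (.l 0)) (.c (.b (.c (.b (.l 0) (.c (.b (.l
  0) (.b (.l 0) (.l 3))) (.l 0))) (.l 0)) (.b (.c (.b (.d (.l 3) (.a (.l 3) (.l 3))) (.a (.l 3)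
  (.l 3))) (.b (.l 0) (.c (.l 3) (.l 0)))) (.c (.a (.l 2) (.l 2)) (.d (.l 3) (.a (.l 2) (.l
  3)))))) (.b (.l 0) (.c (.b (.l 0) (.b (.l 0) (.c (.l 2) (.l 0)))) (.l 0))))))

theorem g61 : Good 976562501 1464843752 2441406252 493034000019 244140626 244140626 244140626 62500000003 :=
  chk_sound t61 _ _ _ _ _ _ _ _ (by decide +kernel)

def t62 : Tree :=
  (.b (.l 0) (.a (.b (.c (.a (.l 3) (.l 3)) (.a (.b (.l 3) (.l 3)) (.c (.a (.l 3) (.l 3)) (.b (.l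
  0) (.a (.l 3) (.l 3)))))) (.c (.d (.l 3) (.a (.l 3) (.l 3))) (.a (.d (.l 3) (.b (.l 3) (.l 3)))
  (.d (.l 3) (.b (.l 3) (.l 3)))))) (.b (.a (.c (.l 0) (.b (.l 0) (.d (.l 3) (.c (.l 3) (.a (.l 3)
  (.l 3)))))) (.l 0)) (.c (.d (.a (.l 3) (.l 3)) (.a (.a (.l 3) (.l 3)) (.a (.l 3) (.l 3)))) (.a
  (.d (.l 3) (.b (.a (.l 3) (.l 3)) (.l 3))) (.d (.l 3) (.c (.l 3) (.a (.l 3) (.l 3)))))))))

theorem g62 : Good 1464843752 976562501 1953125001 493034000019 244140626 244140626 122070313 62500000003 :=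
  chk_sound t62 _ _ _ _ _ _ _ _ (by decide +kernel)

def t63 : Tree :=
  (.l 0)

theorem g63 : Good 1464843752 976562501 2197265627 493034000019 244140626 122070313 122070313 62500000003 :=
  chk_sound t63 _ _ _ _ _ _ _ _ (by decide +kernel)

def t64 : Tree :=
  (.c (.b (.l 0) (.a (.c (.d (.l 3) (.b (.l 3) (.l 3))) (.b (.l 0) (.c (.d (.l 3) (.a (.l 0) (.l
  3))) (.l 0)))) (.c (.d (.a (.l 3) (.l 3)) (.b (.a (.l 3) (.a (.l 3) (.l 3))) (.a (.l 3) (.l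
  3)))) (.b (.l 0) (.d (.d (.l 3) (.a (.l 3) (.l 3))) (.c (.d (.l 3) (.a (.l 3) (.a (.l 3) (.l
  3)))) (.b (.l 0) (.c (.b (.l 0) (.a (.l 0) (.l 3))) (.l 0))))))))) (.l 0))

theorem g64 : Good 1464843752 1220703127 2197265627 493034000019 122070313 122070313 122070313 62500000003 :=
  chk_sound t64 _ _ _ _ _ _ _ _ (by decide +kernel)

def t65 : Tree :=
  (.c (.b (.l 0) (.a (.c (.b (.l 0) (.d (.l 3) (.a (.l 3) (.l 3)))) (.l 0)) (.b (.l 0) (.a (.d (.l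
  3) (.b (.l 0) (.d (.l 3) (.a (.c (.l 0) (.a (.l 0) (.l 7))) (.l 7))))) (.l 0))))) (.l 0))

theorem g65 : Good 1708984378 1220703127 2197265627 493034000019 122070313 61035157 61035157 62500000003 :=
  chk_sound t65 _ _ _ _ _ _ _ _ (by decide +kernel)

def t66 : Tree :=
  (.c (.d (.a (.l 3) (.l 3)) (.b (.d (.l 3) (.c (.l 3) (.b (.a (.l 3) (.d (.l 3) (.a (.l 3) (.b
  (.l 9) (.l 3))))) (.l 3)))) (.a (.l 3) (.l 3)))) (.b (.c (.b (.l 0) (.d (.l 3) (.a (.l 0) (.d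
  (.l 3) (.c (.a (.l 9) (.l 6)) (.b (.l 0) (.a (.l 0) (.l 6)))))))) (.l 0)) (.d (.b (.d (.l 3) (.a
  (.l 3) (.l 3))) (.l 3)) (.c (.d (.l 3) (.b (.d (.l 3) (.b (.a (.l 3) (.l 6)) (.l 3))) (.a (.l 3)
  (.l 3)))) (.d (.b (.a (.l 0) (.a (.b (.l 0) (.l 3)) (.l 6))) (.a (.l 3) (.l 3))) (.b (.a (.l 0)
  (.c (.a (.a (.l 9) (.l 9)) (.l 7)) (.b (.l 0) (.a (.l 0) (.l 7))))) (.d (.a (.a (.l 3) (.l 3))
  (.l 3)) (.c (.a (.a (.l 3) (.l 3)) (.l 3)) (.a (.a (.l 10) (.l 9)) (.a (.l 6) (.l 6)))))))))))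

theorem g66 : Good 1708984378 1342773440 2197265627 493034000019 61035157 61035157 61035157 62500000003 :=
  chk_sound t66 _ _ _ _ _ _ _ _ (by decide +kernel)

def t67 : Tree :=
  (.c (.d (.a (.l 3) (.l 3)) (.b (.d (.a (.l 3) (.l 3)) (.c (.l 3) (.b (.a (.a (.l 6) (.l 6)) (.l
  6)) (.l 3)))) (.a (.l 3) (.l 3)))) (.b (.d (.c (.a (.d (.l 3) (.l 3)) (.l 3)) (.b (.l 0) (.a (.a
  (.l 0) (.l 6)) (.l 3)))) (.c (.d (.b (.a (.b (.l 0) (.l 6)) (.l 6)) (.l 3)) (.b (.c (.a (.a (.l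
  0) (.l 7)) (.l 6)) (.a (.l 0) (.a (.l 7) (.l 6)))) (.a (.a (.l 7) (.l 6)) (.l 6)))) (.b (.l 0)
  (.d (.a (.c (.a (.l 0) (.l 6)) (.l 0)) (.a (.l 6) (.l 6))) (.a (.c (.a (.l 0) (.l 7)) (.l 0))
  (.a (.a (.l 7) (.l 7)) (.l 7))))))) (.d (.a (.l 3) (.l 3)) (.d (.a (.a (.b (.l 3) (.l 3)) (.l
  3)) (.l 3)) (.c (.a (.l 6) (.l 3)) (.b (.a (.a (.a (.l 7) (.l 7)) (.l 6)) (.l 6)) (.a (.l 6) (.l
  3))))))))

theorem g67 : Good 1831054691 1342773440 2197265627 493034000019 61035157 61035157 61035157 62500000003 :=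
  chk_sound t67 _ _ _ _ _ _ _ _ (by decide +kernel)

def t68 : Tree :=
  (.b (.l 0) (.c (.b (.l 0) (.a (.c (.b (.l 0) (.c (.a (.l 0) (.d (.l 3) (.d (.l 6) (.a (.a (.l 9)
  (.l 9)) (.l 9))))) (.l 0))) (.l 0)) (.d (.c (.b (.a (.b (.l 0) (.l 6)) (.l 6)) (.a (.l 3) (.l
  3))) (.b (.l 0) (.a (.c (.a (.l 0) (.l 3)) (.l 0)) (.a (.l 6) (.l 3))))) (.c (.b (.d (.a (.c (.a
  (.l 0) (.l 6)) (.l 0)) (.a (.l 6) (.l 6))) (.a (.c (.a (.l 0) (.l 7)) (.l 0)) (.a (.b (.l 0) (.l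
  6)) (.l 7)))) (.d (.a (.l 6) (.l 3)) (.a (.a (.c (.l 6) (.a (.l 7) (.l 6))) (.l 6)) (.l 6))))
  (.b (.l 0) (.a (.c (.b (.l 0) (.a (.l 0) (.l 6))) (.l 0)) (.d (.a (.l 6) (.l 6)) (.a (.b (.l 0)
  (.l 6)) (.l 7))))))))) (.l 0)))

theorem g68 : Good 1708984378 1220703127 2319335940 493034000019 122070313 122070313 61035157 62500000003 :=
  chk_sound t68 _ _ _ _ _ _ _ _ (by decide +kernel)

def t69 : Tree :=
  (.l 0)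

theorem g69 : Good 1464843752 976562501 2441406252 493034000019 244140626 244140626 244140626 62500000003 :=
  chk_sound t69 _ _ _ _ _ _ _ _ (by decide +kernel)

def t70 : Tree :=
  (.b (.a (.d (.c (.l 3) (.l 3)) (.c (.b (.l 3) (.a (.l 6) (.l 6))) (.b (.a (.l 3) (.l 3)) (.a (.l
  6) (.l 6))))) (.d (.c (.l 3) (.l 3)) (.c (.b (.l 3) (.a (.l 3) (.l 3))) (.b (.a (.l 3) (.l 3))
  (.a (.l 6) (.l 3)))))) (.d (.a (.d (.l 3) (.c (.l 3) (.l 3))) (.b (.l 3) (.c (.l 3) (.l 3))))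
  (.a (.c (.d (.a (.l 6) (.l 6)) (.b (.a (.l 6) (.l 6)) (.a (.l 6) (.l 6)))) (.d (.a (.l 6) (.l
  6)) (.b (.a (.l 6) (.l 6)) (.a (.l 6) (.l 6))))) (.c (.d (.a (.l 6) (.l 6)) (.b (.a (.l 6) (.l
  6)) (.a (.l 6) (.l 6)))) (.d (.a (.l 6) (.l 6)) (.b (.a (.l 6) (.l 6)) (.a (.l 6) (.l 6))))))))

theorem g70 : Good 1464843752 1464843752 1953125001 493034000019 122070313 122070313 122070313 62500000003 :=
  chk_sound t70 _ _ _ _ _ _ _ _ (by decide +kernel)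

def t71 : Tree :=
  (.b (.a (.d (.c (.l 3) (.l 3)) (.c (.b (.l 3) (.l 3)) (.b (.l 3) (.a (.l 3) (.l 3))))) (.d (.c
  (.l 3) (.l 3)) (.c (.b (.l 3) (.l 3)) (.b (.l 3) (.l 3))))) (.a (.d (.b (.l 3) (.c (.l 3) (.l
  3))) (.c (.b (.a (.l 6) (.l 3)) (.d (.l 3) (.a (.l 6) (.l 6)))) (.d (.a (.l 6) (.l 3)) (.c (.b
  (.l 6) (.a (.l 6) (.l 3))) (.a (.l 6) (.l 3)))))) (.d (.b (.l 3) (.c (.l 3) (.l 3))) (.c (.b (.a
  (.l 3) (.l 3)) (.b (.l 3) (.a (.l 3) (.l 3)))) (.c (.b (.l 3) (.l 3)) (.a (.l 3) (.l 3)))))))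

theorem g71 : Good 1708984378 1464843752 1953125001 493034000019 122070313 122070313 122070313 62500000003 :=
  chk_sound t71 _ _ _ _ _ _ _ _ (by decide +kernel)

def t72 : Tree :=
  (.a (.d (.c (.l 3) (.l 3)) (.b (.c (.a (.l 3) (.l 3)) (.a (.l 3) (.b (.l 3) (.l 3)))) (.d (.l 3)
  (.c (.l 3) (.a (.l 3) (.l 3)))))) (.d (.b (.a (.l 3) (.l 3)) (.l 3)) (.b (.c (.a (.l 3) (.l 3))
  (.d (.l 3) (.c (.l 3) (.b (.a (.l 3) (.a (.l 3) (.l 9))) (.l 3))))) (.c (.l 3) (.a (.l 3) (.l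
  3))))))

theorem g72 : Good 1464843752 1464843752 2197265627 493034000019 122070313 61035157 61035157 62500000003 :=
  chk_sound t72 _ _ _ _ _ _ _ _ (by decide +kernel)

def t73 : Tree :=
  (.a (.c (.b (.l 0) (.d (.l 3) (.d (.a (.l 3) (.l 3)) (.a (.l 3) (.d (.l 3) (.b (.c (.l 3) (.l
  0)) (.l 3))))))) (.l 0)) (.c (.d (.b (.c (.d (.l 3) (.l 3)) (.b (.l 0) (.b (.l 0) (.l 3)))) (.a
  (.l 3) (.l 3))) (.b (.c (.d (.b (.b (.l 0) (.l 3)) (.l 3)) (.b (.c (.b (.l 0) (.c (.a (.l 0) (.l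
  3)) (.l 0))) (.l 0)) (.d (.a (.l 3) (.l 3)) (.c (.a (.l 3) (.l 3)) (.b (.a (.l 0) (.l 10)) (.a
  (.l 3) (.l 6))))))) (.b (.l 0) (.c (.b (.l 0) (.c (.b (.l 0) (.a (.l 0) (.l 6))) (.l 0))) (.l
  0)))) (.d (.a (.l 3) (.l 3)) (.b (.c (.a (.l 3) (.l 3)) (.d (.a (.l 3) (.l 6)) (.b (.c (.a (.l
  6) (.l 6)) (.a (.l 0) (.l 10))) (.a (.l 6) (.l 6))))) (.a (.l 6) (.l 3)))))) (.b (.l 0) (.d (.b
  (.c (.b (.l 0) (.l 3)) (.l 0)) (.c (.l 3) (.b (.l 0) (.l 3)))) (.b (.c (.b (.l 0) (.c (.b (.l 0)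
  (.a (.l 0) (.a (.l 0) (.l 6)))) (.l 0))) (.l 0)) (.d (.c (.l 3) (.b (.l 0) (.a (.l 0) (.l 3))))
  (.c (.d (.a (.l 3) (.l 3)) (.b (.a (.l 0) (.a (.l 6) (.l 6))) (.a (.l 3) (.l 3)))) (.b (.l 0)
  (.c (.a (.l 0) (.a (.l 0) (.l 3))) (.l 0))))))))))

theorem g73 : Good 1464843752 1464843752 2319335940 493034000019 122070313 61035157 61035157 62500000003 :=
  chk_sound t73 _ _ _ _ _ _ _ _ (by decide +kernel)

def t74 : Tree :=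
  (.c (.d (.a (.l 3) (.a (.l 3) (.l 3))) (.a (.d (.a (.l 3) (.l 3)) (.c (.a (.l 6) (.l 6)) (.a (.l
  3) (.l 6)))) (.d (.a (.l 3) (.l 3)) (.c (.a (.l 6) (.l 3)) (.a (.l 6) (.l 3)))))) (.a (.d (.b
  (.a (.l 3) (.l 3)) (.l 3)) (.b (.c (.a (.l 3) (.l 3)) (.d (.a (.l 3) (.l 3)) (.b (.c (.l 3) (.l
  0)) (.l 3)))) (.c (.l 3) (.l 3)))) (.d (.b (.a (.c (.l 3) (.l 3)) (.l 3)) (.l 3)) (.b (.c (.a
  (.l 3) (.l 3)) (.b (.d (.a (.l 3) (.l 3)) (.c (.a (.l 3) (.l 3)) (.b (.a (.l 0) (.a (.l 6) (.l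
  3))) (.a (.l 3) (.l 3))))) (.a (.l 3) (.l 3)))) (.c (.l 3) (.l 3))))))

theorem g74 : Good 1464843752 1586914065 2197265627 493034000019 122070313 61035157 122070313 62500000003 :=
  chk_sound t74 _ _ _ _ _ _ _ _ (by decide +kernel)

def t75 : Tree :=
  (.a (.d (.a (.l 3) (.l 3)) (.c (.a (.l 3) (.l 3)) (.b (.d (.l 3) (.c (.l 3) (.a (.a (.b (.l 3)
  (.l 3)) (.l 3)) (.l 3)))) (.a (.l 3) (.l 3))))) (.d (.a (.l 3) (.l 3)) (.c (.a (.l 3) (.l 3))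
  (.b (.a (.l 3) (.l 3)) (.l 3)))))

theorem g75 : Good 1708984378 1464843752 2197265627 493034000019 122070313 61035157 61035157 62500000003 :=
  chk_sound t75 _ _ _ _ _ _ _ _ (by decide +kernel)

def t76 : Tree :=
  (.b (.d (.c (.a (.l 3) (.l 3)) (.b (.a (.l 0) (.b (.l 0) (.l 3))) (.a (.l 3) (.l 3)))) (.c (.d
  (.a (.a (.b (.l 3) (.l 3)) (.l 3)) (.l 3)) (.b (.a (.d (.a (.a (.l 9) (.l 9)) (.l 6)) (.c (.a
  (.l 9) (.l 6)) (.a (.l 10) (.l 9)))) (.a (.a (.l 9) (.l 6)) (.l 6))) (.a (.a (.l 6) (.l 3)) (.l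
  3)))) (.b (.c (.a (.l 0) (.b (.l 0) (.a (.l 9) (.l 6)))) (.l 0)) (.d (.a (.a (.l 6) (.l 3)) (.l
  3)) (.a (.d (.a (.a (.l 9) (.l 9)) (.l 6)) (.b (.c (.l 9) (.l 0)) (.a (.l 9) (.l 6)))) (.a (.a
  (.l 9) (.l 6)) (.l 6))))))) (.d (.l 3) (.d (.a (.l 3) (.l 3)) (.a (.b (.a (.c (.l 3) (.l 6)) (.l
  3)) (.l 3)) (.l 3)))))

theorem g76 : Good 1708984378 1464843752 2319335940 493034000019 61035157 61035157 30517579 62500000003 :=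
  chk_sound t76 _ _ _ _ _ _ _ _ (by decide +kernel)

def t77 : Tree :=
  (.b (.c (.b (.l 0) (.a (.l 0) (.b (.l 0) (.c (.d (.l 3) (.a (.l 9) (.l 6))) (.l 0))))) (.l 0))
  (.d (.b (.c (.a (.l 3) (.l 3)) (.a (.l 0) (.b (.l 0) (.l 3)))) (.a (.l 3) (.l 3))) (.b (.c (.a
  (.d (.a (.l 6) (.l 3)) (.b (.a (.l 0) (.a (.l 9) (.l 9))) (.a (.l 9) (.l 6)))) (.d (.l 3) (.a
  (.a (.l 6) (.l 6)) (.l 3)))) (.a (.l 0) (.b (.l 0) (.c (.a (.l 6) (.l 3)) (.l 0))))) (.a (.c (.a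
  (.l 6) (.l 3)) (.d (.a (.l 3) (.l 3)) (.b (.a (.l 0) (.a (.l 9) (.l 6))) (.a (.l 6) (.l 3)))))
  (.d (.l 3) (.a (.c (.l 3) (.l 3)) (.l 3)))))))

theorem g77 : Good 1708984378 1464843752 2380371097 493034000019 61035157 61035157 30517579 62500000003 :=
  chk_sound t77 _ _ _ _ _ _ _ _ (by decide +kernel)

def t78 : Tree :=
  (.b (.c (.d (.a (.a (.l 3) (.l 3)) (.l 3)) (.b (.a (.c (.l 7) (.d (.l 6) (.a (.c (.l 6) (.a (.l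
  9) (.l 6))) (.l 6)))) (.d (.l 3) (.a (.l 6) (.l 3)))) (.a (.a (.l 7) (.l 3)) (.l 3)))) (.d (.b
  (.c (.a (.b (.l 0) (.a (.l 0) (.l 3))) (.a (.l 3) (.l 3))) (.l 0)) (.c (.l 3) (.a (.b (.l 0) (.a
  (.l 0) (.l 3))) (.l 3)))) (.b (.c (.a (.b (.l 0) (.c (.a (.l 0) (.l 6)) (.l 0))) (.d (.a (.l 6)
  (.l 6)) (.a (.b (.l 0) (.l 6)) (.l 7)))) (.l 0)) (.c (.a (.d (.l 6) (.a (.c (.l 6) (.a (.l 9)
  (.l 6))) (.l 6))) (.a (.l 6) (.l 3))) (.a (.b (.l 0) (.c (.a (.l 0) (.l 6)) (.l 0))) (.d (.a (.l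
  6) (.l 3)) (.a (.b (.l 0) (.l 6)) (.l 7)))))))) (.c (.a (.l 3) (.l 3)) (.d (.a (.l 3) (.l 3))
  (.b (.a (.d (.l 3) (.c (.l 3) (.a (.c (.l 3) (.a (.l 9) (.l 6))) (.l 6)))) (.l 3)) (.l 3)))))

theorem g78 : Good 1831054691 1464843752 2319335940 493034000019 61035157 61035157 61035157 62500000003 :=
  chk_sound t78 _ _ _ _ _ _ _ _ (by decide +kernel)

def t79 : Tree :=
  (.c (.a (.d (.l 3) (.c (.a (.l 3) (.l 3)) (.a (.l 3) (.l 3)))) (.d (.l 3) (.a (.l 3) (.l 3))))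
  (.a (.b (.d (.a (.l 3) (.l 3)) (.c (.l 3) (.a (.a (.l 3) (.l 3)) (.l 3)))) (.c (.l 3) (.l 3)))
  (.b (.c (.l 3) (.a (.l 3) (.l 3))) (.l 3))))

theorem g79 : Good 1708984378 1586914065 2197265627 493034000019 122070313 61035157 122070313 62500000003 :=
  chk_sound t79 _ _ _ _ _ _ _ _ (by decide +kernel)

def t80 : Tree :=
  (.d (.a (.d (.c (.l 3) (.l 3)) (.c (.l 6) (.l 6))) (.c (.a (.l 6) (.l 6)) (.a (.l 3) (.l 3))))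
  (.a (.d (.c (.a (.l 6) (.l 6)) (.a (.l 6) (.l 6))) (.c (.a (.d (.l 6) (.b (.l 6) (.l 9))) (.b
  (.c (.l 9) (.l 9)) (.c (.l 9) (.l 9)))) (.a (.b (.l 6) (.c (.l 6) (.l 6))) (.c (.b (.l 6) (.l
  9)) (.l 6))))) (.d (.c (.a (.l 6) (.b (.l 6) (.l 6))) (.a (.l 6) (.l 6))) (.c (.b (.d (.a (.l 6)
  (.l 6)) (.a (.c (.l 6) (.l 6)) (.c (.l 6) (.l 6)))) (.d (.a (.l 6) (.l 6)) (.a (.c (.l 9) (.l
  9)) (.a (.l 9) (.c (.l 9) (.l 9)))))) (.b (.c (.a (.l 6) (.l 6)) (.l 6)) (.c (.a (.l 9) (.l 6))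
  (.l 6)))))))

theorem g80 : Good 1464843752 1708984378 1953125001 493034000019 122070313 61035157 122070313 62500000003 :=
  chk_sound t80 _ _ _ _ _ _ _ _ (by decide +kernel)

def t81 : Tree :=
  (.a (.a (.l 6) (.c (.l 3) (.l 3))) (.c (.a (.l 6) (.l 6)) (.a (.l 3) (.l 3))))

theorem g81 : Good 1464843752 1831054691 1953125001 493034000019 122070313 61035157 122070313 31250000002 :=
  chk_sound t81 _ _ _ _ _ _ _ _ (by decide +kernel)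

def t82 : Tree :=
  (.b (.a (.d (.c (.a (.l 6) (.l 6)) (.l 6)) (.c (.a (.l 9) (.c (.l 9) (.l 9))) (.a (.l 9) (.c (.l
  9) (.l 6))))) (.d (.c (.a (.l 6) (.l 6)) (.a (.l 3) (.l 3))) (.c (.a (.a (.l 9) (.c (.l 9) (.l
  9))) (.d (.l 9) (.a (.l 9) (.c (.l 9) (.l 9))))) (.c (.a (.l 9) (.l 9)) (.l 6))))) (.a (.d (.a
  (.l 6) (.l 6)) (.c (.a (.l 9) (.c (.l 9) (.l 9))) (.a (.l 9) (.l 9)))) (.c (.d (.a (.l 6) (.l
  6)) (.a (.a (.l 9) (.l 9)) (.d (.l 9) (.a (.l 9) (.c (.l 9) (.l 9)))))) (.d (.l 3) (.b (.a (.l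
  9) (.l 3)) (.l 3))))))

theorem g82 : Good 1464843752 1831054691 1953125001 555534000022 122070313 61035157 122070313 31250000002 :=
  chk_sound t82 _ _ _ _ _ _ _ _ (by decide +kernel)

def t83 : Tree :=
  (.b (.c (.d (.a (.l 3) (.l 3)) (.a (.d (.a (.l 3) (.l 3)) (.a (.b (.l 6) (.l 6)) (.b (.l 6) (.l
  6)))) (.c (.a (.l 6) (.l 6)) (.a (.l 3) (.l 3))))) (.a (.d (.l 3) (.c (.l 3) (.l 3))) (.b (.c
  (.l 3) (.l 3)) (.l 3)))) (.c (.d (.a (.l 3) (.l 2)) (.a (.b (.a (.l 3) (.l 3)) (.l 2)) (.a (.l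
  3) (.l 3)))) (.a (.a (.l 2) (.l 2)) (.l 3))))

theorem g83 : Good 1464843752 1708984378 2197265627 493034000019 122070313 122070313 122070313 62500000003 :=
  chk_sound t83 _ _ _ _ _ _ _ _ (by decide +kernel)

def t84 : Tree :=
  (.d (.c (.b (.l 3) (.a (.l 3) (.l 3))) (.a (.l 3) (.l 3))) (.c (.d (.b (.a (.l 6) (.l 3)) (.a
  (.l 6) (.l 6))) (.a (.b (.b (.l 6) (.c (.l 6) (.l 6))) (.d (.l 6) (.b (.c (.l 6) (.l 6)) (.a (.l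
  9) (.c (.l 9) (.l 6)))))) (.b (.b (.l 6) (.c (.l 6) (.l 6))) (.d (.c (.l 6) (.l 6)) (.b (.c (.l
  6) (.l 6)) (.c (.a (.l 10) (.l 6)) (.l 6))))))) (.c (.d (.a (.l 3) (.l 3)) (.b (.a (.l 6) (.l
  3)) (.a (.l 6) (.l 3)))) (.b (.a (.l 3) (.l 3)) (.l 3)))))

theorem g84 : Good 1708984378 1708984378 1953125001 493034000019 61035157 61035157 122070313 62500000003 :=
  chk_sound t84 _ _ _ _ _ _ _ _ (by decide +kernel)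

def t85 : Tree :=
  (.d (.c (.b (.l 3) (.a (.l 3) (.l 10))) (.a (.l 3) (.l 3))) (.c (.b (.d (.a (.l 3) (.l 3)) (.a
  (.b (.l 3) (.a (.l 6) (.l 3))) (.b (.l 3) (.l 3)))) (.d (.b (.l 3) (.a (.l 3) (.l 3))) (.a (.d
  (.a (.l 6) (.l 6)) (.c (.b (.l 6) (.a (.l 6) (.l 6))) (.l 6))) (.c (.b (.l 3) (.b (.l 3) (.a (.l
  3) (.l 3)))) (.l 3))))) (.c (.b (.l 3) (.l 3)) (.l 3))))

theorem g85 : Good 1831054691 1708984378 1953125001 493034000019 61035157 61035157 122070313 62500000003 :=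
  chk_sound t85 _ _ _ _ _ _ _ _ (by decide +kernel)

def t86 : Tree :=
  (.c (.a (.c (.a (.l 3) (.l 3)) (.l 3)) (.a (.l 3) (.l 3))) (.a (.b (.l 3) (.l 3)) (.l 3)))

theorem g86 : Good 1708984378 1708984378 2197265627 493034000019 122070313 61035157 122070313 62500000003 :=
  chk_sound t86 _ _ _ _ _ _ _ _ (by decide +kernel)

def t87 : Tree :=
  (.c (.a (.b (.l 6) (.l 6)) (.b (.l 9) (.l 9))) (.a (.l 3) (.l 2)))

theorem g87 : Good 1708984378 1831054691 1953125001 493034000019 61035157 61035157 122070313 31250000002 :=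
  chk_sound t87 _ _ _ _ _ _ _ _ (by decide +kernel)

def t88 : Tree :=
  (.c (.d (.a (.l 6) (.a (.l 6) (.l 6))) (.a (.d (.c (.l 9) (.l 6)) (.a (.b (.l 9) (.l 10)) (.c
  (.b (.l 9) (.l 10)) (.l 9)))) (.d (.a (.l 9) (.c (.l 6) (.l 3))) (.c (.d (.a (.l 9) (.l 9)) (.a
  (.b (.l 9) (.l 10)) (.d (.b (.l 6) (.l 9)) (.b (.l 10) (.c (.l 10) (.l 9)))))) (.a (.l 9) (.l
  6)))))) (.c (.a (.a (.l 6) (.l 3)) (.l 3)) (.l 3)))

theorem g88 : Good 1708984378 1831054691 1953125001 555534000022 61035157 30517579 122070313 31250000002 :=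
  chk_sound t88 _ _ _ _ _ _ _ _ (by decide +kernel)

end Pool.Agent.Lib.MP_d3fc00_an
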