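import Pool.Agent.Lib.MP_d3fc00_an.Check

set_option maxRecDepth 100000

namespace Pool.Agent.Lib.MP_d3fc00_an

def t89 : Tree :=
  (.c (.d (.a (.l 9) (.c (.l 9) (.l 3))) (.b (.d (.a (.l 9) (.c (.l 9) (.l 3))) (.a (.a (.l 9) (.c
  (.l 10) (.l 9))) (.c (.d (.l 9) (.a (.c (.l 9) (.l 9)) (.a (.l 9) (.c (.l 10) (.l 9))))) (.l
  9)))) (.c (.d (.a (.l 9) (.l 9)) (.a (.a (.l 9) (.l 9)) (.d (.l 9) (.a (.l 9) (.a (.l 9) (.l
  9)))))) (.a (.a (.l 9) (.l 3)) (.l 3))))) (.a (.l 3) (.l 2)))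

theorem g89 : Good 1708984378 1892089848 1953125001 555534000022 61035157 30517579 122070313 31250000002 :=
  chk_sound t89 _ _ _ _ _ _ _ _ (by decide +kernel)

def t90 : Tree :=
  (.c (.a (.l 2) (.l 2)) (.l 2))

theorem g90 : Good 1708984378 1831054691 2197265627 493034000019 61035157 61035157 122070313 62500000003 :=
  chk_sound t90 _ _ _ _ _ _ _ _ (by decide +kernel)

def t91 : Tree :=
  (.a (.c (.d (.b (.l 3) (.l 6)) (.b (.l 6) (.a (.l 3) (.l 4)))) (.b (.l 2) (.l 1))) (.c (.d (.b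
  (.l 5) (.a (.l 10) (.b (.l 5) (.a (.l 9) (.b (.l 5) (.l 9)))))) (.b (.a (.l 3) (.l 7)) (.c (.a
  (.b (.l 3) (.l 7)) (.b (.l 10) (.c (.a (.b (.l 3) (.l 7)) (.b (.l 5) (.b (.a (.l 3) (.l 8)) (.l
  8)))) (.l 2)))) (.l 3)))) (.b (.l 1) (.l 1))))

theorem g91 : Good 1831054691 1831054691 1953125001 493034000019 61035157 61035157 61035157 31250000002 :=
  chk_sound t91 _ _ _ _ _ _ _ _ (by decide +kernel)

def t92 : Tree :=
  (.c (.b (.a (.l 6) (.b (.l 3) (.l 3))) (.a (.l 6) (.b (.l 6) (.l 6)))) (.b (.l 3) (.l 2)))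

theorem g92 : Good 1831054691 1831054691 1953125001 555534000022 30517579 61035157 61035157 15625000001 :=
  chk_sound t92 _ _ _ _ _ _ _ _ (by decide +kernel)

def t93 : Tree :=
  (.d (.b (.l 6) (.a (.l 6) (.l 6))) (.b (.d (.l 6) (.a (.c (.l 6) (.l 6)) (.l 6))) (.d (.a (.l 6)
  (.l 6)) (.a (.d (.l 9) (.a (.l 10) (.b (.l 9) (.l 9)))) (.d (.l 6) (.b (.l 6) (.d (.l 10) (.a
  (.l 10) (.l 6)))))))))

theorem g93 : Good 1831054691 1831054691 1953125001 586784000024 30517579 30517579 30517579 15625000001 :=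
  chk_sound t93 _ _ _ _ _ _ _ _ (by decide +kernel)

def t94 : Tree :=
  (.d (.a (.l 9) (.b (.l 9) (.l 9))) (.d (.c (.a (.l 9) (.b (.l 10) (.l 9))) (.a (.l 6) (.l 3)))
  (.a (.c (.d (.b (.l 9) (.l 9)) (.b (.a (.l 9) (.b (.l 9) (.l 9))) (.a (.l 9) (.b (.l 9) (.l
  9))))) (.b (.l 9) (.l 9))) (.c (.d (.a (.l 10) (.b (.l 9) (.l 9))) (.b (.d (.a (.l 9) (.l 9))
  (.c (.a (.b (.l 9) (.l 9)) (.d (.l 9) (.b (.l 9) (.l 9)))) (.l 9))) (.c (.d (.a (.l 9) (.l 9))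
  (.a (.b (.l 9) (.l 9)) (.a (.l 9) (.b (.l 9) (.l 9))))) (.l 9)))) (.l 9)))))

theorem g94 : Good 1831054691 1892089848 1953125001 586784000024 30517579 30517579 30517579 15625000001 :=
  chk_sound t94 _ _ _ _ _ _ _ _ (by decide +kernel)

def t95 : Tree :=
  (.b (.a (.l 6) (.l 3)) (.l 3))

theorem g95 : Good 1831054691 1831054691 2014160158 586784000024 30517579 61035157 30517579 15625000001 :=
  chk_sound t95 _ _ _ _ _ _ _ _ (by decide +kernel)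

def t96 : Tree :=
  (.b (.b (.l 3) (.a (.l 3) (.l 3))) (.c (.d (.a (.b (.l 3) (.l 5)) (.b (.l 5) (.c (.a (.l 10) (.c
  (.b (.l 3) (.a (.l 10) (.l 10))) (.l 2))) (.l 1)))) (.a (.b (.l 6) (.a (.l 3) (.l 3))) (.b (.a
  (.l 3) (.l 10)) (.c (.a (.b (.l 3) (.l 10)) (.b (.l 10) (.c (.c (.a (.b (.l 3) (.l 9)) (.b (.l
  10) (.l 0))) (.a (.l 2) (.l 2))) (.l 1)))) (.l 1))))) (.a (.l 1) (.l 1))))

theorem g96 : Good 1892089848 1831054691 1953125001 555534000022 30517579 61035157 30517579 15625000001 :=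
  chk_sound t96 _ _ _ _ _ _ _ _ (by decide +kernel)

def t97 : Tree :=
  (.d (.b (.l 3) (.a (.l 6) (.l 3))) (.c (.b (.b (.l 3) (.a (.a (.l 6) (.l 3)) (.l 3))) (.a (.d
  (.l 6) (.b (.l 6) (.a (.l 6) (.l 6)))) (.b (.l 3) (.b (.l 3) (.a (.l 3) (.l 3)))))) (.b (.l 3)
  (.l 3))))

theorem g97 : Good 1892089848 1831054691 1953125001 586784000024 30517579 30517579 30517579 15625000001 :=
  chk_sound t97 _ _ _ _ _ _ _ _ (by decide +kernel)

def t98 : Tree :=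
  (.a (.b (.d (.l 3) (.l 10)) (.d (.l 9) (.a (.l 3) (.l 6)))) (.c (.a (.b (.b (.l 3) (.l 3)) (.c
  (.d (.b (.l 3) (.l 4)) (.b (.l 3) (.l 10))) (.b (.l 1) (.l 1)))) (.d (.b (.l 3) (.b (.l 5) (.c
  (.c (.a (.b (.l 1) (.l 2)) (.b (.l 5) (.l 0))) (.l 2)) (.l 1)))) (.b (.l 10) (.c (.b (.a (.l 3)
  (.l 10)) (.c (.a (.b (.l 3) (.l 10)) (.b (.l 10) (.l 0))) (.l 2))) (.l 1))))) (.b (.l 2) (.l
  1))))

theorem g98 : Good 1892089848 1892089848 1953125001 586784000024 30517579 30517579 15258790 7812500001 :=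
  chk_sound t98 _ _ _ _ _ _ _ _ (by decide +kernel)

def t99 : Tree :=
  (.c (.b (.d (.l 6) (.a (.l 6) (.l 6))) (.d (.l 10) (.a (.l 6) (.l 9)))) (.b (.l 3) (.l 3)))

theorem g99 : Good 1892089848 1892089848 1953125001 602409000025 15258790 30517579 15258790 3906250001 :=
  chk_sound t99 _ _ _ _ _ _ _ _ (by decide +kernel)

def t100 : Tree :=
  (.c (.d (.b (.l 6) (.a (.l 6) (.l 6))) (.b (.a (.b (.l 6) (.a (.l 6) (.l 6))) (.l 6)) (.d (.a
  (.l 9) (.l 6)) (.d (.a (.l 9) (.l 10)) (.c (.a (.a (.l 9) (.l 10)) (.d (.l 10) (.a (.l 10) (.l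
  6)))) (.l 10)))))) (.b (.l 6) (.l 6)))

theorem g100 : Good 1892089848 1892089848 1953125001 610221500026 15258790 15258790 15258790 3906250001 :=
  chk_sound t100 _ _ _ _ _ _ _ _ (by decide +kernel)

def t101 : Tree :=
  (.c (.d (.a (.l 9) (.b (.l 9) (.l 9))) (.d (.a (.l 9) (.b (.l 10) (.l 9))) (.c (.a (.d (.l 9)
  (.d (.b (.l 9) (.l 9)) (.a (.l 9) (.b (.l 9) (.l 9))))) (.d (.b (.a (.l 9) (.l 9)) (.l 9)) (.b
  (.d (.a (.l 9) (.l 9)) (.c (.a (.b (.l 9) (.l 9)) (.d (.l 9) (.b (.l 10) (.l 9)))) (.l 9))) (.c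
  (.d (.l 9) (.a (.l 9) (.b (.l 9) (.l 9)))) (.l 9))))) (.a (.l 9) (.l 9))))) (.a (.l 6) (.l 3)))

theorem g101 : Good 1892089848 1922607427 1953125001 610221500026 15258790 15258790 15258790 3906250001 :=
  chk_sound t101 _ _ _ _ _ _ _ _ (by decide +kernel)

def t102 : Tree :=
  (.b (.b (.l 3) (.a (.l 3) (.l 3))) (.c (.a (.d (.b (.l 3) (.l 6)) (.b (.l 9) (.a (.l 3) (.l
  6)))) (.c (.a (.b (.b (.l 3) (.l 3)) (.d (.b (.l 3) (.l 4)) (.d (.l 10) (.l 10)))) (.d (.b (.l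
  3) (.b (.l 5) (.l 0))) (.b (.l 10) (.b (.a (.l 3) (.l 10)) (.l 0))))) (.b (.a (.l 3) (.l 1)) (.l
  2)))) (.a (.l 3) (.l 1))))

theorem g102 : Good 1922607427 1892089848 1953125001 602409000025 15258790 30517579 7629395 3906250001 :=
  chk_sound t102 _ _ _ _ _ _ _ _ (by decide +kernel)

def t103 : Tree :=
  (.b (.d (.l 3) (.a (.a (.l 6) (.l 3)) (.l 3))) (.d (.a (.l 6) (.l 3)) (.a (.d (.l 6) (.b (.l 6)
  (.l 6))) (.b (.l 3) (.a (.l 3) (.l 3))))))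

theorem g103 : Good 1922607427 1892089848 1953125001 610221500026 15258790 15258790 7629395 3906250001 :=
  chk_sound t103 _ _ _ _ _ _ _ _ (by decide +kernel)

def t104 : Tree :=
  (.d (.b (.l 6) (.l 9)) (.b (.l 10) (.a (.l 6) (.l 9))))

theorem g104 : Good 1922607427 1922607427 1953125001 610221500026 7629395 15258790 3814698 1953125001 :=
  chk_sound t104 _ _ _ _ _ _ _ _ (by decide +kernel)

def t105 : Tree :=
  (.b (.d (.l 10) (.a (.l 6) (.l 6))) (.d (.l 10) (.a (.l 9) (.l 9))))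

theorem g105 : Good 1922607427 1922607427 1953125001 614127750027 7629395 15258790 3814698 976562501 :=
  chk_sound t105 _ _ _ _ _ _ _ _ (by decide +kernel)

def t106 : Tree :=
  (.c (.b (.d (.l 10) (.a (.l 9) (.l 10))) (.a (.l 9) (.b (.l 9) (.l 9)))) (.b (.l 6) (.l 6)))

theorem g106 : Good 1922607427 1922607427 1953125001 616080875028 7629395 15258790 3814698 488281251 :=
  chk_sound t106 _ _ _ _ _ _ _ _ (by decide +kernel)

def t107 : Tree :=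
  (.c (.b (.d (.a (.l 10) (.b (.l 6) (.l 6))) (.b (.a (.a (.l 10) (.l 6)) (.l 6)) (.d (.a (.l 9)
  (.l 10)) (.c (.a (.a (.l 10) (.l 10)) (.a (.b (.l 6) (.l 10)) (.l 6))) (.l 10))))) (.d (.a (.l
  9) (.b (.l 10) (.l 9))) (.c (.d (.a (.l 9) (.b (.l 10) (.l 9))) (.a (.a (.l 9) (.b (.l 9) (.l
  9))) (.d (.b (.a (.l 9) (.l 10)) (.l 9)) (.c (.b (.d (.a (.l 9) (.l 10)) (.a (.l 10) (.b (.l 10)
  (.l 10)))) (.a (.l 9) (.l 9))) (.b (.l 10) (.l 9)))))) (.a (.l 9) (.l 9))))) (.b (.l 10) (.l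
  9)))

theorem g107 : Good 1922607427 1922607427 1953125001 617057437529 7629395 15258790 3814698 488281251 :=
  chk_sound t107 _ _ _ _ _ _ _ _ (by decide +kernel)

def t108 : Tree :=
  (.c (.b (.d (.l 10) (.a (.l 10) (.l 10))) (.a (.d (.b (.l 3) (.l 6)) (.d (.l 10) (.b (.l 3) (.l
  6)))) (.b (.d (.l 10) (.a (.l 3) (.l 10))) (.l 0)))) (.b (.l 3) (.l 1)))

theorem g108 : Good 1937866217 1922607427 1953125001 610221500026 7629395 15258790 3814698 1953125001 :=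
  chk_sound t108 _ _ _ _ _ _ _ _ (by decide +kernel)

def t109 : Tree :=
  (.b (.d (.l 10) (.a (.l 10) (.l 10))) (.c (.a (.d (.b (.l 6) (.l 9)) (.b (.l 10) (.a (.l 6) (.l
  6)))) (.b (.d (.l 10) (.a (.l 3) (.l 10))) (.l 0))) (.a (.b (.l 3) (.l 3)) (.l 3))))

theorem g109 : Good 1937866217 1922607427 1953125001 614127750027 7629395 15258790 1907349 976562501 :=
  chk_sound t109 _ _ _ _ _ _ _ _ (by decide +kernel)

def t110 : Tree :=
  (.b (.b (.l 3) (.l 6)) (.c (.d (.b (.l 9) (.l 9)) (.b (.l 10) (.a (.l 9) (.l 9)))) (.l 6)))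

theorem g110 : Good 1937866217 1922607427 1953125001 616080875028 3814698 15258790 1907349 488281251 :=
  chk_sound t110 _ _ _ _ _ _ _ _ (by decide +kernel)

def t111 : Tree :=
  (.b (.b (.l 3) (.l 6)) (.c (.b (.d (.l 10) (.a (.l 9) (.l 10))) (.d (.l 10) (.a (.l 9) (.l 9))))
  (.l 6)))

theorem g111 : Good 1937866217 1922607427 1953125001 617057437529 3814698 15258790 1907349 244140626 :=
  chk_sound t111 _ _ _ _ _ _ _ _ (by decide +kernel)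

def t112 : Tree :=
  (.b (.b (.l 6) (.a (.l 6) (.l 6))) (.c (.d (.c (.b (.d (.l 10) (.a (.l 10) (.l 10))) (.a (.l 9)
  (.b (.l 9) (.l 0)))) (.b (.l 10) (.l 9))) (.c (.d (.b (.a (.l 10) (.b (.l 6) (.l 10))) (.a (.l
  9) (.b (.l 10) (.l 0)))) (.b (.b (.a (.l 6) (.l 6)) (.d (.a (.l 10) (.l 10)) (.c (.a (.a (.l 10)
  (.l 10)) (.a (.b (.l 6) (.l 10)) (.l 6))) (.l 10)))) (.c (.d (.a (.l 9) (.b (.l 10) (.l 0))) (.a
  (.b (.a (.l 9) (.l 9)) (.l 9)) (.a (.b (.b (.a (.l 10) (.l 10)) (.l 9)) (.l 0)) (.l 0)))) (.a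
  (.l 9) (.l 10))))) (.b (.l 10) (.l 9)))) (.l 10)))

theorem g112 : Good 1937866217 1922607427 1953125001 617545718780 3814698 15258790 1907349 244140626 :=
  chk_sound t112 _ _ _ _ _ _ _ _ (by decide +kernel)

def t113 : Tree :=
  (.b (.b (.l 3) (.b (.l 3) (.l 3))) (.b (.c (.d (.d (.l 10) (.a (.l 10) (.l 10))) (.d (.d (.l 10)
  (.a (.l 10) (.l 10))) (.c (.d (.b (.l 3) (.a (.l 6) (.l 0))) (.d (.b (.l 10) (.a (.l 6) (.l 0)))
  (.c (.d (.b (.l 10) (.a (.l 6) (.l 0))) (.b (.a (.l 3) (.l 3)) (.a (.a (.l 6) (.l 6)) (.l 0))))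
  (.b (.l 3) (.l 10))))) (.l 10)))) (.l 3)) (.l 0)))

theorem g113 : Good 1945495612 1922607427 1953125001 616080875028 3814698 15258790 1907349 976562501 :=
  chk_sound t113 _ _ _ _ _ _ _ _ (by decide +kernel)

def t114 : Tree :=
  (.b (.a (.l 3) (.l 3)) (.l 3))

theorem g114 : Good 1937866217 1922607427 1956939699 614127750027 7629395 15258790 1907349 1953125001 :=
  chk_sound t114 _ _ _ _ _ _ _ _ (by decide +kernel)

def t115 : Tree :=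
  (.a (.b (.l 3) (.l 2)) (.l 2))

theorem g115 : Good 1922607427 1922607427 1960754396 610221500026 15258790 15258790 3814698 3906250001 :=
  chk_sound t115 _ _ _ _ _ _ _ _ (by decide +kernel)

def t116 : Tree :=
  (.b (.l 3) (.l 2))

theorem g116 : Good 1922607427 1892089848 1968383791 602409000025 15258790 30517579 7629395 7812500001 :=
  chk_sound t116 _ _ _ _ _ _ _ _ (by decide +kernel)

def t117 : Tree :=
  (.a (.l 3) (.l 1))

theorem g117 : Good 1892089848 1892089848 1983642580 586784000024 30517579 30517579 15258790 15625000001 :=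
  chk_sound t117 _ _ _ _ _ _ _ _ (by decide +kernel)

def t118 : Tree :=
  (.b (.l 3) (.l 1))

theorem g118 : Good 1892089848 1831054691 2014160158 555534000022 30517579 61035157 30517579 31250000002 :=
  chk_sound t118 _ _ _ _ _ _ _ _ (by decide +kernel)

def t119 : Tree :=
  (.b (.a (.l 3) (.l 2)) (.l 2))

theorem g119 : Good 1831054691 1831054691 2075195314 493034000019 61035157 61035157 61035157 62500000003 :=
  chk_sound t119 _ _ _ _ _ _ _ _ (by decide +kernel)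

def t120 : Tree :=
  (.c (.l 2) (.l 2))

theorem g120 : Good 1831054691 1831054691 2197265627 493034000019 61035157 61035157 122070313 62500000003 :=
  chk_sound t120 _ _ _ _ _ _ _ _ (by decide +kernel)

def t121 : Tree :=
  (.c (.b (.c (.b (.l 0) (.a (.b (.l 0) (.c (.d (.l 3) (.a (.l 3) (.a (.l 3) (.l 3)))) (.l 0)))
  (.b (.c (.c (.d (.b (.a (.l 0) (.l 3)) (.l 3)) (.b (.b (.l 0) (.c (.a (.l 0) (.l 3)) (.l 0)))
  (.a (.b (.l 0) (.l 3)) (.l 3)))) (.l 0)) (.l 0)) (.c (.d (.l 3) (.a (.a (.l 3) (.l 3)) (.l 3)))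
  (.b (.l 0) (.c (.a (.l 3) (.l 3)) (.l 0))))))) (.l 0)) (.b (.c (.b (.a (.d (.l 3) (.a (.l 3) (.l
  3))) (.d (.l 3) (.a (.l 3) (.l 3)))) (.a (.a (.l 3) (.l 3)) (.a (.l 3) (.l 3)))) (.b (.c (.b (.l
  0) (.a (.l 0) (.a (.l 3) (.l 3)))) (.l 0)) (.a (.c (.a (.l 3) (.l 3)) (.l 0)) (.c (.l 3) (.b (.l
  0) (.l 3)))))) (.c (.a (.a (.l 2) (.l 2)) (.l 2)) (.b (.a (.a (.l 3) (.l 3)) (.a (.l 3) (.l 2)))
  (.l 2))))) (.b (.l 0) (.c (.b (.l 0) (.b (.c (.b (.l 0) (.a (.l 0) (.l 3))) (.l 0)) (.c (.a (.l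
  2) (.l 2)) (.b (.l 0) (.a (.l 0) (.l 2)))))) (.l 0))))

theorem g121 : Good 1464843752 1464843752 2441406252 493034000019 122070313 244140626 244140626 62500000003 :=
  chk_sound t121 _ _ _ _ _ _ _ _ (by decide +kernel)

def t122 : Tree :=
  (.b (.c (.b (.c (.b (.l 0) (.b (.l 0) (.c (.a (.l 0) (.b (.l 0) (.a (.l 0) (.c (.l 3) (.l 0)))))
  (.l 0)))) (.l 0)) (.b (.c (.d (.b (.c (.l 3) (.a (.l 0) (.l 3))) (.l 3)) (.b (.a (.c (.d (.l 3)
  (.a (.b (.l 0) (.l 3)) (.l 3))) (.l 0)) (.c (.l 3) (.b (.l 0) (.l 3)))) (.a (.d (.l 3) (.a (.l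
  3) (.l 3))) (.l 3)))) (.b (.l 0) (.c (.a (.l 0) (.b (.l 0) (.l 3))) (.l 0)))) (.c (.a (.l 3) (.l
  3)) (.b (.d (.a (.a (.l 3) (.l 3)) (.l 3)) (.a (.c (.l 3) (.l 0)) (.l 3))) (.a (.l 3) (.l
  3)))))) (.b (.l 0) (.c (.b (.l 0) (.b (.l 0) (.c (.a (.l 0) (.l 3)) (.l 0)))) (.l 0)))) (.b (.c
  (.b (.a (.l 3) (.l 3)) (.l 3)) (.b (.c (.a (.d (.l 3) (.a (.l 3) (.l 3))) (.l 3)) (.b (.l 0) (.c
  (.a (.l 0) (.l 3)) (.l 0)))) (.c (.l 3) (.d (.l 3) (.l 3))))) (.c (.l 2) (.a (.l 2) (.l 2)))))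

theorem g122 : Good 1708984378 1464843752 2441406252 493034000019 61035157 244140626 122070313 62500000003 :=
  chk_sound t122 _ _ _ _ _ _ _ _ (by decide +kernel)

def t123 : Tree :=
  (.b (.c (.b (.c (.b (.l 0) (.b (.c (.a (.l 0) (.d (.l 3) (.b (.a (.l 0) (.l 7)) (.a (.l 3) (.l
  3))))) (.l 0)) (.d (.a (.c (.l 3) (.l 0)) (.l 3)) (.a (.c (.d (.l 3) (.a (.d (.l 3) (.a (.l 3)
  (.l 3))) (.l 3))) (.l 0)) (.d (.l 3) (.c (.l 3) (.a (.b (.l 0) (.l 3)) (.l 3)))))))) (.l 0)) (.b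
  (.c (.d (.l 3) (.a (.a (.l 3) (.l 3)) (.l 3))) (.b (.c (.a (.l 0) (.c (.l 3) (.l 0))) (.l 0))
  (.a (.c (.l 3) (.l 0)) (.a (.l 3) (.l 3))))) (.c (.l 3) (.a (.l 3) (.l 3))))) (.b (.l 0) (.c (.b
  (.l 0) (.b (.c (.a (.l 0) (.l 3)) (.l 0)) (.d (.l 3) (.a (.l 3) (.l 3))))) (.l 0)))) (.b (.c (.a
  (.l 3) (.l 3)) (.b (.c (.l 3) (.b (.c (.a (.l 0) (.l 3)) (.l 0)) (.a (.l 3) (.l 3)))) (.a (.l 3)
  (.l 2)))) (.c (.l 2) (.l 2))))

theorem g123 : Good 1831054691 1464843752 2441406252 493034000019 61035157 244140626 122070313 62500000003 :=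
  chk_sound t123 _ _ _ _ _ _ _ _ (by decide +kernel)

def t124 : Tree :=
  (.b (.l 0) (.c (.b (.c (.b (.l 0) (.a (.l 0) (.b (.c (.l 3) (.l 0)) (.l 3)))) (.l 0)) (.b (.c
  (.a (.a (.l 3) (.l 3)) (.l 2)) (.a (.l 0) (.b (.a (.l 0) (.l 3)) (.l 3)))) (.a (.d (.l 3) (.l
  3)) (.l 2)))) (.b (.l 0) (.c (.b (.l 0) (.a (.l 0) (.c (.l 3) (.l 0)))) (.l 0)))))

theorem g124 : Good 1708984378 1464843752 2685546878 493034000019 122070313 244140626 122070313 62500000003 :=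
  chk_sound t124 _ _ _ _ _ _ _ _ (by decide +kernel)

def t125 : Tree :=
  (.l 0)

theorem g125 : Good 976562501 976562501 2929687502 493034000019 488281251 488281251 488281251 62500000003 :=
  chk_sound t125 _ _ _ _ _ _ _ _ (by decide +kernel)

def t126 : Tree :=
  (.l 0)

theorem g126 : Good 0 1953125001 0 493034000019 488281251 976562501 976562501 62500000003 :=
  chk_sound t126 _ _ _ _ _ _ _ _ (by decide +kernel)

def t127 : Tree :=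
  (.l 0)

theorem g127 : Good 976562501 1953125001 0 493034000019 488281251 488281251 488281251 62500000003 :=
  chk_sound t127 _ _ _ _ _ _ _ _ (by decide +kernel)

def t128 : Tree :=
  (.l 0)

theorem g128 : Good 976562501 1953125001 976562501 493034000019 244140626 488281251 488281251 62500000003 :=
  chk_sound t128 _ _ _ _ _ _ _ _ (by decide +kernel)

def t129 : Tree :=
  (.a (.l 0) (.c (.l 0) (.b (.a (.l 2) (.l 0)) (.l 0))))

theorem g129 : Good 1464843752 1953125001 976562501 493034000019 244140626 244140626 244140626 62500000003 :=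
  chk_sound t129 _ _ _ _ _ _ _ _ (by decide +kernel)

def t130 : Tree :=
  (.a (.c (.l 0) (.c (.l 0) (.b (.b (.d (.l 3) (.b (.d (.l 2) (.a (.l 3) (.c (.l 2) (.l 9)))) (.a
  (.l 2) (.l 2)))) (.a (.l 2) (.l 2))) (.l 2)))) (.b (.c (.a (.l 0) (.b (.l 1) (.l 1))) (.b (.d
  (.a (.l 2) (.l 9)) (.c (.a (.l 2) (.l 2)) (.b (.d (.a (.l 2) (.l 2)) (.a (.a (.l 3) (.l 9)) (.a
  (.l 9) (.c (.l 2) (.l 9))))) (.a (.l 2) (.l 2))))) (.c (.l 2) (.a (.l 2) (.l 2))))) (.c (.b (.l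
  2) (.l 0)) (.b (.c (.l 2) (.l 2)) (.l 2)))))

theorem g130 : Good 1464843752 1953125001 1464843752 493034000019 122070313 244140626 244140626 62500000003 :=
  chk_sound t130 _ _ _ _ _ _ _ _ (by decide +kernel)

def t131 : Tree :=
  (.c (.b (.b (.l 1) (.l 1)) (.b (.l 2) (.l 0))) (.b (.c (.a (.b (.l 1) (.l 1)) (.l 1)) (.a (.b
  (.d (.l 6) (.b (.d (.l 3) (.d (.l 9) (.b (.a (.l 9) (.l 9)) (.l 2)))) (.a (.l 2) (.l 2)))) (.b
  (.c (.l 1) (.l 2)) (.l 2))) (.d (.b (.b (.l 6) (.l 2)) (.l 5)) (.c (.b (.b (.a (.l 1) (.l 1))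
  (.l 1)) (.l 1)) (.b (.d (.b (.l 9) (.l 2)) (.b (.d (.a (.l 2) (.l 6)) (.b (.d (.l 9) (.a (.l 9)
  (.a (.l 3) (.l 9)))) (.a (.l 2) (.l 2)))) (.a (.l 2) (.l 2)))) (.b (.l 2) (.l 2))))))) (.b (.c
  (.l 2) (.a (.l 2) (.b (.l 2) (.l 2)))) (.c (.l 2) (.a (.l 2) (.l 2))))))

theorem g131 : Good 1708984378 1953125001 1464843752 493034000019 61035157 244140626 244140626 62500000003 :=
  chk_sound t131 _ _ _ _ _ _ _ _ (by decide +kernel)

def t132 : Tree :=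
  (.b (.l 1) (.l 2))

theorem g132 : Good 1831054691 1953125001 1464843752 493034000019 61035157 122070313 122070313 62500000003 :=
  chk_sound t132 _ _ _ _ _ _ _ _ (by decide +kernel)

def t133 : Tree :=
  (.c (.b (.l 1) (.l 2)) (.d (.b (.c (.l 1) (.d (.b (.l 6) (.l 2)) (.b (.l 9) (.l 5)))) (.b (.l 5)
  (.l 2))) (.c (.b (.l 1) (.b (.l 1) (.l 2))) (.a (.d (.b (.b (.l 6) (.l 2)) (.l 2)) (.b (.c (.b
  (.b (.l 2) (.l 1)) (.l 1)) (.b (.d (.l 9) (.b (.b (.d (.l 2) (.a (.l 3) (.c (.l 2) (.l 9)))) (.l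
  3)) (.l 2))) (.l 2))) (.b (.l 2) (.l 2)))) (.b (.c (.b (.l 1) (.l 1)) (.d (.b (.b (.l 6) (.l 2))
  (.l 2)) (.b (.c (.d (.l 9) (.b (.a (.l 2) (.l 2)) (.l 1))) (.d (.b (.l 9) (.l 2)) (.b (.d (.l 9)
  (.d (.a (.l 3) (.l 9)) (.b (.a (.l 9) (.a (.l 2) (.l 3))) (.l 2)))) (.a (.l 2) (.l 2))))) (.b
  (.a (.l 2) (.l 2)) (.l 2))))) (.b (.b (.l 2) (.l 2)) (.l 2)))))))

theorem g133 : Good 1831054691 1953125001 1708984378 493034000019 30517579 122070313 122070313 62500000003 :=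
  chk_sound t133 _ _ _ _ _ _ _ _ (by decide +kernel)

end Pool.Agent.Lib.MP_d3fc00_an
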