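import Pool.Agent.Lib.MP_d3fc00_an.Check

set_option maxRecDepth 100000

namespace Pool.Agent.Lib.MP_d3fc00_an

def t134 : Tree :=
  (.b (.l 1) (.l 2))

theorem g134 : Good 1892089848 1953125001 1708984378 493034000019 30517579 122070313 61035157 62500000003 :=
  chk_sound t134 _ _ _ _ _ _ _ _ (by decide +kernel)

def t135 : Tree :=
  (.b (.c (.b (.l 1) (.l 2)) (.b (.c (.a (.l 1) (.l 2)) (.a (.d (.l 9) (.b (.l 6) (.l 4))) (.b (.c
  (.a (.l 1) (.l 2)) (.d (.b (.a (.l 3) (.l 10)) (.l 6)) (.b (.a (.l 4) (.b (.l 9) (.a (.l 3) (.l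
  6)))) (.a (.l 3) (.l 6))))) (.b (.l 6) (.l 3))))) (.b (.l 9) (.l 3)))) (.b (.l 5) (.l 2)))

theorem g135 : Good 1892089848 1953125001 1831054691 493034000019 30517579 122070313 61035157 31250000002 :=
  chk_sound t135 _ _ _ _ _ _ _ _ (by decide +kernel)

def t136 : Tree :=
  (.b (.b (.l 1) (.l 1)) (.b (.l 2) (.l 2)))

theorem g136 : Good 1892089848 1953125001 1831054691 555534000022 30517579 122070313 30517579 31250000002 :=
  chk_sound t136 _ _ _ _ _ _ _ _ (by decide +kernel)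

def t137 : Tree :=
  (.d (.b (.c (.b (.l 1) (.l 1)) (.b (.c (.b (.l 1) (.l 1)) (.a (.b (.l 2) (.l 2)) (.b (.l 9) (.l
  5)))) (.b (.l 5) (.l 2)))) (.b (.l 2) (.l 2))) (.b (.c (.l 1) (.a (.c (.b (.l 1) (.l 2)) (.d (.b
  (.b (.l 6) (.l 2)) (.l 2)) (.b (.b (.d (.l 9) (.b (.b (.d (.l 2) (.a (.l 3) (.c (.l 2) (.l 3))))
  (.l 2)) (.l 2))) (.b (.l 2) (.l 2))) (.b (.l 2) (.l 2))))) (.c (.b (.l 1) (.b (.l 1) (.l 2)))
  (.d (.b (.b (.b (.l 6) (.l 2)) (.l 2)) (.l 2)) (.b (.c (.b (.l 1) (.l 1)) (.b (.d (.b (.l 9) (.l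
  2)) (.b (.d (.l 9) (.d (.l 9) (.b (.b (.a (.l 2) (.a (.l 2) (.l 2))) (.l 3)) (.l 2)))) (.a (.l
  2) (.l 2)))) (.b (.l 2) (.l 2)))) (.b (.l 2) (.l 2))))))) (.b (.b (.l 2) (.l 2)) (.l 2))))

theorem g137 : Good 1892089848 1953125001 1892089848 555534000022 15258790 122070313 30517579 31250000002 :=
  chk_sound t137 _ _ _ _ _ _ _ _ (by decide +kernel)

def t138 : Tree :=
  (.b (.c (.b (.l 1) (.l 2)) (.b (.c (.b (.l 1) (.l 2)) (.a (.c (.b (.b (.l 1) (.l 1)) (.l 2)) (.a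
  (.b (.l 9) (.l 2)) (.b (.b (.l 4) (.l 4)) (.b (.l 2) (.l 2))))) (.b (.c (.b (.l 1) (.l 2)) (.a
  (.c (.b (.b (.l 1) (.l 1)) (.l 2)) (.a (.b (.l 4) (.l 2)) (.b (.b (.l 4) (.l 4)) (.b (.l 2) (.l
  2))))) (.d (.b (.l 10) (.l 2)) (.b (.b (.l 1) (.l 6)) (.l 3))))) (.b (.l 3) (.l 2))))) (.b (.l
  5) (.l 2)))) (.b (.l 2) (.l 2)))

theorem g138 : Good 1922607427 1953125001 1892089848 555534000022 15258790 122070313 30517579 15625000001 :=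
  chk_sound t138 _ _ _ _ _ _ _ _ (by decide +kernel)

def t139 : Tree :=
  (.b (.l 1) (.l 2))

theorem g139 : Good 1922607427 1953125001 1892089848 586784000024 15258790 61035157 15258790 15625000001 :=
  chk_sound t139 _ _ _ _ _ _ _ _ (by decide +kernel)

def t140 : Tree :=
  (.d (.b (.c (.l 1) (.c (.b (.l 1) (.l 2)) (.a (.b (.b (.l 2) (.l 2)) (.l 2)) (.b (.b (.l 9) (.l
  5)) (.b (.l 2) (.l 2)))))) (.b (.l 2) (.l 2))) (.c (.b (.l 1) (.l 2)) (.b (.c (.b (.l 1) (.b (.l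
  1) (.l 2))) (.a (.c (.b (.d (.l 9) (.b (.l 3) (.l 1))) (.b (.l 2) (.l 2))) (.d (.b (.b (.l 3)
  (.l 2)) (.l 2)) (.b (.b (.d (.l 9) (.b (.b (.a (.l 3) (.a (.l 2) (.l 2))) (.l 2)) (.l 2))) (.l
  2)) (.l 2)))) (.d (.b (.b (.b (.l 6) (.l 2)) (.l 2)) (.l 2)) (.b (.c (.l 1) (.b (.d (.b (.l 9)
  (.l 2)) (.b (.d (.l 9) (.d (.l 9) (.d (.l 9) (.a (.l 9) (.b (.l 9) (.l 2)))))) (.a (.l 2) (.l
  2)))) (.b (.l 2) (.l 2)))) (.b (.l 2) (.l 2)))))) (.b (.b (.l 2) (.l 2)) (.l 2)))))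

theorem g140 : Good 1922607427 1953125001 1922607427 586784000024 7629395 61035157 15258790 15625000001 :=
  chk_sound t140 _ _ _ _ _ _ _ _ (by decide +kernel)

def t141 : Tree :=
  (.b (.c (.l 1) (.b (.c (.l 1) (.a (.c (.b (.l 1) (.l 2)) (.a (.b (.b (.l 2) (.l 2)) (.l 2)) (.b
  (.b (.l 4) (.l 6)) (.b (.l 2) (.l 2))))) (.c (.b (.l 1) (.l 2)) (.b (.b (.l 0) (.b (.l 10) (.l
  3))) (.b (.l 3) (.l 2)))))) (.b (.l 5) (.l 2)))) (.b (.l 2) (.l 2)))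

theorem g141 : Good 1937866217 1953125001 1922607427 586784000024 7629395 61035157 15258790 7812500001 :=
  chk_sound t141 _ _ _ _ _ _ _ _ (by decide +kernel)

def t142 : Tree :=
  (.c (.b (.l 1) (.l 2)) (.b (.c (.b (.l 1) (.b (.l 2) (.l 2))) (.a (.d (.b (.c (.l 1) (.a (.b (.b
  (.l 2) (.l 2)) (.l 2)) (.b (.b (.b (.l 1) (.l 2)) (.l 9)) (.b (.l 2) (.l 2))))) (.b (.l 2) (.l
  2))) (.b (.c (.l 1) (.c (.b (.b (.l 1) (.l 1)) (.b (.l 2) (.l 2))) (.a (.b (.d (.b (.l 3) (.l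
  2)) (.b (.b (.d (.l 2) (.b (.a (.l 2) (.l 3)) (.l 2))) (.l 2)) (.l 2))) (.b (.l 2) (.l 2))) (.d
  (.b (.b (.b (.l 0) (.l 2)) (.l 2)) (.l 2)) (.b (.b (.b (.l 0) (.a (.l 2) (.l 0))) (.b (.l 2) (.l
  2))) (.b (.l 2) (.l 2))))))) (.b (.b (.l 2) (.l 2)) (.l 2)))) (.d (.b (.c (.b (.l 1) (.l 2)) (.b
  (.b (.l 0) (.d (.l 6) (.a (.l 5) (.l 8)))) (.b (.l 2) (.l 2)))) (.b (.l 2) (.l 2))) (.b (.c (.b
  (.l 1) (.l 1)) (.a (.d (.b (.b (.l 0) (.b (.l 5) (.l 2))) (.b (.l 2) (.l 2))) (.c (.b (.l 1) (.l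
  2)) (.b (.b (.l 0) (.b (.b (.l 0) (.l 2)) (.a (.l 2) (.l 2)))) (.b (.b (.l 2) (.l 2)) (.l 2)))))
  (.d (.b (.b (.l 0) (.b (.l 1) (.l 2))) (.b (.l 2) (.l 2))) (.b (.b (.l 0) (.b (.l 1) (.b (.l 2)
  (.l 2)))) (.b (.b (.l 2) (.l 2)) (.l 2)))))) (.b (.b (.l 2) (.l 2)) (.l 2)))))) (.b (.b (.l 2)
  (.l 2)) (.l 2))))

theorem g142 : Good 1937866217 1953125001 1922607427 602409000025 7629395 61035157 15258790 7812500001 :=
  chk_sound t142 _ _ _ _ _ _ _ _ (by decide +kernel)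

def t143 : Tree :=
  (.b (.b (.l 2) (.l 2)) (.l 2))

theorem g143 : Good 1922607427 2075195314 1892089848 586784000024 15258790 61035157 30517579 15625000001 :=
  chk_sound t143 _ _ _ _ _ _ _ _ (by decide +kernel)

def t144 : Tree :=
  (.c (.l 0) (.b (.c (.a (.l 2) (.l 2)) (.d (.l 5) (.b (.a (.l 2) (.c (.l 2) (.l 2))) (.l 2))))
  (.d (.l 2) (.c (.l 2) (.l 2)))))

theorem g144 : Good 1831054691 2197265627 1464843752 493034000019 61035157 122070313 244140626 62500000003 :=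
  chk_sound t144 _ _ _ _ _ _ _ _ (by decide +kernel)

def t145 : Tree :=
  (.c (.l 0) (.c (.l 0) (.b (.a (.a (.l 2) (.b (.l 2) (.l 0))) (.b (.c (.l 0) (.a (.l 2) (.l 2)))
  (.l 0))) (.l 0))))

theorem g145 : Good 1464843752 2441406252 976562501 493034000019 244140626 244140626 488281251 62500000003 :=
  chk_sound t145 _ _ _ _ _ _ _ _ (by decide +kernel)

def t146 : Tree :=
  (.l 0)

theorem g146 : Good 976562501 2929687502 0 493034000019 488281251 488281251 976562501 62500000003 :=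
  chk_sound t146 _ _ _ _ _ _ _ _ (by decide +kernel)

def t147 : Tree :=
  (.b (.c (.a (.l 0) (.b (.c (.l 0) (.c (.l 0) (.a (.l 0) (.l 2)))) (.c (.l 0) (.l 0)))) (.a (.b
  (.l 0) (.l 0)) (.b (.c (.b (.l 0) (.l 0)) (.l 0)) (.l 0)))) (.l 0))

theorem g147 : Good 0 1953125001 1953125001 493034000019 488281251 976562501 976562501 62500000003 :=
  chk_sound t147 _ _ _ _ _ _ _ _ (by decide +kernel)

def t148 : Tree :=
  (.b (.c (.a (.c (.l 0) (.c (.l 0) (.b (.l 2) (.l 2)))) (.b (.c (.a (.l 0) (.b (.d (.l 2) (.b (.c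
  (.a (.l 0) (.l 3)) (.l 2)) (.l 2))) (.l 2))) (.b (.a (.l 2) (.c (.l 2) (.l 2))) (.l 2))) (.a (.l
  2) (.c (.l 2) (.l 2))))) (.a (.b (.c (.a (.l 2) (.l 2)) (.c (.l 2) (.b (.l 0) (.l 2)))) (.c (.l
  2) (.l 2))) (.b (.c (.b (.a (.l 2) (.l 2)) (.l 2)) (.b (.c (.a (.l 2) (.l 2)) (.l 0)) (.a (.l 2)
  (.l 2)))) (.c (.l 2) (.l 2))))) (.c (.a (.c (.l 0) (.b (.l 2) (.l 0))) (.b (.c (.l 2) (.l 2))
  (.c (.l 2) (.l 0)))) (.a (.l 2) (.b (.l 2) (.l 0)))))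

theorem g148 : Good 976562501 1953125001 1953125001 493034000019 244140626 488281251 488281251 62500000003 :=
  chk_sound t148 _ _ _ _ _ _ _ _ (by decide +kernel)

def t149 : Tree :=
  (.b (.a (.b (.c (.d (.c (.l 2) (.l 2)) (.b (.d (.l 2) (.c (.a (.l 3) (.c (.l 3) (.l 3))) (.l
  3))) (.c (.l 2) (.l 2)))) (.c (.l 2) (.l 2))) (.c (.c (.l 2) (.l 2)) (.l 2))) (.b (.c (.d (.a
  (.l 2) (.c (.l 2) (.l 2))) (.b (.c (.d (.a (.l 2) (.l 2)) (.a (.a (.l 3) (.l 3)) (.a (.l 9) (.c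
  (.l 9) (.l 2))))) (.a (.l 2) (.l 2))) (.a (.l 2) (.l 2)))) (.c (.l 2) (.l 2))) (.c (.a (.l 2)
  (.c (.l 2) (.l 2))) (.l 2)))) (.a (.c (.l 2) (.l 2)) (.b (.c (.l 2) (.l 1)) (.l 2))))

theorem g149 : Good 1464843752 1953125001 1953125001 493034000019 122070313 244140626 244140626 62500000003 :=
  chk_sound t149 _ _ _ _ _ _ _ _ (by decide +kernel)

def t150 : Tree :=
  (.c (.c (.b (.d (.a (.l 9) (.b (.l 9) (.l 2))) (.a (.b (.d (.l 3) (.b (.d (.l 2) (.a (.l 9) (.c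
  (.l 9) (.l 2)))) (.l 2))) (.c (.l 2) (.l 2))) (.b (.d (.c (.l 9) (.l 2)) (.c (.d (.a (.l 2) (.l
  6)) (.b (.d (.l 9) (.a (.l 9) (.a (.l 3) (.l 9)))) (.a (.l 2) (.l 2)))) (.l 2))) (.a (.l 2) (.l
  2))))) (.a (.b (.l 2) (.l 2)) (.d (.l 2) (.b (.l 2) (.l 2))))) (.b (.a (.b (.l 2) (.l 2)) (.l
  2)) (.a (.l 1) (.l 1)))) (.b (.l 2) (.l 1)))

theorem g150 : Good 1708984378 1953125001 1953125001 493034000019 61035157 122070313 244140626 62500000003 :=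
  chk_sound t150 _ _ _ _ _ _ _ _ (by decide +kernel)

def t151 : Tree :=
  (.c (.d (.b (.d (.b (.l 6) (.l 2)) (.b (.l 9) (.l 5))) (.b (.l 2) (.l 2))) (.a (.d (.b (.b (.l
  6) (.l 2)) (.l 2)) (.b (.b (.d (.l 9) (.b (.b (.d (.l 2) (.a (.l 3) (.a (.l 2) (.l 2)))) (.l 2))
  (.l 2))) (.l 2)) (.l 2))) (.d (.b (.b (.b (.l 6) (.l 2)) (.l 2)) (.l 2)) (.b (.c (.b (.d (.b (.l
  9) (.l 2)) (.b (.d (.l 9) (.b (.d (.l 9) (.b (.a (.l 3) (.a (.l 2) (.l 2))) (.l 2))) (.a (.l 2)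
  (.l 2)))) (.a (.l 2) (.l 2)))) (.b (.l 2) (.l 2))) (.b (.l 2) (.l 1))) (.b (.l 2) (.l 2))))))
  (.b (.d (.l 2) (.b (.l 2) (.l 1))) (.b (.l 1) (.l 1))))

theorem g151 : Good 1831054691 1953125001 1953125001 493034000019 30517579 122070313 61035157 62500000003 :=
  chk_sound t151 _ _ _ _ _ _ _ _ (by decide +kernel)

def t152 : Tree :=
  (.b (.c (.a (.b (.d (.l 9) (.b (.l 9) (.l 2))) (.b (.l 2) (.l 2))) (.b (.c (.c (.a (.b (.d (.l
  4) (.b (.l 4) (.l 2))) (.l 10)) (.b (.d (.b (.l 10) (.l 2)) (.b (.a (.b (.l 4) (.l 2)) (.l 9))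
  (.l 5))) (.b (.l 2) (.l 2)))) (.b (.l 2) (.l 2))) (.l 1)) (.b (.l 2) (.l 2)))) (.l 1)) (.b (.l
  2) (.l 2)))

theorem g152 : Good 1892089848 1953125001 1953125001 493034000019 30517579 122070313 61035157 31250000002 :=
  chk_sound t152 _ _ _ _ _ _ _ _ (by decide +kernel)

def t153 : Tree :=
  (.b (.c (.d (.b (.a (.b (.l 2) (.l 2)) (.b (.l 9) (.l 2))) (.b (.l 2) (.l 2))) (.c (.a (.d (.b
  (.b (.l 2) (.l 2)) (.l 2)) (.b (.b (.b (.d (.l 2) (.b (.d (.l 2) (.a (.l 2) (.l 3))) (.l 2)))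
  (.l 2)) (.l 2)) (.l 2))) (.d (.b (.b (.b (.l 6) (.l 2)) (.l 2)) (.l 2)) (.b (.c (.b (.d (.b (.l
  9) (.l 2)) (.b (.d (.l 9) (.b (.d (.l 9) (.b (.a (.l 2) (.l 3)) (.l 2))) (.l 2))) (.a (.l 2) (.l
  2)))) (.b (.l 2) (.l 2))) (.c (.b (.b (.a (.l 2) (.l 1)) (.l 1)) (.l 1)) (.l 1))) (.b (.l 2) (.l
  2))))) (.c (.b (.d (.l 1) (.b (.l 3) (.l 1))) (.b (.l 1) (.l 2))) (.b (.l 1) (.l 1))))) (.b (.l
  1) (.l 1))) (.b (.b (.l 2) (.l 2)) (.l 2)))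

theorem g153 : Good 1892089848 1953125001 1953125001 555534000022 15258790 122070313 30517579 31250000002 :=
  chk_sound t153 _ _ _ _ _ _ _ _ (by decide +kernel)

def t154 : Tree :=
  (.b (.c (.b (.c (.a (.c (.a (.b (.l 9) (.l 2)) (.b (.b (.l 4) (.l 2)) (.b (.l 2) (.l 2)))) (.b
  (.b (.l 2) (.l 1)) (.l 2))) (.b (.c (.a (.c (.d (.b (.l 4) (.l 2)) (.b (.b (.l 4) (.l 2)) (.l
  2))) (.b (.l 2) (.l 2))) (.b (.b (.l 1) (.b (.l 5) (.l 2))) (.b (.l 2) (.l 2)))) (.b (.l 1) (.l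
  1))) (.b (.l 2) (.l 2)))) (.b (.l 1) (.l 1))) (.b (.l 2) (.l 2))) (.b (.l 1) (.l 1))) (.b (.l 2)
  (.l 1)))

theorem g154 : Good 1922607427 1953125001 1953125001 555534000022 15258790 122070313 30517579 15625000001 :=
  chk_sound t154 _ _ _ _ _ _ _ _ (by decide +kernel)

def t155 : Tree :=
  (.c (.b (.c (.d (.a (.b (.b (.l 2) (.l 2)) (.l 2)) (.b (.b (.l 9) (.l 2)) (.l 2))) (.a (.d (.b
  (.b (.l 2) (.l 2)) (.l 2)) (.b (.b (.b (.d (.l 2) (.b (.a (.l 3) (.a (.l 2) (.l 2))) (.l 2)))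
  (.l 2)) (.l 2)) (.l 2))) (.d (.b (.b (.b (.l 3) (.l 2)) (.l 2)) (.l 2)) (.b (.c (.b (.d (.b (.l
  9) (.l 2)) (.b (.d (.l 9) (.b (.d (.l 9) (.a (.l 3) (.a (.l 2) (.l 2)))) (.l 2))) (.a (.l 2) (.l
  2)))) (.b (.l 2) (.l 2))) (.b (.l 1) (.l 1))) (.b (.l 2) (.l 2)))))) (.c (.d (.b (.l 1) (.l 1))
  (.b (.l 1) (.l 1))) (.l 1))) (.b (.b (.l 2) (.l 2)) (.l 2))) (.b (.l 1) (.b (.l 1) (.l 2))))

theorem g155 : Good 1922607427 1953125001 1953125001 586784000024 7629395 61035157 15258790 15625000001 :=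
  chk_sound t155 _ _ _ _ _ _ _ _ (by decide +kernel)

def t156 : Tree :=
  (.c (.d (.b (.c (.a (.c (.a (.b (.b (.l 2) (.l 2)) (.l 2)) (.b (.b (.l 4) (.l 2)) (.b (.l 2) (.l
  2)))) (.b (.l 1) (.l 1))) (.b (.b (.l 1) (.b (.l 10) (.l 2))) (.b (.l 2) (.l 2)))) (.l 1)) (.b
  (.l 2) (.l 2))) (.c (.a (.b (.c (.d (.b (.d (.b (.l 4) (.l 2)) (.b (.l 9) (.l 2))) (.b (.l 2)
  (.l 2))) (.c (.a (.b (.d (.b (.l 2) (.l 2)) (.b (.b (.d (.l 2) (.a (.l 3) (.b (.l 3) (.l 2))))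
  (.l 2)) (.l 2))) (.b (.l 2) (.l 2))) (.d (.b (.b (.b (.l 0) (.l 2)) (.l 2)) (.l 2)) (.b (.b (.b
  (.l 0) (.a (.l 2) (.l 0))) (.b (.l 2) (.l 2))) (.b (.l 2) (.l 2))))) (.c (.b (.b (.l 1) (.l 1))
  (.b (.l 1) (.l 2))) (.b (.l 1) (.l 1))))) (.b (.l 1) (.l 1))) (.b (.b (.l 2) (.l 2)) (.l 2)))
  (.d (.b (.c (.b (.b (.l 0) (.d (.l 3) (.a (.l 2) (.l 5)))) (.b (.l 2) (.l 2))) (.l 2)) (.b (.l
  2) (.l 2))) (.b (.c (.a (.c (.d (.b (.b (.l 0) (.b (.l 2) (.l 2))) (.b (.l 2) (.l 2))) (.b (.b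
  (.l 0) (.b (.b (.l 0) (.l 2)) (.l 2))) (.b (.l 2) (.l 2)))) (.b (.l 1) (.b (.l 1) (.l 2)))) (.d
  (.b (.b (.l 0) (.b (.l 1) (.l 2))) (.b (.l 2) (.l 2))) (.b (.b (.l 0) (.b (.l 1) (.a (.l 2) (.l
  2)))) (.b (.b (.l 2) (.l 2)) (.l 2))))) (.l 1)) (.b (.l 2) (.l 2))))) (.b (.l 1) (.l 2)))) (.l
  1))

theorem g156 : Good 1937866217 1953125001 1953125001 586784000024 7629395 30517579 15258790 15625000001 :=
  chk_sound t156 _ _ _ _ _ _ _ _ (by decide +kernel)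

def t157 : Tree :=
  (.b (.b (.l 2) (.l 2)) (.l 2))

theorem g157 : Good 1937866217 2014160158 1953125001 586784000024 7629395 30517579 15258790 15625000001 :=
  chk_sound t157 _ _ _ _ _ _ _ _ (by decide +kernel)

def t158 : Tree :=
  (.l 1)

theorem g158 : Good 1922607427 1953125001 1983642580 586784000024 15258790 61035157 15258790 15625000001 :=
  chk_sound t158 _ _ _ _ _ _ _ _ (by decide +kernel)

def t159 : Tree :=
  (.b (.b (.l 2) (.l 2)) (.l 2))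

theorem g159 : Good 1922607427 2075195314 1953125001 586784000024 15258790 61035157 30517579 15625000001 :=
  chk_sound t159 _ _ _ _ _ _ _ _ (by decide +kernel)

def t160 : Tree :=
  (.b (.l 1) (.b (.l 1) (.l 1)))

theorem g160 : Good 1892089848 1953125001 2014160158 555534000022 30517579 122070313 30517579 31250000002 :=
  chk_sound t160 _ _ _ _ _ _ _ _ (by decide +kernel)

def t161 : Tree :=
  (.b (.l 2) (.l 1))

theorem g161 : Good 1831054691 1953125001 2075195314 493034000019 61035157 122070313 61035157 62500000003 :=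
  chk_sound t161 _ _ _ _ _ _ _ _ (by decide +kernel)

def t162 : Tree :=
  (.l 2)

theorem g162 : Good 1831054691 1953125001 2197265627 493034000019 61035157 122070313 122070313 62500000003 :=
  chk_sound t162 _ _ _ _ _ _ _ _ (by decide +kernel)

def t163 : Tree :=
  (.c (.a (.b (.a (.l 2) (.b (.l 2) (.l 2))) (.c (.l 2) (.l 2))) (.b (.c (.d (.l 2) (.b (.a (.l 2)
  (.l 2)) (.l 2))) (.a (.l 1) (.l 1))) (.b (.l 2) (.l 2)))) (.a (.l 1) (.l 1)))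

theorem g163 : Good 1708984378 2197265627 1953125001 493034000019 122070313 122070313 244140626 62500000003 :=
  chk_sound t163 _ _ _ _ _ _ _ _ (by decide +kernel)

def t164 : Tree :=
  (.a (.b (.c (.b (.a (.l 2) (.l 2)) (.l 2)) (.b (.c (.a (.l 2) (.l 2)) (.b (.c (.b (.l 0) (.a (.l
  0) (.l 2))) (.l 0)) (.c (.l 2) (.b (.l 0) (.a (.l 0) (.l 2)))))) (.c (.l 2) (.a (.l 2) (.l
  2))))) (.c (.l 2) (.a (.l 2) (.l 2)))) (.b (.c (.c (.l 2) (.l 2)) (.b (.c (.a (.l 2) (.l 2)) (.b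
  (.c (.a (.l 2) (.l 2)) (.a (.l 0) (.b (.l 0) (.l 2)))) (.a (.l 2) (.l 2)))) (.a (.l 2) (.l 2))))
  (.c (.l 1) (.a (.l 2) (.l 1)))))

theorem g164 : Good 1464843752 1953125001 2441406252 493034000019 244140626 244140626 244140626 62500000003 :=
  chk_sound t164 _ _ _ _ _ _ _ _ (by decide +kernel)

def t165 : Tree :=
  (.c (.a (.b (.a (.l 2) (.c (.l 2) (.l 1))) (.c (.l 2) (.l 2))) (.b (.b (.c (.a (.l 2) (.l 2))
  (.l 2)) (.c (.l 2) (.l 2))) (.b (.c (.l 2) (.l 2)) (.c (.l 0) (.l 0))))) (.a (.b (.c (.l 1) (.l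
  1)) (.l 0)) (.c (.b (.l 1) (.l 1)) (.b (.l 1) (.l 0)))))

theorem g165 : Good 1464843752 2441406252 1953125001 493034000019 244140626 244140626 488281251 62500000003 :=
  chk_sound t165 _ _ _ _ _ _ _ _ (by decide +kernel)

def t166 : Tree :=
  (.a (.b (.c (.b (.l 0) (.c (.a (.a (.l 2) (.c (.l 2) (.b (.l 0) (.l 0)))) (.c (.a (.l 2) (.l 2))
  (.b (.l 0) (.l 0)))) (.l 0))) (.l 0)) (.l 0)) (.b (.c (.a (.b (.c (.c (.b (.l 0) (.c (.b (.b (.l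
  0) (.l 2)) (.l 2)) (.b (.l 0) (.b (.l 0) (.l 2))))) (.l 0)) (.l 0)) (.c (.c (.a (.l 2) (.l 2))
  (.b (.c (.b (.l 0) (.l 2)) (.l 0)) (.l 2))) (.b (.l 0) (.l 0)))) (.b (.c (.a (.c (.b (.l 0) (.c
  (.l 2) (.b (.l 0) (.l 2)))) (.l 0)) (.b (.c (.c (.b (.l 0) (.b (.l 0) (.l 2))) (.l 0)) (.l 0))
  (.c (.c (.l 2) (.b (.b (.l 0) (.l 2)) (.l 2))) (.c (.b (.l 0) (.b (.l 0) (.l 2))) (.l 0))))) (.l
  0)) (.c (.c (.a (.l 2) (.l 2)) (.b (.c (.a (.l 2) (.l 2)) (.b (.c (.a (.l 0) (.l 2)) (.l 0)) (.a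
  (.l 2) (.l 2)))) (.l 2))) (.a (.b (.l 0) (.c (.c (.l 2) (.b (.l 0) (.l 0))) (.l 0))) (.b (.c (.a
  (.l 0) (.b (.l 0) (.c (.b (.l 0) (.l 2)) (.l 0)))) (.l 0)) (.c (.b (.c (.l 2) (.c (.a (.l 0) (.l
  2)) (.l 0))) (.l 2)) (.b (.l 0) (.l 0)))))))) (.l 0)) (.c (.c (.a (.l 0) (.c (.l 1) (.l 0))) (.l
  0)) (.l 0))))

theorem g166 : Good 976562501 1953125001 2929687502 493034000019 488281251 488281251 488281251 62500000003 :=
  chk_sound t166 _ _ _ _ _ _ _ _ (by decide +kernel)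

def t167 : Tree :=
  (.l 0)

theorem g167 : Good 976562501 2929687502 1953125001 493034000019 488281251 488281251 976562501 62500000003 :=
  chk_sound t167 _ _ _ _ _ _ _ _ (by decide +kernel)

def t168 : Tree :=
  (.l 0)

theorem g168 : Good 1953125001 0 0 493034000019 488281251 488281251 976562501 62500000003 :=
  chk_sound t168 _ _ _ _ _ _ _ _ (by decide +kernel)

def t169 : Tree :=
  (.a (.b (.l 0) (.l 0)) (.l 0))

theorem g169 : Good 1953125001 976562501 0 493034000019 488281251 488281251 488281251 62500000003 :=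
  chk_sound t169 _ _ _ _ _ _ _ _ (by decide +kernel)

def t170 : Tree :=
  (.l 0)

theorem g170 : Good 1953125001 976562501 976562501 493034000019 244140626 244140626 488281251 62500000003 :=
  chk_sound t170 _ _ _ _ _ _ _ _ (by decide +kernel)

def t171 : Tree :=
  (.a (.c (.b (.l 0) (.l 0)) (.b (.l 1) (.l 1))) (.b (.l 0) (.c (.l 0) (.l 1))))

theorem g171 : Good 1953125001 1464843752 976562501 493034000019 244140626 244140626 244140626 62500000003 :=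
  chk_sound t171 _ _ _ _ _ _ _ _ (by decide +kernel)

def t172 : Tree :=
  (.b (.l 1) (.l 1))

theorem g172 : Good 1953125001 1464843752 1464843752 493034000019 61035157 244140626 122070313 62500000003 :=
  chk_sound t172 _ _ _ _ _ _ _ _ (by decide +kernel)

def t173 : Tree :=
  (.c (.c (.b (.l 1) (.l 1)) (.b (.b (.l 0) (.a (.l 3) (.l 1))) (.a (.l 1) (.l 1)))) (.b (.d (.a
  (.l 3) (.l 3)) (.a (.b (.l 3) (.l 3)) (.d (.l 4) (.b (.l 4) (.b (.l 4) (.l 10)))))) (.d (.b (.l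
  3) (.l 4)) (.a (.b (.a (.l 3) (.l 4)) (.b (.l 4) (.b (.l 3) (.l 4)))) (.c (.c (.l 1) (.d (.l 4)
  (.b (.l 10) (.a (.l 3) (.l 1))))) (.d (.b (.l 3) (.l 4)) (.b (.b (.l 10) (.l 10)) (.d (.l 10)
  (.b (.l 10) (.l 10))))))))))

theorem g173 : Good 1953125001 1464843752 1708984378 493034000019 61035157 122070313 122070313 62500000003 :=
  chk_sound t173 _ _ _ _ _ _ _ _ (by decide +kernel)

def t174 : Tree :=
  (.b (.l 1) (.l 2))

theorem g174 : Good 1953125001 1708984378 1708984378 493034000019 61035157 122070313 61035157 62500000003 :=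
  chk_sound t174 _ _ _ _ _ _ _ _ (by decide +kernel)

def t175 : Tree :=
  (.c (.b (.b (.l 1) (.l 1)) (.l 1)) (.b (.b (.l 3) (.l 7)) (.c (.c (.b (.l 1) (.l 1)) (.b (.a (.l
  1) (.l 1)) (.a (.l 1) (.l 2)))) (.a (.b (.b (.l 2) (.l 3)) (.c (.b (.l 10) (.l 2)) (.a (.b (.b
  (.l 2) (.l 3)) (.c (.b (.l 2) (.l 2)) (.a (.b (.l 10) (.l 10)) (.b (.l 10) (.b (.l 10) (.l
  9)))))) (.b (.l 10) (.d (.l 7) (.b (.l 3) (.l 5))))))) (.b (.b (.l 3) (.l 3)) (.d (.l 9) (.b (.l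
  4) (.l 7))))))))

theorem g175 : Good 1953125001 1708984378 1831054691 493034000019 30517579 122070313 61035157 31250000002 :=
  chk_sound t175 _ _ _ _ _ _ _ _ (by decide +kernel)

def t176 : Tree :=
  (.b (.b (.a (.l 3) (.l 1)) (.l 1)) (.l 1))

theorem g176 : Good 1953125001 1708984378 1831054691 555534000022 30517579 122070313 30517579 31250000002 :=
  chk_sound t176 _ _ _ _ _ _ _ _ (by decide +kernel)

def t177 : Tree :=
  (.b (.b (.l 3) (.c (.l 3) (.l 3))) (.d (.l 3) (.d (.l 10) (.b (.l 3) (.b (.l 3) (.l 4))))))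

theorem g177 : Good 1953125001 1708984378 1892089848 555534000022 15258790 61035157 30517579 31250000002 :=
  chk_sound t177 _ _ _ _ _ _ _ _ (by decide +kernel)

def t178 : Tree :=
  (.b (.l 1) (.l 1))

theorem g178 : Good 1953125001 1831054691 1892089848 555534000022 15258790 61035157 15258790 31250000002 :=
  chk_sound t178 _ _ _ _ _ _ _ _ (by decide +kernel)

def t179 : Tree :=
  (.a (.b (.b (.l 3) (.l 3)) (.c (.l 1) (.d (.b (.l 2) (.b (.l 3) (.b (.l 10) (.l 10)))) (.b (.l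
  7) (.c (.l 1) (.b (.l 10) (.c (.a (.l 1) (.l 2)) (.a (.b (.l 8) (.l 0)) (.b (.l 3) (.l
  5)))))))))) (.c (.b (.b (.l 1) (.l 1)) (.l 1)) (.b (.b (.l 3) (.l 3)) (.c (.b (.b (.l 2) (.l 1))
  (.b (.l 2) (.l 2))) (.a (.b (.b (.l 2) (.l 3)) (.b (.l 7) (.l 4))) (.b (.l 10) (.l 4)))))))

theorem g179 : Good 1953125001 1831054691 1922607427 555534000022 15258790 61035157 15258790 15625000001 :=
  chk_sound t179 _ _ _ _ _ _ _ _ (by decide +kernel)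

def t180 : Tree :=
  (.b (.b (.b (.l 3) (.l 3)) (.b (.a (.l 3) (.l 1)) (.l 1))) (.l 1))

theorem g180 : Good 1953125001 1831054691 1922607427 586784000024 15258790 61035157 7629395 15625000001 :=
  chk_sound t180 _ _ _ _ _ _ _ _ (by decide +kernel)

def t181 : Tree :=
  (.b (.b (.l 3) (.l 3)) (.c (.b (.l 2) (.l 1)) (.a (.d (.b (.l 3) (.b (.l 2) (.b (.l 3) (.l 1))))
  (.b (.l 7) (.b (.l 7) (.b (.l 10) (.l 1))))) (.d (.b (.l 3) (.b (.l 2) (.b (.l 2) (.l 4)))) (.b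
  (.l 7) (.c (.l 2) (.b (.l 4) (.b (.l 4) (.l 9)))))))))

theorem g181 : Good 1953125001 1831054691 1937866217 586784000024 7629395 61035157 7629395 7812500001 :=
  chk_sound t181 _ _ _ _ _ _ _ _ (by decide +kernel)

def t182 : Tree :=
  (.b (.b (.l 3) (.l 3)) (.d (.l 3) (.b (.l 3) (.b (.l 3) (.l 3)))))

theorem g182 : Good 1953125001 1831054691 1937866217 602409000025 7629395 30517579 7629395 7812500001 :=
  chk_sound t182 _ _ _ _ _ _ _ _ (by decide +kernel)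

def t183 : Tree :=
  (.b (.b (.a (.l 3) (.l 3)) (.l 1)) (.l 1))

theorem g183 : Good 1953125001 1892089848 1937866217 602409000025 7629395 30517579 3814698 7812500001 :=
  chk_sound t183 _ _ _ _ _ _ _ _ (by decide +kernel)

def t184 : Tree :=
  (.a (.b (.b (.l 3) (.l 3)) (.c (.l 1) (.d (.b (.l 4) (.b (.l 5) (.l 0))) (.b (.l 10) (.b (.a (.l
  7) (.l 7)) (.l 0)))))) (.c (.b (.b (.l 3) (.l 1)) (.l 1)) (.b (.b (.l 3) (.l 4)) (.a (.c (.b (.b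
  (.l 3) (.l 1)) (.l 2)) (.d (.b (.l 3) (.l 4)) (.b (.l 4) (.b (.l 4) (.l 4))))) (.b (.b (.l 4)
  (.l 4)) (.b (.l 4) (.l 4)))))))

theorem g184 : Good 1953125001 1892089848 1945495612 602409000025 7629395 30517579 3814698 3906250001 :=
  chk_sound t184 _ _ _ _ _ _ _ _ (by decide +kernel)

def t185 : Tree :=
  (.b (.d (.l 3) (.b (.l 4) (.b (.l 4) (.b (.l 3) (.l 4))))) (.d (.l 10) (.d (.l 10) (.d (.a (.l
  10) (.l 10)) (.c (.l 10) (.d (.a (.l 10) (.l 10)) (.b (.a (.l 3) (.l 10)) (.b (.l 10) (.d (.l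
  10) (.l 10))))))))))

theorem g185 : Good 1953125001 1892089848 1945495612 610221500026 7629395 15258790 3814698 3906250001 :=
  chk_sound t185 _ _ _ _ _ _ _ _ (by decide +kernel)

def t186 : Tree :=
  (.b (.l 1) (.l 1))

theorem g186 : Good 1953125001 1922607427 1945495612 610221500026 7629395 15258790 1907349 3906250001 :=
  chk_sound t186 _ _ _ _ _ _ _ _ (by decide +kernel)

def t187 : Tree :=
  (.c (.b (.b (.l 3) (.l 1)) (.l 1)) (.a (.b (.b (.l 3) (.l 3)) (.b (.b (.l 3) (.l 0)) (.l 0)))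
  (.d (.b (.l 4) (.b (.l 4) (.l 0))) (.b (.l 10) (.b (.l 10) (.l 0))))))

theorem g187 : Good 1953125001 1922607427 1949310310 610221500026 3814698 15258790 1907349 1953125001 :=
  chk_sound t187 _ _ _ _ _ _ _ _ (by decide +kernel)

def t188 : Tree :=
  (.d (.b (.l 4) (.l 10)) (.d (.b (.l 10) (.l 10)) (.d (.b (.l 10) (.l 10)) (.c (.l 10) (.d (.b
  (.l 10) (.l 10)) (.b (.b (.l 3) (.a (.l 3) (.l 10))) (.c (.l 10) (.d (.a (.l 10) (.l 10)) (.b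
  (.a (.l 3) (.l 10)) (.b (.l 10) (.d (.l 10) (.l 10))))))))))))

theorem g188 : Good 1953125001 1922607427 1949310310 614127750027 3814698 7629395 1907349 1953125001 :=
  chk_sound t188 _ _ _ _ _ _ _ _ (by decide +kernel)

def t189 : Tree :=
  (.b (.c (.l 1) (.c (.c (.a (.b (.l 1) (.l 0)) (.l 1)) (.b (.d (.l 4) (.d (.l 7) (.a (.l 3) (.l
  10)))) (.a (.l 0) (.l 1)))) (.a (.b (.d (.l 3) (.d (.l 4) (.d (.l 10) (.d (.l 10) (.d (.l 10)
  (.d (.l 10) (.b (.l 10) (.b (.l 10) (.l 10))))))))) (.l 0)) (.b (.d (.l 7) (.d (.l 10) (.d (.l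
  10) (.d (.l 10) (.d (.l 10) (.d (.l 10) (.d (.l 10) (.b (.l 10) (.a (.l 10) (.l 10)))))))))) (.d
  (.l 10) (.b (.d (.l 10) (.d (.l 10) (.d (.l 10) (.d (.l 10) (.d (.l 10) (.d (.l 10) (.c (.l 10)
  (.a (.a (.l 0) (.l 10)) (.l 10))))))))) (.l 0))))))) (.l 0))

theorem g189 : Good 1953125001 1937866217 1949310310 614127750027 3814698 7629395 1907349 1953125001 :=
  chk_sound t189 _ _ _ _ _ _ _ _ (by decide +kernel)

end Pool.Agent.Lib.MP_d3fc00_an
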