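import Pool.Agent.Lib.MP_d3fc00_an.Check

set_option maxRecDepth 100000

namespace Pool.Agent.Lib.MP_d3fc00_an

def t190 : Tree :=
  (.c (.b (.l 1) (.l 1)) (.a (.b (.b (.d (.l 3) (.d (.l 3) (.b (.l 4) (.l 10)))) (.l 1)) (.l 1))
  (.b (.b (.b (.d (.l 1) (.b (.l 10) (.l 10))) (.l 1)) (.l 1)) (.b (.l 1) (.l 1)))))

theorem g190 : Good 1960754396 1922607427 1949310310 610221500026 3814698 15258790 953675 3906250001 :=
  chk_sound t190 _ _ _ _ _ _ _ _ (by decide +kernel)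

def t191 : Tree :=
  (.a (.d (.b (.l 4) (.l 4)) (.b (.l 7) (.b (.l 4) (.l 0)))) (.b (.b (.l 4) (.l 7)) (.b (.l 4) (.l
  4))))

theorem g191 : Good 1960754396 1922607427 1951217659 610221500026 1907349 15258790 953675 1953125001 :=
  chk_sound t191 _ _ _ _ _ _ _ _ (by decide +kernel)

def t192 : Tree :=
  (.b (.b (.l 10) (.l 10)) (.b (.b (.l 7) (.l 7)) (.l 7)))

theorem g192 : Good 1960754396 1922607427 1951217659 614127750027 1907349 15258790 953675 976562501 :=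
  chk_sound t192 _ _ _ _ _ _ _ _ (by decide +kernel)

def t193 : Tree :=
  (.b (.d (.b (.l 10) (.l 10)) (.d (.b (.l 10) (.l 10)) (.d (.b (.l 10) (.l 10)) (.b (.b (.l 10)
  (.l 10)) (.d (.l 10) (.c (.l 10) (.b (.l 10) (.b (.l 10) (.a (.l 10) (.l 10)))))))))) (.c (.c
  (.l 1) (.b (.b (.a (.l 1) (.l 1)) (.l 1)) (.b (.l 1) (.l 0)))) (.b (.d (.b (.l 10) (.l 10)) (.d
  (.b (.l 10) (.l 10)) (.d (.b (.l 10) (.l 10)) (.d (.b (.l 10) (.l 10)) (.c (.l 10) (.d (.b (.l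
  10) (.l 10)) (.b (.b (.l 10) (.a (.l 10) (.l 10))) (.d (.l 10) (.c (.l 10) (.a (.b (.l 10) (.l
  10)) (.l 10))))))))))) (.b (.a (.l 0) (.d (.l 7) (.b (.b (.a (.a (.l 0) (.l 1)) (.l 1)) (.l 1))
  (.l 1)))) (.l 0)))))

theorem g193 : Good 1960754396 1922607427 1951217659 616080875028 1907349 15258790 953675 976562501 :=
  chk_sound t193 _ _ _ _ _ _ _ _ (by decide +kernel)

def t194 : Tree :=
  (.b (.b (.l 7) (.l 7)) (.b (.l 7) (.l 4)))

theorem g194 : Good 1964569094 1922607427 1951217659 610221500026 1907349 15258790 953675 1953125001 :=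
  chk_sound t194 _ _ _ _ _ _ _ _ (by decide +kernel)

def t195 : Tree :=
  (.c (.b (.d (.l 10) (.d (.l 10) (.d (.l 10) (.b (.l 10) (.l 10))))) (.b (.b (.l 1) (.l 1)) (.l
  7))) (.d (.b (.b (.l 10) (.l 7)) (.l 7)) (.b (.d (.b (.l 10) (.l 10)) (.d (.b (.l 10) (.l 10))
  (.d (.b (.l 10) (.l 10)) (.b (.b (.l 10) (.l 10)) (.b (.l 10) (.b (.l 10) (.l 10))))))) (.d (.b
  (.l 10) (.l 7)) (.b (.d (.l 10) (.d (.l 10) (.d (.l 10) (.d (.l 10) (.b (.l 10) (.b (.l 10) (.l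
  10))))))) (.a (.l 7) (.l 7)))))))

theorem g195 : Good 1964569094 1922607427 1951217659 614127750027 953675 15258790 953675 1953125001 :=
  chk_sound t195 _ _ _ _ _ _ _ _ (by decide +kernel)

def t196 : Tree :=
  (.c (.b (.d (.l 10) (.d (.l 10) (.d (.l 10) (.b (.l 10) (.l 10))))) (.b (.b (.l 1) (.l 1)) (.l
  7))) (.d (.b (.l 10) (.l 7)) (.b (.d (.l 10) (.d (.l 10) (.d (.b (.l 10) (.l 10)) (.b (.b (.l
  10) (.l 10)) (.b (.l 10) (.b (.l 10) (.l 10))))))) (.b (.d (.l 10) (.d (.l 10) (.d (.l 10) (.d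
  (.l 10) (.b (.b (.l 10) (.l 10)) (.b (.l 10) (.l 1))))))) (.l 7)))))

theorem g196 : Good 1966476443 1922607427 1951217659 614127750027 953675 15258790 953675 1953125001 :=
  chk_sound t196 _ _ _ _ _ _ _ _ (by decide +kernel)

def t197 : Tree :=
  (.b (.b (.l 3) (.l 7)) (.c (.b (.l 1) (.l 2)) (.a (.d (.b (.l 3) (.l 4)) (.b (.l 7) (.b (.l 4)
  (.l 4)))) (.b (.b (.l 3) (.l 4)) (.b (.l 4) (.l 4))))))

theorem g197 : Good 1968383791 1831054691 1937866217 586784000024 7629395 61035157 7629395 7812500001 :=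
  chk_sound t197 _ _ _ _ _ _ _ _ (by decide +kernel)

def t198 : Tree :=
  (.b (.b (.l 4) (.b (.l 3) (.b (.l 3) (.l 4)))) (.d (.l 10) (.d (.l 10) (.d (.l 10) (.b (.l 10)
  (.b (.l 10) (.a (.l 10) (.l 10))))))))

theorem g198 : Good 1968383791 1831054691 1937866217 602409000025 7629395 30517579 7629395 7812500001 :=
  chk_sound t198 _ _ _ _ _ _ _ _ (by decide +kernel)

def t199 : Tree :=
  (.b (.l 1) (.b (.l 1) (.l 1)))

theorem g199 : Good 1968383791 1892089848 1937866217 602409000025 7629395 30517579 3814698 7812500001 :=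
  chk_sound t199 _ _ _ _ _ _ _ _ (by decide +kernel)

def t200 : Tree :=
  (.c (.b (.b (.b (.a (.l 3) (.l 1)) (.l 1)) (.l 1)) (.l 1)) (.d (.b (.b (.l 3) (.l 1)) (.b (.l 1)
  (.l 1))) (.b (.b (.d (.l 4) (.b (.l 10) (.l 10))) (.l 1)) (.b (.l 1) (.l 1)))))

theorem g200 : Good 1968383791 1892089848 1945495612 602409000025 3814698 30517579 1907349 7812500001 :=
  chk_sound t200 _ _ _ _ _ _ _ _ (by decide +kernel)

def t201 : Tree :=
  (.a (.d (.b (.l 4) (.l 4)) (.b (.l 7) (.b (.l 4) (.l 4)))) (.b (.b (.l 3) (.l 7)) (.b (.l 4) (.l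
  4))))

theorem g201 : Good 1968383791 1892089848 1949310310 602409000025 3814698 30517579 1907349 3906250001 :=
  chk_sound t201 _ _ _ _ _ _ _ _ (by decide +kernel)

def t202 : Tree :=
  (.a (.b (.b (.l 4) (.l 10)) (.b (.l 10) (.l 7))) (.b (.b (.l 10) (.l 10)) (.b (.l 7) (.l 7))))

theorem g202 : Good 1968383791 1892089848 1949310310 610221500026 3814698 30517579 1907349 1953125001 :=
  chk_sound t202 _ _ _ _ _ _ _ _ (by decide +kernel)

def t203 : Tree :=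
  (.d (.b (.l 10) (.l 10)) (.b (.d (.l 10) (.b (.l 10) (.l 10))) (.d (.l 10) (.d (.l 10) (.b (.l
  10) (.b (.l 10) (.a (.l 10) (.l 10))))))))

theorem g203 : Good 1968383791 1892089848 1949310310 614127750027 3814698 15258790 1907349 1953125001 :=
  chk_sound t203 _ _ _ _ _ _ _ _ (by decide +kernel)

def t204 : Tree :=
  (.b (.c (.b (.a (.b (.b (.l 10) (.l 1)) (.l 1)) (.l 1)) (.l 1)) (.d (.b (.l 10) (.l 10)) (.d (.b
  (.l 10) (.l 10)) (.d (.b (.l 10) (.l 10)) (.d (.b (.l 10) (.l 10)) (.b (.b (.l 10) (.a (.l 10)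
  (.l 10))) (.d (.l 10) (.c (.l 10) (.a (.b (.l 10) (.l 10)) (.l 10)))))))))) (.d (.b (.l 7) (.l
  7)) (.d (.b (.l 10) (.l 7)) (.c (.l 10) (.b (.d (.l 10) (.d (.a (.l 10) (.l 10)) (.c (.l 10) (.d
  (.a (.l 10) (.l 10)) (.a (.d (.l 10) (.b (.l 10) (.a (.l 10) (.l 1)))) (.b (.l 10) (.l 1)))))))
  (.a (.l 7) (.l 1)))))))

theorem g204 : Good 1968383791 1922607427 1949310310 614127750027 3814698 15258790 1907349 1953125001 :=
  chk_sound t204 _ _ _ _ _ _ _ _ (by decide +kernel)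

def t205 : Tree :=
  (.b (.b (.l 7) (.l 7)) (.b (.l 7) (.l 7)))

theorem g205 : Good 1976013186 1892089848 1945495612 602409000025 3814698 30517579 3814698 3906250001 :=
  chk_sound t205 _ _ _ _ _ _ _ _ (by decide +kernel)

def t206 : Tree :=
  (.c (.b (.l 1) (.l 1)) (.b (.b (.d (.l 7) (.b (.l 10) (.l 10))) (.l 1)) (.b (.l 1) (.l 1))))

theorem g206 : Good 1976013186 1892089848 1945495612 610221500026 3814698 30517579 1907349 3906250001 :=
  chk_sound t206 _ _ _ _ _ _ _ _ (by decide +kernel)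

def t207 : Tree :=
  (.d (.b (.b (.l 10) (.l 7)) (.l 7)) (.c (.b (.d (.l 10) (.d (.l 10) (.b (.l 10) (.b (.l 10) (.l
  10))))) (.b (.b (.b (.l 1) (.l 1)) (.l 1)) (.l 7))) (.b (.d (.b (.l 10) (.l 10)) (.d (.b (.l 10)
  (.l 10)) (.b (.b (.l 10) (.l 10)) (.b (.l 10) (.b (.l 10) (.l 10)))))) (.d (.b (.l 10) (.l 7))
  (.b (.d (.l 10) (.d (.l 10) (.d (.l 10) (.b (.l 10) (.b (.l 10) (.l 10)))))) (.a (.b (.l 7) (.l
  1)) (.l 7)))))))

theorem g207 : Good 1976013186 1892089848 1949310310 610221500026 1907349 30517579 1907349 3906250001 :=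
  chk_sound t207 _ _ _ _ _ _ _ _ (by decide +kernel)

def t208 : Tree :=
  (.d (.b (.l 10) (.l 7)) (.c (.b (.d (.l 10) (.d (.l 10) (.b (.l 10) (.b (.l 10) (.l 10))))) (.b
  (.b (.b (.l 1) (.l 1)) (.l 1)) (.l 7))) (.b (.d (.l 10) (.d (.l 10) (.b (.l 10) (.b (.l 10) (.b
  (.l 10) (.l 10)))))) (.b (.d (.l 10) (.d (.l 10) (.d (.l 10) (.b (.l 10) (.b (.l 10) (.l 1))))))
  (.l 7)))))

theorem g208 : Good 1979827884 1892089848 1949310310 610221500026 1907349 30517579 1907349 3906250001 :=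
  chk_sound t208 _ _ _ _ _ _ _ _ (by decide +kernel)

def t209 : Tree :=
  (.b (.b (.l 3) (.l 7)) (.c (.b (.l 1) (.l 1)) (.c (.b (.b (.l 3) (.l 1)) (.b (.l 4) (.l 4))) (.a
  (.d (.b (.l 3) (.l 4)) (.b (.l 7) (.b (.l 4) (.l 4)))) (.b (.l 10) (.b (.l 4) (.l 4)))))))

theorem g209 : Good 1983642580 1708984378 1892089848 555534000022 15258790 122070313 30517579 15625000001 :=
  chk_sound t209 _ _ _ _ _ _ _ _ (by decide +kernel)

def t210 : Tree :=
  (.b (.b (.l 4) (.d (.l 3) (.c (.l 3) (.l 10)))) (.d (.l 10) (.d (.b (.l 4) (.l 10)) (.b (.c (.l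
  3) (.l 10)) (.b (.l 10) (.c (.l 1) (.l 10)))))))

theorem g210 : Good 1983642580 1708984378 1892089848 586784000024 15258790 61035157 30517579 15625000001 :=
  chk_sound t210 _ _ _ _ _ _ _ _ (by decide +kernel)

def t211 : Tree :=
  (.l 1)

theorem g211 : Good 1983642580 1831054691 1892089848 586784000024 15258790 61035157 15258790 15625000001 :=
  chk_sound t211 _ _ _ _ _ _ _ _ (by decide +kernel)

def t212 : Tree :=
  (.b (.b (.a (.b (.a (.l 3) (.l 1)) (.l 1)) (.l 1)) (.l 1)) (.c (.l 1) (.a (.l 1) (.b (.l 1) (.l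
  1)))))

theorem g212 : Good 1983642580 1831054691 1922607427 586784000024 15258790 61035157 7629395 15625000001 :=
  chk_sound t212 _ _ _ _ _ _ _ _ (by decide +kernel)

def t213 : Tree :=
  (.a (.b (.b (.l 3) (.l 4)) (.b (.l 7) (.l 4))) (.b (.b (.l 3) (.l 7)) (.b (.l 7) (.l 4))))

theorem g213 : Good 1983642580 1831054691 1937866217 586784000024 7629395 61035157 7629395 7812500001 :=
  chk_sound t213 _ _ _ _ _ _ _ _ (by decide +kernel)

def t214 : Tree :=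
  (.c (.b (.b (.b (.l 10) (.b (.l 10) (.l 1))) (.l 1)) (.l 1)) (.b (.b (.d (.l 4) (.b (.l 10) (.l
  10))) (.b (.d (.l 1) (.a (.l 10) (.l 10))) (.l 1))) (.b (.l 1) (.b (.l 1) (.l 1)))))

theorem g214 : Good 1983642580 1831054691 1937866217 602409000025 7629395 61035157 3814698 7812500001 :=
  chk_sound t214 _ _ _ _ _ _ _ _ (by decide +kernel)

def t215 : Tree :=
  (.a (.d (.b (.l 7) (.l 7)) (.b (.l 10) (.b (.l 7) (.l 7)))) (.b (.b (.l 10) (.l 10)) (.b (.l 7)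
  (.l 7))))

theorem g215 : Good 1983642580 1831054691 1945495612 602409000025 7629395 61035157 3814698 3906250001 :=
  chk_sound t215 _ _ _ _ _ _ _ _ (by decide +kernel)

def t216 : Tree :=
  (.b (.d (.l 10) (.b (.l 10) (.l 10))) (.d (.l 10) (.d (.l 10) (.b (.l 10) (.b (.l 10) (.l
  10))))))

theorem g216 : Good 1983642580 1831054691 1945495612 610221500026 7629395 30517579 3814698 3906250001 :=
  chk_sound t216 _ _ _ _ _ _ _ _ (by decide +kernel)

def t217 : Tree :=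
  (.b (.c (.d (.l 10) (.d (.l 10) (.d (.l 10) (.b (.l 10) (.l 1))))) (.b (.d (.l 10) (.d (.l 10)
  (.d (.l 10) (.b (.l 10) (.a (.l 10) (.l 10)))))) (.d (.l 10) (.d (.l 10) (.d (.l 10) (.d (.l 10)
  (.a (.b (.l 10) (.l 10)) (.l 10)))))))) (.d (.b (.l 7) (.l 7)) (.b (.d (.l 10) (.d (.a (.l 10)
  (.l 7)) (.c (.l 10) (.d (.a (.l 10) (.l 10)) (.a (.d (.l 10) (.b (.l 10) (.a (.l 10) (.l 1))))
  (.b (.l 10) (.l 1))))))) (.a (.b (.l 7) (.l 1)) (.l 7)))))

theorem g217 : Good 1983642580 1892089848 1945495612 610221500026 7629395 30517579 3814698 3906250001 :=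
  chk_sound t217 _ _ _ _ _ _ _ _ (by decide +kernel)

def t218 : Tree :=
  (.b (.b (.l 7) (.l 7)) (.b (.l 7) (.l 7)))

theorem g218 : Good 1998901370 1831054691 1937866217 586784000024 7629395 61035157 7629395 7812500001 :=
  chk_sound t218 _ _ _ _ _ _ _ _ (by decide +kernel)

def t219 : Tree :=
  (.c (.b (.b (.b (.l 10) (.b (.l 10) (.l 10))) (.l 1)) (.b (.l 1) (.l 7))) (.d (.b (.b (.l 10)
  (.l 7)) (.l 7)) (.a (.b (.d (.b (.l 10) (.l 10)) (.b (.b (.l 10) (.l 10)) (.b (.l 10) (.b (.l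
  10) (.l 10))))) (.b (.d (.l 10) (.d (.l 10) (.b (.l 10) (.b (.l 10) (.l 10))))) (.a (.l 7) (.l
  7)))) (.b (.d (.b (.l 10) (.l 10)) (.b (.l 10) (.b (.l 10) (.l 10)))) (.b (.d (.l 7) (.d (.l 10)
  (.b (.l 10) (.b (.l 10) (.l 10))))) (.l 7))))))

theorem g219 : Good 1998901370 1831054691 1937866217 602409000025 3814698 61035157 7629395 7812500001 :=
  chk_sound t219 _ _ _ _ _ _ _ _ (by decide +kernel)

def t220 : Tree :=
  (.b (.d (.l 10) (.d (.b (.l 10) (.l 10)) (.b (.b (.l 10) (.l 10)) (.b (.l 10) (.b (.l 10) (.l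
  10)))))) (.d (.l 7) (.b (.d (.l 7) (.c (.l 1) (.d (.l 10) (.b (.l 10) (.b (.l 10) (.l 10))))))
  (.b (.l 7) (.l 1)))))

theorem g220 : Good 2006530765 1831054691 1937866217 602409000025 3814698 61035157 7629395 7812500001 :=
  chk_sound t220 _ _ _ _ _ _ _ _ (by decide +kernel)

def t221 : Tree :=
  (.b (.b (.l 1) (.l 1)) (.d (.l 4) (.b (.l 1) (.l 2))))

theorem g221 : Good 2014160158 1708984378 1831054691 493034000019 30517579 122070313 30517579 62500000003 :=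
  chk_sound t221 _ _ _ _ _ _ _ _ (by decide +kernel)

def t222 : Tree :=
  (.a (.c (.b (.b (.l 3) (.l 3)) (.b (.l 2) (.l 2))) (.d (.b (.l 3) (.l 4)) (.b (.l 7) (.b (.l 4)
  (.l 4))))) (.b (.b (.l 3) (.l 4)) (.b (.l 4) (.l 4))))

theorem g222 : Good 2014160158 1708984378 1892089848 493034000019 30517579 122070313 30517579 31250000002 :=
  chk_sound t222 _ _ _ _ _ _ _ _ (by decide +kernel)

def t223 : Tree :=
  (.b (.b (.d (.l 1) (.b (.l 10) (.l 10))) (.l 1)) (.c (.l 1) (.b (.l 1) (.d (.l 2) (.l 1)))))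

theorem g223 : Good 2014160158 1708984378 1892089848 555534000022 15258790 122070313 15258790 31250000002 :=
  chk_sound t223 _ _ _ _ _ _ _ _ (by decide +kernel)

def t224 : Tree :=
  (.b (.b (.l 4) (.l 7)) (.b (.b (.l 4) (.l 7)) (.b (.l 7) (.l 5))))

theorem g224 : Good 2014160158 1708984378 1922607427 555534000022 15258790 122070313 15258790 15625000001 :=
  chk_sound t224 _ _ _ _ _ _ _ _ (by decide +kernel)

def t225 : Tree :=
  (.b (.b (.b (.l 10) (.b (.l 10) (.l 10))) (.d (.l 10) (.d (.l 10) (.b (.l 10) (.b (.l 10) (.l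
  10)))))) (.b (.d (.l 10) (.c (.l 1) (.d (.b (.l 10) (.l 7)) (.c (.b (.b (.l 10) (.l 1)) (.l 1))
  (.d (.b (.l 10) (.l 10)) (.b (.b (.l 10) (.l 10)) (.b (.l 10) (.a (.l 10) (.l 10))))))))) (.d
  (.l 7) (.d (.l 7) (.c (.b (.l 1) (.l 1)) (.b (.d (.l 7) (.d (.l 10) (.d (.l 10) (.b (.l 10) (.a
  (.l 10) (.l 7)))))) (.b (.l 7) (.l 7))))))))

theorem g225 : Good 2014160158 1708984378 1922607427 586784000024 7629395 122070313 15258790 15625000001 :=
  chk_sound t225 _ _ _ _ _ _ _ _ (by decide +kernel)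

def t226 : Tree :=
  (.c (.b (.b (.b (.l 10) (.l 10)) (.b (.b (.l 10) (.l 10)) (.l 1))) (.b (.b (.l 1) (.l 1)) (.b
  (.b (.l 1) (.l 1)) (.l 7)))) (.d (.b (.b (.l 7) (.l 7)) (.b (.l 7) (.l 7))) (.b (.b (.b (.l 10)
  (.l 10)) (.b (.l 10) (.b (.l 10) (.l 10)))) (.b (.d (.l 10) (.d (.l 10) (.b (.l 10) (.b (.l 10)
  (.l 10))))) (.b (.d (.l 7) (.b (.d (.l 7) (.a (.l 10) (.l 7))) (.l 7))) (.l 7))))))

theorem g226 : Good 2029418948 1708984378 1922607427 586784000024 7629395 122070313 15258790 15625000001 :=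
  chk_sound t226 _ _ _ _ _ _ _ _ (by decide +kernel)

def t227 : Tree :=
  (.b (.c (.b (.b (.b (.l 10) (.l 1)) (.l 1)) (.l 1)) (.b (.d (.l 7) (.b (.l 10) (.b (.l 10) (.l
  10)))) (.d (.l 7) (.d (.l 10) (.d (.l 10) (.b (.l 10) (.a (.l 10) (.l 10)))))))) (.d (.b (.l 7)
  (.l 7)) (.c (.b (.l 1) (.b (.l 1) (.l 1))) (.b (.d (.l 7) (.d (.l 10) (.c (.b (.l 1) (.a (.l 1)
  (.l 1))) (.d (.b (.l 10) (.l 10)) (.b (.a (.l 10) (.l 10)) (.a (.l 10) (.l 10))))))) (.d (.l 7)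
  (.d (.l 7) (.a (.b (.b (.l 7) (.l 7)) (.l 7)) (.l 7))))))))

theorem g227 : Good 2044677737 1708984378 1892089848 555534000022 15258790 122070313 30517579 31250000002 :=
  chk_sound t227 _ _ _ _ _ _ _ _ (by decide +kernel)

end Pool.Agent.Lib.MP_d3fc00_an
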