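import Pool.Agent.Lib.MP_d3fc00_an.Check

set_option maxRecDepth 100000

namespace Pool.Agent.Lib.MP_d3fc00_an

def t228 : Tree :=
  (.b (.l 1) (.b (.l 1) (.l 1)))

theorem g228 : Good 2075195314 1464843752 1464843752 493034000019 61035157 244140626 122070313 62500000003 :=
  chk_sound t228 _ _ _ _ _ _ _ _ (by decide +kernel)

def t229 : Tree :=
  (.c (.b (.b (.l 0) (.l 1)) (.l 1)) (.b (.b (.l 0) (.d (.l 4) (.d (.a (.l 4) (.l 7)) (.c (.a (.l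
  10) (.l 10)) (.a (.a (.l 10) (.l 10)) (.a (.l 10) (.l 10))))))) (.a (.c (.d (.l 4) (.b (.a (.b
  (.l 10) (.l 1)) (.l 1)) (.l 1))) (.d (.b (.l 4) (.l 4)) (.b (.d (.l 7) (.a (.l 10) (.l 10))) (.d
  (.l 7) (.d (.l 10) (.a (.l 10) (.l 10))))))) (.c (.b (.l 1) (.l 1)) (.d (.l 7) (.b (.d (.l 7)
  (.a (.l 10) (.l 10))) (.d (.l 7) (.b (.l 10) (.l 10)))))))))

theorem g229 : Good 2075195314 1464843752 1708984378 493034000019 61035157 122070313 122070313 62500000003 :=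
  chk_sound t229 _ _ _ _ _ _ _ _ (by decide +kernel)

def t230 : Tree :=
  (.c (.d (.l 4) (.a (.l 1) (.l 1))) (.a (.c (.c (.l 1) (.d (.l 4) (.l 1))) (.d (.b (.l 4) (.l 7))
  (.b (.d (.l 7) (.c (.l 1) (.d (.l 10) (.b (.l 10) (.a (.l 10) (.l 10)))))) (.d (.l 7) (.d (.l
  10) (.c (.a (.l 1) (.l 1)) (.d (.a (.l 10) (.l 7)) (.a (.b (.l 10) (.l 10)) (.l 10))))))))) (.d
  (.b (.l 4) (.l 4)) (.c (.d (.l 7) (.b (.l 1) (.l 1))) (.d (.b (.l 7) (.l 7)) (.b (.d (.l 7) (.a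
  (.l 10) (.l 10))) (.d (.l 7) (.a (.b (.l 10) (.l 10)) (.l 7)))))))))

theorem g230 : Good 2075195314 1708984378 1708984378 493034000019 61035157 61035157 122070313 62500000003 :=
  chk_sound t230 _ _ _ _ _ _ _ _ (by decide +kernel)

def t231 : Tree :=
  (.c (.a (.l 4) (.b (.l 1) (.l 1))) (.d (.a (.b (.l 7) (.l 7)) (.l 7)) (.a (.c (.d (.l 4) (.b (.l
  1) (.l 1))) (.d (.b (.l 7) (.l 7)) (.b (.d (.l 7) (.c (.a (.l 1) (.l 7)) (.a (.d (.l 7) (.d (.l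
  10) (.b (.l 10) (.l 10)))) (.b (.l 10) (.l 7))))) (.a (.a (.b (.l 7) (.l 4)) (.l 7)) (.l 7)))))
  (.d (.l 7) (.d (.b (.l 7) (.l 7)) (.b (.a (.c (.l 1) (.l 7)) (.l 7)) (.c (.l 1) (.l 7))))))))

theorem g231 : Good 2075195314 1831054691 1708984378 493034000019 61035157 61035157 122070313 62500000003 :=
  chk_sound t231 _ _ _ _ _ _ _ _ (by decide +kernel)

def t232 : Tree :=
  (.c (.a (.b (.l 0) (.l 1)) (.l 0)) (.a (.c (.b (.l 0) (.d (.l 4) (.a (.l 1) (.l 1)))) (.b (.b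
  (.l 0) (.a (.b (.l 0) (.d (.l 4) (.a (.l 10) (.l 10)))) (.l 0))) (.a (.d (.l 7) (.c (.d (.l 7)
  (.b (.l 1) (.l 1))) (.d (.l 7) (.b (.a (.l 10) (.l 10)) (.a (.l 10) (.l 7)))))) (.d (.l 4) (.d
  (.l 7) (.d (.l 7) (.b (.l 7) (.l 7)))))))) (.b (.l 0) (.d (.a (.l 4) (.l 4)) (.c (.a (.b (.l 0)
  (.l 1)) (.l 7)) (.d (.a (.l 7) (.l 4)) (.a (.b (.l 7) (.l 7)) (.l 7))))))))

theorem g232 : Good 2197265627 1464843752 1464843752 493034000019 122070313 122070313 244140626 62500000003 :=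
  chk_sound t232 _ _ _ _ _ _ _ _ (by decide +kernel)

def t233 : Tree :=
  (.c (.c (.a (.l 1) (.l 1)) (.a (.b (.l 1) (.l 1)) (.b (.l 1) (.l 1)))) (.a (.b (.c (.d (.l 4)
  (.a (.l 1) (.l 1))) (.d (.a (.l 4) (.l 4)) (.a (.d (.l 7) (.d (.b (.l 7) (.l 7)) (.b (.c (.l 1)
  (.l 10)) (.c (.l 1) (.l 7))))) (.d (.l 7) (.b (.l 7) (.l 7)))))) (.d (.a (.l 4) (.l 4)) (.c (.a
  (.l 1) (.l 1)) (.a (.d (.l 7) (.b (.l 7) (.l 7))) (.b (.l 7) (.l 4)))))) (.b (.d (.c (.l 4) (.l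
  4)) (.c (.a (.l 1) (.l 1)) (.d (.l 7) (.a (.l 7) (.l 7))))) (.d (.l 4) (.a (.c (.l 1) (.l 4))
  (.l 4))))))

theorem g233 : Good 2197265627 1708984378 1464843752 493034000019 122070313 122070313 244140626 62500000003 :=
  chk_sound t233 _ _ _ _ _ _ _ _ (by decide +kernel)

def t234 : Tree :=
  (.b (.l 0) (.c (.b (.l 0) (.b (.l 0) (.l 0))) (.a (.b (.b (.l 0) (.c (.l 0) (.b (.l 0) (.a (.d
  (.l 4) (.c (.l 1) (.l 4))) (.l 4))))) (.c (.a (.b (.l 1) (.l 1)) (.l 1)) (.a (.d (.b (.l 4) (.l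
  1)) (.b (.c (.l 1) (.l 4)) (.l 4))) (.b (.l 4) (.l 1))))) (.b (.l 0) (.c (.l 1) (.a (.l 4) (.l
  1)))))))

theorem g234 : Good 2441406252 976562501 976562501 493034000019 244140626 488281251 488281251 62500000003 :=
  chk_sound t234 _ _ _ _ _ _ _ _ (by decide +kernel)

def t235 : Tree :=
  (.b (.l 0) (.c (.l 0) (.a (.b (.l 0) (.c (.l 0) (.b (.l 0) (.a (.c (.l 1) (.l 1)) (.l 0))))) (.l
  0))))

theorem g235 : Good 2929687502 0 0 493034000019 488281251 976562501 976562501 62500000003 :=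
  chk_sound t235 _ _ _ _ _ _ _ _ (by decide +kernel)

def t236 : Tree :=
  (.c (.l 0) (.l 0))

theorem g236 : Good 1953125001 0 1953125001 493034000019 488281251 488281251 976562501 62500000003 :=
  chk_sound t236 _ _ _ _ _ _ _ _ (by decide +kernel)

def t237 : Tree :=
  (.l 0)

theorem g237 : Good 1953125001 976562501 1953125001 493034000019 244140626 122070313 244140626 62500000003 :=
  chk_sound t237 _ _ _ _ _ _ _ _ (by decide +kernel)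

def t238 : Tree :=
  (.b (.l 0) (.a (.c (.a (.b (.l 0) (.a (.l 3) (.c (.l 0) (.l 4)))) (.l 0)) (.a (.d (.a (.l 3) (.l
  3)) (.b (.a (.l 3) (.l 0)) (.a (.l 3) (.l 3)))) (.b (.l 0) (.d (.l 3) (.b (.l 0) (.a (.l 4) (.c
  (.l 0) (.l 4)))))))) (.l 0)))

theorem g238 : Good 1953125001 1220703127 1953125001 493034000019 244140626 122070313 122070313 62500000003 :=
  chk_sound t238 _ _ _ _ _ _ _ _ (by decide +kernel)

def t239 : Tree :=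
  (.b (.l 0) (.a (.a (.c (.d (.l 3) (.b (.a (.d (.l 3) (.a (.l 3) (.l 3))) (.l 3)) (.l 3))) (.b
  (.d (.b (.a (.d (.l 3) (.c (.l 3) (.a (.l 6) (.l 3)))) (.l 3)) (.l 3)) (.c (.d (.a (.l 3) (.l
  3)) (.b (.a (.l 6) (.l 0)) (.a (.l 3) (.l 3)))) (.b (.a (.c (.a (.l 7) (.l 6)) (.l 0)) (.b (.l
  0) (.a (.l 6) (.l 0)))) (.d (.a (.l 3) (.l 3)) (.a (.a (.l 6) (.l 6)) (.l 6)))))) (.d (.l 3) (.a
  (.d (.l 3) (.b (.a (.l 3) (.l 3)) (.l 3))) (.l 3))))) (.b (.b (.l 0) (.c (.l 0) (.a (.a (.l 3)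
  (.l 3)) (.l 0)))) (.d (.a (.l 3) (.l 3)) (.c (.a (.l 3) (.l 3)) (.a (.l 3) (.l 3)))))) (.b (.l
  0) (.a (.d (.a (.l 3) (.l 3)) (.c (.a (.l 4) (.l 0)) (.a (.l 3) (.l 3)))) (.l 0)))))

theorem g239 : Good 1953125001 1220703127 2197265627 493034000019 244140626 122070313 61035157 62500000003 :=
  chk_sound t239 _ _ _ _ _ _ _ _ (by decide +kernel)

def t240 : Tree :=
  (.a (.c (.a (.l 0) (.l 0)) (.l 0)) (.l 0))

theorem g240 : Good 1953125001 1220703127 2319335940 493034000019 244140626 61035157 61035157 62500000003 :=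
  chk_sound t240 _ _ _ _ _ _ _ _ (by decide +kernel)

def t241 : Tree :=
  (.a (.b (.d (.c (.b (.a (.l 0) (.c (.l 6) (.l 0))) (.a (.b (.l 0) (.l 3)) (.l 3))) (.b (.l 0)
  (.a (.l 0) (.c (.a (.l 0) (.l 3)) (.l 0))))) (.c (.b (.a (.l 0) (.c (.b (.l 0) (.a (.l 0) (.l
  6))) (.l 0))) (.a (.c (.a (.l 7) (.l 6)) (.l 0)) (.d (.l 6) (.a (.l 6) (.l 6))))) (.b (.l 0) (.a
  (.l 0) (.c (.b (.l 0) (.a (.l 0) (.l 6))) (.l 0)))))) (.d (.c (.l 3) (.a (.b (.b (.l 0) (.l 3))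
  (.l 3)) (.l 3))) (.b (.c (.a (.a (.l 6) (.l 6)) (.a (.l 6) (.l 3))) (.a (.b (.l 0) (.a (.l 7)
  (.l 6))) (.d (.l 6) (.a (.l 7) (.l 6))))) (.a (.d (.l 3) (.c (.l 3) (.a (.l 6) (.l 6)))) (.c (.l
  3) (.l 3)))))) (.b (.c (.b (.l 0) (.a (.d (.l 3) (.a (.l 4) (.l 3))) (.l 3))) (.b (.a (.l 0) (.l
  0)) (.d (.a (.a (.l 6) (.l 3)) (.l 3)) (.a (.d (.a (.l 6) (.l 6)) (.c (.l 7) (.a (.l 0) (.l
  6)))) (.l 4))))) (.d (.l 3) (.b (.a (.c (.l 3) (.a (.l 4) (.l 3))) (.l 3)) (.l 3)))))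

theorem g241 : Good 1953125001 1342773440 2319335940 493034000019 122070313 61035157 30517579 62500000003 :=
  chk_sound t241 _ _ _ _ _ _ _ _ (by decide +kernel)

def t242 : Tree :=
  (.b (.c (.a (.l 0) (.b (.l 0) (.a (.l 0) (.b (.l 0) (.a (.l 0) (.l 4)))))) (.l 0)) (.a (.c (.d
  (.b (.a (.l 0) (.b (.l 0) (.a (.l 0) (.l 3)))) (.a (.b (.l 0) (.l 3)) (.l 3))) (.b (.a (.l 0)
  (.b (.l 0) (.c (.a (.l 0) (.l 6)) (.l 0)))) (.a (.b (.l 0) (.c (.l 6) (.l 0))) (.d (.l 6) (.a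
  (.l 7) (.l 6)))))) (.l 0)) (.b (.c (.d (.a (.a (.l 3) (.l 3)) (.l 3)) (.a (.d (.a (.l 6) (.l 3))
  (.c (.l 7) (.a (.l 0) (.l 6)))) (.l 4))) (.a (.l 0) (.b (.l 0) (.a (.l 0) (.l 4))))) (.a (.d (.c
  (.l 3) (.l 3)) (.c (.a (.l 3) (.l 3)) (.b (.c (.l 6) (.l 0)) (.a (.l 6) (.l 3))))) (.d (.l 3)
  (.c (.l 3) (.l 4)))))))

theorem g242 : Good 1953125001 1342773440 2380371097 493034000019 122070313 61035157 30517579 62500000003 :=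
  chk_sound t242 _ _ _ _ _ _ _ _ (by decide +kernel)

def t243 : Tree :=
  (.a (.c (.b (.b (.l 0) (.a (.a (.l 3) (.l 0)) (.l 0))) (.d (.l 3) (.a (.l 3) (.l 3)))) (.b (.b
  (.l 0) (.c (.b (.l 0) (.a (.l 4) (.l 0))) (.a (.l 0) (.b (.l 0) (.l 3))))) (.a (.b (.c (.l 3)
  (.d (.l 3) (.a (.l 4) (.l 3)))) (.l 3)) (.c (.l 3) (.a (.l 3) (.l 3)))))) (.b (.l 0) (.c (.a (.l
  4) (.l 1)) (.a (.b (.l 3) (.l 3)) (.a (.l 3) (.l 3))))))

theorem g243 : Good 2197265627 1342773440 2319335940 493034000019 122070313 61035157 61035157 62500000003 :=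
  chk_sound t243 _ _ _ _ _ _ _ _ (by decide +kernel)

def t244 : Tree :=
  (.b (.l 0) (.c (.b (.l 0) (.c (.a (.c (.b (.l 0) (.c (.a (.l 0) (.b (.l 0) (.a (.l 0) (.b (.l 0)
  (.a (.l 0) (.l 3)))))) (.l 0))) (.l 0)) (.c (.b (.c (.a (.l 0) (.l 0)) (.l 0)) (.a (.c (.b (.a
  (.l 0) (.c (.l 3) (.l 0))) (.a (.d (.l 3) (.a (.l 3) (.l 3))) (.l 3))) (.b (.l 0) (.a (.l 0) (.b
  (.l 0) (.l 3))))) (.a (.c (.b (.l 3) (.l 3)) (.b (.b (.l 0) (.a (.l 0) (.l 3))) (.l 3))) (.b (.c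
  (.l 3) (.a (.l 3) (.l 3))) (.a (.l 3) (.l 3)))))) (.b (.l 0) (.c (.a (.l 0) (.b (.l 0) (.a (.b
  (.l 0) (.a (.l 0) (.l 3))) (.a (.l 3) (.l 3))))) (.l 0))))) (.l 0))) (.l 0)))

theorem g244 : Good 1953125001 976562501 2441406252 493034000019 244140626 244140626 244140626 62500000003 :=
  chk_sound t244 _ _ _ _ _ _ _ _ (by decide +kernel)

def t245 : Tree :=
  (.b (.c (.d (.a (.l 3) (.l 3)) (.b (.a (.l 3) (.c (.l 4) (.l 4))) (.a (.l 3) (.d (.l 3) (.b (.l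
  4) (.c (.l 4) (.l 4))))))) (.d (.a (.l 3) (.l 3)) (.b (.c (.l 3) (.l 3)) (.a (.l 3) (.c (.l 3)
  (.l 3)))))) (.c (.d (.b (.l 3) (.a (.l 3) (.l 3))) (.a (.b (.b (.l 3) (.l 3)) (.d (.l 3) (.b (.l
  3) (.c (.l 3) (.l 3))))) (.d (.b (.l 3) (.l 7)) (.b (.d (.l 10) (.a (.c (.l 4) (.l 3)) (.c (.l
  10) (.l 10)))) (.d (.c (.l 10) (.l 4)) (.a (.b (.l 10) (.l 10)) (.b (.l 10) (.l 10)))))))) (.d
  (.a (.l 3) (.l 3)) (.c (.d (.a (.l 3) (.l 3)) (.a (.l 3) (.b (.l 3) (.l 3)))) (.a (.l 3) (.l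
  3))))))

theorem g245 : Good 1953125001 1464843752 1953125001 493034000019 61035157 122070313 122070313 62500000003 :=
  chk_sound t245 _ _ _ _ _ _ _ _ (by decide +kernel)

def t246 : Tree :=
  (.c (.d (.b (.l 4) (.l 7)) (.a (.d (.b (.l 3) (.l 4)) (.b (.d (.l 7) (.c (.l 10) (.l 10))) (.d
  (.l 10) (.b (.l 10) (.c (.l 10) (.l 10)))))) (.b (.b (.l 0) (.c (.l 0) (.a (.l 10) (.l 7)))) (.d
  (.l 7) (.d (.l 10) (.c (.l 10) (.l 10))))))) (.d (.b (.l 4) (.l 4)) (.a (.d (.b (.l 3) (.l 3))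
  (.c (.b (.l 4) (.a (.l 4) (.l 10))) (.b (.l 3) (.l 3)))) (.d (.b (.l 4) (.l 4)) (.c (.b (.a (.l
  7) (.l 7)) (.a (.l 10) (.l 7))) (.b (.l 4) (.l 4)))))))

theorem g246 : Good 2075195314 1464843752 1953125001 493034000019 61035157 61035157 122070313 62500000003 :=
  chk_sound t246 _ _ _ _ _ _ _ _ (by decide +kernel)

def t247 : Tree :=
  (.c (.a (.d (.b (.l 4) (.l 4)) (.b (.d (.l 7) (.d (.l 10) (.b (.c (.l 10) (.l 10)) (.c (.l 10)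
  (.l 10))))) (.d (.l 7) (.d (.c (.l 10) (.l 7)) (.c (.a (.l 10) (.l 10)) (.a (.l 10) (.l
  10))))))) (.c (.d (.l 7) (.b (.d (.l 7) (.a (.l 10) (.l 10))) (.d (.l 7) (.b (.l 10) (.a (.l 10)
  (.l 10)))))) (.d (.l 7) (.b (.d (.l 7) (.a (.l 10) (.l 10))) (.a (.l 1) (.l 1)))))) (.c (.b (.d
  (.l 4) (.d (.l 7) (.a (.a (.l 4) (.l 10)) (.a (.l 1) (.l 1))))) (.c (.a (.l 1) (.l 1)) (.l 1)))
  (.b (.a (.a (.l 3) (.l 4)) (.l 1)) (.l 1))))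

theorem g247 : Good 2075195314 1586914065 1953125001 493034000019 61035157 61035157 122070313 62500000003 :=
  chk_sound t247 _ _ _ _ _ _ _ _ (by decide +kernel)

def t248 : Tree :=
  (.a (.b (.c (.a (.d (.b (.l 4) (.l 4)) (.b (.b (.l 0) (.c (.l 0) (.a (.l 7) (.l 0)))) (.d (.l 7)
  (.d (.l 7) (.c (.l 10) (.l 10)))))) (.b (.l 0) (.d (.l 4) (.d (.l 7) (.c (.l 7) (.l 7)))))) (.b
  (.d (.l 4) (.d (.a (.l 4) (.l 4)) (.c (.a (.l 7) (.l 7)) (.a (.l 7) (.l 1))))) (.d (.l 4) (.c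
  (.c (.a (.l 1) (.l 1)) (.l 1)) (.a (.l 1) (.l 1)))))) (.c (.a (.d (.l 7) (.c (.d (.l 7) (.b (.a
  (.l 10) (.l 10)) (.a (.l 10) (.l 7)))) (.c (.b (.l 1) (.l 1)) (.l 1)))) (.d (.l 7) (.d (.l 7)
  (.c (.b (.a (.l 7) (.l 7)) (.l 7)) (.b (.l 1) (.l 1)))))) (.c (.a (.l 1) (.l 1)) (.l 1)))) (.b
  (.c (.c (.l 0) (.b (.l 0) (.d (.l 4) (.a (.l 7) (.l 7))))) (.c (.b (.l 0) (.a (.l 1) (.l 1)))
  (.a (.l 1) (.l 1)))) (.c (.d (.a (.l 4) (.l 4)) (.a (.d (.l 7) (.b (.l 7) (.l 7))) (.b (.l 7)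
  (.l 7)))) (.c (.a (.l 1) (.b (.l 1) (.l 1))) (.l 1)))))

theorem g248 : Good 2197265627 1464843752 1953125001 493034000019 122070313 122070313 122070313 62500000003 :=
  chk_sound t248 _ _ _ _ _ _ _ _ (by decide +kernel)

def t249 : Tree :=
  (.b (.c (.a (.d (.a (.l 3) (.l 3)) (.c (.l 3) (.a (.l 3) (.l 3)))) (.d (.a (.l 3) (.l 4)) (.c
  (.b (.a (.l 3) (.l 3)) (.l 4)) (.a (.l 3) (.l 3))))) (.a (.b (.c (.d (.l 3) (.a (.a (.l 3) (.l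
  3)) (.l 3))) (.d (.c (.l 3) (.a (.b (.a (.l 0) (.l 3)) (.l 3)) (.l 3))) (.b (.a (.c (.a (.l 6)
  (.l 3)) (.b (.l 0) (.a (.l 0) (.l 6)))) (.c (.l 3) (.d (.l 3) (.a (.l 6) (.l 3))))) (.a (.c (.l
  3) (.a (.l 6) (.l 3))) (.l 3))))) (.c (.l 3) (.a (.l 3) (.l 3)))) (.b (.c (.a (.l 3) (.l 3)) (.d
  (.l 3) (.a (.b (.l 3) (.l 3)) (.l 3)))) (.c (.l 3) (.l 3))))) (.c (.a (.b (.a (.l 3) (.l 3)) (.l
  3)) (.d (.l 4) (.a (.l 3) (.b (.l 3) (.l 1))))) (.a (.c (.l 3) (.a (.l 3) (.l 3))) (.c (.l 3)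
  (.l 3)))))

theorem g249 : Good 1953125001 1464843752 2197265627 493034000019 122070313 122070313 122070313 62500000003 :=
  chk_sound t249 _ _ _ _ _ _ _ _ (by decide +kernel)

def t250 : Tree :=
  (.b (.c (.a (.b (.d (.l 4) (.c (.a (.l 4) (.l 1)) (.l 4))) (.a (.c (.l 1) (.l 1)) (.l 1))) (.c
  (.l 1) (.l 1))) (.a (.b (.c (.a (.l 3) (.l 3)) (.a (.l 3) (.l 3))) (.c (.l 4) (.a (.l 3) (.l
  1)))) (.b (.c (.l 1) (.a (.l 3) (.l 1))) (.l 1)))) (.c (.a (.a (.l 1) (.l 1)) (.l 1)) (.a (.c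
  (.l 1) (.l 1)) (.l 1))))

theorem g250 : Good 2197265627 1464843752 2197265627 493034000019 122070313 122070313 122070313 62500000003 :=
  chk_sound t250 _ _ _ _ _ _ _ _ (by decide +kernel)

def t251 : Tree :=
  (.d (.b (.l 3) (.l 10)) (.b (.d (.l 4) (.c (.d (.l 10) (.a (.l 3) (.b (.l 3) (.c (.l 10) (.l
  4))))) (.a (.l 3) (.l 3)))) (.c (.d (.l 10) (.d (.a (.l 3) (.l 10)) (.a (.b (.l 3) (.b (.l 3)
  (.l 3))) (.d (.b (.l 4) (.l 10)) (.b (.c (.l 10) (.l 10)) (.b (.l 10) (.a (.l 10) (.l 10))))))))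
  (.b (.l 4) (.l 3)))))

theorem g251 : Good 1953125001 1708984378 1953125001 493034000019 30517579 61035157 61035157 62500000003 :=
  chk_sound t251 _ _ _ _ _ _ _ _ (by decide +kernel)

def t252 : Tree :=
  (.c (.d (.b (.l 4) (.l 7)) (.b (.d (.l 7) (.d (.l 10) (.d (.a (.l 10) (.l 10)) (.b (.l 10) (.a
  (.l 10) (.l 10)))))) (.d (.a (.l 7) (.l 7)) (.c (.a (.d (.l 10) (.d (.l 10) (.b (.l 10) (.b (.l
  10) (.l 10))))) (.d (.l 10) (.d (.l 10) (.b (.l 10) (.a (.l 10) (.l 10)))))) (.c (.b (.a (.b (.l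
  10) (.l 1)) (.l 1)) (.l 1)) (.l 1)))))) (.b (.d (.l 3) (.d (.l 4) (.c (.d (.l 7) (.a (.l 10) (.l
  10))) (.l 1)))) (.d (.l 1) (.l 1))))

theorem g252 : Good 2014160158 1708984378 1953125001 493034000019 30517579 61035157 61035157 62500000003 :=
  chk_sound t252 _ _ _ _ _ _ _ _ (by decide +kernel)

def t253 : Tree :=
  (.c (.d (.l 2) (.a (.l 3) (.b (.l 1) (.l 1)))) (.a (.l 2) (.l 1)))

theorem g253 : Good 1953125001 1708984378 2075195314 493034000019 61035157 61035157 61035157 62500000003 :=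
  chk_sound t253 _ _ _ _ _ _ _ _ (by decide +kernel)

def t254 : Tree :=
  (.a (.b (.b (.l 3) (.l 3)) (.c (.b (.b (.l 3) (.l 10)) (.c (.d (.a (.b (.l 3) (.l 10)) (.l 7))
  (.b (.a (.l 6) (.l 3)) (.a (.b (.a (.l 6) (.l 3)) (.l 9)) (.l 4)))) (.a (.l 2) (.l 1)))) (.l
  2))) (.b (.b (.l 3) (.l 7)) (.d (.l 9) (.b (.l 5) (.l 7)))))

theorem g254 : Good 1953125001 1831054691 1953125001 493034000019 30517579 61035157 30517579 31250000002 :=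
  chk_sound t254 _ _ _ _ _ _ _ _ (by decide +kernel)

def t255 : Tree :=
  (.d (.b (.l 4) (.b (.l 5) (.c (.b (.l 10) (.a (.b (.l 10) (.a (.l 2) (.l 4))) (.l 4))) (.l 1))))
  (.b (.l 10) (.b (.l 10) (.c (.c (.a (.b (.l 10) (.c (.a (.b (.l 8) (.l 0)) (.b (.l 3) (.l 4)))
  (.a (.l 2) (.l 1)))) (.b (.l 4) (.l 7))) (.a (.l 2) (.l 1))) (.l 1)))))

theorem g255 : Good 1953125001 1831054691 1953125001 555534000022 15258790 61035157 15258790 15625000001 :=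
  chk_sound t255 _ _ _ _ _ _ _ _ (by decide +kernel)

def t256 : Tree :=
  (.d (.b (.l 3) (.l 10)) (.b (.d (.l 3) (.b (.l 4) (.b (.l 4) (.d (.l 3) (.l 10))))) (.d (.l 10)
  (.d (.a (.l 3) (.l 10)) (.c (.d (.a (.l 3) (.l 10)) (.b (.a (.l 3) (.l 10)) (.a (.l 3) (.b (.l
  10) (.l 10))))) (.l 10))))))

theorem g256 : Good 1953125001 1831054691 1953125001 586784000024 15258790 30517579 15258790 15625000001 :=
  chk_sound t256 _ _ _ _ _ _ _ _ (by decide +kernel)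

def t257 : Tree :=
  (.c (.d (.b (.l 4) (.b (.l 4) (.c (.a (.b (.l 3) (.l 0)) (.b (.l 2) (.l 2))) (.l 1)))) (.b (.l
  10) (.b (.l 10) (.c (.a (.b (.l 10) (.l 0)) (.b (.l 4) (.l 7))) (.l 1))))) (.b (.b (.l 1) (.l
  1)) (.l 1)))

theorem g257 : Good 1953125001 1892089848 1953125001 586784000024 7629395 30517579 7629395 7812500001 :=
  chk_sound t257 _ _ _ _ _ _ _ _ (by decide +kernel)

def t258 : Tree :=
  (.a (.b (.b (.l 3) (.l 3)) (.c (.d (.b (.l 4) (.b (.l 4) (.l 0))) (.b (.l 10) (.b (.a (.l 7) (.l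
  4)) (.l 0)))) (.b (.l 1) (.l 1)))) (.b (.b (.l 3) (.l 4)) (.c (.a (.c (.d (.b (.l 3) (.l 4)) (.b
  (.l 4) (.b (.l 4) (.l 4)))) (.b (.b (.l 3) (.l 1)) (.l 1))) (.b (.b (.l 3) (.l 4)) (.b (.l 4)
  (.l 4)))) (.l 1))))

theorem g258 : Good 1953125001 1892089848 1953125001 602409000025 7629395 30517579 3814698 3906250001 :=
  chk_sound t258 _ _ _ _ _ _ _ _ (by decide +kernel)

def t259 : Tree :=
  (.b (.d (.l 3) (.b (.l 3) (.b (.l 3) (.b (.l 3) (.a (.l 3) (.l 4)))))) (.d (.l 10) (.d (.l 10)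
  (.d (.l 10) (.c (.d (.l 10) (.b (.a (.l 3) (.l 10)) (.d (.l 10) (.a (.l 3) (.l 10))))) (.l
  10))))))

theorem g259 : Good 1953125001 1892089848 1953125001 610221500026 7629395 15258790 3814698 3906250001 :=
  chk_sound t259 _ _ _ _ _ _ _ _ (by decide +kernel)

end Pool.Agent.Lib.MP_d3fc00_an
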