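import Pool.Agent.Lib.MP_d3fc00_an.Check

set_option maxRecDepth 100000

namespace Pool.Agent.Lib.MP_d3fc00_an

def t260 : Tree :=
  (.c (.a (.b (.b (.l 3) (.l 3)) (.b (.b (.l 3) (.l 0)) (.l 0))) (.d (.b (.l 4) (.b (.l 4) (.l
  0))) (.b (.l 10) (.b (.l 7) (.l 0))))) (.b (.b (.l 3) (.l 3)) (.l 1)))

theorem g260 : Good 1953125001 1922607427 1953125001 610221500026 3814698 15258790 1907349 1953125001 :=
  chk_sound t260 _ _ _ _ _ _ _ _ (by decide +kernel)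

def t261 : Tree :=
  (.d (.b (.l 3) (.l 10)) (.d (.b (.l 10) (.l 10)) (.d (.b (.l 10) (.l 10)) (.c (.d (.b (.l 10)
  (.l 10)) (.b (.b (.l 3) (.a (.l 3) (.l 10))) (.d (.l 10) (.c (.d (.a (.l 10) (.l 10)) (.b (.l
  10) (.a (.l 3) (.l 10)))) (.l 10))))) (.l 10)))))

theorem g261 : Good 1953125001 1922607427 1953125001 614127750027 3814698 7629395 1907349 1953125001 :=
  chk_sound t261 _ _ _ _ _ _ _ _ (by decide +kernel)

def t262 : Tree :=
  (.c (.b (.c (.a (.b (.d (.l 3) (.d (.l 4) (.d (.l 10) (.d (.l 10) (.d (.l 10) (.d (.l 10) (.b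
  (.l 10) (.a (.l 3) (.l 10))))))))) (.l 0)) (.b (.d (.l 7) (.d (.l 10) (.d (.l 10) (.d (.l 10)
  (.d (.l 10) (.d (.l 10) (.b (.l 10) (.a (.l 10) (.l 10))))))))) (.d (.l 10) (.b (.d (.l 10) (.d
  (.l 10) (.d (.l 10) (.d (.l 10) (.d (.l 10) (.d (.l 10) (.a (.l 10) (.l 10)))))))) (.l 0)))))
  (.c (.b (.d (.l 4) (.d (.l 10) (.b (.l 10) (.l 10)))) (.a (.l 0) (.l 1))) (.a (.b (.l 3) (.l 0))
  (.l 1)))) (.l 0)) (.l 1))

theorem g262 : Good 1953125001 1937866217 1953125001 614127750027 3814698 7629395 1907349 1953125001 :=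
  chk_sound t262 _ _ _ _ _ _ _ _ (by decide +kernel)

def t263 : Tree :=
  (.a (.d (.b (.l 4) (.l 4)) (.b (.l 7) (.b (.l 4) (.l 0)))) (.b (.b (.l 4) (.l 7)) (.b (.l 4) (.l
  4))))

theorem g263 : Good 1960754396 1922607427 1953125001 610221500026 1907349 15258790 953675 1953125001 :=
  chk_sound t263 _ _ _ _ _ _ _ _ (by decide +kernel)

def t264 : Tree :=
  (.d (.b (.l 10) (.l 10)) (.d (.b (.l 10) (.l 10)) (.d (.b (.l 10) (.l 10)) (.d (.b (.l 10) (.l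
  10)) (.b (.b (.l 10) (.l 10)) (.d (.l 10) (.b (.l 10) (.b (.l 10) (.l 10)))))))))

theorem g264 : Good 1960754396 1922607427 1953125001 614127750027 1907349 7629395 953675 1953125001 :=
  chk_sound t264 _ _ _ _ _ _ _ _ (by decide +kernel)

def t265 : Tree :=
  (.c (.b (.d (.b (.l 7) (.l 7)) (.d (.b (.l 10) (.l 10)) (.d (.b (.l 10) (.l 10)) (.d (.b (.l 10)
  (.l 10)) (.d (.b (.l 10) (.l 10)) (.d (.b (.l 10) (.l 10)) (.c (.b (.b (.l 10) (.a (.l 10) (.l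
  10))) (.d (.l 10) (.a (.b (.l 10) (.l 10)) (.l 10)))) (.l 10)))))))) (.b (.a (.l 0) (.d (.l 4)
  (.b (.d (.l 7) (.b (.a (.a (.l 0) (.l 1)) (.l 1)) (.l 1))) (.l 1)))) (.l 0))) (.c (.b (.b (.d
  (.l 1) (.c (.b (.d (.l 1) (.l 10)) (.l 1)) (.l 1))) (.l 1)) (.b (.l 1) (.l 0))) (.b (.l 1) (.l
  1))))

theorem g265 : Good 1960754396 1937866217 1953125001 614127750027 1907349 7629395 953675 1953125001 :=
  chk_sound t265 _ _ _ _ _ _ _ _ (by decide +kernel)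

def t266 : Tree :=
  (.b (.b (.l 7) (.l 7)) (.b (.l 7) (.l 4)))

theorem g266 : Good 1964569094 1922607427 1953125001 610221500026 1907349 15258790 953675 1953125001 :=
  chk_sound t266 _ _ _ _ _ _ _ _ (by decide +kernel)

def t267 : Tree :=
  (.c (.d (.b (.b (.l 10) (.l 7)) (.l 7)) (.b (.d (.b (.l 10) (.l 10)) (.d (.b (.l 10) (.l 10))
  (.d (.b (.l 10) (.l 10)) (.b (.b (.l 10) (.l 10)) (.b (.l 10) (.b (.l 10) (.l 10))))))) (.d (.b
  (.l 10) (.l 7)) (.b (.d (.l 10) (.d (.l 10) (.d (.l 10) (.d (.l 10) (.b (.l 10) (.b (.l 10) (.l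
  10))))))) (.a (.l 7) (.l 7)))))) (.b (.d (.l 10) (.d (.l 10) (.d (.l 10) (.d (.l 10) (.b (.l 10)
  (.l 10)))))) (.b (.b (.l 1) (.l 1)) (.l 1))))

theorem g267 : Good 1964569094 1922607427 1953125001 614127750027 953675 15258790 953675 1953125001 :=
  chk_sound t267 _ _ _ _ _ _ _ _ (by decide +kernel)

def t268 : Tree :=
  (.c (.d (.b (.l 10) (.l 7)) (.b (.d (.l 10) (.d (.l 10) (.d (.l 10) (.b (.l 10) (.b (.l 10) (.b
  (.l 10) (.l 10))))))) (.b (.d (.l 10) (.d (.l 10) (.d (.l 10) (.d (.l 10) (.b (.l 10) (.b (.l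
  10) (.l 1))))))) (.l 7)))) (.b (.d (.l 10) (.d (.l 10) (.d (.l 10) (.d (.l 10) (.b (.l 10) (.l
  10)))))) (.b (.b (.l 1) (.l 1)) (.l 1))))

theorem g268 : Good 1966476443 1922607427 1953125001 614127750027 953675 15258790 953675 1953125001 :=
  chk_sound t268 _ _ _ _ _ _ _ _ (by decide +kernel)

def t269 : Tree :=
  (.c (.b (.b (.d (.l 4) (.d (.l 10) (.d (.l 10) (.a (.l 10) (.l 10))))) (.a (.l 1) (.l 1))) (.b
  (.l 1) (.l 1))) (.b (.a (.c (.b (.b (.l 4) (.l 1)) (.l 1)) (.l 1)) (.l 1)) (.l 1)))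

theorem g269 : Good 1960754396 1922607427 1955032350 610221500026 3814698 15258790 953675 3906250001 :=
  chk_sound t269 _ _ _ _ _ _ _ _ (by decide +kernel)

def t270 : Tree :=
  (.b (.c (.c (.b (.a (.l 3) (.l 1)) (.l 1)) (.l 1)) (.l 1)) (.l 1))

theorem g270 : Good 1953125001 1922607427 1956939699 610221500026 7629395 15258790 1907349 3906250001 :=
  chk_sound t270 _ _ _ _ _ _ _ _ (by decide +kernel)

def t271 : Tree :=
  (.b (.d (.b (.l 3) (.l 1)) (.b (.l 3) (.l 3))) (.l 1))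

theorem g271 : Good 1953125001 1892089848 1960754396 602409000025 7629395 30517579 3814698 7812500001 :=
  chk_sound t271 _ _ _ _ _ _ _ _ (by decide +kernel)

def t272 : Tree :=
  (.a (.d (.b (.l 3) (.l 4)) (.b (.l 7) (.b (.l 4) (.l 4)))) (.b (.b (.l 3) (.l 4)) (.b (.l 4) (.l
  4))))

theorem g272 : Good 1968383791 1892089848 1953125001 586784000024 7629395 30517579 3814698 7812500001 :=
  chk_sound t272 _ _ _ _ _ _ _ _ (by decide +kernel)

def t273 : Tree :=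
  (.c (.a (.d (.b (.l 4) (.l 4)) (.b (.l 7) (.b (.l 4) (.l 4)))) (.b (.b (.l 3) (.l 7)) (.b (.l 4)
  (.l 4)))) (.b (.b (.l 3) (.l 1)) (.b (.l 1) (.l 1))))

theorem g273 : Good 1968383791 1892089848 1953125001 602409000025 3814698 30517579 3814698 3906250001 :=
  chk_sound t273 _ _ _ _ _ _ _ _ (by decide +kernel)

def t274 : Tree :=
  (.b (.b (.l 10) (.l 10)) (.b (.b (.l 7) (.l 7)) (.l 7)))

theorem g274 : Good 1968383791 1892089848 1953125001 610221500026 3814698 30517579 1907349 1953125001 :=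
  chk_sound t274 _ _ _ _ _ _ _ _ (by decide +kernel)

def t275 : Tree :=
  (.d (.b (.l 10) (.l 10)) (.d (.b (.l 10) (.l 10)) (.b (.b (.l 10) (.l 10)) (.d (.l 10) (.b (.l
  10) (.b (.l 10) (.l 10)))))))

theorem g275 : Good 1968383791 1892089848 1953125001 614127750027 3814698 15258790 1907349 1953125001 :=
  chk_sound t275 _ _ _ _ _ _ _ _ (by decide +kernel)

def t276 : Tree :=
  (.b (.c (.d (.b (.l 10) (.l 10)) (.d (.b (.l 10) (.l 10)) (.d (.b (.l 10) (.l 10)) (.d (.b (.l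
  10) (.l 10)) (.b (.b (.l 10) (.a (.l 10) (.l 10))) (.d (.l 10) (.a (.b (.l 10) (.l 10)) (.l
  10)))))))) (.b (.c (.c (.b (.d (.l 10) (.a (.l 10) (.l 1))) (.l 1)) (.l 1)) (.l 1)) (.l 1))) (.d
  (.b (.l 7) (.l 7)) (.b (.d (.l 10) (.d (.l 10) (.c (.d (.l 10) (.d (.a (.l 10) (.l 10)) (.c (.d
  (.a (.l 10) (.l 10)) (.a (.b (.l 10) (.l 10)) (.l 10))) (.l 10)))) (.l 1)))) (.a (.b (.l 1) (.l
  1)) (.l 1)))))

theorem g276 : Good 1968383791 1922607427 1953125001 614127750027 3814698 15258790 1907349 1953125001 :=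
  chk_sound t276 _ _ _ _ _ _ _ _ (by decide +kernel)

def t277 : Tree :=
  (.b (.b (.d (.l 4) (.d (.l 10) (.b (.l 10) (.l 10)))) (.c (.c (.b (.d (.l 1) (.b (.l 10) (.l
  1))) (.l 1)) (.l 1)) (.l 1))) (.l 1))

theorem g277 : Good 1968383791 1892089848 1956939699 610221500026 3814698 30517579 1907349 3906250001 :=
  chk_sound t277 _ _ _ _ _ _ _ _ (by decide +kernel)

def t278 : Tree :=
  (.d (.b (.b (.l 7) (.l 7)) (.b (.l 7) (.l 4))) (.a (.d (.b (.b (.l 10) (.l 7)) (.l 7)) (.b (.d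
  (.b (.l 10) (.l 10)) (.d (.b (.l 10) (.l 10)) (.b (.b (.l 10) (.l 10)) (.b (.l 10) (.b (.l 10)
  (.l 10)))))) (.b (.d (.l 10) (.d (.l 10) (.d (.l 10) (.d (.l 10) (.b (.l 10) (.b (.l 10) (.l
  10))))))) (.b (.b (.a (.l 1) (.l 1)) (.l 1)) (.l 1))))) (.d (.b (.l 10) (.l 7)) (.b (.d (.l 10)
  (.d (.l 10) (.b (.l 10) (.b (.l 10) (.b (.l 10) (.l 10)))))) (.b (.d (.l 10) (.d (.l 10) (.d (.l
  10) (.b (.l 10) (.b (.l 10) (.l 1)))))) (.l 7))))))

theorem g278 : Good 1976013186 1892089848 1953125001 602409000025 3814698 30517579 1907349 7812500001 :=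
  chk_sound t278 _ _ _ _ _ _ _ _ (by decide +kernel)

def t279 : Tree :=
  (.c (.d (.b (.l 10) (.l 7)) (.b (.b (.d (.l 10) (.d (.l 10) (.b (.l 10) (.l 10)))) (.l 1)) (.b
  (.l 1) (.l 1)))) (.b (.b (.c (.c (.d (.l 1) (.b (.b (.l 10) (.l 1)) (.l 1))) (.l 1)) (.l 1)) (.l
  1)) (.l 1)))

theorem g279 : Good 1976013186 1892089848 1956939699 602409000025 3814698 30517579 1907349 7812500001 :=
  chk_sound t279 _ _ _ _ _ _ _ _ (by decide +kernel)

def t280 : Tree :=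
  (.b (.b (.d (.l 1) (.c (.c (.a (.l 1) (.l 1)) (.l 1)) (.l 1))) (.l 1)) (.l 1))

theorem g280 : Good 1968383791 1892089848 1960754396 586784000024 7629395 30517579 3814698 15625000001 :=
  chk_sound t280 _ _ _ _ _ _ _ _ (by decide +kernel)

def t281 : Tree :=
  (.b (.l 1) (.l 1))

theorem g281 : Good 1953125001 1892089848 1968383791 586784000024 15258790 30517579 7629395 15625000001 :=
  chk_sound t281 _ _ _ _ _ _ _ _ (by decide +kernel)

def t282 : Tree :=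
  (.a (.c (.b (.b (.l 3) (.l 4)) (.b (.l 10) (.l 9))) (.b (.b (.l 1) (.l 1)) (.l 1))) (.b (.l 10)
  (.b (.l 4) (.l 4))))

theorem g282 : Good 1983642580 1831054691 1953125001 555534000022 15258790 61035157 15258790 15625000001 :=
  chk_sound t282 _ _ _ _ _ _ _ _ (by decide +kernel)

def t283 : Tree :=
  (.b (.b (.l 4) (.l 7)) (.b (.b (.l 4) (.l 7)) (.b (.l 7) (.l 4))))

theorem g283 : Good 1983642580 1831054691 1953125001 586784000024 7629395 61035157 7629395 7812500001 :=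
  chk_sound t283 _ _ _ _ _ _ _ _ (by decide +kernel)

def t284 : Tree :=
  (.b (.d (.l 10) (.d (.l 10) (.b (.l 10) (.l 10)))) (.d (.l 10) (.d (.l 10) (.d (.l 10) (.b (.l
  10) (.b (.l 10) (.l 10)))))))

theorem g284 : Good 1983642580 1831054691 1953125001 602409000025 7629395 30517579 7629395 7812500001 :=
  chk_sound t284 _ _ _ _ _ _ _ _ (by decide +kernel)

def t285 : Tree :=
  (.c (.b (.d (.b (.l 7) (.l 7)) (.c (.b (.d (.l 10) (.d (.l 10) (.d (.l 10) (.b (.l 10) (.a (.l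
  10) (.l 10)))))) (.d (.l 10) (.d (.l 10) (.d (.l 10) (.d (.l 10) (.a (.b (.l 10) (.l 10)) (.l
  10))))))) (.c (.b (.b (.c (.d (.l 10) (.d (.l 10) (.l 10))) (.l 1)) (.l 1)) (.a (.l 1) (.l 1)))
  (.l 1)))) (.d (.l 7) (.d (.b (.l 7) (.l 7)) (.b (.d (.l 10) (.d (.l 10) (.c (.d (.a (.l 10) (.l
  10)) (.a (.d (.l 10) (.b (.l 10) (.l 10))) (.b (.l 10) (.l 1)))) (.l 1)))) (.a (.b (.l 7) (.l
  1)) (.l 7)))))) (.b (.l 1) (.b (.l 1) (.l 1))))

theorem g285 : Good 1983642580 1892089848 1953125001 602409000025 7629395 30517579 7629395 7812500001 :=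
  chk_sound t285 _ _ _ _ _ _ _ _ (by decide +kernel)

def t286 : Tree :=
  (.b (.b (.l 7) (.l 7)) (.b (.l 7) (.l 4)))

theorem g286 : Good 1998901370 1831054691 1953125001 586784000024 7629395 61035157 7629395 7812500001 :=
  chk_sound t286 _ _ _ _ _ _ _ _ (by decide +kernel)

def t287 : Tree :=
  (.a (.d (.b (.b (.l 10) (.l 7)) (.l 7)) (.b (.d (.b (.l 10) (.l 10)) (.b (.b (.l 10) (.l 10))
  (.b (.l 10) (.b (.l 10) (.l 10))))) (.b (.d (.l 10) (.d (.l 10) (.d (.l 10) (.b (.l 10) (.l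
  10))))) (.b (.b (.a (.l 1) (.l 1)) (.l 1)) (.l 1))))) (.b (.d (.l 10) (.d (.b (.l 10) (.l 10))
  (.b (.l 10) (.b (.l 10) (.b (.l 10) (.l 10)))))) (.d (.l 7) (.b (.d (.l 7) (.d (.l 10) (.b (.l
  10) (.b (.l 10) (.l 1))))) (.l 7)))))

theorem g287 : Good 1998901370 1831054691 1953125001 602409000025 7629395 61035157 3814698 7812500001 :=
  chk_sound t287 _ _ _ _ _ _ _ _ (by decide +kernel)

def t288 : Tree :=
  (.b (.b (.d (.l 10) (.d (.l 10) (.b (.l 10) (.l 10)))) (.c (.b (.c (.a (.c (.c (.b (.a (.l 10)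
  (.l 1)) (.l 1)) (.l 1)) (.l 1)) (.l 1)) (.l 1)) (.l 1)) (.l 1))) (.d (.l 7) (.b (.l 1) (.b (.l
  1) (.l 1)))))

theorem g288 : Good 1998901370 1831054691 1960754396 602409000025 7629395 61035157 3814698 7812500001 :=
  chk_sound t288 _ _ _ _ _ _ _ _ (by decide +kernel)

def t289 : Tree :=
  (.b (.b (.d (.l 4) (.d (.l 10) (.b (.l 10) (.a (.l 10) (.l 1))))) (.l 1)) (.b (.l 1) (.l 1)))

theorem g289 : Good 1983642580 1831054691 1968383791 586784000024 15258790 61035157 7629395 15625000001 :=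
  chk_sound t289 _ _ _ _ _ _ _ _ (by decide +kernel)

def t290 : Tree :=
  (.b (.c (.a (.b (.b (.l 3) (.l 3)) (.l 1)) (.l 1)) (.l 1)) (.a (.l 1) (.l 1)))

theorem g290 : Good 1953125001 1831054691 1983642580 555534000022 30517579 61035157 15258790 31250000002 :=
  chk_sound t290 _ _ _ _ _ _ _ _ (by decide +kernel)

def t291 : Tree :=
  (.b (.d (.l 1) (.l 1)) (.l 1))

theorem g291 : Good 1953125001 1831054691 2014160158 493034000019 30517579 61035157 30517579 62500000003 :=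
  chk_sound t291 _ _ _ _ _ _ _ _ (by decide +kernel)

def t292 : Tree :=
  (.a (.b (.l 10) (.l 9)) (.b (.l 4) (.l 4)))

theorem g292 : Good 2014160158 1831054691 1953125001 493034000019 30517579 61035157 30517579 31250000002 :=
  chk_sound t292 _ _ _ _ _ _ _ _ (by decide +kernel)

def t293 : Tree :=
  (.c (.a (.d (.b (.l 4) (.l 7)) (.c (.a (.d (.l 10) (.d (.l 10) (.b (.d (.l 10) (.b (.l 10) (.l
  10))) (.d (.l 10) (.b (.l 10) (.a (.l 10) (.l 10))))))) (.d (.l 7) (.d (.l 10) (.d (.l 10) (.b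
  (.l 10) (.b (.l 10) (.l 10))))))) (.b (.l 1) (.l 1)))) (.d (.l 7) (.d (.l 7) (.d (.l 10) (.c (.d
  (.b (.l 10) (.l 10)) (.b (.a (.l 10) (.l 10)) (.a (.l 10) (.l 10)))) (.b (.l 1) (.l 1))))))) (.a
  (.l 1) (.l 1)))

theorem g293 : Good 2014160158 1831054691 1953125001 555534000022 30517579 30517579 30517579 31250000002 :=
  chk_sound t293 _ _ _ _ _ _ _ _ (by decide +kernel)

def t294 : Tree :=
  (.c (.d (.a (.b (.l 4) (.l 4)) (.l 4)) (.b (.a (.d (.l 7) (.d (.l 7) (.c (.d (.l 10) (.d (.a (.l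
  10) (.l 7)) (.a (.d (.l 10) (.b (.l 10) (.l 10))) (.b (.l 10) (.l 1))))) (.l 1)))) (.d (.l 7)
  (.a (.a (.l 7) (.l 7)) (.l 7)))) (.a (.d (.l 7) (.a (.a (.b (.l 7) (.l 1)) (.l 7)) (.l 7))) (.a
  (.l 7) (.l 7))))) (.a (.l 1) (.b (.l 1) (.l 1))))

theorem g294 : Good 2014160158 1892089848 1953125001 555534000022 30517579 30517579 30517579 31250000002 :=
  chk_sound t294 _ _ _ _ _ _ _ _ (by decide +kernel)

def t295 : Tree :=
  (.b (.l 1) (.l 1))

theorem g295 : Good 2014160158 1831054691 2014160158 493034000019 30517579 61035157 30517579 62500000003 :=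
  chk_sound t295 _ _ _ _ _ _ _ _ (by decide +kernel)

def t296 : Tree :=
  (.a (.l 1) (.l 1))

theorem g296 : Good 1953125001 1831054691 2075195314 493034000019 61035157 61035157 61035157 62500000003 :=
  chk_sound t296 _ _ _ _ _ _ _ _ (by decide +kernel)

def t297 : Tree :=
  (.a (.c (.d (.b (.l 4) (.l 7)) (.c (.a (.b (.d (.l 7) (.b (.l 10) (.a (.l 10) (.l 10)))) (.d (.l
  7) (.d (.l 7) (.b (.l 10) (.a (.l 10) (.l 10)))))) (.d (.l 7) (.b (.b (.l 10) (.l 10)) (.d (.l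
  7) (.b (.l 10) (.l 10)))))) (.b (.c (.b (.a (.d (.l 1) (.l 10)) (.l 1)) (.l 1)) (.l 1)) (.a (.l
  1) (.l 1))))) (.b (.c (.l 1) (.l 1)) (.l 1))) (.c (.d (.l 7) (.d (.b (.l 7) (.l 7)) (.b (.d (.l
  7) (.a (.l 10) (.l 10))) (.d (.l 7) (.a (.b (.l 10) (.l 10)) (.l 10)))))) (.b (.l 1) (.a (.l 1)
  (.l 1)))))

theorem g297 : Good 2075195314 1708984378 1953125001 493034000019 61035157 61035157 61035157 62500000003 :=
  chk_sound t297 _ _ _ _ _ _ _ _ (by decide +kernel)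

def t298 : Tree :=
  (.a (.d (.b (.l 7) (.l 7)) (.c (.b (.d (.l 7) (.d (.l 7) (.c (.a (.d (.l 7) (.d (.l 10) (.b (.l
  10) (.l 10)))) (.b (.a (.l 7) (.l 7)) (.l 7))) (.a (.l 1) (.l 1))))) (.d (.l 7) (.a (.a (.b (.l
  7) (.l 1)) (.l 7)) (.l 7)))) (.b (.l 1) (.l 1)))) (.d (.l 7) (.d (.l 7) (.c (.d (.l 7) (.b (.a
  (.l 7) (.l 7)) (.l 7))) (.b (.l 1) (.l 1))))))

theorem g298 : Good 2075195314 1831054691 1953125001 493034000019 61035157 61035157 61035157 62500000003 :=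
  chk_sound t298 _ _ _ _ _ _ _ _ (by decide +kernel)

def t299 : Tree :=
  (.c (.b (.l 1) (.l 1)) (.l 1))

theorem g299 : Good 2075195314 1708984378 2075195314 493034000019 61035157 122070313 61035157 62500000003 :=
  chk_sound t299 _ _ _ _ _ _ _ _ (by decide +kernel)

def t300 : Tree :=
  (.b (.c (.a (.l 3) (.l 1)) (.a (.l 2) (.l 1))) (.a (.l 2) (.l 1)))

theorem g300 : Good 1953125001 1708984378 2197265627 493034000019 122070313 122070313 122070313 62500000003 :=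
  chk_sound t300 _ _ _ _ _ _ _ _ (by decide +kernel)

def t301 : Tree :=
  (.c (.a (.b (.c (.a (.d (.l 7) (.d (.l 7) (.c (.d (.l 7) (.b (.a (.l 10) (.l 7)) (.l 7))) (.b
  (.l 1) (.l 1))))) (.d (.l 4) (.d (.l 7) (.b (.c (.l 7) (.l 1)) (.l 7))))) (.a (.l 1) (.b (.l 1)
  (.l 1)))) (.c (.d (.a (.l 4) (.l 4)) (.a (.d (.l 7) (.b (.c (.l 7) (.l 1)) (.l 7))) (.b (.l 7)
  (.l 1)))) (.d (.l 4) (.a (.l 1) (.l 1))))) (.b (.d (.c (.l 4) (.l 4)) (.c (.a (.b (.l 7) (.l 7))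
  (.b (.l 7) (.l 4))) (.a (.l 1) (.l 1)))) (.d (.c (.l 4) (.l 1)) (.a (.c (.b (.l 1) (.l 1)) (.l
  1)) (.l 4))))) (.a (.c (.b (.l 1) (.l 1)) (.l 1)) (.c (.b (.l 1) (.l 1)) (.l 1))))

theorem g301 : Good 2197265627 1708984378 1953125001 493034000019 122070313 122070313 244140626 62500000003 :=
  chk_sound t301 _ _ _ _ _ _ _ _ (by decide +kernel)

end Pool.Agent.Lib.MP_d3fc00_an
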