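import Pool.Agent.Lib.MP_d3fc00_an.Check

set_option maxRecDepth 100000

namespace Pool.Agent.Lib.MP_d3fc00_an

def t302 : Tree :=
  (.b (.c (.b (.a (.c (.b (.l 0) (.d (.a (.a (.l 0) (.l 3)) (.l 3)) (.a (.b (.l 0) (.a (.l 0) (.l
  3))) (.d (.l 3) (.a (.l 6) (.l 3)))))) (.l 0)) (.b (.c (.a (.d (.l 3) (.b (.a (.l 0) (.l 6)) (.a
  (.l 3) (.l 3)))) (.a (.l 3) (.l 3))) (.a (.l 0) (.b (.l 0) (.a (.l 0) (.l 3))))) (.a (.d (.l 3)
  (.c (.l 3) (.c (.l 3) (.l 0)))) (.c (.l 3) (.l 3))))) (.a (.b (.a (.c (.d (.l 3) (.l 3)) (.b (.l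
  0) (.a (.l 0) (.l 3)))) (.d (.l 3) (.c (.l 3) (.a (.l 3) (.l 3))))) (.a (.a (.l 3) (.l 3)) (.l
  3))) (.a (.a (.l 3) (.l 3)) (.l 3)))) (.b (.c (.a (.l 0) (.b (.l 0) (.a (.l 0) (.b (.l 0) (.a
  (.l 0) (.l 3)))))) (.l 0)) (.a (.b (.l 0) (.c (.a (.b (.l 0) (.a (.l 0) (.l 3))) (.l 3)) (.l
  0))) (.b (.c (.a (.b (.l 0) (.l 3)) (.l 3)) (.a (.l 0) (.b (.l 0) (.l 3)))) (.a (.d (.l 3) (.c
  (.l 3) (.l 3))) (.l 3)))))) (.b (.a (.c (.l 3) (.b (.c (.l 3) (.d (.l 3) (.a (.a (.l 0) (.l 3))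
  (.l 3)))) (.l 3))) (.c (.l 3) (.a (.l 3) (.l 3)))) (.a (.a (.l 3) (.l 3)) (.a (.l 2) (.l 2)))))

theorem g302 : Good 1953125001 1464843752 2441406252 493034000019 122070313 122070313 61035157 62500000003 :=
  chk_sound t302 _ _ _ _ _ _ _ _ (by decide +kernel)

def t303 : Tree :=
  (.b (.c (.b (.l 0) (.c (.a (.l 0) (.b (.l 0) (.a (.l 0) (.b (.l 0) (.l 3))))) (.l 0))) (.l 0))
  (.c (.b (.a (.b (.l 0) (.c (.a (.a (.l 0) (.l 3)) (.l 3)) (.l 0))) (.b (.c (.a (.a (.l 3) (.l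
  3)) (.l 3)) (.l 0)) (.a (.a (.l 3) (.l 3)) (.l 3)))) (.a (.a (.d (.l 3) (.a (.l 3) (.l 3))) (.l
  3)) (.a (.l 3) (.l 3)))) (.b (.l 0) (.a (.c (.b (.l 0) (.a (.l 0) (.l 3))) (.l 0)) (.b (.c (.a
  (.l 3) (.l 3)) (.l 0)) (.a (.l 3) (.l 3)))))))

theorem g303 : Good 1953125001 1464843752 2563476565 493034000019 122070313 122070313 61035157 62500000003 :=
  chk_sound t303 _ _ _ _ _ _ _ _ (by decide +kernel)

def t304 : Tree :=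
  (.l 0)

theorem g304 : Good 1953125001 1464843752 2685546878 493034000019 122070313 122070313 122070313 62500000003 :=
  chk_sound t304 _ _ _ _ _ _ _ _ (by decide +kernel)

def t305 : Tree :=
  (.c (.b (.c (.a (.a (.l 2) (.l 2)) (.l 2)) (.a (.b (.c (.l 3) (.a (.a (.l 3) (.l 3)) (.l 3)))
  (.l 2)) (.b (.c (.l 2) (.l 3)) (.l 2)))) (.c (.l 2) (.a (.l 2) (.l 1)))) (.c (.b (.a (.c (.b (.c
  (.b (.l 0) (.l 3)) (.l 0)) (.a (.l 3) (.l 3))) (.b (.l 0) (.c (.b (.l 0) (.l 3)) (.l 0)))) (.c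
  (.b (.b (.c (.a (.l 3) (.l 3)) (.l 0)) (.a (.l 3) (.l 2))) (.l 2)) (.b (.l 0) (.b (.c (.l 3) (.l
  0)) (.a (.l 3) (.l 2)))))) (.b (.c (.l 2) (.a (.a (.l 3) (.l 2)) (.l 2))) (.a (.l 2) (.l 1))))
  (.b (.l 0) (.c (.b (.a (.b (.l 0) (.c (.l 3) (.l 0))) (.b (.c (.l 3) (.l 0)) (.a (.l 2) (.l
  2)))) (.a (.a (.l 3) (.l 2)) (.l 2))) (.b (.l 0) (.a (.c (.b (.l 0) (.l 2)) (.l 0)) (.b (.c (.a
  (.l 0) (.l 2)) (.l 0)) (.a (.l 2) (.l 2)))))))))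

theorem g305 : Good 1953125001 1708984378 2441406252 493034000019 122070313 122070313 244140626 62500000003 :=
  chk_sound t305 _ _ _ _ _ _ _ _ (by decide +kernel)

def t306 : Tree :=
  (.b (.b (.a (.c (.b (.c (.a (.l 3) (.l 3)) (.a (.d (.l 3) (.l 3)) (.l 3))) (.a (.l 3) (.l 3)))
  (.c (.b (.a (.l 0) (.b (.l 0) (.l 3))) (.a (.a (.l 3) (.l 3)) (.l 3))) (.b (.l 0) (.a (.l 0) (.b
  (.l 0) (.l 3)))))) (.c (.a (.a (.l 3) (.l 3)) (.a (.l 1) (.l 1))) (.a (.c (.b (.l 3) (.l 3)) (.b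
  (.b (.l 0) (.a (.l 0) (.l 3))) (.l 3))) (.b (.c (.l 3) (.a (.l 3) (.l 3))) (.a (.l 3) (.l
  1)))))) (.a (.c (.a (.l 3) (.l 3)) (.b (.a (.c (.l 3) (.l 3)) (.l 3)) (.a (.l 3) (.l 3)))) (.c
  (.l 1) (.a (.a (.l 3) (.l 1)) (.l 1))))) (.a (.b (.c (.l 3) (.a (.l 3) (.l 1))) (.a (.l 1) (.l
  1))) (.a (.l 1) (.l 1))))

theorem g306 : Good 2197265627 1464843752 2441406252 493034000019 122070313 122070313 61035157 62500000003 :=
  chk_sound t306 _ _ _ _ _ _ _ _ (by decide +kernel)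

def t307 : Tree :=
  (.b (.a (.c (.b (.l 0) (.c (.b (.a (.l 0) (.a (.l 0) (.l 3))) (.a (.l 3) (.l 3))) (.b (.l 0) (.a
  (.l 0) (.a (.l 0) (.l 3)))))) (.l 0)) (.c (.b (.c (.b (.l 0) (.a (.l 0) (.a (.l 3) (.l 3)))) (.l
  0)) (.a (.c (.a (.l 3) (.l 3)) (.b (.l 0) (.l 3))) (.b (.c (.l 1) (.a (.a (.l 3) (.l 3)) (.l
  1))) (.l 1)))) (.a (.l 0) (.b (.l 0) (.c (.b (.l 0) (.c (.l 1) (.l 0))) (.l 0)))))) (.a (.b (.c
  (.b (.a (.a (.l 3) (.l 3)) (.l 3)) (.a (.l 3) (.l 2))) (.c (.b (.a (.l 0) (.a (.l 0) (.l 3)))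
  (.a (.l 3) (.l 3))) (.b (.l 0) (.a (.l 0) (.a (.l 0) (.l 3)))))) (.c (.l 3) (.b (.a (.a (.l 3)
  (.l 3)) (.l 3)) (.a (.l 2) (.l 1))))) (.b (.c (.a (.a (.l 1) (.l 1)) (.l 1)) (.a (.b (.c (.l 3)
  (.l 0)) (.c (.l 1) (.l 3))) (.b (.a (.c (.l 1) (.a (.l 0) (.l 1))) (.l 1)) (.l 1)))) (.a (.c (.l
  1) (.l 1)) (.l 1)))))

theorem g307 : Good 2197265627 1464843752 2563476565 493034000019 122070313 122070313 61035157 62500000003 :=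
  chk_sound t307 _ _ _ _ _ _ _ _ (by decide +kernel)

def t308 : Tree :=
  (.b (.l 0) (.c (.a (.b (.l 0) (.c (.c (.b (.a (.l 0) (.a (.l 0) (.l 3))) (.a (.l 3) (.l 2))) (.b
  (.l 0) (.a (.l 0) (.a (.l 0) (.l 3))))) (.l 0))) (.a (.b (.l 0) (.c (.b (.c (.a (.l 2) (.l 1))
  (.l 0)) (.a (.c (.l 1) (.l 1)) (.l 1))) (.l 0))) (.c (.c (.c (.b (.b (.l 0) (.l 1)) (.l 1)) (.l
  0)) (.l 0)) (.l 0)))) (.l 0)))

theorem g308 : Good 2197265627 1464843752 2685546878 493034000019 122070313 122070313 122070313 62500000003 :=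
  chk_sound t308 _ _ _ _ _ _ _ _ (by decide +kernel)

def t309 : Tree :=
  (.c (.b (.c (.a (.l 1) (.l 1)) (.a (.a (.b (.l 2) (.l 1)) (.l 1)) (.a (.l 1) (.l 1)))) (.c (.l
  1) (.a (.l 1) (.l 1)))) (.a (.c (.b (.b (.c (.b (.a (.a (.l 3) (.l 2)) (.l 2)) (.a (.l 2) (.l
  1))) (.c (.b (.l 0) (.a (.l 3) (.l 1))) (.l 0))) (.c (.l 1) (.a (.a (.b (.l 3) (.l 1)) (.l 2))
  (.a (.l 1) (.l 1))))) (.a (.l 1) (.l 1))) (.b (.b (.l 0) (.c (.c (.b (.l 0) (.a (.l 2) (.l 1)))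
  (.l 0)) (.l 0))) (.c (.b (.a (.a (.b (.l 2) (.l 1)) (.l 2)) (.l 1)) (.l 1)) (.b (.c (.b (.l 0)
  (.a (.a (.l 0) (.l 1)) (.l 1))) (.l 0)) (.a (.a (.b (.l 2) (.l 1)) (.l 1)) (.l 1)))))) (.c (.b
  (.b (.c (.a (.l 1) (.l 1)) (.a (.a (.b (.c (.l 1) (.l 0)) (.l 1)) (.l 0)) (.l 0))) (.a (.l 1)
  (.c (.l 1) (.l 0)))) (.a (.l 1) (.l 1))) (.l 0))))

theorem g309 : Good 2197265627 1708984378 2441406252 493034000019 122070313 122070313 244140626 62500000003 :=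
  chk_sound t309 _ _ _ _ _ _ _ _ (by decide +kernel)

def t310 : Tree :=
  (.b (.c (.a (.b (.l 0) (.b (.l 0) (.a (.b (.l 0) (.c (.l 0) (.c (.l 0) (.b (.l 0) (.a (.l 1) (.l
  0)))))) (.l 0)))) (.l 0)) (.a (.b (.l 0) (.c (.a (.b (.l 0) (.c (.b (.l 0) (.c (.a (.b (.c (.l
  0) (.l 3)) (.l 1)) (.a (.l 1) (.l 1))) (.a (.b (.c (.c (.a (.l 3) (.l 0)) (.l 0)) (.l 0)) (.c
  (.a (.l 1) (.l 1)) (.a (.l 0) (.a (.l 2) (.l 0))))) (.l 0)))) (.l 0))) (.l 0)) (.l 0))) (.l 0)))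
  (.c (.a (.b (.c (.a (.b (.c (.l 0) (.b (.l 0) (.a (.c (.l 1) (.l 1)) (.l 4)))) (.d (.c (.l 4)
  (.l 4)) (.a (.c (.b (.l 4) (.l 4)) (.l 4)) (.l 4)))) (.b (.l 0) (.a (.l 4) (.l 4)))) (.a (.b (.c
  (.c (.l 1) (.l 1)) (.a (.l 1) (.b (.l 1) (.l 1)))) (.c (.a (.l 1) (.l 1)) (.a (.l 1) (.l 1))))
  (.c (.b (.a (.l 4) (.l 4)) (.a (.l 1) (.l 4))) (.a (.b (.b (.l 4) (.l 1)) (.l 1)) (.l 0))))) (.c
  (.a (.b (.d (.l 4) (.a (.c (.l 4) (.l 1)) (.l 4))) (.a (.c (.l 1) (.l 1)) (.l 1))) (.d (.b (.l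
  4) (.l 1)) (.b (.l 4) (.l 1)))) (.a (.c (.b (.l 1) (.l 1)) (.b (.l 1) (.l 1))) (.c (.b (.l 4)
  (.l 1)) (.b (.l 1) (.l 1)))))) (.c (.b (.b (.l 0) (.a (.l 4) (.l 4))) (.a (.b (.l 4) (.l 1)) (.b
  (.l 1) (.l 1)))) (.c (.a (.c (.b (.b (.l 0) (.l 4)) (.l 4)) (.l 0)) (.l 0)) (.l 0)))) (.a (.c
  (.a (.b (.c (.b (.c (.a (.l 1) (.l 1)) (.a (.b (.a (.b (.l 1) (.l 1)) (.l 1)) (.l 1)) (.l 0)))
  (.c (.l 1) (.a (.l 1) (.l 0)))) (.a (.c (.c (.b (.b (.a (.b (.l 0) (.l 1)) (.l 0)) (.l 1)) (.l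
  1)) (.l 0)) (.l 0)) (.l 0))) (.c (.b (.l 1) (.l 1)) (.c (.b (.l 1) (.l 1)) (.l 0)))) (.l 0)) (.l
  0)) (.l 0))))

theorem g310 : Good 2441406252 976562501 1953125001 493034000019 244140626 488281251 488281251 62500000003 :=
  chk_sound t310 _ _ _ _ _ _ _ _ (by decide +kernel)

def t311 : Tree :=
  (.a (.b (.l 0) (.c (.a (.l 0) (.b (.l 0) (.c (.a (.b (.l 0) (.c (.a (.b (.l 0) (.c (.c (.b (.l
  0) (.a (.l 0) (.l 1))) (.l 0)) (.l 0))) (.l 0)) (.l 0))) (.l 0)) (.l 0)))) (.l 0))) (.l 0))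

theorem g311 : Good 1953125001 976562501 2929687502 493034000019 488281251 488281251 488281251 62500000003 :=
  chk_sound t311 _ _ _ _ _ _ _ _ (by decide +kernel)

def t312 : Tree :=
  (.l 0)

theorem g312 : Good 2929687502 0 1953125001 493034000019 488281251 976562501 976562501 62500000003 :=
  chk_sound t312 _ _ _ _ _ _ _ _ (by decide +kernel)

def t313 : Tree :=
  (.l 0)

theorem g313 : Good 1953125001 1953125001 0 493034000019 488281251 488281251 488281251 62500000003 :=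
  chk_sound t313 _ _ _ _ _ _ _ _ (by decide +kernel)

def t314 : Tree :=
  (.l 0)

theorem g314 : Good 1953125001 1953125001 976562501 493034000019 244140626 244140626 244140626 62500000003 :=
  chk_sound t314 _ _ _ _ _ _ _ _ (by decide +kernel)

def t315 : Tree :=
  (.b (.l 1) (.l 2))

theorem g315 : Good 1953125001 1953125001 1464843752 493034000019 61035157 122070313 122070313 62500000003 :=
  chk_sound t315 _ _ _ _ _ _ _ _ (by decide +kernel)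

def t316 : Tree :=
  (.a (.l 2) (.l 2))

theorem g316 : Good 1953125001 1953125001 1708984378 493034000019 61035157 61035157 61035157 62500000003 :=
  chk_sound t316 _ _ _ _ _ _ _ _ (by decide +kernel)

def t317 : Tree :=
  (.a (.c (.b (.l 2) (.l 2)) (.b (.d (.a (.b (.b (.a (.l 9) (.l 5)) (.l 9)) (.l 5)) (.l 10)) (.c
  (.l 5) (.a (.b (.c (.l 2) (.a (.b (.b (.l 8) (.a (.l 8) (.l 3))) (.l 5)) (.b (.l 7) (.l 3))))
  (.l 8)) (.b (.l 7) (.l 4))))) (.b (.l 8) (.l 5)))) (.b (.a (.c (.l 1) (.l 9)) (.l 4)) (.a (.l 8)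
  (.l 2))))

theorem g317 : Good 1953125001 1953125001 1831054691 493034000019 61035157 61035157 61035157 31250000002 :=
  chk_sound t317 _ _ _ _ _ _ _ _ (by decide +kernel)

def t318 : Tree :=
  (.b (.l 1) (.l 2))

theorem g318 : Good 1953125001 1953125001 1831054691 555534000022 30517579 61035157 30517579 31250000002 :=
  chk_sound t318 _ _ _ _ _ _ _ _ (by decide +kernel)

def t319 : Tree :=
  (.b (.c (.a (.l 2) (.l 2)) (.a (.c (.b (.l 2) (.l 2)) (.d (.b (.a (.b (.b (.l 10) (.a (.l 5) (.l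
  3))) (.l 5)) (.b (.l 5) (.l 2))) (.l 5)) (.b (.a (.b (.c (.l 2) (.c (.a (.l 2) (.l 2)) (.a (.b
  (.l 0) (.l 10)) (.b (.l 7) (.l 3))))) (.l 10)) (.b (.l 10) (.l 4))) (.l 10)))) (.d (.b (.l 7)
  (.l 3)) (.b (.a (.l 4) (.l 2)) (.l 5))))) (.b (.a (.l 5) (.l 5)) (.l 5)))

theorem g319 : Good 1953125001 1953125001 1892089848 555534000022 30517579 61035157 30517579 15625000001 :=
  chk_sound t319 _ _ _ _ _ _ _ _ (by decide +kernel)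

def t320 : Tree :=
  (.b (.l 1) (.l 2))

theorem g320 : Good 1953125001 1953125001 1892089848 586784000024 15258790 61035157 15258790 15625000001 :=
  chk_sound t320 _ _ _ _ _ _ _ _ (by decide +kernel)

def t321 : Tree :=
  (.b (.c (.b (.l 2) (.l 2)) (.a (.b (.c (.l 2) (.d (.b (.c (.a (.l 2) (.l 2)) (.a (.b (.l 0) (.l
  5)) (.b (.l 5) (.l 2)))) (.l 5)) (.b (.c (.a (.l 2) (.l 2)) (.a (.b (.l 0) (.l 10)) (.b (.l 10)
  (.l 4)))) (.a (.l 5) (.l 5))))) (.b (.l 5) (.l 2))) (.b (.d (.b (.l 7) (.l 3)) (.b (.a (.l 5)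
  (.l 2)) (.l 5))) (.b (.l 5) (.l 1))))) (.b (.l 5) (.l 2)))

theorem g321 : Good 1953125001 1953125001 1922607427 586784000024 15258790 61035157 15258790 7812500001 :=
  chk_sound t321 _ _ _ _ _ _ _ _ (by decide +kernel)

def t322 : Tree :=
  (.c (.b (.l 2) (.l 2)) (.b (.c (.b (.l 2) (.b (.l 2) (.l 2))) (.d (.b (.a (.c (.b (.l 1) (.l 2))
  (.b (.b (.l 0) (.d (.l 5) (.a (.l 5) (.l 5)))) (.b (.l 5) (.l 2)))) (.c (.b (.l 2) (.l 1)) (.b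
  (.d (.b (.l 7) (.l 2)) (.d (.l 10) (.b (.l 7) (.l 2)))) (.b (.l 2) (.l 1))))) (.b (.l 5) (.l
  2))) (.a (.b (.c (.b (.l 1) (.l 2)) (.d (.b (.b (.l 0) (.d (.l 5) (.a (.l 8) (.l 5)))) (.b (.l
  5) (.l 2))) (.a (.c (.b (.l 1) (.l 2)) (.b (.b (.l 0) (.b (.l 0) (.b (.l 2) (.l 2)))) (.b (.b
  (.l 2) (.l 2)) (.l 2)))) (.b (.b (.l 0) (.c (.l 1) (.b (.b (.l 0) (.a (.l 1) (.l 1))) (.a (.l 1)
  (.l 1))))) (.b (.b (.l 2) (.l 1)) (.l 1)))))) (.b (.b (.l 2) (.l 2)) (.l 2))) (.b (.c (.b (.l 2)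
  (.l 2)) (.d (.b (.a (.b (.b (.l 1) (.l 2)) (.l 5)) (.b (.l 4) (.l 1))) (.b (.l 2) (.l 1))) (.b
  (.b (.c (.a (.l 1) (.l 1)) (.a (.b (.l 0) (.a (.l 0) (.l 1))) (.b (.a (.l 1) (.l 1)) (.l 1))))
  (.c (.l 2) (.a (.b (.a (.l 1) (.l 1)) (.l 1)) (.l 1)))) (.b (.a (.l 1) (.l 1)) (.l 1))))) (.b
  (.b (.l 2) (.l 1)) (.l 1)))))) (.b (.b (.l 2) (.l 2)) (.l 2))))

theorem g322 : Good 1953125001 1953125001 1922607427 602409000025 7629395 61035157 15258790 7812500001 :=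
  chk_sound t322 _ _ _ _ _ _ _ _ (by decide +kernel)

def t323 : Tree :=
  (.b (.c (.l 2) (.d (.b (.c (.l 2) (.a (.b (.b (.l 4) (.l 2)) (.l 5)) (.b (.l 4) (.l 1)))) (.b
  (.l 5) (.l 1))) (.b (.c (.b (.l 1) (.l 1)) (.b (.d (.a (.b (.l 4) (.l 1)) (.l 4)) (.a (.c (.l 1)
  (.d (.l 7) (.b (.a (.l 1) (.l 1)) (.l 1)))) (.b (.l 4) (.l 1)))) (.a (.b (.a (.l 1) (.l 1)) (.l
  1)) (.b (.l 1) (.l 1))))) (.b (.a (.b (.l 1) (.l 1)) (.l 1)) (.l 2))))) (.b (.b (.l 2) (.l 1))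
  (.l 1)))

theorem g323 : Good 1968383791 1953125001 1922607427 602409000025 7629395 61035157 15258790 7812500001 :=
  chk_sound t323 _ _ _ _ _ _ _ _ (by decide +kernel)

def t324 : Tree :=
  (.c (.b (.l 2) (.l 2)) (.b (.d (.a (.c (.l 2) (.b (.b (.l 4) (.l 2)) (.l 5))) (.b (.l 4) (.l
  1))) (.b (.c (.a (.l 1) (.l 1)) (.d (.a (.b (.l 4) (.l 2)) (.l 4)) (.a (.d (.b (.l 7) (.l 1))
  (.c (.l 1) (.b (.a (.l 4) (.l 1)) (.l 1)))) (.b (.l 7) (.l 1))))) (.c (.l 2) (.a (.b (.a (.l 1)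
  (.l 1)) (.l 1)) (.b (.l 1) (.l 1)))))) (.b (.d (.l 2) (.a (.l 2) (.l 1))) (.a (.l 1) (.l 1)))))

theorem g324 : Good 1983642580 1953125001 1892089848 586784000024 15258790 61035157 30517579 15625000001 :=
  chk_sound t324 _ _ _ _ _ _ _ _ (by decide +kernel)

def t325 : Tree :=
  (.c (.b (.l 2) (.l 2)) (.b (.d (.a (.b (.l 4) (.l 4)) (.l 4)) (.a (.c (.b (.l 1) (.l 1)) (.d (.b
  (.l 4) (.l 2)) (.d (.b (.l 7) (.l 1)) (.b (.a (.l 4) (.l 1)) (.l 5))))) (.d (.l 4) (.b (.c (.l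
  1) (.l 4)) (.l 4))))) (.d (.a (.l 8) (.l 1)) (.a (.b (.a (.l 2) (.l 1)) (.l 2)) (.b (.l 1) (.l
  1))))))

theorem g325 : Good 2014160158 1953125001 1831054691 555534000022 30517579 61035157 61035157 31250000002 :=
  chk_sound t325 _ _ _ _ _ _ _ _ (by decide +kernel)

def t326 : Tree :=
  (.c (.b (.l 2) (.l 2)) (.d (.b (.a (.l 5) (.l 5)) (.l 5)) (.a (.c (.b (.l 2) (.l 2)) (.b (.d (.l
  5) (.b (.a (.c (.l 1) (.l 2)) (.l 2)) (.l 2))) (.b (.a (.l 2) (.l 1)) (.l 2)))) (.b (.d (.l 8)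
  (.a (.c (.l 1) (.l 2)) (.l 2))) (.d (.l 1) (.c (.l 1) (.l 1)))))))

theorem g326 : Good 1953125001 2075195314 1708984378 493034000019 61035157 61035157 122070313 62500000003 :=
  chk_sound t326 _ _ _ _ _ _ _ _ (by decide +kernel)

def t327 : Tree :=
  (.c (.l 0) (.b (.d (.c (.l 2) (.l 5)) (.c (.l 2) (.b (.a (.c (.l 1) (.l 2)) (.l 2)) (.a (.l 2)
  (.l 1))))) (.d (.l 2) (.b (.c (.l 0) (.l 2)) (.l 2)))))

theorem g327 : Good 1953125001 2197265627 1464843752 493034000019 61035157 122070313 244140626 62500000003 :=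
  chk_sound t327 _ _ _ _ _ _ _ _ (by decide +kernel)

def t328 : Tree :=
  (.b (.c (.b (.l 2) (.l 2)) (.b (.d (.a (.b (.l 5) (.l 4)) (.l 4)) (.c (.a (.l 1) (.l 1)) (.a (.d
  (.b (.l 7) (.l 4)) (.c (.b (.l 1) (.l 1)) (.b (.a (.b (.l 4) (.l 1)) (.l 4)) (.a (.l 1) (.l
  1))))) (.d (.l 4) (.b (.c (.l 1) (.l 4)) (.l 1)))))) (.c (.a (.l 2) (.l 1)) (.a (.d (.l 5) (.b
  (.a (.l 2) (.l 1)) (.l 1))) (.b (.c (.l 1) (.l 1)) (.l 1)))))) (.c (.l 0) (.b (.c (.l 2) (.a (.b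
  (.l 1) (.l 1)) (.l 1))) (.b (.l 2) (.l 0)))))

theorem g328 : Good 2075195314 1953125001 1464843752 493034000019 61035157 244140626 244140626 62500000003 :=
  chk_sound t328 _ _ _ _ _ _ _ _ (by decide +kernel)

def t329 : Tree :=
  (.b (.c (.a (.b (.l 1) (.l 1)) (.l 1)) (.a (.b (.d (.c (.l 1) (.l 4)) (.a (.b (.l 4) (.l 4)) (.l
  4))) (.a (.b (.l 4) (.l 1)) (.l 4))) (.b (.a (.l 4) (.l 1)) (.l 1)))) (.c (.l 0) (.a (.b (.c (.l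
  1) (.l 1)) (.l 1)) (.l 1))))

theorem g329 : Good 2197265627 1953125001 1464843752 493034000019 122070313 244140626 244140626 62500000003 :=
  chk_sound t329 _ _ _ _ _ _ _ _ (by decide +kernel)

def t330 : Tree :=
  (.l 0)

theorem g330 : Good 1953125001 2441406252 976562501 493034000019 244140626 244140626 488281251 62500000003 :=
  chk_sound t330 _ _ _ _ _ _ _ _ (by decide +kernel)

def t331 : Tree :=
  (.b (.c (.l 0) (.a (.b (.c (.l 1) (.a (.b (.l 1) (.l 1)) (.l 1))) (.c (.l 0) (.l 1))) (.b (.c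
  (.l 0) (.l 1)) (.l 0)))) (.l 0))

theorem g331 : Good 2441406252 1953125001 976562501 493034000019 244140626 488281251 488281251 62500000003 :=
  chk_sound t331 _ _ _ _ _ _ _ _ (by decide +kernel)

def t332 : Tree :=
  (.l 0)

theorem g332 : Good 1953125001 2929687502 0 493034000019 488281251 488281251 976562501 62500000003 :=
  chk_sound t332 _ _ _ _ _ _ _ _ (by decide +kernel)

def t333 : Tree :=
  (.b (.c (.l 0) (.a (.b (.c (.l 0) (.a (.l 1) (.l 0))) (.l 0)) (.l 0))) (.l 0))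

theorem g333 : Good 2929687502 1953125001 0 493034000019 488281251 976562501 976562501 62500000003 :=
  chk_sound t333 _ _ _ _ _ _ _ _ (by decide +kernel)

def t334 : Tree :=
  (.b (.a (.c (.b (.c (.d (.a (.b (.l 9) (.l 3)) (.l 7)) (.a (.b (.a (.l 8) (.b (.l 5) (.l 2)))
  (.l 5)) (.b (.l 5) (.l 2)))) (.a (.l 1) (.l 2))) (.b (.l 5) (.l 3))) (.l 1)) (.d (.l 9) (.b (.l
  7) (.l 4)))) (.b (.l 8) (.l 5)))

theorem g334 : Good 1953125001 1953125001 1953125001 493034000019 30517579 61035157 30517579 31250000002 :=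
  chk_sound t334 _ _ _ _ _ _ _ _ (by decide +kernel)

def t335 : Tree :=
  (.c (.b (.c (.a (.b (.c (.d (.b (.a (.b (.l 1) (.l 5)) (.l 10)) (.l 5)) (.b (.a (.b (.l 1) (.l
  5)) (.b (.l 7) (.l 2))) (.l 5))) (.b (.l 1) (.l 2))) (.b (.l 5) (.l 2))) (.b (.d (.l 10) (.b (.l
  7) (.l 4))) (.b (.l 2) (.l 1)))) (.b (.l 1) (.l 2))) (.b (.l 5) (.l 2))) (.b (.l 1) (.l 1)))

theorem g335 : Good 1953125001 1953125001 1953125001 555534000022 15258790 61035157 30517579 15625000001 :=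
  chk_sound t335 _ _ _ _ _ _ _ _ (by decide +kernel)

def t336 : Tree :=
  (.d (.b (.c (.b (.c (.a (.b (.b (.l 1) (.b (.l 9) (.l 3))) (.b (.l 5) (.l 2))) (.b (.c (.d (.b
  (.l 5) (.l 1)) (.b (.l 10) (.l 2))) (.l 2)) (.b (.l 1) (.l 1)))) (.l 2)) (.b (.l 2) (.l 2))) (.l
  1)) (.b (.l 2) (.l 1))) (.b (.c (.a (.c (.d (.b (.c (.b (.b (.l 0) (.d (.l 5) (.a (.l 5) (.l
  2)))) (.b (.l 2) (.l 2))) (.b (.l 1) (.l 1))) (.b (.l 2) (.l 1))) (.b (.c (.d (.b (.b (.l 0) (.d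
  (.l 5) (.a (.l 5) (.l 5)))) (.b (.l 2) (.l 2))) (.a (.b (.b (.l 0) (.b (.l 1) (.a (.l 2) (.l
  2)))) (.b (.b (.l 2) (.l 2)) (.l 2))) (.b (.b (.l 0) (.c (.b (.b (.l 0) (.a (.l 1) (.l 1))) (.a
  (.l 1) (.l 1))) (.l 1))) (.b (.b (.l 1) (.l 1)) (.l 1))))) (.b (.l 1) (.l 1))) (.b (.b (.l 2)
  (.l 1)) (.l 2)))) (.b (.l 1) (.l 2))) (.d (.b (.c (.b (.c (.a (.b (.b (.l 1) (.l 1)) (.l 1)) (.b
  (.l 2) (.l 1))) (.l 1)) (.b (.l 1) (.l 1))) (.l 1)) (.b (.l 1) (.l 1))) (.c (.b (.c (.d (.b (.a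
  (.b (.b (.l 1) (.l 1)) (.l 1)) (.b (.l 4) (.l 1))) (.b (.l 1) (.l 1))) (.b (.b (.c (.a (.b (.l
  0) (.a (.l 0) (.l 1))) (.b (.l 1) (.l 1))) (.l 1)) (.a (.b (.l 1) (.l 1)) (.l 1))) (.b (.a (.l
  1) (.l 1)) (.l 1)))) (.b (.l 1) (.l 1))) (.b (.b (.l 1) (.l 1)) (.l 1))) (.b (.l 1) (.l 1)))))
  (.l 1)) (.b (.b (.l 2) (.l 1)) (.l 2))))

theorem g336 : Good 1953125001 1953125001 1953125001 586784000024 7629395 61035157 15258790 15625000001 :=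
  chk_sound t336 _ _ _ _ _ _ _ _ (by decide +kernel)

def t337 : Tree :=
  (.d (.b (.c (.b (.c (.d (.b (.l 5) (.l 1)) (.b (.l 10) (.l 4))) (.b (.l 1) (.l 1))) (.b (.l 1)
  (.l 1))) (.l 2)) (.b (.l 1) (.l 1))) (.b (.c (.b (.c (.b (.d (.d (.l 7) (.a (.l 4) (.l 1))) (.a
  (.d (.l 7) (.b (.a (.l 1) (.l 1)) (.l 1))) (.b (.a (.l 1) (.l 1)) (.l 1)))) (.a (.d (.l 1) (.b
  (.l 1) (.l 1))) (.b (.l 1) (.l 1)))) (.b (.l 1) (.l 1))) (.b (.a (.b (.l 1) (.l 1)) (.l 1)) (.l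
  2))) (.l 1)) (.b (.b (.l 1) (.l 1)) (.l 1))))

theorem g337 : Good 1968383791 1953125001 1953125001 586784000024 7629395 61035157 15258790 15625000001 :=
  chk_sound t337 _ _ _ _ _ _ _ _ (by decide +kernel)

def t338 : Tree :=
  (.b (.l 1) (.l 1))

theorem g338 : Good 1953125001 1953125001 1983642580 586784000024 15258790 61035157 15258790 15625000001 :=
  chk_sound t338 _ _ _ _ _ _ _ _ (by decide +kernel)

def t339 : Tree :=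
  (.d (.b (.c (.d (.b (.l 5) (.l 2)) (.b (.a (.l 4) (.l 1)) (.l 4))) (.l 1)) (.b (.l 1) (.l 1)))
  (.b (.c (.b (.c (.d (.a (.b (.l 4) (.l 1)) (.l 4)) (.a (.d (.b (.l 4) (.l 1)) (.b (.a (.b (.l 1)
  (.l 1)) (.l 1)) (.l 1))) (.b (.a (.l 1) (.l 1)) (.l 1)))) (.a (.l 1) (.l 1))) (.a (.d (.l 1) (.b
  (.l 1) (.l 1))) (.b (.l 1) (.l 1)))) (.l 1)) (.c (.b (.a (.b (.l 1) (.l 1)) (.l 1)) (.l 2)) (.l
  1))))

theorem g339 : Good 1983642580 1953125001 1953125001 555534000022 15258790 61035157 30517579 31250000002 :=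
  chk_sound t339 _ _ _ _ _ _ _ _ (by decide +kernel)

def t340 : Tree :=
  (.b (.l 1) (.l 2))

theorem g340 : Good 1953125001 1953125001 2014160158 493034000019 30517579 61035157 30517579 62500000003 :=
  chk_sound t340 _ _ _ _ _ _ _ _ (by decide +kernel)

def t341 : Tree :=
  (.d (.b (.a (.c (.l 10) (.l 1)) (.l 4)) (.a (.l 5) (.l 1))) (.c (.b (.d (.a (.b (.l 4) (.l 1))
  (.l 4)) (.a (.c (.d (.b (.l 4) (.l 1)) (.b (.a (.b (.l 1) (.l 1)) (.l 1)) (.a (.l 1) (.l 1))))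
  (.l 1)) (.b (.a (.l 1) (.l 1)) (.l 1)))) (.a (.d (.l 1) (.b (.l 1) (.l 1))) (.b (.l 1) (.l 1))))
  (.b (.l 1) (.l 1))))

theorem g341 : Good 2014160158 1953125001 1953125001 493034000019 30517579 61035157 61035157 62500000003 :=
  chk_sound t341 _ _ _ _ _ _ _ _ (by decide +kernel)

def t342 : Tree :=
  (.l 1)

theorem g342 : Good 1953125001 1953125001 2075195314 493034000019 61035157 61035157 61035157 62500000003 :=
  chk_sound t342 _ _ _ _ _ _ _ _ (by decide +kernel)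

def t343 : Tree :=
  (.c (.a (.d (.b (.l 5) (.l 2)) (.b (.d (.l 5) (.b (.a (.l 2) (.l 1)) (.l 2))) (.b (.l 2) (.l
  2)))) (.d (.b (.l 2) (.l 1)) (.b (.a (.b (.l 1) (.l 1)) (.l 1)) (.c (.l 2) (.l 1))))) (.a (.l 1)
  (.l 1)))

theorem g343 : Good 1953125001 2075195314 1953125001 493034000019 61035157 61035157 122070313 62500000003 :=
  chk_sound t343 _ _ _ _ _ _ _ _ (by decide +kernel)

def t344 : Tree :=
  (.b (.l 1) (.l 1))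

theorem g344 : Good 1953125001 1953125001 2197265627 493034000019 61035157 122070313 122070313 62500000003 :=
  chk_sound t344 _ _ _ _ _ _ _ _ (by decide +kernel)

def t345 : Tree :=
  (.c (.b (.a (.c (.d (.b (.l 4) (.l 1)) (.b (.d (.l 4) (.a (.b (.l 1) (.l 1)) (.l 1))) (.a (.c
  (.l 1) (.l 1)) (.l 1)))) (.l 1)) (.c (.d (.l 4) (.b (.a (.l 1) (.l 1)) (.l 1))) (.l 1))) (.a (.c
  (.d (.l 1) (.b (.l 1) (.l 1))) (.l 1)) (.b (.c (.l 1) (.l 1)) (.l 1)))) (.b (.l 1) (.l 1)))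

theorem g345 : Good 2075195314 1953125001 1953125001 493034000019 61035157 122070313 244140626 62500000003 :=
  chk_sound t345 _ _ _ _ _ _ _ _ (by decide +kernel)

def t346 : Tree :=
  (.a (.c (.b (.d (.c (.l 5) (.l 1)) (.c (.b (.a (.l 2) (.l 1)) (.l 2)) (.l 2))) (.b (.c (.l 2)
  (.l 1)) (.l 2))) (.b (.l 1) (.l 1))) (.c (.b (.a (.b (.l 1) (.l 1)) (.l 1)) (.c (.l 1) (.l 1)))
  (.b (.l 1) (.l 1))))

theorem g346 : Good 1953125001 2197265627 1953125001 493034000019 122070313 122070313 244140626 62500000003 :=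
  chk_sound t346 _ _ _ _ _ _ _ _ (by decide +kernel)

def t347 : Tree :=
  (.b (.a (.c (.b (.a (.d (.l 4) (.b (.c (.l 1) (.l 1)) (.l 1))) (.b (.c (.l 1) (.l 1)) (.l 1)))
  (.a (.c (.l 1) (.l 1)) (.l 1))) (.b (.l 1) (.l 1))) (.b (.c (.a (.c (.l 1) (.l 1)) (.l 1)) (.l
  1)) (.c (.l 1) (.l 1)))) (.a (.b (.c (.l 1) (.l 1)) (.l 1)) (.c (.l 1) (.l 1))))

theorem g347 : Good 2197265627 1953125001 1953125001 493034000019 122070313 244140626 244140626 62500000003 :=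
  chk_sound t347 _ _ _ _ _ _ _ _ (by decide +kernel)

def t348 : Tree :=
  (.b (.a (.c (.a (.l 2) (.l 1)) (.b (.c (.l 2) (.c (.a (.l 2) (.l 1)) (.b (.a (.a (.l 2) (.l 2))
  (.l 2)) (.l 2)))) (.a (.l 2) (.l 1)))) (.c (.a (.l 1) (.l 1)) (.c (.a (.l 1) (.l 1)) (.a (.b (.a
  (.l 1) (.l 1)) (.l 1)) (.l 0))))) (.a (.c (.l 1) (.a (.l 1) (.l 1))) (.c (.l 1) (.a (.l 1) (.l
  1)))))

theorem g348 : Good 1953125001 1953125001 2441406252 493034000019 244140626 244140626 244140626 62500000003 :=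
  chk_sound t348 _ _ _ _ _ _ _ _ (by decide +kernel)

def t349 : Tree :=
  (.c (.a (.b (.a (.c (.b (.l 2) (.l 1)) (.l 1)) (.b (.l 1) (.l 1))) (.c (.l 0) (.a (.l 1) (.l
  1)))) (.b (.a (.l 1) (.l 1)) (.l 1))) (.a (.b (.c (.l 1) (.l 1)) (.c (.l 1) (.l 0))) (.c (.b (.l
  1) (.l 1)) (.l 1))))

theorem g349 : Good 1953125001 2441406252 1953125001 493034000019 244140626 244140626 488281251 62500000003 :=
  chk_sound t349 _ _ _ _ _ _ _ _ (by decide +kernel)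

def t350 : Tree :=
  (.b (.c (.a (.b (.a (.b (.c (.l 1) (.l 1)) (.l 1)) (.c (.l 1) (.l 1))) (.c (.l 1) (.l 1))) (.b
  (.a (.c (.l 1) (.l 1)) (.l 1)) (.l 1))) (.c (.a (.a (.c (.l 1) (.l 1)) (.l 0)) (.l 0)) (.l 0)))
  (.c (.a (.l 1) (.l 1)) (.c (.a (.l 1) (.l 0)) (.l 0))))

theorem g350 : Good 2441406252 1953125001 1953125001 493034000019 244140626 488281251 488281251 62500000003 :=
  chk_sound t350 _ _ _ _ _ _ _ _ (by decide +kernel)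

def t351 : Tree :=
  (.a (.b (.c (.a (.b (.c (.a (.b (.c (.c (.b (.c (.b (.l 0) (.l 2)) (.l 0)) (.a (.l 2) (.l 2)))
  (.l 0)) (.l 0)) (.c (.b (.a (.l 2) (.l 2)) (.l 1)) (.c (.b (.l 0) (.a (.l 2) (.l 2))) (.l 0))))
  (.b (.c (.c (.b (.c (.a (.l 2) (.l 2)) (.b (.l 0) (.a (.l 0) (.l 1)))) (.l 2)) (.b (.l 0) (.c
  (.a (.l 2) (.l 2)) (.b (.l 0) (.a (.l 0) (.l 1)))))) (.l 0)) (.c (.a (.l 2) (.l 1)) (.c (.b (.a
  (.c (.a (.l 2) (.l 2)) (.l 0)) (.a (.b (.l 0) (.l 1)) (.l 0))) (.a (.l 1) (.l 1))) (.a (.b (.l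
  0) (.c (.b (.l 0) (.l 1)) (.l 0))) (.l 0)))))) (.l 0)) (.c (.b (.c (.l 1) (.a (.b (.c (.l 1) (.a
  (.l 2) (.l 2))) (.l 1)) (.b (.c (.l 1) (.a (.l 1) (.l 0))) (.l 1)))) (.a (.l 1) (.l 1))) (.a (.b
  (.c (.b (.l 0) (.c (.b (.c (.l 2) (.l 0)) (.l 2)) (.l 0))) (.l 0)) (.c (.b (.c (.l 1) (.c (.a
  (.l 2) (.l 1)) (.b (.l 0) (.a (.l 0) (.l 1))))) (.l 1)) (.a (.b (.l 0) (.l 0)) (.l 0)))) (.c (.a
  (.c (.c (.c (.b (.a (.b (.l 2) (.l 1)) (.l 0)) (.l 1)) (.l 0)) (.l 0)) (.l 0)) (.l 0)) (.l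
  0))))) (.c (.a (.c (.b (.c (.a (.b (.b (.a (.b (.c (.l 1) (.l 0)) (.l 1)) (.l 1)) (.l 1)) (.l
  1)) (.l 0)) (.l 0)) (.l 1)) (.l 0)) (.l 0)) (.l 0))) (.l 0)) (.c (.b (.c (.a (.a (.l 1) (.l 1))
  (.a (.l 1) (.l 0))) (.a (.c (.a (.l 0) (.b (.l 1) (.l 0))) (.l 0)) (.l 0))) (.l 0)) (.l 0))) (.l
  0))

theorem g351 : Good 1953125001 1953125001 2929687502 493034000019 488281251 488281251 488281251 62500000003 :=
  chk_sound t351 _ _ _ _ _ _ _ _ (by decide +kernel)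

def t352 : Tree :=
  (.c (.a (.b (.c (.l 0) (.l 0)) (.l 0)) (.b (.c (.l 0) (.l 1)) (.l 0))) (.l 0))

theorem g352 : Good 1953125001 2929687502 1953125001 493034000019 488281251 488281251 976562501 62500000003 :=
  chk_sound t352 _ _ _ _ _ _ _ _ (by decide +kernel)

def t353 : Tree :=
  (.l 0)

theorem g353 : Good 2929687502 1953125001 1953125001 493034000019 488281251 976562501 976562501 62500000003 :=
  chk_sound t353 _ _ _ _ _ _ _ _ (by decide +kernel)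

end Pool.Agent.Lib.MP_d3fc00_an
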