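import Pool.Agent.Lib.MP_d3fc00_an.Data0
import Pool.Agent.Lib.MP_d3fc00_an.Data1
import Pool.Agent.Lib.MP_d3fc00_an.Data2
import Pool.Agent.Lib.MP_d3fc00_an.Data3
import Pool.Agent.Lib.MP_d3fc00_an.Data4
import Pool.Agent.Lib.MP_d3fc00_an.Data5
import Pool.Agent.Lib.MP_d3fc00_an.Data6
import Pool.Agent.Lib.MP_d3fc00_an.Data7

set_option maxRecDepth 100000

namespace Pool.Agent.Lib.MP_d3fc00_an

theorem good_root : Good 0 0 0 493034000019 1953125001 1953125001 1953125001 62500000003 :=
  (good_a (good_b (good_c (good_a g0 (good_b g1 (good_c g2 (good_a g3 (good_b g4 (good_c g5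
  (good_a (good_a g6 (good_c g7 (good_b g8 g9))) (good_a (good_b g10 (good_c g11 (good_d g12
  (good_b g13 g14)))) (good_b g15 (good_c g16 (good_c g17 (good_d g18 (good_a (good_b g19 (good_c
  g20 (good_d g21 (good_d g22 (good_b g23 g24))))) (good_b g25 (good_c g26 (good_d g27 (good_b g28
  (good_c g29 (good_a (good_d g30 (good_c g31 (good_d g32 (good_b g33 g34)))) (good_c g35 (good_d
  g36 (good_d g37 (good_b g38 (good_c g39 (good_a (good_d g40 (good_d g41 (good_d g42 (good_c g43
  (good_b g44 g45))))) (good_d g46 (good_c g47 (good_d g48 (good_a (good_b g49 (good_c g50 (good_d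
  g51 (good_d g52 g53)))) g54))))))))))))))))))))))))))))) (good_a g55 (good_b g56 (good_c (good_a
  (good_b g57 (good_c (good_a g58 (good_b g59 g60)) g61)) (good_b (good_c (good_c g62 (good_b g63
  (good_a g64 (good_c (good_b g65 (good_a g66 g67)) g68)))) g69) (good_c (good_b (good_c (good_a
  g70 g71) (good_a (good_b (good_c g72 g73) g74) (good_b (good_c g75 (good_a (good_c g76 g77)
  g78)) g79))) (good_a (good_c (good_b g80 (good_d g81 g82)) g83) (good_b (good_c (good_a g84 g85)
  g86) (good_a (good_c (good_d g87 (good_b g88 g89)) g90) (good_c (good_c (good_d g91 (good_a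
  (good_d g92 (good_c (good_b g93 g94) g95)) (good_c (good_d g96 (good_b g97 (good_c (good_d g98
  (good_a (good_d g99 (good_b g100 g101)) (good_c (good_d g102 (good_b g103 (good_c (good_a
  (good_d g104 (good_d g105 (good_d g106 g107))) (good_d g108 (good_c (good_d g109 (good_a (good_d
  g110 (good_d g111 g112)) g113)) g114))) g115))) g116))) g117))) g118))) g119) g120))))) (good_a
  g121 (good_c (good_a g122 g123) g124))))) g125)))) (good_c (good_a g126 (good_b (good_c g127
  (good_a g128 (good_b (good_c g129 (good_a g130 (good_a g131 (good_b (good_c g132 (good_a g133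
  (good_c g134 (good_d g135 (good_c g136 (good_a g137 (good_d g138 (good_b (good_c g139 (good_a
  g140 (good_d g141 g142))) g143)))))))) g144)))) g145))) g146)) (good_a g147 (good_b (good_c
  (good_a g148 (good_b (good_c (good_a g149 (good_b (good_a g150 (good_c (good_c (good_a g151
  (good_d g152 (good_c (good_a g153 (good_d g154 (good_b (good_c (good_a g155 (good_b g156 g157))
  g158) g159))) g160))) g161) g162)) g163)) g164) g165)) g166) g167)))) (good_b (good_c (good_a
  (good_b g168 (good_c g169 (good_a (good_b g170 (good_c g171 (good_a (good_a (good_c g172 (good_b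
  g173 (good_c g174 (good_a (good_d g175 (good_c g176 (good_a (good_b g177 (good_c g178 (good_d
  g179 (good_c g180 (good_a (good_d g181 (good_b g182 (good_c g183 (good_d g184 (good_b g185
  (good_c g186 (good_a (good_d g187 (good_b g188 g189)) (good_c g190 (good_a (good_d g191 (good_d
  g192 g193)) (good_d g194 (good_a g195 g196))))))))))) (good_d g197 (good_b g198 (good_c g199
  (good_a (good_c g200 (good_d g201 (good_d g202 (good_b g203 g204)))) (good_d g205 (good_c g206
  (good_a g207 g208)))))))))))) (good_d g209 (good_b g210 (good_c g211 (good_c g212 (good_a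
  (good_d g213 (good_c g214 (good_d g215 (good_b g216 g217)))) (good_d g218 (good_a g219
  g220)))))))))) (good_c g221 (good_d g222 (good_a (good_c g223 (good_d g224 (good_a g225 g226)))
  g227))))))) (good_c g228 (good_b g229 (good_b g230 g231)))) (good_b g232 g233)))) g234))) g235)
  (good_a (good_b g236 (good_c (good_a (good_b (good_c (good_b g237 (good_c g238 (good_c g239
  (good_b g240 (good_a (good_c g241 g242) g243))))) g244) (good_c (good_b (good_c (good_a (good_a
  g245 (good_b g246 g247)) g248) (good_a g249 g250)) (good_a (good_c (good_a (good_b (good_c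
  (good_a g251 g252) g253) (good_c (good_a (good_c (good_d g254 (good_c (good_a (good_d g255
  (good_b g256 (good_c (good_a (good_d g257 (good_c (good_d g258 (good_b g259 (good_c (good_a
  (good_d g260 (good_b g261 g262)) (good_c (good_a (good_d g263 (good_b g264 g265)) (good_d g266
  (good_a g267 g268))) g269)) g270))) g271)) (good_c (good_d g272 (good_a (good_d g273 (good_c
  (good_d g274 (good_b g275 g276)) g277)) (good_c g278 g279))) g280)) g281))) (good_d g282 (good_c
  (good_a (good_d g283 (good_b g284 g285)) (good_d g286 (good_c g287 g288))) g289))) g290)) g291)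
  (good_c (good_d g292 (good_b g293 g294)) g295)) g296)) (good_c (good_b g297 g298) g299)) g300)
  g301)) (good_a (good_b (good_c (good_c g302 g303) g304) g305) (good_b (good_c (good_c g306 g307)
  g308) g309)))) g310) g311)) g312)) (good_c (good_a (good_b (good_c g313 (good_a (good_b (good_c
  g314 (good_a (good_a (good_b (good_c g315 (good_b (good_c g316 (good_d g317 (good_a (good_c g318
  (good_d g319 (good_a (good_c g320 (good_d g321 (good_a g322 g323))) g324))) g325))) g326)) g327)
  g328) g329)) g330) g331)) g332) g333) (good_a (good_b (good_c (good_a (good_b (good_c (good_a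
  (good_b (good_a (good_c (good_b (good_c (good_a (good_c (good_d g334 (good_a (good_d g335
  (good_c (good_a g336 g337) g338)) g339)) g340) g341) g342) g343) g344) g345) g346) g347) g348)
  g349) g350) g351) g352) g353))))

end Pool.Agent.Lib.MP_d3fc00_an
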