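import Pool.Agent.Lib.MP_d3fc00_an.Local
import Pool.Agent.Lib.MP_d3fc00_an.Root

/-! Absorbing region and global convergence. -/

namespace Pool.Agent.Lib.MP_d3fc00_an

open Filter Topology

theorem back_step {p M y a b α β : ℝ} (hp1 : 1 / 2 ≤ p) (hp2 : p ≤ 0.6181) (hM : 20 ≤ M)
    (hb : 1 - p ≤ b) (h : y = 1 - p + p * a / b) (hy : α * M ≤ y) (hα : 0.025 ≤ α)
    (hβ : β ≤ (α - 0.025) * 0.6178) : β * M ≤ a := by
  have hb0 : 0 < b := by linarith
  have h1 : p * a = (y - (1 - p)) * b := by rw [h]; field_simp; ring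
  have h2 : (α - 0.025) * M ≤ y - (1 - p) := by nlinarith
  have h3 : 0 ≤ (α - 0.025) * M := by nlinarith
  have h4 : 0.6178 * p ≤ b := by linarith
  have h5 : (α - 0.025) * M * (0.6178 * p) ≤ p * a := by
    rw [h1]; exact mul_le_mul h2 h4 (by linarith) (h3.trans h2)
  have h6 : p * (β * M) ≤ p * a := by
    have : β * M ≤ (α - 0.025) * 0.6178 * M := mul_le_mul_of_nonneg_right hβ (by linarith)
    nlinarith
  exact le_of_mul_le_mul_left h6 (by linarith)

theorem far_step {p M : ℝ} (hp1 : 1 / 2 ≤ p) (hp2 : p ≤ 0.6181) (hM : 20 ≤ M) {Y : ℕ → ℝ}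
    (hpos : ∀ n, 0 < Y n) (hrec : ∀ n, Y (n + 3) = 1 - p + p * Y n / Y (n + 1)) (n : ℕ)
    (h10 : Y (n + 1) ≤ M) (h3 : Y (n + 8) ≤ M) : Y (n + 11) ≤ 0.97 * M := by
  have low : ∀ k, 1 - p ≤ Y (k + 3) := fun k => by
    have := hpos k; have := hpos (k + 1)
    have : 0 ≤ p * Y k / Y (k + 1) := by positivity
    rw [hrec]; linarith
  by_contra hc
  push Not at hc
  have a3 := back_step (β := 0.5838) hp1 hp2 hM (low (n + 6)) (hrec (n + 8)) hc.le (by norm_num)
    (by norm_num)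
  have a6 := back_step (β := 0.3452) hp1 hp2 hM (low (n + 3)) (hrec (n + 5)) a3 (by norm_num)
    (by norm_num)
  have a9 := back_step (β := 0.1978) hp1 hp2 hM (low n) (hrec (n + 2)) a6 (by norm_num)
    (by norm_num)
  have a7 : Y (n + 4) ≤ 3.625 := by
    have h1 : p * Y (n + 1) / Y (n + 2) ≤ 3.125 := by
      rw [div_le_iff₀ (hpos _)]
      nlinarith [hpos (n + 1)]
    rw [hrec (n + 1)]; linarith
  have a4 : Y (n + 7) ≤ 0.8246 := by
    have h1 : p * Y (n + 4) / Y (n + 5) ≤ 0.3246 := by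
      rw [div_le_iff₀ (hpos _)]
      nlinarith [hpos (n + 4)]
    rw [hrec (n + 4)]; linarith
  have a2 : 0.668 ≤ Y (n + 9) := by
    have h1 : 0.2862 ≤ p * Y (n + 6) / Y (n + 7) := by
      rw [le_div_iff₀ (hpos _)]
      nlinarith [low (n + 3)]
    rw [hrec (n + 6)]; linarith
  have h1 : p * Y (n + 8) / Y (n + 9) ≤ 0.9254 * M := by
    rw [div_le_iff₀ (hpos _)]
    nlinarith [hpos (n + 8)]
  rw [hrec (n + 8)] at hc
  linarith

theorem eventually_le {p : ℝ} (hp1 : 1 / 2 ≤ p) (hp2 : p ≤ 0.6181) {Y : ℕ → ℝ}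
    (hpos : ∀ n, 0 < Y n) (hrec : ∀ n, Y (n + 3) = 1 - p + p * Y n / Y (n + 1)) :
    ∃ N, ∀ n, N ≤ n → Y n ≤ 20 := by
  set M := 20 + ∑ i ∈ Finset.range 11, Y i with hM
  have hs : 0 ≤ ∑ i ∈ Finset.range 11, Y i := Finset.sum_nonneg fun i _ => (hpos i).le
  have hM20 : 20 ≤ M := by linarith
  have bdd : ∀ n, Y n ≤ M := by
    intro n
    induction n using Nat.strong_induction_on with
    | _ n ih =>
      rcases lt_or_ge n 11 with h | h
      · have := Finset.single_le_sum (f := Y) (fun i _ => (hpos i).le) (Finset.mem_range.2 h)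
        linarith
      · obtain ⟨m, rfl⟩ : ∃ m, n = m + 11 := ⟨n - 11, by omega⟩
        have := far_step hp1 hp2 hM20 hpos hrec m (ih _ (by omega)) (ih _ (by omega))
        linarith
  have key : ∀ j : ℕ, ∃ N, ∀ n, N ≤ n → Y n ≤ max 20 (0.97 ^ j * M) := by
    intro j
    induction j with
    | zero => exact ⟨0, fun n _ => le_max_of_le_right (by simpa using bdd n)⟩
    | succ j ih =>
      obtain ⟨N, hN⟩ := ih
      refine ⟨N + 11, fun n hn => ?_⟩
      obtain ⟨m, rfl⟩ : ∃ m, n = m + 11 := ⟨n - 11, by omega⟩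
      have := far_step hp1 hp2 (le_max_left _ _) hpos hrec m (hN _ (by omega)) (hN _ (by omega))
      refine this.trans ?_
      rcases le_total 20 (0.97 ^ j * M) with h | h
      · rw [max_eq_right h]
        exact le_max_of_le_right (le_of_eq (by ring))
      · rw [max_eq_left h]
        exact le_max_of_le_left (by norm_num)
  obtain ⟨j, hj⟩ := exists_pow_lt_of_lt_one (x := 20 / M) (y := (0.97 : ℝ)) (by positivity)
    (by norm_num)
  obtain ⟨N, hN⟩ := key j
  refine ⟨N, fun n hn => (hN n hn).trans (max_le le_rfl ?_)⟩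
  rw [lt_div_iff₀ (by linarith)] at hj
  exact hj.le

theorem mid_step {p : ℝ} (hp1 : 1 / 2 ≤ p) (hp2 : p ^ 2 + p ≤ 1) {u : ℕ → ℝ} (hu : IsOrb p u)
    (a0 : Adm (u 0)) (a1 : Adm (u 1)) (a2 : Adm (u 2)) :
    ∃ k, Wf (u k) (u (k + 1)) (u (k + 2)) * 1000000000078000000001521 + 1
        ≤ Wf (u 0) (u 1) (u 2) * 1000000000078000000001521 ∨
      Wf (u k) (u (k + 1)) (u (k + 2)) * 1000000000078000000001521 ≤ C0 := by
  have hp3 : p ≤ 0.618034 := by nlinarith
  obtain ⟨b0, c0⟩ := a0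
  obtain ⟨b1, c1⟩ := a1
  obtain ⟨b2, c2⟩ := a2
  refine good_root p
    ((-616542 * u 0 + 1378210 * u 1 + -616542 * u 2) * 1000000000039 / 1799563374)
    ((-600021 * u 0 + 200028 * u 1 + 1247580 * u 2) * 1000000000039 / 1799563374)
    ((996402 * u 0 + 615568 * u 1 + 996402 * u 2) * 1000000000039 / 1799563374) u hu
    ?_ ?_ ?_ ?_ (by ring) (by ring) (by ring) ⟨b0, c0⟩ ⟨b1, c1⟩ ⟨b2, c2⟩
  all_goals
    constructor <;> (push_cast; linarith)

theorem orb_conv {p : ℝ} (hp1 : 1 / 2 ≤ p) (hp2 : p ^ 2 + p ≤ 1) {u : ℕ → ℝ} (hu : IsOrb p u)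
    (hb : ∀ n, |u n| < 1) {N : ℕ} (hN : ∀ n, N ≤ n → Adm (u n)) : Tendsto u atTop (𝓝 0) := by
  have shift : ∀ m, IsOrb p (fun n => u (m + n)) := fun m n => hu (m + n)
  have W0 : ∀ a b c, 0 ≤ Wf a b c := fun a b c => by unfold Wf; positivity
  have hex : ∃ n, Wf (u n) (u (n + 1)) (u (n + 2)) * 1000000000078000000001521 ≤ C0 := by
    by_contra hc
    push Not at hc
    have key : ∀ m : ℕ, ∃ n, N ≤ n ∧ Wf (u n) (u (n + 1)) (u (n + 2)) * 1000000000078000000001521
        + m ≤ Wf (u N) (u (N + 1)) (u (N + 2)) * 1000000000078000000001521 := by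
      intro m
      induction m with
      | zero => exact ⟨N, le_rfl, by simp⟩
      | succ m ih =>
        obtain ⟨n, hn, h⟩ := ih
        obtain ⟨k, hk | hk⟩ := mid_step hp1 hp2 (shift n) (hN _ (by omega)) (hN _ (by omega))
          (hN _ (by omega))
        · refine ⟨n + k, by omega, ?_⟩
          simp only [add_zero, ← add_assoc] at hk
          push_cast
          linarith
        · simp only [← add_assoc] at hk
          exact absurd hk (not_le.2 (hc _))
    obtain ⟨m, hm⟩ := exists_nat_gt (Wf (u N) (u (N + 1)) (u (N + 2)) * 1000000000078000000001521)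
    obtain ⟨n, -, h⟩ := key m
    have := W0 (u n) (u (n + 1)) (u (n + 2))
    linarith
  obtain ⟨n, hn⟩ := hex
  have := local_conv hp1 hp2 (shift n) (fun k => hb _) (by simpa using hn)
  simp only [add_comm n] at this
  exact (tendsto_add_atTop_iff_nat n).1 this

theorem Y_conv {p : ℝ} (hp1 : 1 / 2 ≤ p) (hp2 : p ^ 2 + p ≤ 1) {Y : ℕ → ℝ}
    (hpos : ∀ n, 0 < Y n) (hrec : ∀ n, Y (n + 3) = 1 - p + p * Y n / Y (n + 1)) :
    Tendsto Y atTop (𝓝 1) := by
  have hp3 : p ≤ 0.6181 := by nlinarith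
  obtain ⟨N, hN⟩ := eventually_le hp1 hp3 hpos hrec
  have low : ∀ k, 1 - p ≤ Y (k + 3) := fun k => by
    have := hpos k; have := hpos (k + 1)
    have : 0 ≤ p * Y k / Y (k + 1) := by positivity
    rw [hrec]; linarith
  set u : ℕ → ℝ := fun n => (Y n - 1) / (Y n + 1) with hu
  have horb : IsOrb p u := by
    intro n
    have h0 := hpos n; have h1 := hpos (n + 1)
    have h2 : 0 < (2 - p) * Y (n + 1) + p * Y n := by nlinarith
    have e1 : Y (n + 3) + 1 = ((2 - p) * Y (n + 1) + p * Y n) / Y (n + 1) := by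
      rw [hrec]; field_simp; ring
    have e2 : Y (n + 3) - 1 = p * (Y n - Y (n + 1)) / Y (n + 1) := by
      rw [hrec]; field_simp; ring
    have e3 : 1 + (p * (u n - u (n + 1)) - (u n - u (n + 1)) - u n * u (n + 1))
        = 2 * ((2 - p) * Y (n + 1) + p * Y n) / ((Y n + 1) * (Y (n + 1) + 1)) := by
      simp only [hu]; field_simp; ring
    rw [fmap, e3]
    simp only [hu]
    rw [e1, e2]
    field_simp
    ring
  have hb : ∀ n, |u n| < 1 := by
    intro n
    have h0 := hpos n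
    simp only [hu]
    rw [abs_div, abs_of_pos (by linarith : 0 < Y n + 1), div_lt_one (by linarith), abs_lt]
    constructor <;> linarith
  have hadm : ∀ n, N + 3 ≤ n → Adm (u n) := by
    intro n hn
    obtain ⟨m, rfl⟩ : ∃ m, n = m + 3 := ⟨n - 3, by omega⟩
    have h1 := low m
    have h2 := hN (m + 3) (by omega)
    have h0 := hpos (m + 3)
    have h3 : -0.4473 ≤ u (m + 3) := by
      simp only [hu]; rw [le_div_iff₀ (by linarith)]; linarith
    have h4 : u (m + 3) ≤ 19 / 21 := by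
      simp only [hu]; rw [div_le_iff₀ (by linarith)]; linarith
    constructor <;> linarith
  have lim := orb_conv hp1 hp2 horb hb hadm
  have e : Y = fun n => (1 + u n) / (1 - u n) := by
    funext n
    have h0 := hpos n
    simp only [hu]; field_simp; ring
  rw [e]
  have := (lim.const_add 1).div (lim.const_sub 1) (by norm_num)
  rw [show ((1 : ℝ) + 0) / (1 - 0) = 1 by norm_num] at this
  exact this

end Pool.Agent.Lib.MP_d3fc00_an
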