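import Mathlib.Analysis.SpecialFunctions.Pow.Real
import Mathlib.Tactic

/-! Bounds for integer polynomials in four variables, by Kronecker substitution. -/

namespace Pool.Agent.Lib.MP_d3fc00_an

inductive Ex where
  | x : Ex
  | y : Ex
  | z : Ex
  | t : Ex
  | c (n : Nat) : Ex
  | add (a b : Ex) : Ex
  | mul (a b : Ex) : Ex
  | neg (a : Ex) : Ex

noncomputable def Ex.ev (x y z t : ℝ) : Ex → ℝ
  | .x => x
  | .y => y
  | .z => z
  | .t => t
  | .c n => n
  | .add a b => a.ev x y z t + b.ev x y z t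
  | .mul a b => a.ev x y z t * b.ev x y z t
  | .neg a => -a.ev x y z t

noncomputable def evN (x y z t : Nat) (e : Ex) : Nat × Nat :=
  Ex.rec (motive := fun _ => Nat × Nat) (x, 0) (y, 0) (z, 0) (t, 0) (fun n => (n, 0))
    (fun _ _ a b => Prod.rec (motive := fun _ => Nat × Nat) (fun a1 a2 =>
      Prod.rec (motive := fun _ => Nat × Nat) (fun b1 b2 => (Nat.add a1 b1, Nat.add a2 b2)) b) a)
    (fun _ _ a b => Prod.rec (motive := fun _ => Nat × Nat) (fun a1 a2 =>
      Prod.rec (motive := fun _ => Nat × Nat) (fun b1 b2 =>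
        (Nat.add (Nat.mul a1 b1) (Nat.mul a2 b2), Nat.add (Nat.mul a1 b2) (Nat.mul a2 b1))) b) a)
    (fun _ a => Prod.rec (motive := fun _ => Nat × Nat) (fun a1 a2 => (a2, a1)) a) e

section lists
variable {α R : Type} [CommSemiring R]

def evL (f : α → R) (x : R) : List α → R
  | [] => 0
  | a :: l => f a + x * evL f x l

def addL (ad : α → α → α) : List α → List α → List α
  | [], m => m
  | a :: l, [] => a :: l
  | a :: l, b :: m => ad a b :: addL ad l m

def mulL (ad mu : α → α → α) (z : α) : List α → List α → List α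
  | [], _ => []
  | a :: l, m => addL ad (m.map (mu a)) (z :: mulL ad mu z l m)

theorem evL_add {f : α → R} {ad : α → α → α} (h : ∀ a b, f (ad a b) = f a + f b) (x : R) :
    ∀ l m, evL f x (addL ad l m) = evL f x l + evL f x m
  | [], m => by simp [addL, evL]
  | a :: l, [] => by simp [addL, evL]
  | a :: l, b :: m => by simp only [addL, evL, h, evL_add h x l m]; ring

theorem evL_map {f : α → R} {mu : α → α → α} (h : ∀ a b, f (mu a b) = f a * f b) (x : R) (a : α) :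
    ∀ m, evL f x (m.map (mu a)) = f a * evL f x m
  | [] => by simp [evL]
  | b :: m => by simp only [List.map, evL, h, evL_map h x a m]; ring

theorem evL_mul {f : α → R} {ad mu : α → α → α} {z : α} (h : ∀ a b, f (ad a b) = f a + f b)
    (h' : ∀ a b, f (mu a b) = f a * f b) (hz : f z = 0) (x : R) :
    ∀ l m, evL f x (mulL ad mu z l m) = evL f x l * evL f x m
  | [], m => by simp [mulL, evL]
  | a :: l, m => by
    simp only [mulL, evL_add h, evL_map h', evL, hz, evL_mul h h' hz x l m]; ring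

def e1 (t : R) : List Nat → R := evL (fun n => (n : R)) t
def e2 (x t : R) : List (List Nat) → R := evL (e1 t) x
def e3 (y x t : R) : List (List (List Nat)) → R := evL (e2 x t) y
def e4 (z y x t : R) : List (List (List (List Nat))) → R := evL (e3 y x t) z

def a1 : List Nat → List Nat → List Nat := addL (· + ·)
def a2 := addL a1
def a3 := addL a2
def a4 := addL a3
def p1 : List Nat → List Nat → List Nat := mulL (· + ·) (· * ·) 0
def p2 := mulL a1 p1 []
def p3 := mulL a2 p2 []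
def p4 := mulL a3 p3 []

theorem e1_add (t : R) (l m) : e1 t (a1 l m) = e1 t l + e1 t m :=
  evL_add (fun a b => Nat.cast_add a b) t l m
theorem e2_add (x t : R) (l m) : e2 x t (a2 l m) = e2 x t l + e2 x t m :=
  evL_add (e1_add t) x l m
theorem e3_add (y x t : R) (l m) : e3 y x t (a3 l m) = e3 y x t l + e3 y x t m :=
  evL_add (e2_add x t) y l m
theorem e4_add (z y x t : R) (l m) : e4 z y x t (a4 l m) = e4 z y x t l + e4 z y x t m :=
  evL_add (e3_add y x t) z l m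
theorem e1_mul (t : R) (l m) : e1 t (p1 l m) = e1 t l * e1 t m :=
  evL_mul (fun a b => Nat.cast_add a b) (fun a b => Nat.cast_mul a b) Nat.cast_zero t l m
theorem e2_mul (x t : R) (l m) : e2 x t (p2 l m) = e2 x t l * e2 x t m :=
  evL_mul (e1_add t) (e1_mul t) rfl x l m
theorem e3_mul (y x t : R) (l m) : e3 y x t (p3 l m) = e3 y x t l * e3 y x t m :=
  evL_mul (e2_add x t) (e2_mul x t) rfl y l m
theorem e4_mul (z y x t : R) (l m) : e4 z y x t (p4 l m) = e4 z y x t l * e4 z y x t m :=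
  evL_mul (e3_add y x t) (e3_mul y x t) rfl z l m

end lists

theorem exists_rep (e : Ex) : ∃ P N : List (List (List (List Nat))),
    (∀ x y z t : Nat, evN x y z t e = (e4 z y x t P, e4 z y x t N)) ∧
    ∀ x y z t : ℝ, e.ev x y z t = e4 z y x t P - e4 z y x t N := by
  induction e with
  | x => exact ⟨[[[[], [1]]]], [], by simp [evN, e4, e3, e2, e1, evL],
      by simp [Ex.ev, e4, e3, e2, e1, evL]⟩
  | y => exact ⟨[[[], [[1]]]], [], by simp [evN, e4, e3, e2, e1, evL],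
      by simp [Ex.ev, e4, e3, e2, e1, evL]⟩
  | z => exact ⟨[[], [[[1]]]], [], by simp [evN, e4, e3, e2, e1, evL],
      by simp [Ex.ev, e4, e3, e2, e1, evL]⟩
  | t => exact ⟨[[[[0, 1]]]], [], by simp [evN, e4, e3, e2, e1, evL],
      by simp [Ex.ev, e4, e3, e2, e1, evL]⟩
  | c n => exact ⟨[[[[n]]]], [], by simp [evN, e4, e3, e2, e1, evL],
      by simp [Ex.ev, e4, e3, e2, e1, evL]⟩
  | add a b iha ihb =>
    obtain ⟨P, N, h1, h2⟩ := iha
    obtain ⟨P', N', h3, h4⟩ := ihb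
    refine ⟨a4 P P', a4 N N', fun x y z t => ?_, fun x y z t => ?_⟩
    · change Prod.rec (motive := fun _ => Nat × Nat) (fun a1 a2 =>
        Prod.rec (motive := fun _ => Nat × Nat) (fun b1 b2 => (Nat.add a1 b1, Nat.add a2 b2))
          (evN x y z t b)) (evN x y z t a) = _
      rw [h1, h3, e4_add, e4_add]; rfl
    · simp only [Ex.ev, h2, h4, e4_add]; ring
  | mul a b iha ihb =>
    obtain ⟨P, N, h1, h2⟩ := iha
    obtain ⟨P', N', h3, h4⟩ := ihb
    refine ⟨a4 (p4 P P') (p4 N N'), a4 (p4 P N') (p4 N P'), fun x y z t => ?_,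
      fun x y z t => ?_⟩
    · change Prod.rec (motive := fun _ => Nat × Nat) (fun a1 a2 =>
        Prod.rec (motive := fun _ => Nat × Nat) (fun b1 b2 =>
          (Nat.add (Nat.mul a1 b1) (Nat.mul a2 b2), Nat.add (Nat.mul a1 b2) (Nat.mul a2 b1)))
          (evN x y z t b)) (evN x y z t a) = _
      rw [h1, h3, e4_add, e4_add, e4_mul, e4_mul, e4_mul, e4_mul]; rfl
    · simp only [Ex.ev, h2, h4, e4_add, e4_mul]; ring
  | neg a iha =>
    obtain ⟨P, N, h1, h2⟩ := iha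
    refine ⟨N, P, fun x y z t => ?_, fun x y z t => ?_⟩
    · change Prod.rec (motive := fun _ => Nat × Nat) (fun a1 a2 => (a2, a1)) (evN x y z t a) = _
      rw [h1]
    · simp only [Ex.ev, h2]; ring

def md (w P : Nat) : Nat := Nat.land P (Nat.sub (Nat.shiftLeft 1 w) 1)

theorem md_eq (w P : Nat) : md w P = P % 2 ^ w := by
  show P &&& (1 <<< w - 1) = _
  rw [Nat.one_shiftLeft, Nat.and_two_pow_sub_one_eq_mod]

theorem sh_eq (w P : Nat) : Nat.shiftRight P w = P / 2 ^ w := Nat.shiftRight_eq_div_pow P w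

noncomputable def sumT (w n : Nat) : Nat → Nat → Nat :=
  Nat.rec (fun P N => Nat.add P N) (fun _ ih P N => Bool.rec
    (Nat.add (Nat.add (Nat.sub (md w P) (md w N)) (Nat.sub (md w N) (md w P)))
      (ih (Nat.shiftRight P w) (Nat.shiftRight N w))) 0 (Nat.beq (Nat.add P N) 0)) n

theorem sumT_succ (w n P N : Nat) : sumT w (n + 1) P N = Bool.rec (motive := fun _ => Nat)
    (Nat.add (Nat.add (Nat.sub (md w P) (md w N)) (Nat.sub (md w N) (md w P)))
      (sumT w n (Nat.shiftRight P w) (Nat.shiftRight N w))) 0 (Nat.beq (Nat.add P N) 0) := rfl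

noncomputable def gB0 (w n d P N : Nat) : Nat := Nat.rec (sumT w n P N) (fun _ _ => 0) d
noncomputable def l0 (w n d P N : Nat) : Nat := Nat.rec 0 (fun _ _ => sumT w n P N) d

noncomputable def tail0 (f : Nat → Nat → Nat) (w r n : Nat) : Nat → Nat → Nat :=
  Nat.rec (fun P N => Nat.add P N) (fun _ ih P N => Bool.rec
    (Nat.add (f (md w P) (md w N))
      (Nat.succ (Nat.div (ih (Nat.shiftRight P w) (Nat.shiftRight N w)) r))) 0
    (Nat.beq (Nat.add P N) 0)) n

theorem tail0_succ (f : Nat → Nat → Nat) (w r n P N : Nat) : tail0 f w r (n + 1) P N =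
    Bool.rec (motive := fun _ => Nat) (Nat.add (f (md w P) (md w N))
      (Nat.succ (Nat.div (tail0 f w r n (Nat.shiftRight P w) (Nat.shiftRight N w)) r))) 0
    (Nat.beq (Nat.add P N) 0) := rfl

noncomputable def liftB (g : Nat → Nat → Nat → Nat) (w r n d : Nat) : Nat → Nat → Nat :=
  Nat.rec (tail0 (g 0) w r n) (fun k ih P N => Nat.add (g (Nat.succ k) (md w P) (md w N))
    (ih (Nat.shiftRight P w) (Nat.shiftRight N w))) d

noncomputable def liftL (l : Nat → Nat → Nat → Nat) (w d : Nat) : Nat → Nat → Nat :=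
  Nat.rec (fun _ _ => 0) (fun k ih P N => Nat.add (l (Nat.succ k) (md w P) (md w N))
    (ih (Nat.shiftRight P w) (Nat.shiftRight N w))) d

structure Spec {α : Type} (val : α → ℕ) (sem : α → ℝ) (fit : α → Prop)
    (l g : ℕ → ℕ → ℕ → ℕ) (ρ : ℝ) : Prop where
  crude : ∀ a, |sem a| ≤ val a
  l_zero : ∀ P N, l 0 P N = 0
  bound : ∀ d a b, fit a → fit b → l d (val a) (val b) = 0 →
    |sem a - sem b| ≤ g d (val a) (val b) * ρ ^ d

def FitL {α : Type} (val : α → ℕ) (fit : α → Prop) (w : ℕ) (L : List α) : Prop :=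
  ∀ a ∈ L, val a < 2 ^ w ∧ fit a

theorem split_list {α : Type} {val : α → ℕ} {sem : α → ℝ} {fit : α → Prop} {w : ℕ} (z0 : α)
    (h0 : val z0 = 0) (h0' : sem z0 = 0) (h0'' : fit z0) (x : ℝ) (L : List α)
    (hL : FitL val fit w L) : ∃ a L', md w (evL val (2 ^ w) L) = val a ∧
      Nat.shiftRight (evL val (2 ^ w) L) w = evL val (2 ^ w) L' ∧
      evL sem x L = sem a + x * evL sem x L' ∧ fit a ∧ FitL val fit w L' := by
  cases L with
  | nil => exact ⟨z0, [], by simp [md_eq, evL, h0], by simp [evL], by simp [evL, h0'],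
      h0'', hL⟩
  | cons a L =>
    have ha := hL a (by simp)
    have hp : 0 < 2 ^ w := by positivity
    refine ⟨a, L, ?_, ?_, rfl, ha.2, fun b hb => hL b (by simp [hb])⟩
    · rw [md_eq, evL, Nat.add_mul_mod_self_left, Nat.mod_eq_of_lt ha.1]
    · rw [sh_eq, evL, Nat.add_mul_div_left _ _ hp, Nat.div_eq_of_lt ha.1, zero_add]

theorem crude_list {α : Type} {val : α → ℕ} {sem : α → ℝ} (h : ∀ a, |sem a| ≤ val a) {x : ℝ}
    (hx : |x| ≤ 1) (w : ℕ) : ∀ L, |evL sem x L| ≤ (evL val (2 ^ w) L : ℕ)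
  | [] => by simp [evL]
  | a :: L => by
    have h1 := crude_list h hx w L
    have h2 := h a
    have h3 : (1 : ℝ) ≤ 2 ^ w := one_le_pow₀ (by norm_num)
    simp only [evL]
    push_cast
    refine (abs_add_le _ _).trans (add_le_add h2 ?_)
    rw [abs_mul]
    exact mul_le_mul (hx.trans h3) h1 (abs_nonneg _) (by positivity)

theorem abs_sub_crude {u v : ℝ} {P N : ℕ} (h1 : |u| ≤ P) (h2 : |v| ≤ N) :
    |u - v| ≤ (Nat.add P N : ℕ) := by
  have : ((Nat.add P N : ℕ) : ℝ) = P + N := Nat.cast_add P N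
  rw [this]
  exact (abs_sub _ _).trans (add_le_add h1 h2)

theorem sumT_bound {t : ℝ} (ht : |t| ≤ 1) (w n : ℕ) : ∀ A B : List ℕ,
    FitL (fun a => a) (fun _ => True) w A → FitL (fun a => a) (fun _ => True) w B →
    |e1 t A - e1 t B| ≤ sumT w n (e1 (2 ^ w) A) (e1 (2 ^ w) B) := by
  have hc : ∀ L, |e1 t L| ≤ (e1 (2 ^ w) L : ℕ) :=
    crude_list (val := fun a : ℕ => a) (sem := fun a : ℕ => (a : ℝ)) (fun a => by simp) ht w
  induction n with
  | zero => intro A B _ _; exact abs_sub_crude (hc A) (hc B)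
  | succ n ih =>
    intro A B hA hB
    rw [sumT_succ]
    cases hb : Nat.beq (Nat.add (e1 (2 ^ w) A) (e1 (2 ^ w) B)) 0 with
    | true =>
      have := abs_sub_crude (hc A) (hc B)
      rw [Nat.eq_of_beq_eq_true hb] at this
      exact this
    | false =>
      obtain ⟨a, A', f1, f2, f3, -, f5⟩ := split_list (sem := fun a : ℕ => (a : ℝ)) 0 rfl
        (by simp) trivial t A hA
      obtain ⟨b, B', g1, g2, g3, -, g5⟩ := split_list (sem := fun a : ℕ => (a : ℝ)) 0 rfl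
        (by simp) trivial t B hB
      have h := ih A' B' f5 g5
      simp only [e1, Nat.cast_id] at *
      rw [f1, f2, g1, g2, f3, g3]
      generalize sumT w n _ _ = s at *
      have h1 : |(a : ℝ) - b| ≤ ((Nat.add (Nat.sub a b) (Nat.sub b a) : ℕ) : ℝ) := by
        have h2 : ((a : ℤ) - b).natAbs = Nat.add (Nat.sub a b) (Nat.sub b a) := by
          show _ = a - b + (b - a)
          omega
        rw [← h2, Nat.cast_natAbs]; push_cast; exact le_rfl
      have h3 : ((Nat.add (Nat.add (Nat.sub a b) (Nat.sub b a)) s : ℕ) : ℝ)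
          = ((Nat.add (Nat.sub a b) (Nat.sub b a) : ℕ) : ℝ) + s := Nat.cast_add _ _
      rw [h3, show (a : ℝ) + t * evL (fun n : ℕ => (n : ℝ)) t A'
          - (b + t * evL (fun n : ℕ => (n : ℝ)) t B') = (a - b) + t *
          (evL (fun n : ℕ => (n : ℝ)) t A' - evL (fun n : ℕ => (n : ℝ)) t B') by ring]
      refine (abs_add_le _ _).trans (add_le_add h1 ?_)
      rw [abs_mul]
      exact (mul_le_of_le_one_left (abs_nonneg _) ht).trans h

theorem spec1 {t : ℝ} (ht : |t| ≤ 1) (w n : ℕ) (ρ : ℝ) :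
    Spec (e1 (2 ^ w)) (e1 t) (FitL (fun a => a) (fun _ => True) w) (l0 w n) (gB0 w n) ρ where
  crude := crude_list (val := fun a : ℕ => a) (sem := fun a : ℕ => (a : ℝ)) (fun a => by simp) ht w
  l_zero := fun _ _ => rfl
  bound := by
    intro d a b ha hb hl
    have h := sumT_bound ht w n a b ha hb
    cases d with
    | zero => simpa [gB0] using h
    | succ d =>
      have : sumT w n (e1 (2 ^ w) a) (e1 (2 ^ w) b) = 0 := hl
      rw [this] at h
      simpa [gB0] using h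

theorem tail0_bound {α : Type} {val : α → ℕ} {sem : α → ℝ} {fit : α → Prop}
    {l g : ℕ → ℕ → ℕ → ℕ} {ρ : ℝ} (S : Spec val sem fit l g ρ) (z0 : α) (h0 : val z0 = 0)
    (hf : fit z0) {x : ℝ} {r : ℕ} (hr : 0 < r) (hx : |x| * r ≤ 1) (w n : ℕ) : ∀ A B,
    FitL val fit w A → FitL val fit w B →
    |evL sem x A - evL sem x B| ≤ tail0 (g 0) w r n (evL val (2 ^ w) A) (evL val (2 ^ w) B) := by
  have hr' : (1 : ℝ) ≤ r := by exact_mod_cast hr
  have hx1 : |x| ≤ 1 := by nlinarith [abs_nonneg x]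
  have hs : sem z0 = 0 := by
    have := S.crude z0
    rw [h0] at this; simpa using this
  have hc := crude_list S.crude hx1 w
  induction n with
  | zero => intro A B _ _; exact abs_sub_crude (hc A) (hc B)
  | succ n ih =>
    intro A B hA hB
    rw [tail0_succ]
    cases hb : Nat.beq (Nat.add (evL val (2 ^ w) A) (evL val (2 ^ w) B)) 0 with
    | true =>
      have := abs_sub_crude (hc A) (hc B)
      rw [Nat.eq_of_beq_eq_true hb] at this
      exact this
    | false =>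
      obtain ⟨a, A', f1, f2, f3, f4, f5⟩ := split_list z0 h0 hs hf x A hA
      obtain ⟨b, B', g1, g2, g3, g4, g5⟩ := split_list z0 h0 hs hf x B hB
      have h := ih A' B' f5 g5
      have h1 := S.bound 0 a b f4 g4 (S.l_zero _ _)
      rw [f1, f2, g1, g2, f3, g3]
      generalize tail0 (g 0) w r n _ _ = s at *
      have h3 : ((Nat.add (g 0 (val a) (val b)) (Nat.succ (Nat.div s r)) : ℕ) : ℝ)
          = (g 0 (val a) (val b) : ℝ) + ((s / r + 1 : ℕ) : ℝ) := Nat.cast_add _ _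
      have h4 : (s : ℝ) ≤ ((s / r + 1 : ℕ) : ℝ) * r := by
        have : s ≤ (s / r + 1) * r := by
          have := Nat.lt_div_mul_add (a := s) hr
          nlinarith
        exact_mod_cast this
      rw [h3, show sem a + x * evL sem x A' - (sem b + x * evL sem x B')
        = (sem a - sem b) + x * (evL sem x A' - evL sem x B') by ring]
      refine (abs_add_le _ _).trans (add_le_add (by simpa using h1) ?_)
      rw [abs_mul]
      have h5 : (0 : ℝ) ≤ ((s / r + 1 : ℕ) : ℝ) := Nat.cast_nonneg _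
      calc |x| * |evL sem x A' - evL sem x B'| ≤ |x| * (((s / r + 1 : ℕ) : ℝ) * r) :=
            mul_le_mul_of_nonneg_left (h.trans h4) (abs_nonneg _)
        _ = ((s / r + 1 : ℕ) : ℝ) * (|x| * r) := by ring
        _ ≤ _ := mul_le_of_le_one_right h5 hx

theorem spec_lift {α : Type} {val : α → ℕ} {sem : α → ℝ} {fit : α → Prop}
    {l g : ℕ → ℕ → ℕ → ℕ} {ρ : ℝ} (S : Spec val sem fit l g ρ) (z0 : α) (h0 : val z0 = 0)
    (hf : fit z0) {x : ℝ} {r : ℕ} (hr : 0 < r) (hx : |x| ≤ ρ) (hρ : ρ * r ≤ 1) (w n : ℕ) :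
    Spec (evL val (2 ^ w)) (evL sem x) (FitL val fit w) (liftL l w) (liftB g w r n) ρ := by
  have hr' : (1 : ℝ) ≤ r := by exact_mod_cast hr
  have hρ0 : 0 ≤ ρ := (abs_nonneg x).trans hx
  have hxr : |x| * r ≤ 1 := le_trans (mul_le_mul_of_nonneg_right hx (by positivity)) hρ
  have hx1 : |x| ≤ 1 := by nlinarith [abs_nonneg x]
  have hs : sem z0 = 0 := by
    have := S.crude z0
    rw [h0] at this; simpa using this
  refine ⟨crude_list S.crude hx1 w, fun _ _ => rfl, ?_⟩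
  intro d
  induction d with
  | zero =>
    intro A B hA hB _
    simpa [liftB] using tail0_bound S z0 h0 hf hr hxr w n A B hA hB
  | succ d ih =>
    intro A B hA hB hl
    obtain ⟨a, A', f1, f2, f3, f4, f5⟩ := split_list z0 h0 hs hf x A hA
    obtain ⟨b, B', g1, g2, g3, g4, g5⟩ := split_list z0 h0 hs hf x B hB
    change l (d + 1) (md w _) (md w _)
      + liftL l w d (Nat.shiftRight _ w) (Nat.shiftRight _ w) = 0 at hl
    change _ ≤ ((g (d + 1) (md w _) (md w _)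
      + liftB g w r n d (Nat.shiftRight _ w) (Nat.shiftRight _ w) : ℕ) : ℝ) * _
    rw [f1, f2, g1, g2] at hl ⊢
    have h1 := S.bound (d + 1) a b f4 g4 (by omega)
    have h2 := ih A' B' f5 g5 (by omega)
    rw [f3, g3, show sem a + x * evL sem x A' - (sem b + x * evL sem x B')
        = (sem a - sem b) + x * (evL sem x A' - evL sem x B') by ring]
    push_cast
    rw [add_mul]
    refine (abs_add_le _ _).trans (add_le_add h1 ?_)
    rw [abs_mul]
    calc _ ≤ ρ * (_ * ρ ^ d) := mul_le_mul hx h2 (abs_nonneg _) hρ0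
      _ = _ := by ring

theorem le_evL_one {α : Type} (f : α → ℕ) : ∀ (L : List α) (a : α), a ∈ L → f a ≤ evL f 1 L
  | [], _, h => by cases h
  | b :: L, a, h => by
    rcases List.mem_cons.1 h with rfl | h
    · simp [evL]
    · have := le_evL_one f L a h
      simp only [evL]; omega

abbrev Fit1 (w0 : ℕ) := FitL (fun a : ℕ => a) (fun _ => True) w0
abbrev Fit2 (w0 w1 : ℕ) := FitL (e1 (2 ^ w0)) (Fit1 w0) w1
abbrev Fit3 (w0 w1 w2 : ℕ) := FitL (e2 (2 ^ w1) (2 ^ w0)) (Fit2 w0 w1) w2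
abbrev Fit4 (w0 w1 w2 w3 : ℕ) := FitL (e3 (2 ^ w2) (2 ^ w1) (2 ^ w0)) (Fit3 w0 w1 w2) w3

theorem fit4_of {w0 w1 w2 w3 : ℕ} {L : List (List (List (List ℕ)))}
    (h0 : e4 1 1 1 1 L < 2 ^ w0) (h1 : e4 1 1 1 (2 ^ w0) L < 2 ^ w1)
    (h2 : e4 1 1 (2 ^ w1) (2 ^ w0) L < 2 ^ w2)
    (h3 : e4 1 (2 ^ w2) (2 ^ w1) (2 ^ w0) L < 2 ^ w3) : Fit4 w0 w1 w2 w3 L := by
  intro a ha
  refine ⟨(le_evL_one _ L a ha).trans_lt h3, fun b hb => ⟨?_, fun c hc => ⟨?_, fun d hd => ⟨?_, trivial⟩⟩⟩⟩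
  · exact ((le_evL_one _ a b hb).trans (le_evL_one (e3 1 (2 ^ w1) (2 ^ w0)) L a ha)).trans_lt h2
  · exact (((le_evL_one _ b c hc).trans (le_evL_one (e2 1 (2 ^ w0)) a b hb)).trans
      (le_evL_one (e3 1 1 (2 ^ w0)) L a ha)).trans_lt h1
  · exact ((((le_evL_one (fun n : ℕ => (n : ℕ)) c d hd).trans (le_evL_one (e1 1) b c hc)).trans
      (le_evL_one (e2 1 1) a b hb)).trans (le_evL_one (e3 1 1 1) L a ha)).trans_lt h0

noncomputable def ltB (q : Nat × Nat) (w : Nat) : Bool :=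
  Prod.rec (motive := fun _ => Bool)
    (fun a b => Nat.beq (Nat.shiftRight (Nat.add a b) w) 0) q

noncomputable def andB (a b : Bool) : Bool := Bool.rec false b a

theorem andB_sound {a b : Bool} (h : andB a b = true) : a = true ∧ b = true := by
  cases a
  · cases h
  · exact ⟨rfl, h⟩

theorem ltB_sound {a b w : Nat} (h : ltB (a, b) w = true) : a < 2 ^ w ∧ b < 2 ^ w := by
  have h1 : Nat.shiftRight (a + b) w = 0 := Nat.eq_of_beq_eq_true h
  rw [sh_eq, Nat.div_eq_zero_iff] at h1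
  have : 0 < 2 ^ w := by positivity
  omega

noncomputable def fitB (e : Ex) (w0 w1 w2 w3 : Nat) : Bool :=
  andB (andB (ltB (evN 1 1 1 1 e) w0) (ltB (evN 1 1 1 (Nat.shiftLeft 1 w0) e) w1))
    (andB (ltB (evN (Nat.shiftLeft 1 w1) 1 1 (Nat.shiftLeft 1 w0) e) w2)
      (ltB (evN (Nat.shiftLeft 1 w1) (Nat.shiftLeft 1 w2) 1 (Nat.shiftLeft 1 w0) e) w3))

noncomputable def packed (e : Ex) (w0 w1 w2 w3 : Nat) : Nat × Nat :=
  evN (Nat.shiftLeft 1 w1) (Nat.shiftLeft 1 w2) (Nat.shiftLeft 1 w3) (Nat.shiftLeft 1 w0) e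

theorem shl_eq (w : Nat) : Nat.shiftLeft 1 w = 2 ^ w := Nat.one_shiftLeft w

theorem rep_fit {e : Ex} {w0 w1 w2 w3 : Nat} (h : fitB e w0 w1 w2 w3 = true) :
    ∃ P N, Fit4 w0 w1 w2 w3 P ∧ Fit4 w0 w1 w2 w3 N ∧
      packed e w0 w1 w2 w3 = (e4 (2 ^ w3) (2 ^ w2) (2 ^ w1) (2 ^ w0) P,
        e4 (2 ^ w3) (2 ^ w2) (2 ^ w1) (2 ^ w0) N) ∧
      ∀ x y z t : ℝ, e.ev x y z t = e4 z y x t P - e4 z y x t N := by
  obtain ⟨P, N, h1, h2⟩ := exists_rep e
  simp only [fitB, shl_eq, h1] at h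
  obtain ⟨h3, h4⟩ := andB_sound h
  obtain ⟨c0, c1⟩ := andB_sound h3
  obtain ⟨c2, c3⟩ := andB_sound h4
  refine ⟨P, N, fit4_of (ltB_sound c0).1 (ltB_sound c1).1 (ltB_sound c2).1 (ltB_sound c3).1,
    fit4_of (ltB_sound c0).2 (ltB_sound c1).2 (ltB_sound c2).2 (ltB_sound c3).2, ?_, h2⟩
  simp only [packed, shl_eq, h1]

noncomputable def gB3 (w0 w1 w2 r : Nat) : Nat → Nat → Nat → Nat :=
  liftB (liftB (gB0 w0 60) w1 r 20) w2 r 20
noncomputable def l3 (w0 w1 w2 : Nat) : Nat → Nat → Nat → Nat :=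
  liftL (liftL (l0 w0 60) w1) w2

theorem spec3 {x y t ρ : ℝ} {r : ℕ} (hr : 0 < r) (hx : |x| ≤ ρ) (hy : |y| ≤ ρ) (ht : |t| ≤ 1)
    (hρ : ρ * r ≤ 1) (w0 w1 w2 : ℕ) :
    Spec (e3 (2 ^ w2) (2 ^ w1) (2 ^ w0)) (e3 y x t) (Fit3 w0 w1 w2) (l3 w0 w1 w2)
      (gB3 w0 w1 w2 r) ρ :=
  spec_lift (spec_lift (spec1 ht w0 60 ρ) [] rfl (fun _ h => by cases h) hr hx hρ w1 20) [] rfl
    (fun _ h => by cases h) hr hy hρ w2 20

/-- check that `e` vanishes to order `d` and is bounded by `b` times the `d`-th power -/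
noncomputable def ordB (e : Ex) (w0 w1 w2 w3 r d b : Nat) : Bool :=
  andB (fitB e w0 w1 w2 w3) (Prod.rec (motive := fun _ => Bool) (fun P N =>
    andB (Nat.beq (liftL (l3 w0 w1 w2) w3 d P N) 0)
      (Nat.ble (liftB (gB3 w0 w1 w2 r) w3 r 20 d P N) b)) (packed e w0 w1 w2 w3))

theorem ordB_sound {e : Ex} {w0 w1 w2 w3 r d b : Nat} (h : ordB e w0 w1 w2 w3 r d b = true)
    (hr : 0 < r) {x y z t ρ : ℝ} (hx : |x| ≤ ρ) (hy : |y| ≤ ρ) (hz : |z| ≤ ρ) (ht : |t| ≤ 1)
    (hρ : ρ * r ≤ 1) : |e.ev x y z t| ≤ b * ρ ^ d := by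
  obtain ⟨h1, h2⟩ := andB_sound h
  obtain ⟨P, N, hP, hN, e1, e2⟩ := rep_fit h1
  rw [e1] at h2
  obtain ⟨h3, h4⟩ := andB_sound h2
  have S := spec_lift (spec3 hr hx hy ht hρ w0 w1 w2) [] rfl (fun _ h => by cases h) hr hz hρ w3 20
  have h5 := S.bound d P N hP hN (Nat.eq_of_beq_eq_true h3)
  rw [e2]
  refine h5.trans (mul_le_mul_of_nonneg_right ?_ (pow_nonneg ((abs_nonneg x).trans hx) d))
  exact_mod_cast Nat.le_of_ble_eq_true h4

/-- check of the splitting according to the powers of the third variable -/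
noncomputable def splB (e : Ex) (w0 w1 w2 w3 r b0 b1 b2 : Nat) : Bool :=
  andB (fitB e w0 w1 w2 w3) (Prod.rec (motive := fun _ => Bool) (fun P N =>
    andB (andB (andB (Nat.beq (l3 w0 w1 w2 4 (md w3 P) (md w3 N)) 0)
        (Nat.ble (gB3 w0 w1 w2 r 4 (md w3 P) (md w3 N)) b0))
      (andB (Nat.beq (l3 w0 w1 w2 3 (md w3 (Nat.shiftRight P w3)) (md w3 (Nat.shiftRight N w3))) 0)
        (Nat.ble (gB3 w0 w1 w2 r 3 (md w3 (Nat.shiftRight P w3)) (md w3 (Nat.shiftRight N w3))) b1)))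
      (Nat.ble (tail0 (gB3 w0 w1 w2 r 0) w3 r 20 (Nat.shiftRight (Nat.shiftRight P w3) w3)
        (Nat.shiftRight (Nat.shiftRight N w3) w3)) b2)) (packed e w0 w1 w2 w3))

theorem splB_sound {e : Ex} {w0 w1 w2 w3 r b0 b1 b2 : Nat}
    (h : splB e w0 w1 w2 w3 r b0 b1 b2 = true) (hr : 0 < r) {x y z t ρ : ℝ} (hx : |x| ≤ ρ)
    (hy : |y| ≤ ρ) (hz : |z| * r ≤ 1) (ht : |t| ≤ 1) (hρ : ρ * r ≤ 1) :
    ∃ E0 E1 K : ℝ, e.ev x y z t = E0 + z * (E1 + z * K) ∧ |E0| ≤ b0 * ρ ^ 4 ∧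
      |E1| ≤ b1 * ρ ^ 3 ∧ |K| ≤ b2 := by
  obtain ⟨h1, h2⟩ := andB_sound h
  obtain ⟨P, N, hP, hN, e1, e2⟩ := rep_fit h1
  rw [e1] at h2
  have S := spec3 hr hx hy ht hρ w0 w1 w2
  have hρ0 : 0 ≤ ρ := (abs_nonneg x).trans hx
  have hf : Fit3 w0 w1 w2 [] := fun _ h => by cases h
  obtain ⟨a, P1, f1, f2, f3, f4, f5⟩ := split_list (sem := e3 y x t) [] rfl rfl hf z P hP
  obtain ⟨b, N1, g1, g2, g3', g4, g5⟩ := split_list (sem := e3 y x t) [] rfl rfl hf z N hN
  obtain ⟨a', P2, i1, i2, i3, i4, i5⟩ := split_list (sem := e3 y x t) [] rfl rfl hf z P1 f5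
  obtain ⟨b', N2, j1, j2, j3, j4, j5⟩ := split_list (sem := e3 y x t) [] rfl rfl hf z N1 g5
  simp only [e4] at h2 e2
  rw [f1, f2, g1, g2, i1, i2, j1, j2] at h2
  obtain ⟨k1, k2⟩ := andB_sound h2
  obtain ⟨k3, k4⟩ := andB_sound k1
  obtain ⟨k5, k6⟩ := andB_sound k3
  obtain ⟨k7, k8⟩ := andB_sound k4
  refine ⟨e3 y x t a - e3 y x t b, e3 y x t a' - e3 y x t b',
    evL (e3 y x t) z P2 - evL (e3 y x t) z N2, ?_, ?_, ?_, ?_⟩
  · rw [e2, f3, g3', i3, j3]; ring
  · refine (S.bound 4 a b f4 g4 (Nat.eq_of_beq_eq_true k5)).trans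
      (mul_le_mul_of_nonneg_right ?_ (pow_nonneg hρ0 _))
    exact_mod_cast Nat.le_of_ble_eq_true k6
  · refine (S.bound 3 a' b' i4 j4 (Nat.eq_of_beq_eq_true k7)).trans
      (mul_le_mul_of_nonneg_right ?_ (pow_nonneg hρ0 _))
    exact_mod_cast Nat.le_of_ble_eq_true k8
  · refine (tail0_bound S [] rfl hf hr hz w3 20 P2 N2 i5 j5).trans ?_
    exact_mod_cast Nat.le_of_ble_eq_true k2

/-! Horner schemes -/

noncomputable def cI (m : Int) : Ex :=
  Int.rec (fun n => Ex.c n) (fun n => Ex.neg (Ex.c (Nat.succ n))) m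

theorem cI_ev (x y z t : ℝ) (m : Int) : (cI m).ev x y z t = m := by
  cases m with
  | ofNat n => simp [cI, Ex.ev]
  | negSucc n => simp [cI, Ex.ev, Int.cast_negSucc]

noncomputable def hor {α : Type} (f : α → Ex) (a : Ex) (l : List α) : Ex :=
  List.rec (Ex.c 0) (fun u _ ih => Ex.add (f u) (Ex.mul a ih)) l

theorem hor_ev {α : Type} {f : α → Ex} {f' : α → ℝ} {x y z t : ℝ}
    (h : ∀ u, (f u).ev x y z t = f' u) (a : Ex) (l : List α) :
    (hor f a l).ev x y z t = evL f' (a.ev x y z t) l := by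
  induction l with
  | nil => simp [hor, Ex.ev, evL]
  | cons u l ih =>
    change (f u).ev x y z t + a.ev x y z t * (hor f a l).ev x y z t = _
    rw [h, ih]; rfl

noncomputable def hor2 (a b : Ex) (v : List (List (List Int))) : Ex :=
  hor (hor (hor cI Ex.t) a) b v

noncomputable def h2 (a b t : ℝ) (v : List (List (List Int))) : ℝ :=
  evL (evL (evL (fun m : Int => (m : ℝ)) t) a) b v

theorem hor2_ev (x y z t : ℝ) (a b : Ex) (v : List (List (List Int))) :
    (hor2 a b v).ev x y z t = h2 (a.ev x y z t) (b.ev x y z t) t v :=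
  hor_ev (hor_ev (hor_ev (cI_ev x y z t) Ex.t) a) b v

end Pool.Agent.Lib.MP_d3fc00_an
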