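import Pool.Agent.Lib.MP_d3fc00_an.LocData
import Pool.Agent.Lib.MP_d3fc00_an.Check

/-! Local convergence to the fixed point. -/

namespace Pool.Agent.Lib.MP_d3fc00_an

open Filter Topology

theorem quadT_ev (x y z t : ℝ) (a b c : Int) :
    (quadT a b c).ev x y z t = a + t * (b + t * c) := by
  simp only [quadT, Ex.ev, cI_ev]

theorem linT_ev (x y z t : ℝ) (a b : Int) : (linT a b).ev x y z t = a + t * b := by
  simp only [linT, Ex.ev, cI_ev]

theorem sub_ev (x y z t : ℝ) (a b : Ex) :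
    (a.sub b).ev x y z t = a.ev x y z t - b.ev x y z t := by
  simp only [Ex.sub, Ex.ev]; ring

theorem sq_ev (x y z t : ℝ) (a : Ex) : a.sq.ev x y z t = a.ev x y z t ^ 2 := by
  simp only [Ex.sq, Ex.ev]; ring

theorem dot3_ev (x y z t : ℝ) (a b c u v w : Ex) : (dot3 a b c u v w).ev x y z t =
    a.ev x y z t * u.ev x y z t + b.ev x y z t * v.ev x y z t + c.ev x y z t * w.ev x y z t := by
  simp only [dot3, Ex.ev]

noncomputable def r11 (t : ℝ) : ℝ := T11.ev 0 0 0 t
theorem T11_ev (x y z t : ℝ) : T11.ev x y z t = r11 t := by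
  simp only [r11, T11, quadT_ev]
noncomputable def r12 (t : ℝ) : ℝ := T12.ev 0 0 0 t
theorem T12_ev (x y z t : ℝ) : T12.ev x y z t = r12 t := by
  simp only [r12, T12, quadT_ev]
noncomputable def r13 (t : ℝ) : ℝ := T13.ev 0 0 0 t
theorem T13_ev (x y z t : ℝ) : T13.ev x y z t = r13 t := by
  simp only [r13, T13, quadT_ev]
noncomputable def r21 (t : ℝ) : ℝ := T21.ev 0 0 0 t
theorem T21_ev (x y z t : ℝ) : T21.ev x y z t = r21 t := by
  simp only [r21, T21, quadT_ev]
noncomputable def r22 (t : ℝ) : ℝ := T22.ev 0 0 0 t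
theorem T22_ev (x y z t : ℝ) : T22.ev x y z t = r22 t := by
  simp only [r22, T22, quadT_ev]
noncomputable def r23 (t : ℝ) : ℝ := T23.ev 0 0 0 t
theorem T23_ev (x y z t : ℝ) : T23.ev x y z t = r23 t := by
  simp only [r23, T23, quadT_ev]
noncomputable def r31 (t : ℝ) : ℝ := T31.ev 0 0 0 t
theorem T31_ev (x y z t : ℝ) : T31.ev x y z t = r31 t := by
  simp only [r31, T31, quadT_ev]
noncomputable def r32 (t : ℝ) : ℝ := T32.ev 0 0 0 t
theorem T32_ev (x y z t : ℝ) : T32.ev x y z t = r32 t := by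
  simp only [r32, T32, quadT_ev]
noncomputable def r33 (t : ℝ) : ℝ := T33.ev 0 0 0 t
theorem T33_ev (x y z t : ℝ) : T33.ev x y z t = r33 t := by
  simp only [r33, T33, quadT_ev]
noncomputable def j11 (t : ℝ) : ℝ := r22 t * r33 t - r23 t * r32 t
theorem J11_ev (x y z t : ℝ) : J11.ev x y z t = j11 t := by
  simp only [j11, J11, sub_ev, Ex.ev, T22_ev, T33_ev, T23_ev, T32_ev]
noncomputable def j12 (t : ℝ) : ℝ := r32 t * r13 t - r33 t * r12 t
theorem J12_ev (x y z t : ℝ) : J12.ev x y z t = j12 t := by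
  simp only [j12, J12, sub_ev, Ex.ev, T32_ev, T13_ev, T33_ev, T12_ev]
noncomputable def j13 (t : ℝ) : ℝ := r12 t * r23 t - r13 t * r22 t
theorem J13_ev (x y z t : ℝ) : J13.ev x y z t = j13 t := by
  simp only [j13, J13, sub_ev, Ex.ev, T12_ev, T23_ev, T13_ev, T22_ev]
noncomputable def j21 (t : ℝ) : ℝ := r23 t * r31 t - r21 t * r33 t
theorem J21_ev (x y z t : ℝ) : J21.ev x y z t = j21 t := by
  simp only [j21, J21, sub_ev, Ex.ev, T23_ev, T31_ev, T21_ev, T33_ev]
noncomputable def j22 (t : ℝ) : ℝ := r33 t * r11 t - r31 t * r13 t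
theorem J22_ev (x y z t : ℝ) : J22.ev x y z t = j22 t := by
  simp only [j22, J22, sub_ev, Ex.ev, T33_ev, T11_ev, T31_ev, T13_ev]
noncomputable def j23 (t : ℝ) : ℝ := r13 t * r21 t - r11 t * r23 t
theorem J23_ev (x y z t : ℝ) : J23.ev x y z t = j23 t := by
  simp only [j23, J23, sub_ev, Ex.ev, T13_ev, T21_ev, T11_ev, T23_ev]
noncomputable def j31 (t : ℝ) : ℝ := r21 t * r32 t - r22 t * r31 t
theorem J31_ev (x y z t : ℝ) : J31.ev x y z t = j31 t := by
  simp only [j31, J31, sub_ev, Ex.ev, T21_ev, T32_ev, T22_ev, T31_ev]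
noncomputable def j32 (t : ℝ) : ℝ := r31 t * r12 t - r32 t * r11 t
theorem J32_ev (x y z t : ℝ) : J32.ev x y z t = j32 t := by
  simp only [j32, J32, sub_ev, Ex.ev, T31_ev, T12_ev, T32_ev, T11_ev]
noncomputable def j33 (t : ℝ) : ℝ := r11 t * r22 t - r12 t * r21 t
theorem J33_ev (x y z t : ℝ) : J33.ev x y z t = j33 t := by
  simp only [j33, J33, sub_ev, Ex.ev, T11_ev, T22_ev, T12_ev, T21_ev]

noncomputable def dt (t : ℝ) : ℝ := j11 t * r11 t + j12 t * r21 t + j13 t * r31 t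

theorem detE_ev (x y z t : ℝ) : detE.ev x y z t = dt t := by
  simp only [dt, detE, dot3_ev, J11_ev, J12_ev, J13_ev, T11_ev, T21_ev, T31_ev]

theorem dt_pos {t : ℝ} (ht : |t| ≤ 1) : 0 < dt t := by
  have h := ordB_sound chkD one_pos (x := 0) (y := 0) (z := 0) (ρ := 0) (by simp) (by simp)
    (by simp) ht (by simp)
  simp only [ED, sub_ev, detE_ev, Ex.ev] at h
  have := (abs_le.1 h).1
  norm_num at this
  linarith

noncomputable def cX (t a b c : ℝ) : ℝ := (j11 t * a + j12 t * b + j13 t * c) / dt t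
noncomputable def cY (t a b c : ℝ) : ℝ := (j21 t * a + j22 t * b + j23 t * c) / dt t
noncomputable def cZ (t a b c : ℝ) : ℝ := (j31 t * a + j32 t * b + j33 t * c) / dt t
noncomputable def Sf (t a b c : ℝ) : ℝ := cX t a b c ^ 2 + cY t a b c ^ 2 + cZ t a b c ^ 2

theorem a_eq {t : ℝ} (ht : |t| ≤ 1) (a b c : ℝ) :
    r11 t * cX t a b c + r12 t * cY t a b c + r13 t * cZ t a b c = a := by
  have := (dt_pos ht).ne'
  simp only [cX, cY, cZ]
  field_simp
  simp only [dt, j11, j12, j13, j21, j22, j23, j31, j32, j33]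
  ring

theorem aE_ev {t : ℝ} (ht : |t| ≤ 1) (a b c : ℝ) :
    aE.ev (cX t a b c) (cY t a b c) (cZ t a b c) t = a := by
  simp only [aE, dot3_ev, T11_ev, T12_ev, T13_ev, Ex.ev]
  exact a_eq ht a b c

theorem bE_ev {t : ℝ} (ht : |t| ≤ 1) (a b c : ℝ) :
    bE.ev (cX t a b c) (cY t a b c) (cZ t a b c) t = b := by
  have := (dt_pos ht).ne'
  simp only [bE, dot3_ev, T21_ev, T22_ev, T23_ev, Ex.ev, cX, cY, cZ]
  field_simp
  simp only [dt, j11, j12, j13, j21, j22, j23, j31, j32, j33]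
  ring

theorem cE_ev {t : ℝ} (ht : |t| ≤ 1) (a b c : ℝ) :
    cE.ev (cX t a b c) (cY t a b c) (cZ t a b c) t = c := by
  have := (dt_pos ht).ne'
  simp only [cE, dot3_ev, T31_ev, T32_ev, T33_ev, Ex.ev, cX, cY, cZ]
  field_simp
  simp only [dt, j11, j12, j13, j21, j22, j23, j31, j32, j33]
  ring

noncomputable def numR (t a b : ℝ) : ℝ := (28 + t * 3) * (a - b)
noncomputable def denR (t a b : ℝ) : ℝ := 50 * (1 - a + b - a * b) + numR t a b

theorem numE_ev {t : ℝ} (ht : |t| ≤ 1) (a b c : ℝ) :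
    numE.ev (cX t a b c) (cY t a b c) (cZ t a b c) t = numR t a b := by
  simp only [numE, Ex.ev, linT_ev, sub_ev, aE_ev ht, bE_ev ht, numR]; push_cast; ring

theorem denE_ev {t : ℝ} (ht : |t| ≤ 1) (a b c : ℝ) :
    denE.ev (cX t a b c) (cY t a b c) (cZ t a b c) t = denR t a b := by
  simp only [denE, Ex.ev, sub_ev, aE_ev ht, bE_ev ht, numE_ev ht, denR]; push_cast; ring

noncomputable def Vr (t a b c : ℝ) : ℝ :=
  h2 a b t v0 + c * (h2 a b t v1 + c * (h2 a b t v2 + c * (h2 a b t v3 + c * h2 a b t v4)))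

theorem VE_ev {t : ℝ} (ht : |t| ≤ 1) (a b c : ℝ) :
    VE.ev (cX t a b c) (cY t a b c) (cZ t a b c) t = Vr t a b c := by
  simp only [VE, Ex.ev, hor2_ev, aE_ev ht, bE_ev ht, cE_ev ht, Vr]

theorem VhE_ev {t : ℝ} (ht : |t| ≤ 1) (a b c : ℝ) (hd : denR t a b ≠ 0) :
    VhE.ev (cX t a b c) (cY t a b c) (cZ t a b c) t
      = denR t a b ^ 4 * Vr t b c (numR t a b / denR t a b) := by
  simp only [VhE, den2E, den3E, den4E, sq_ev, Ex.ev, hor2_ev, bE_ev ht, cE_ev ht, numE_ev ht,
    denE_ev ht, Vr]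
  field_simp

theorem sqrt_mul_le {S r : ℝ} (hS : 0 ≤ S) (h : S * r ^ 2 ≤ 1) : √S * r ≤ 1 := by
  have h1 : (√S * r) ^ 2 ≤ 1 := by rw [mul_pow, Real.sq_sqrt hS]; exact h
  nlinarith [sq_nonneg (√S * r - 1)]

theorem ord2 {e : Ex} {w0 w1 w2 w3 r b : Nat} (h : ordB e w0 w1 w2 w3 r 2 b = true) (hr : 0 < r)
    {x y z t : ℝ} (ht : |t| ≤ 1) (hS : (x ^ 2 + y ^ 2 + z ^ 2) * (r : ℝ) ^ 2 ≤ 1) :
    |e.ev x y z t| ≤ b * (x ^ 2 + y ^ 2 + z ^ 2) := by
  have h0 : 0 ≤ x ^ 2 + y ^ 2 + z ^ 2 := by positivity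
  have := ordB_sound h hr (x := x) (y := y) (z := z) (ρ := √(x ^ 2 + y ^ 2 + z ^ 2))
    (Real.abs_le_sqrt (by nlinarith [sq_nonneg y, sq_nonneg z]))
    (Real.abs_le_sqrt (by nlinarith [sq_nonneg x, sq_nonneg z]))
    (Real.abs_le_sqrt (by nlinarith [sq_nonneg x, sq_nonneg y])) ht (sqrt_mul_le h0 hS)
  rwa [Real.sq_sqrt h0] at this

theorem diag_lb {d1 d2 d3 m x y z : ℝ} (h1 : m ≤ d1) (h2 : m ≤ d2) (h3 : m ≤ d3) :
    m * (x ^ 2 + y ^ 2 + z ^ 2) ≤ d1 * x ^ 2 + d2 * y ^ 2 + d3 * z ^ 2 := by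
  nlinarith [mul_nonneg (sub_nonneg.2 h1) (sq_nonneg x), mul_nonneg (sub_nonneg.2 h2) (sq_nonneg y),
    mul_nonneg (sub_nonneg.2 h3) (sq_nonneg z)]

theorem diag_ub {d1 d2 d3 m x y z : ℝ} (h1 : d1 ≤ m) (h2 : d2 ≤ m) (h3 : d3 ≤ m) :
    d1 * x ^ 2 + d2 * y ^ 2 + d3 * z ^ 2 ≤ m * (x ^ 2 + y ^ 2 + z ^ 2) := by
  nlinarith [mul_nonneg (sub_nonneg.2 h1) (sq_nonneg x), mul_nonneg (sub_nonneg.2 h2) (sq_nonneg y),
    mul_nonneg (sub_nonneg.2 h3) (sq_nonneg z)]

theorem V_lower {t : ℝ} (ht : |t| ≤ 1) {a b c : ℝ} (hS : Sf t a b c * 3333334 ^ 2 ≤ 1) :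
    165189000000000000 * Sf t a b c ≤ Vr t a b c := by
  have h := ord2 chkVl (by norm_num) ht (x := cX t a b c) (y := cY t a b c) (z := cZ t a b c)
    (by exact_mod_cast hS)
  simp only [EV, sub_ev, VE_ev ht, dot3_ev, linT_ev, sq_ev, Ex.ev] at h
  obtain ⟨t1, t2⟩ := abs_le.1 ht
  have h1 := diag_lb (m := 324389000000000000) (d1 := (338500000000000000 + t * 11680000000000000))
    (d2 := (339000000000000000 + t * 12800000000000000))
    (d3 := (333500000000000000 + t * 9111000000000000)) (x := cX t a b c) (y := cY t a b c)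
    (z := cZ t a b c) (by linarith) (by linarith) (by linarith)
  have h2 := (abs_le.1 h).1
  push_cast at h2
  simp only [Sf]
  linarith

theorem V_upper {t : ℝ} (ht : |t| ≤ 1) {a b c : ℝ} (hS : Sf t a b c * 6451613 ^ 2 ≤ 1) :
    Vr t a b c ≤ 437600000000000000 * Sf t a b c := by
  have h := ord2 chkVu (by norm_num) ht (x := cX t a b c) (y := cY t a b c) (z := cZ t a b c)
    (by exact_mod_cast hS)
  simp only [EV, sub_ev, VE_ev ht, dot3_ev, linT_ev, sq_ev, Ex.ev] at h
  obtain ⟨t1, t2⟩ := abs_le.1 ht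
  have h1 := diag_ub (m := 351800000000000000) (d1 := (338500000000000000 + t * 11680000000000000))
    (d2 := (339000000000000000 + t * 12800000000000000))
    (d3 := (333500000000000000 + t * 9111000000000000)) (x := cX t a b c) (y := cY t a b c)
    (z := cZ t a b c) (by linarith) (by linarith) (by linarith)
  have h2 := (abs_le.1 h).2
  push_cast at h2
  simp only [Sf]
  linarith

theorem S_step {t : ℝ} (ht : |t| ≤ 1) {a b c : ℝ} (hd : denR t a b ≠ 0)
    (hS : Sf t a b c * 3944774 ^ 2 ≤ 1) :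
    100 * Sf t b c (numR t a b / denR t a b) ≤ 140 * Sf t a b c := by
  have h := ord2 chkS (by norm_num) ht (x := cX t a b c) (y := cY t a b c) (z := cZ t a b c)
    (by exact_mod_cast hS)
  simp only [ES, UE, sE, scE, den2E, sub_ev, dot3_ev, linT_ev, sq_ev, Ex.ev, detE_ev, bE_ev ht,
    cE_ev ht, numE_ev ht, denE_ev ht, J11_ev, J12_ev, J13_ev, J21_ev, J22_ev, J23_ev, J31_ev, J32_ev, J33_ev] at h
  obtain ⟨t1, t2⟩ := abs_le.1 ht
  have h1 := diag_lb (m := 1119400000000000000000000000000000000)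
    (d1 := (1264000000000000000000000000000000000 + t * (-130600000000000000000000000000000000)))
    (d2 := (1262000000000000000000000000000000000 + t * (-142600000000000000000000000000000000)))
    (d3 := (2756000000000000000000000000000000000 + t * 105500000000000000000000000000000000))
    (x := cX t a b c) (y := cY t a b c) (z := cZ t a b c) (by linarith) (by linarith) (by linarith)
  have h2 := (abs_le.1 h).1
  push_cast at h2
  have hdt := (dt_pos ht).ne'
  have h3 : (j11 t * (b * denR t a b) + j12 t * (c * denR t a b) + j13 t * numR t a b) ^ 2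
      + (j21 t * (b * denR t a b) + j22 t * (c * denR t a b) + j23 t * numR t a b) ^ 2
      + (j31 t * (b * denR t a b) + j32 t * (c * denR t a b) + j33 t * numR t a b) ^ 2
      = dt t ^ 2 * denR t a b ^ 2 * Sf t b c (numR t a b / denR t a b) := by
    simp only [Sf, cX, cY, cZ]; field_simp
  rw [h3] at h2
  have h4 : 0 < dt t ^ 2 * denR t a b ^ 2 := by positivity
  have h5 : 0 ≤ cX t a b c ^ 2 + cY t a b c ^ 2 + cZ t a b c ^ 2 := by positivity
  refine le_of_mul_le_mul_left ?_ h4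
  simp only [Sf] at h2 ⊢
  linarith

theorem S_entry {t : ℝ} (ht : |t| ≤ 1) {a b c : ℝ}
    (hW : Wf a b c * 1000000000078000000001521 ≤ C0) : Sf t a b c * 6451613 ^ 2 ≤ 1 := by
  set x := (-616542 * a + 1378210 * b + -616542 * c) / 1799563374 with hx
  set y := (-600021 * a + 200028 * b + 1247580 * c) / 1799563374 with hy
  set z := (996402 * a + 615568 * b + 996402 * c) / 1799563374 with hz
  have hW' : Wf a b c = 1799563374 ^ 2 * (x ^ 2 + y ^ 2 + z ^ 2) := by
    simp only [Wf, hx, hy, hz]; ring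
  rw [hW'] at hW
  simp only [C0] at hW
  push_cast at hW
  have h := ord2 chkN (by norm_num) ht (x := x) (y := y) (z := z) (by push_cast; linarith)
  have ea : a0E.ev x y z t = a := by
    simp only [a0E, dot3_ev, cI_ev, Ex.ev, hx, hy, hz]; push_cast; ring
  have eb : b0E.ev x y z t = b := by
    simp only [b0E, dot3_ev, cI_ev, Ex.ev, hx, hy, hz]; push_cast; ring
  have ec : c0E.ev x y z t = c := by
    simp only [c0E, dot3_ev, cI_ev, Ex.ev, hx, hy, hz]; push_cast; ring
  simp only [EN, SSE, sE, scE, sub_ev, dot3_ev, linT_ev, sq_ev, Ex.ev, detE_ev, ea, eb, ec,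
    J11_ev, J12_ev, J13_ev, J21_ev, J22_ev, J23_ev, J31_ev, J32_ev, J33_ev] at h
  obtain ⟨t1, t2⟩ := abs_le.1 ht
  have h1 := diag_lb (m := 3790200000000000000000000000000000)
    (d1 := (4917000000000000000000000000000000 + t * 209600000000000000000000000000000))
    (d2 := (4430000000000000000000000000000000 + t * 639800000000000000000000000000000))
    (d3 := (13100000000000000000000000000000000 + t * 818700000000000000000000000000000))
    (x := x) (y := y) (z := z) (by linarith) (by linarith) (by linarith)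
  have h2 := (abs_le.1 h).1
  push_cast at h2
  have hdt := (dt_pos ht).ne'
  have h3 : (j11 t * a + j12 t * b + j13 t * c) ^ 2 + (j21 t * a + j22 t * b + j23 t * c) ^ 2
      + (j31 t * a + j32 t * b + j33 t * c) ^ 2 = dt t ^ 2 * Sf t a b c := by
    simp only [Sf, cX, cY, cZ]; field_simp
  rw [h3] at h2
  have h4 : 0 < dt t ^ 2 := by positivity
  have h5 : 0 ≤ x ^ 2 + y ^ 2 + z ^ 2 := by positivity
  have h6 : 10000000 * Sf t a b c ≤ 1500 * (x ^ 2 + y ^ 2 + z ^ 2) := by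
    refine le_of_mul_le_mul_left ?_ h4
    linarith
  linarith

theorem final_ineq {s r z m E0 E1 K EQ : ℝ} (hs : s = r ^ 2) (hrr : r * 3333334 ≤ 1)
    (hz : z ^ 2 ≤ 1) (hm0 : 0 ≤ m) (hm1 : m ≤ 625) (h0 : |E0| ≤ 2118000000000000000000000000000000 * r ^ 4)
    (h1 : |E1| ≤ 5446000000000000000000000000000000 * r ^ 3)
    (h2 : |K| ≤ 20660000000000000000000) (h3 : |EQ| ≤ 39470000000000000000 * (s + z ^ 2)) :
    (s + z ^ 2) ^ 2 ≤ E0 + z * (E1 + z * K) + m * (EQ + 496800000000000000000 * s)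
      + 1322000000000000000000000 * z ^ 2 + 2967000000000000000000000000000000 * s ^ 2 := by
  have hs0 : 0 ≤ s := by rw [hs]; positivity
  have a0 : -(2118000000000000000000000000000000 * s ^ 2) ≤ E0 := by
    have := (abs_le.1 h0).1
    rw [hs]; linarith
  have a1 : |E1| ≤ 1640000000000000000000000000 * s := by
    refine h1.trans ?_
    rw [hs]
    nlinarith [sq_nonneg r]
  have a2 : -(8200000000000000000000 * z ^ 2 + 82000000000000000000000000000000 * s ^ 2)
      ≤ z * E1 := by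
    have b1 : |z * E1| ≤ |z| * (1640000000000000000000000000 * s) := by
      rw [abs_mul]; exact mul_le_mul_of_nonneg_left a1 (abs_nonneg _)
    have b2 := (abs_le.1 b1).1
    have b3 : z ^ 2 = |z| ^ 2 := (sq_abs z).symm
    rw [b3]
    nlinarith [sq_nonneg (|z| - 100000 * s)]
  have a3 : -(20660000000000000000000 * z ^ 2) ≤ z ^ 2 * K := by
    nlinarith [mul_nonneg (sq_nonneg z) (sub_nonneg.2 (abs_le.1 h2).1)]
  have a4 : -(625 * 39470000000000000000 * z ^ 2) ≤ m * (EQ + 496800000000000000000 * s) := by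
    have b1 : -(39470000000000000000 * z ^ 2) ≤ EQ + 496800000000000000000 * s := by
      have := (abs_le.1 h3).1
      linarith
    nlinarith [mul_nonneg hm0 (sub_nonneg.2 b1), mul_nonneg (sub_nonneg.2 hm1) (sq_nonneg z)]
  have a5 : (s + z ^ 2) ^ 2 ≤ 2 * s ^ 2 + 2 * z ^ 2 := by
    nlinarith [sq_nonneg (s - z ^ 2), mul_nonneg (sq_nonneg z) (sub_nonneg.2 hz)]
  nlinarith [sq_nonneg s, sq_nonneg z]

theorem V_step {t : ℝ} (ht : |t| ≤ 1) (hm : 0 ≤ 316 + t * (-318 + t * (-9))) {a b c : ℝ}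
    (hd : denR t a b ≠ 0) (hS : Sf t a b c * 3333334 ^ 2 ≤ 1) :
    Sf t a b c ^ 2 ≤ denR t a b ^ 4 * (Vr t a b c - Vr t b c (numR t a b / denR t a b)) := by
  have hq := ord2 chkQ (by norm_num) ht (x := cX t a b c) (y := cY t a b c) (z := cZ t a b c)
    (by exact_mod_cast hS)
  have h0 : 0 ≤ cX t a b c ^ 2 + cY t a b c ^ 2 := by positivity
  have hz2 := sq_nonneg (cZ t a b c)
  simp only [Sf] at hS
  have hρ : √(cX t a b c ^ 2 + cY t a b c ^ 2) * 3333334 ≤ 1 := sqrt_mul_le h0 (by nlinarith)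
  have hz : |cZ t a b c| * 3333334 ≤ 1 := by
    rw [← Real.sqrt_sq_eq_abs]; exact sqrt_mul_le hz2 (by nlinarith)
  obtain ⟨E0, E1, K, e, k0, k1, k2⟩ := splB_sound chkE (by norm_num) (x := cX t a b c)
    (y := cY t a b c) (z := cZ t a b c) (ρ := √(cX t a b c ^ 2 + cY t a b c ^ 2))
    (Real.abs_le_sqrt (by nlinarith [sq_nonneg (cY t a b c)]))
    (Real.abs_le_sqrt (by nlinarith [sq_nonneg (cX t a b c)])) (by exact_mod_cast hz) ht
    (by exact_mod_cast hρ)
  simp only [EE, scE, den4E, den2E, muE, sub_ev, sq_ev, Ex.ev, quadT_ev, VE_ev ht, VhE_ev ht a b c hd,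
    denE_ev ht] at e
  simp only [EQ, scE, sub_ev, sq_ev, Ex.ev] at hq
  obtain ⟨t1, t2⟩ := abs_le.1 ht
  push_cast at e k0 k1 k2 hq
  have := final_ineq (z := cZ t a b c) (Real.sq_sqrt h0).symm hρ (by linarith) hm
    (by nlinarith) k0 k1 k2 hq
  simp only [Sf]
  linarith

theorem local_conv {p : ℝ} (hp1 : 1 / 2 ≤ p) (hp2 : p ^ 2 + p ≤ 1) {u : ℕ → ℝ} (hu : IsOrb p u)
    (hb : ∀ n, |u n| < 1)
    (h0 : Wf (u 0) (u 1) (u 2) * 1000000000078000000001521 ≤ C0) : Tendsto u atTop (𝓝 0) := by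
  set t := (50 * p - 28) / 3 with htp
  have hp3 : p ≤ 62 / 100 := by nlinarith
  have ht : |t| ≤ 1 := by rw [abs_le]; constructor <;> linarith
  have hm : 0 ≤ 316 + t * (-318 + t * (-9)) := by rw [htp]; nlinarith
  have hden : ∀ n, 0 < denR t (u n) (u (n + 1)) ∧ denR t (u n) (u (n + 1)) ≤ 200 := by
    intro n
    obtain ⟨a1, a2⟩ := abs_lt.1 (hb n)
    obtain ⟨b1, b2⟩ := abs_lt.1 (hb (n + 1))
    have e : denR t (u n) (u (n + 1)) = 50 * ((1 - p) * ((1 - u n) * (1 + u (n + 1)))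
        + p * (1 - u n * u (n + 1))) := by
      simp only [denR, numR, htp]; ring
    have c1 : 0 < (1 - u n) * (1 + u (n + 1)) := mul_pos (by linarith) (by linarith)
    have c2 : (1 - u n) * (1 + u (n + 1)) ≤ 4 := by nlinarith
    have c3 : 0 < 1 - u n * u (n + 1) := by nlinarith
    have c4 : 1 - u n * u (n + 1) ≤ 4 := by nlinarith
    rw [e]
    constructor <;> nlinarith
  have hrec : ∀ n, u (n + 3) = numR t (u n) (u (n + 1)) / denR t (u n) (u (n + 1)) := by
    intro n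
    rw [hu n, fmap, ← mul_div_mul_left _ _ (by norm_num : (50 : ℝ) ≠ 0)]
    congr 1
    · simp only [numR, htp]; ring
    · simp only [denR, numR, htp]; ring
  set S : ℕ → ℝ := fun n => Sf t (u n) (u (n + 1)) (u (n + 2)) with hSd
  set V : ℕ → ℝ := fun n => Vr t (u n) (u (n + 1)) (u (n + 2)) with hVd
  have hS0 : ∀ n, 0 ≤ S n := fun n => by simp only [hSd, Sf]; positivity
  have dec : ∀ n, S n * 3944774 ^ 2 ≤ 1 → S n ^ 2 ≤ 200 ^ 4 * (V n - V (n + 1)) := by
    intro n h
    have h1 := V_step ht hm (hden n).1.ne' (c := u (n + 2)) (by have := hS0 n; simp only [hSd] at *; linarith)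
    rw [← hrec n] at h1
    have h2 : 0 < denR t (u n) (u (n + 1)) ^ 4 := pow_pos (hden n).1 4
    have h3 : denR t (u n) (u (n + 1)) ^ 4 ≤ 200 ^ 4 := pow_le_pow_left₀ (hden n).1.le (hden n).2 4
    have h4 : 0 ≤ V n - V (n + 1) := by
      by_contra hc
      push Not at hc
      have := mul_neg_of_pos_of_neg h2 hc
      have := sq_nonneg (S n)
      simp only [hSd, hVd] at *
      linarith
    exact h1.trans (mul_le_mul_of_nonneg_right h3 h4)
  have inv : ∀ n, S n * 3944774 ^ 2 ≤ 1 ∧ V n * 3944774 ^ 2 ≤ 165189000000000000 := by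
    intro n
    induction n with
    | zero =>
      have h1 := S_entry ht h0
      have h2 := V_upper ht h1
      have h3 := hS0 0
      simp only [hSd, hVd, zero_add] at *
      constructor <;> linarith
    | succ n ih =>
      have h1 := dec n ih.1
      have h2 := S_step ht (hden n).1.ne' (c := u (n + 2)) ih.1
      rw [← hrec n] at h2
      have h3 : V (n + 1) ≤ V n := by nlinarith [sq_nonneg (S n)]
      have h4 : S (n + 1) * 3333334 ^ 2 ≤ 1 := by
        have := ih.1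
        simp only [hSd] at *
        linarith
      have h5 := V_lower ht h4
      have h6 := ih.2
      constructor
      · simp only [hSd, hVd] at *; linarith
      · linarith
  have anti : Antitone V := antitone_nat_of_succ_le fun n => by
    have := dec n (inv n).1
    nlinarith [sq_nonneg (S n)]
  have bdd : BddBelow (Set.range V) := by
    refine ⟨0, ?_⟩
    rintro _ ⟨n, rfl⟩
    have h1 := (inv n).1
    have h2 := hS0 n
    have h3 := V_lower ht (a := u n) (b := u (n + 1)) (c := u (n + 2))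
      (by simp only [hSd] at *; linarith)
    simp only [hSd, hVd] at *
    linarith
  have lim := tendsto_atTop_ciInf anti bdd
  have lim2 : Tendsto (fun n => 200 ^ 4 * (V n - V (n + 1))) atTop (𝓝 0) := by
    have := (lim.sub ((tendsto_add_atTop_iff_nat 1).2 lim)).const_mul (200 ^ 4)
    simpa using this
  have lim3 : Tendsto (fun n => S n ^ 2) atTop (𝓝 0) :=
    squeeze_zero (fun n => sq_nonneg _) (fun n => dec n (inv n).1) lim2
  have lim4 : Tendsto (fun n => √(√(S n ^ 2))) atTop (𝓝 0) := by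
    simpa using lim3.sqrt.sqrt
  have lim5 : Tendsto (fun n => √(S n)) atTop (𝓝 0) := by
    simpa [Real.sqrt_sq (hS0 _)] using lim4
  have lx : Tendsto (fun n => cX t (u n) (u (n + 1)) (u (n + 2))) atTop (𝓝 0) :=
    squeeze_zero_norm (fun n => Real.abs_le_sqrt (by
      simp only [hSd, Sf]
      nlinarith [sq_nonneg (cY t (u n) (u (n + 1)) (u (n + 2))),
        sq_nonneg (cZ t (u n) (u (n + 1)) (u (n + 2)))])) lim5
  have ly : Tendsto (fun n => cY t (u n) (u (n + 1)) (u (n + 2))) atTop (𝓝 0) :=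
    squeeze_zero_norm (fun n => Real.abs_le_sqrt (by
      simp only [hSd, Sf]
      nlinarith [sq_nonneg (cX t (u n) (u (n + 1)) (u (n + 2))),
        sq_nonneg (cZ t (u n) (u (n + 1)) (u (n + 2)))])) lim5
  have lz : Tendsto (fun n => cZ t (u n) (u (n + 1)) (u (n + 2))) atTop (𝓝 0) :=
    squeeze_zero_norm (fun n => Real.abs_le_sqrt (by
      simp only [hSd, Sf]
      nlinarith [sq_nonneg (cX t (u n) (u (n + 1)) (u (n + 2))),
        sq_nonneg (cY t (u n) (u (n + 1)) (u (n + 2)))])) lim5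
  have := ((lx.const_mul (r11 t)).add (ly.const_mul (r12 t))).add (lz.const_mul (r13 t))
  simpa [a_eq ht] using this

end Pool.Agent.Lib.MP_d3fc00_an
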