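import Mathlib.Analysis.SpecialFunctions.Pow.Real
import Mathlib.Tactic

/-! Second order Taylor models in four variables with integer coefficients. -/

namespace Pool.Agent.Lib.MP_d3fc00_an

noncomputable def forceN {α : Type} (n : Nat) (k : Nat → α) : α :=
  Nat.rec (k 0) (fun m _ => k (Nat.succ m)) n

theorem forceN_eq {α : Type} (n : Nat) (k : Nat → α) : forceN n k = k n := by
  cases n <;> rfl

structure TM where
  c : Int
  l1 : Int
  l2 : Int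
  l3 : Int
  l4 : Int
  q11 : Int
  q12 : Int
  q13 : Int
  q14 : Int
  q22 : Int
  q23 : Int
  q24 : Int
  q33 : Int
  q34 : Int
  q44 : Int
  r : Nat

structure Pt where
  t1 : ℝ
  t2 : ℝ
  t3 : ℝ
  t4 : ℝ
  h1 : |t1| ≤ 1
  h2 : |t2| ≤ 1
  h3 : |t3| ≤ 1
  h4 : |t4| ≤ 1

noncomputable def TM.L (A : TM) (t : Pt) : ℝ :=
  A.l1 * t.t1 + A.l2 * t.t2 + A.l3 * t.t3 + A.l4 * t.t4

noncomputable def TM.Q (A : TM) (t : Pt) : ℝ :=
  A.q11 * (t.t1 * t.t1) + A.q12 * (t.t1 * t.t2) + A.q13 * (t.t1 * t.t3) + A.q14 * (t.t1 * t.t4)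
  + A.q22 * (t.t2 * t.t2) + A.q23 * (t.t2 * t.t3) + A.q24 * (t.t2 * t.t4)
  + A.q33 * (t.t3 * t.t3) + A.q34 * (t.t3 * t.t4) + A.q44 * (t.t4 * t.t4)

noncomputable def TM.ev (A : TM) (t : Pt) : ℝ := A.c + A.L t + A.Q t

def Has (t : Pt) (σ : ℝ) (A : TM) (x : ℝ) : Prop := |x * σ - A.ev t| ≤ A.r

def n1 (A : TM) : Nat :=
  Nat.add (Nat.add (Int.natAbs A.l1) (Int.natAbs A.l2)) (Nat.add (Int.natAbs A.l3) (Int.natAbs A.l4))

def n2 (A : TM) : Nat :=
  Nat.add (Nat.add (Nat.add (Nat.add (Int.natAbs A.q11) (Int.natAbs A.q12))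
    (Nat.add (Int.natAbs A.q13) (Int.natAbs A.q14)))
    (Nat.add (Nat.add (Int.natAbs A.q22) (Int.natAbs A.q23))
    (Nat.add (Int.natAbs A.q24) (Int.natAbs A.q33))))
    (Nat.add (Int.natAbs A.q34) (Int.natAbs A.q44))

theorem iadd (a b : Int) : Int.add a b = a + b := rfl
theorem imul (a b : Int) : Int.mul a b = a * b := rfl
theorem isub (a b : Int) : Int.sub a b = a - b := rfl
theorem ineg (a : Int) : Int.neg a = -a := rfl
theorem idiv (a b : Int) : Int.ediv a b = a / b := rfl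
theorem nadd (a b : Nat) : Nat.add a b = a + b := rfl
theorem nmul (a b : Nat) : Nat.mul a b = a * b := rfl
theorem ndiv (a b : Nat) : Nat.div a b = a / b := rfl

theorem term_bd (a : Int) (m : ℝ) (hm : |m| ≤ 1) : |(a : ℝ) * m| ≤ (Int.natAbs a : ℝ) := by
  rw [abs_mul, Nat.cast_natAbs, Int.cast_abs]
  exact mul_le_of_le_one_right (abs_nonneg _) hm

theorem mul_bd {a b : ℝ} (ha : |a| ≤ 1) (hb : |b| ≤ 1) : |a * b| ≤ 1 := by
  rw [abs_mul]; exact mul_le_one₀ ha (abs_nonneg _) hb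

theorem L_bd (A : TM) (t : Pt) : |A.L t| ≤ (n1 A : ℝ) := by
  have h1 := abs_le.1 (term_bd A.l1 _ t.h1)
  have h2 := abs_le.1 (term_bd A.l2 _ t.h2)
  have h3 := abs_le.1 (term_bd A.l3 _ t.h3)
  have h4 := abs_le.1 (term_bd A.l4 _ t.h4)
  simp only [n1, nadd, Nat.cast_add, TM.L]
  rw [abs_le]; constructor <;> linarith [h1.1, h1.2, h2.1, h2.2, h3.1, h3.2, h4.1, h4.2]

theorem Q_bd (A : TM) (t : Pt) : |A.Q t| ≤ (n2 A : ℝ) := by
  have h11 := abs_le.1 (term_bd A.q11 _ (mul_bd t.h1 t.h1))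
  have h12 := abs_le.1 (term_bd A.q12 _ (mul_bd t.h1 t.h2))
  have h13 := abs_le.1 (term_bd A.q13 _ (mul_bd t.h1 t.h3))
  have h14 := abs_le.1 (term_bd A.q14 _ (mul_bd t.h1 t.h4))
  have h22 := abs_le.1 (term_bd A.q22 _ (mul_bd t.h2 t.h2))
  have h23 := abs_le.1 (term_bd A.q23 _ (mul_bd t.h2 t.h3))
  have h24 := abs_le.1 (term_bd A.q24 _ (mul_bd t.h2 t.h4))
  have h33 := abs_le.1 (term_bd A.q33 _ (mul_bd t.h3 t.h3))
  have h34 := abs_le.1 (term_bd A.q34 _ (mul_bd t.h3 t.h4))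
  have h44 := abs_le.1 (term_bd A.q44 _ (mul_bd t.h4 t.h4))
  simp only [n2, nadd, Nat.cast_add, TM.Q]
  rw [abs_le]; constructor
  · linarith [h11.1, h12.1, h13.1, h14.1, h22.1, h23.1, h24.1, h33.1, h34.1, h44.1]
  · linarith [h11.2, h12.2, h13.2, h14.2, h22.2, h23.2, h24.2, h33.2, h34.2, h44.2]

theorem ev_bd (A : TM) (t : Pt) : |A.ev t| ≤ (Int.natAbs A.c : ℝ) + n1 A + n2 A := by
  have h1 := abs_le.1 (L_bd A t)
  have h2 := abs_le.1 (Q_bd A t)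
  have h0 := abs_le.1 (term_bd A.c 1 (by simp))
  simp only [TM.ev]
  rw [abs_le]; constructor <;> linarith [h1.1, h1.2, h2.1, h2.2, h0.1, h0.2]

/-- all coefficients are small -/
def Small (A : TM) (u : Nat) : Prop :=
  A.c.natAbs ≤ u ∧ A.l1.natAbs ≤ u ∧ A.l2.natAbs ≤ u ∧ A.l3.natAbs ≤ u ∧ A.l4.natAbs ≤ u ∧
  A.q11.natAbs ≤ u ∧ A.q12.natAbs ≤ u ∧ A.q13.natAbs ≤ u ∧ A.q14.natAbs ≤ u ∧
  A.q22.natAbs ≤ u ∧ A.q23.natAbs ≤ u ∧ A.q24.natAbs ≤ u ∧ A.q33.natAbs ≤ u ∧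
  A.q34.natAbs ≤ u ∧ A.q44.natAbs ≤ u

theorem small_bd (A : TM) (t : Pt) (u : Nat) (h : Small A u) : |A.ev t| ≤ 15 * (u : ℝ) := by
  refine (ev_bd A t).trans ?_
  have : A.c.natAbs + n1 A + n2 A ≤ 15 * u := by
    obtain ⟨a0, a1, a2, a3, a4, a5, a6, a7, a8, a9, a10, a11, a12, a13, a14⟩ := h
    simp only [n1, n2, nadd]; omega
  exact_mod_cast this

def add (A B : TM) : TM :=
  ⟨Int.add A.c B.c, Int.add A.l1 B.l1, Int.add A.l2 B.l2, Int.add A.l3 B.l3, Int.add A.l4 B.l4,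
   Int.add A.q11 B.q11, Int.add A.q12 B.q12, Int.add A.q13 B.q13, Int.add A.q14 B.q14,
   Int.add A.q22 B.q22, Int.add A.q23 B.q23, Int.add A.q24 B.q24, Int.add A.q33 B.q33,
   Int.add A.q34 B.q34, Int.add A.q44 B.q44, Nat.add A.r B.r⟩

def sub (A B : TM) : TM :=
  ⟨Int.sub A.c B.c, Int.sub A.l1 B.l1, Int.sub A.l2 B.l2, Int.sub A.l3 B.l3, Int.sub A.l4 B.l4,
   Int.sub A.q11 B.q11, Int.sub A.q12 B.q12, Int.sub A.q13 B.q13, Int.sub A.q14 B.q14,
   Int.sub A.q22 B.q22, Int.sub A.q23 B.q23, Int.sub A.q24 B.q24, Int.sub A.q33 B.q33,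
   Int.sub A.q34 B.q34, Int.sub A.q44 B.q44, Nat.add A.r B.r⟩

def scal (m : Int) (A : TM) : TM :=
  ⟨Int.mul m A.c, Int.mul m A.l1, Int.mul m A.l2, Int.mul m A.l3, Int.mul m A.l4,
   Int.mul m A.q11, Int.mul m A.q12, Int.mul m A.q13, Int.mul m A.q14,
   Int.mul m A.q22, Int.mul m A.q23, Int.mul m A.q24, Int.mul m A.q33,
   Int.mul m A.q34, Int.mul m A.q44, Nat.mul (Int.natAbs m) A.r⟩

def addc (m : Int) (A : TM) : TM :=
  ⟨Int.add m A.c, A.l1, A.l2, A.l3, A.l4, A.q11, A.q12, A.q13, A.q14, A.q22, A.q23, A.q24, A.q33,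
   A.q34, A.q44, A.r⟩

theorem ev_add (A B : TM) (t : Pt) : (add A B).ev t = A.ev t + B.ev t := by
  simp only [add, TM.ev, TM.L, TM.Q, iadd]; push_cast; ring

theorem ev_sub (A B : TM) (t : Pt) : (sub A B).ev t = A.ev t - B.ev t := by
  simp only [sub, TM.ev, TM.L, TM.Q, isub]; push_cast; ring

theorem ev_scal (m : Int) (A : TM) (t : Pt) : (scal m A).ev t = m * A.ev t := by
  simp only [scal, TM.ev, TM.L, TM.Q, imul]; push_cast; ring

theorem ev_addc (m : Int) (A : TM) (t : Pt) : (addc m A).ev t = m + A.ev t := by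
  simp only [addc, TM.ev, TM.L, TM.Q, iadd]; push_cast; ring

theorem Has.add {t : Pt} {σ : ℝ} {A B : TM} {x y : ℝ} (hA : Has t σ A x) (hB : Has t σ B y) :
    Has t σ (add A B) (x + y) := by
  unfold Has at *
  rw [ev_add]
  have : ((MP_d3fc00_an.add A B).r : ℝ) = A.r + B.r := by simp [MP_d3fc00_an.add]
  rw [this]
  have h1 := abs_le.1 hA; have h2 := abs_le.1 hB
  rw [abs_le]; constructor <;> linarith [h1.1, h1.2, h2.1, h2.2]

theorem Has.sub {t : Pt} {σ : ℝ} {A B : TM} {x y : ℝ} (hA : Has t σ A x) (hB : Has t σ B y) :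
    Has t σ (sub A B) (x - y) := by
  unfold Has at *
  rw [ev_sub]
  have : ((MP_d3fc00_an.sub A B).r : ℝ) = A.r + B.r := by simp [MP_d3fc00_an.sub]
  rw [this]
  have h1 := abs_le.1 hA; have h2 := abs_le.1 hB
  rw [abs_le]; constructor <;> linarith [h1.1, h1.2, h2.1, h2.2]

theorem Has.scal {t : Pt} {σ : ℝ} {A : TM} {x : ℝ} (m : Int) (hA : Has t σ A x) :
    Has t σ (scal m A) (m * x) := by
  unfold Has at *
  rw [ev_scal]
  have : ((MP_d3fc00_an.scal m A).r : ℝ) = |(m : ℝ)| * A.r := by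
    simp [MP_d3fc00_an.scal, Nat.cast_natAbs]
  rw [this, show (m : ℝ) * x * σ - m * A.ev t = m * (x * σ - A.ev t) by ring, abs_mul]
  exact mul_le_mul_of_nonneg_left hA (abs_nonneg _)

theorem Has.addc {t : Pt} {σ : ℝ} {A : TM} {x y : ℝ} (m : Int) (hy : y * σ = m)
    (hA : Has t σ A x) : Has t σ (addc m A) (y + x) := by
  unfold Has at *
  rw [ev_addc]
  have : ((MP_d3fc00_an.addc m A).r : ℝ) = A.r := by simp [MP_d3fc00_an.addc]
  rw [this, show (y + x) * σ - (m + A.ev t) = x * σ - A.ev t by rw [← hy]; ring]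
  exact hA

/-- remainder of a product -/
noncomputable def mulRem (A B : TM) : Nat :=
  forceN (n1 A) fun a1 => forceN (n2 A) fun a2 => forceN (n1 B) fun b1 => forceN (n2 B) fun b2 =>
    Nat.add (Nat.add (Nat.mul a1 b2) (Nat.mul a2 (Nat.add b1 b2)))
      (Nat.add (Nat.mul (Nat.add (Int.natAbs A.c) (Nat.add a1 a2)) B.r)
        (Nat.mul (Nat.add (Nat.add (Int.natAbs B.c) B.r) (Nat.add b1 b2)) A.r))

noncomputable def mulRaw (A B : TM) : TM :=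
  ⟨Int.mul A.c B.c,
   Int.add (Int.mul A.c B.l1) (Int.mul A.l1 B.c),
   Int.add (Int.mul A.c B.l2) (Int.mul A.l2 B.c),
   Int.add (Int.mul A.c B.l3) (Int.mul A.l3 B.c),
   Int.add (Int.mul A.c B.l4) (Int.mul A.l4 B.c),
   Int.add (Int.add (Int.mul A.c B.q11) (Int.mul A.q11 B.c)) (Int.mul A.l1 B.l1),
   Int.add (Int.add (Int.mul A.c B.q12) (Int.mul A.q12 B.c))
     (Int.add (Int.mul A.l1 B.l2) (Int.mul A.l2 B.l1)),
   Int.add (Int.add (Int.mul A.c B.q13) (Int.mul A.q13 B.c))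
     (Int.add (Int.mul A.l1 B.l3) (Int.mul A.l3 B.l1)),
   Int.add (Int.add (Int.mul A.c B.q14) (Int.mul A.q14 B.c))
     (Int.add (Int.mul A.l1 B.l4) (Int.mul A.l4 B.l1)),
   Int.add (Int.add (Int.mul A.c B.q22) (Int.mul A.q22 B.c)) (Int.mul A.l2 B.l2),
   Int.add (Int.add (Int.mul A.c B.q23) (Int.mul A.q23 B.c))
     (Int.add (Int.mul A.l2 B.l3) (Int.mul A.l3 B.l2)),
   Int.add (Int.add (Int.mul A.c B.q24) (Int.mul A.q24 B.c))
     (Int.add (Int.mul A.l2 B.l4) (Int.mul A.l4 B.l2)),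
   Int.add (Int.add (Int.mul A.c B.q33) (Int.mul A.q33 B.c)) (Int.mul A.l3 B.l3),
   Int.add (Int.add (Int.mul A.c B.q34) (Int.mul A.q34 B.c))
     (Int.add (Int.mul A.l3 B.l4) (Int.mul A.l4 B.l3)),
   Int.add (Int.add (Int.mul A.c B.q44) (Int.mul A.q44 B.c)) (Int.mul A.l4 B.l4),
   mulRem A B⟩

theorem ev_mulRaw (A B : TM) (t : Pt) : (mulRaw A B).ev t =
    A.c * B.c + A.c * B.L t + B.c * A.L t + A.c * B.Q t + B.c * A.Q t + A.L t * B.L t := by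
  simp only [mulRaw, TM.ev, TM.L, TM.Q, imul, iadd]; push_cast; ring

theorem mulRem_eq (A B : TM) : ((mulRem A B : Nat) : ℝ) =
    (n1 A : ℝ) * n2 B + n2 A * (n1 B + n2 B) + (((A.c.natAbs : ℝ) + n1 A + n2 A) * B.r
      + (((B.c.natAbs : ℝ) + n1 B + n2 B) + B.r) * A.r) := by
  simp only [mulRem, forceN_eq, nadd, nmul]; push_cast; ring

theorem Has.mulRaw {t : Pt} {σ τ : ℝ} {A B : TM} {x y : ℝ} (hA : Has t σ A x)
    (hB : Has t τ B y) : Has t (σ * τ) (mulRaw A B) (x * y) := by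
  unfold Has at *
  rw [ev_mulRaw]
  have hr : ((MP_d3fc00_an.mulRaw A B).r : ℝ) = mulRem A B := rfl
  rw [hr, mulRem_eq]
  set eA := x * σ - A.ev t with heA
  set eB := y * τ - B.ev t with heB
  have key : x * y * (σ * τ) - (A.c * B.c + A.c * B.L t + B.c * A.L t + A.c * B.Q t
      + B.c * A.Q t + A.L t * B.L t)
      = A.L t * B.Q t + A.Q t * (B.L t + B.Q t) + (A.ev t * eB + (B.ev t + eB) * eA) := by
    have hx : x * σ = A.ev t + eA := by rw [heA]; ring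
    have hy : y * τ = B.ev t + eB := by rw [heB]; ring
    rw [show x * y * (σ * τ) = (x * σ) * (y * τ) by ring, hx, hy]
    simp only [TM.ev]; ring
  rw [key]
  have a1 := L_bd A t; have a2 := Q_bd A t; have b1 := L_bd B t; have b2 := Q_bd B t
  have a3 := ev_bd A t; have b3 := ev_bd B t
  have e1 : |A.L t * B.Q t| ≤ (n1 A : ℝ) * n2 B := by
    rw [abs_mul]; exact mul_le_mul a1 b2 (abs_nonneg _) (Nat.cast_nonneg _)
  have e2 : |A.Q t * (B.L t + B.Q t)| ≤ (n2 A : ℝ) * (n1 B + n2 B) := by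
    rw [abs_mul]
    exact mul_le_mul a2 ((abs_add_le _ _).trans (add_le_add b1 b2)) (abs_nonneg _)
      (Nat.cast_nonneg _)
  have e3 : |A.ev t * eB| ≤ ((A.c.natAbs : ℝ) + n1 A + n2 A) * B.r := by
    rw [abs_mul]; exact mul_le_mul a3 hB (abs_nonneg _) (by positivity)
  have e4 : |(B.ev t + eB) * eA| ≤ (((B.c.natAbs : ℝ) + n1 B + n2 B) + B.r) * A.r := by
    rw [abs_mul]
    exact mul_le_mul ((abs_add_le _ _).trans (add_le_add b3 hB)) hA (abs_nonneg _)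
      (by positivity)
  exact (abs_add_le _ _).trans (add_le_add ((abs_add_le _ _).trans (add_le_add e1 e2))
    ((abs_add_le _ _).trans (add_le_add e3 e4)))

/-- crude lower bound -/
def lo (A : TM) : Int := Int.sub A.c (Int.ofNat (Nat.add (Nat.add (n1 A) (n2 A)) A.r))

theorem Has.lo_le {t : Pt} {σ : ℝ} {A : TM} {x : ℝ} (hA : Has t σ A x) :
    (lo A : ℝ) ≤ x * σ := by
  have h1 := abs_le.1 (L_bd A t); have h2 := abs_le.1 (Q_bd A t); have h3 := abs_le.1 hA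
  simp only [lo, isub, nadd, TM.ev] at *
  push_cast
  simp only [Int.ofNat_eq_natCast, Int.cast_add, Int.cast_natCast, Nat.cast_add]
  linarith [h1.1, h2.1, h3.1]

def setR (A : TM) (r : Nat) : TM :=
  ⟨A.c, A.l1, A.l2, A.l3, A.l4, A.q11, A.q12, A.q13, A.q14, A.q22, A.q23, A.q24, A.q33,
   A.q34, A.q44, r⟩

end Pool.Agent.Lib.MP_d3fc00_an
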