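import Pool.Agent.Lib.MP_d3fc00_an.TM

/-! Taylor models whose signed coefficients are stored as differences of natural numbers. -/

set_option linter.unusedVariables false

namespace Pool.Agent.Lib.MP_d3fc00_an

structure TN where
  cp : Nat
  cn : Nat
  l1p : Nat
  l1n : Nat
  l2p : Nat
  l2n : Nat
  l3p : Nat
  l3n : Nat
  l4p : Nat
  l4n : Nat
  q11p : Nat
  q11n : Nat
  q12p : Nat
  q12n : Nat
  q13p : Nat
  q13n : Nat
  q14p : Nat
  q14n : Nat
  q22p : Nat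
  q22n : Nat
  q23p : Nat
  q23n : Nat
  q24p : Nat
  q24n : Nat
  q33p : Nat
  q33n : Nat
  q34p : Nat
  q34n : Nat
  q44p : Nat
  q44n : Nat
  r : Nat

def toTM (A : TN) : TM :=
  ⟨(A.cp : Int) - A.cn, (A.l1p : Int) - A.l1n, (A.l2p : Int) - A.l2n, (A.l3p : Int) - A.l3n, (A.l4p
      : Int) - A.l4n, (A.q11p : Int) - A.q11n, (A.q12p : Int) - A.q12n, (A.q13p : Int) - A.q13n,
      (A.q14p : Int) - A.q14n, (A.q22p : Int) - A.q22n, (A.q23p : Int) - A.q23n, (A.q24p : Int) -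
      A.q24n, (A.q33p : Int) - A.q33n, (A.q34p : Int) - A.q34n, (A.q44p : Int) - A.q44n, A.r⟩

noncomputable def addN (A B : TN) : TN :=
  TN.casesOn (motive := fun _ => TN) A (fun acp acn al1p al1n al2p al2n al3p al3n al4p al4n aq11p
      aq11n aq12p aq12n aq13p aq13n aq14p aq14n aq22p aq22n aq23p aq23n aq24p aq24n aq33p aq33n
      aq34p aq34n aq44p aq44n ar =>
    TN.casesOn (motive := fun _ => TN) B (fun bcp bcn bl1p bl1n bl2p bl2n bl3p bl3n bl4p bl4n bq11p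
      bq11n bq12p bq12n bq13p bq13n bq14p bq14n bq22p bq22n bq23p bq23n bq24p bq24n bq33p bq33n
      bq34p bq34n bq44p bq44n br =>
    ⟨Nat.add acp bcp, Nat.add acn bcn, Nat.add al1p bl1p, Nat.add al1n bl1n, Nat.add al2p bl2p,
      Nat.add al2n bl2n, Nat.add al3p bl3p, Nat.add al3n bl3n, Nat.add al4p bl4p, Nat.add al4n
      bl4n, Nat.add aq11p bq11p, Nat.add aq11n bq11n, Nat.add aq12p bq12p, Nat.add aq12n bq12n,
      Nat.add aq13p bq13p, Nat.add aq13n bq13n, Nat.add aq14p bq14p, Nat.add aq14n bq14n, Nat.add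
      aq22p bq22p, Nat.add aq22n bq22n, Nat.add aq23p bq23p, Nat.add aq23n bq23n, Nat.add aq24p
      bq24p, Nat.add aq24n bq24n, Nat.add aq33p bq33p, Nat.add aq33n bq33n, Nat.add aq34p bq34p,
      Nat.add aq34n bq34n, Nat.add aq44p bq44p, Nat.add aq44n bq44n, Nat.add ar br⟩))

noncomputable def subN (A B : TN) : TN :=
  TN.casesOn (motive := fun _ => TN) A (fun acp acn al1p al1n al2p al2n al3p al3n al4p al4n aq11p
      aq11n aq12p aq12n aq13p aq13n aq14p aq14n aq22p aq22n aq23p aq23n aq24p aq24n aq33p aq33n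
      aq34p aq34n aq44p aq44n ar =>
    TN.casesOn (motive := fun _ => TN) B (fun bcp bcn bl1p bl1n bl2p bl2n bl3p bl3n bl4p bl4n bq11p
      bq11n bq12p bq12n bq13p bq13n bq14p bq14n bq22p bq22n bq23p bq23n bq24p bq24n bq33p bq33n
      bq34p bq34n bq44p bq44n br =>
    ⟨Nat.add acp bcn, Nat.add acn bcp, Nat.add al1p bl1n, Nat.add al1n bl1p, Nat.add al2p bl2n,
      Nat.add al2n bl2p, Nat.add al3p bl3n, Nat.add al3n bl3p, Nat.add al4p bl4n, Nat.add al4n
      bl4p, Nat.add aq11p bq11n, Nat.add aq11n bq11p, Nat.add aq12p bq12n, Nat.add aq12n bq12p,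
      Nat.add aq13p bq13n, Nat.add aq13n bq13p, Nat.add aq14p bq14n, Nat.add aq14n bq14p, Nat.add
      aq22p bq22n, Nat.add aq22n bq22p, Nat.add aq23p bq23n, Nat.add aq23n bq23p, Nat.add aq24p
      bq24n, Nat.add aq24n bq24p, Nat.add aq33p bq33n, Nat.add aq33n bq33p, Nat.add aq34p bq34n,
      Nat.add aq34n bq34p, Nat.add aq44p bq44n, Nat.add aq44n bq44p, Nat.add ar br⟩))

noncomputable def scalN (m : Nat) (A : TN) : TN :=
  TN.casesOn (motive := fun _ => TN) A (fun acp acn al1p al1n al2p al2n al3p al3n al4p al4n aq11p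
      aq11n aq12p aq12n aq13p aq13n aq14p aq14n aq22p aq22n aq23p aq23n aq24p aq24n aq33p aq33n
      aq34p aq34n aq44p aq44n ar =>
    ⟨Nat.mul m acp, Nat.mul m acn, Nat.mul m al1p, Nat.mul m al1n, Nat.mul m al2p, Nat.mul m al2n,
      Nat.mul m al3p, Nat.mul m al3n, Nat.mul m al4p, Nat.mul m al4n, Nat.mul m aq11p, Nat.mul m
      aq11n, Nat.mul m aq12p, Nat.mul m aq12n, Nat.mul m aq13p, Nat.mul m aq13n, Nat.mul m aq14p,
      Nat.mul m aq14n, Nat.mul m aq22p, Nat.mul m aq22n, Nat.mul m aq23p, Nat.mul m aq23n, Nat.mul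
      m aq24p, Nat.mul m aq24n, Nat.mul m aq33p, Nat.mul m aq33n, Nat.mul m aq34p, Nat.mul m aq34n,
      Nat.mul m aq44p, Nat.mul m aq44n, Nat.mul m ar⟩)

noncomputable def addcN (m : Nat) (A : TN) : TN :=
  TN.casesOn (motive := fun _ => TN) A (fun acp acn al1p al1n al2p al2n al3p al3n al4p al4n aq11p
      aq11n aq12p aq12n aq13p aq13n aq14p aq14n aq22p aq22n aq23p aq23n aq24p aq24n aq33p aq33n
      aq34p aq34n aq44p aq44n ar =>
    ⟨Nat.add m acp, acn, al1p, al1n, al2p, al2n, al3p, al3n, al4p, al4n, aq11p, aq11n, aq12p,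
      aq12n, aq13p, aq13n, aq14p, aq14n, aq22p, aq22n, aq23p, aq23n, aq24p, aq24n, aq33p, aq33n,
      aq34p, aq34n, aq44p, aq44n, ar⟩)

noncomputable def negN (A : TN) : TN :=
  TN.casesOn (motive := fun _ => TN) A (fun acp acn al1p al1n al2p al2n al3p al3n al4p al4n aq11p
      aq11n aq12p aq12n aq13p aq13n aq14p aq14n aq22p aq22n aq23p aq23n aq24p aq24n aq33p aq33n
      aq34p aq34n aq44p aq44n ar =>
    ⟨acn, acp, al1n, al1p, al2n, al2p, al3n, al3p, al4n, al4p, aq11n, aq11p, aq12n, aq12p, aq13n,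
      aq13p, aq14n, aq14p, aq22n, aq22p, aq23n, aq23p, aq24n, aq24p, aq33n, aq33p, aq34n, aq34p,
      aq44n, aq44p, ar⟩)

noncomputable def nrm (A : TN) : TN :=
  TN.casesOn (motive := fun _ => TN) A (fun acp acn al1p al1n al2p al2n al3p al3n al4p al4n aq11p
      aq11n aq12p aq12n aq13p aq13n aq14p aq14n aq22p aq22n aq23p aq23n aq24p aq24n aq33p aq33n
      aq34p aq34n aq44p aq44n ar =>
    ⟨Nat.sub acp acn, Nat.sub acn acp, Nat.sub al1p al1n, Nat.sub al1n al1p, Nat.sub al2p al2n,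
      Nat.sub al2n al2p, Nat.sub al3p al3n, Nat.sub al3n al3p, Nat.sub al4p al4n, Nat.sub al4n
      al4p, Nat.sub aq11p aq11n, Nat.sub aq11n aq11p, Nat.sub aq12p aq12n, Nat.sub aq12n aq12p,
      Nat.sub aq13p aq13n, Nat.sub aq13n aq13p, Nat.sub aq14p aq14n, Nat.sub aq14n aq14p, Nat.sub
      aq22p aq22n, Nat.sub aq22n aq22p, Nat.sub aq23p aq23n, Nat.sub aq23n aq23p, Nat.sub aq24p
      aq24n, Nat.sub aq24n aq24p, Nat.sub aq33p aq33n, Nat.sub aq33n aq33p, Nat.sub aq34p aq34n,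
      Nat.sub aq34n aq34p, Nat.sub aq44p aq44n, Nat.sub aq44n aq44p, ar⟩)

noncomputable def shrN (A : TN) : TN :=
  TN.casesOn (motive := fun _ => TN) A (fun acp acn al1p al1n al2p al2n al3p al3n al4p al4n aq11p
      aq11n aq12p aq12n aq13p aq13n aq14p aq14n aq22p aq22n aq23p aq23n aq24p aq24n aq33p aq33n
      aq34p aq34n aq44p aq44n ar =>
    ⟨Nat.div (Nat.sub acp acn) 1000000000039, Nat.div (Nat.sub acn acp) 1000000000039, Nat.div
      (Nat.sub al1p al1n) 1000000000039, Nat.div (Nat.sub al1n al1p) 1000000000039, Nat.div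
      (Nat.sub al2p al2n) 1000000000039, Nat.div (Nat.sub al2n al2p) 1000000000039, Nat.div
      (Nat.sub al3p al3n) 1000000000039, Nat.div (Nat.sub al3n al3p) 1000000000039, Nat.div
      (Nat.sub al4p al4n) 1000000000039, Nat.div (Nat.sub al4n al4p) 1000000000039, Nat.div
      (Nat.sub aq11p aq11n) 1000000000039, Nat.div (Nat.sub aq11n aq11p) 1000000000039, Nat.div
      (Nat.sub aq12p aq12n) 1000000000039, Nat.div (Nat.sub aq12n aq12p) 1000000000039, Nat.div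
      (Nat.sub aq13p aq13n) 1000000000039, Nat.div (Nat.sub aq13n aq13p) 1000000000039, Nat.div
      (Nat.sub aq14p aq14n) 1000000000039, Nat.div (Nat.sub aq14n aq14p) 1000000000039, Nat.div
      (Nat.sub aq22p aq22n) 1000000000039, Nat.div (Nat.sub aq22n aq22p) 1000000000039, Nat.div
      (Nat.sub aq23p aq23n) 1000000000039, Nat.div (Nat.sub aq23n aq23p) 1000000000039, Nat.div
      (Nat.sub aq24p aq24n) 1000000000039, Nat.div (Nat.sub aq24n aq24p) 1000000000039, Nat.div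
      (Nat.sub aq33p aq33n) 1000000000039, Nat.div (Nat.sub aq33n aq33p) 1000000000039, Nat.div
      (Nat.sub aq34p aq34n) 1000000000039, Nat.div (Nat.sub aq34n aq34p) 1000000000039, Nat.div
      (Nat.sub aq44p aq44n) 1000000000039, Nat.div (Nat.sub aq44n aq44p) 1000000000039, Nat.add
      (Nat.div ar 1000000000039) 16⟩)

def remN (a0 a1 a2 ar b0 b1 b2 br : Nat) : Nat :=
  Nat.add (Nat.add (Nat.mul a1 b2) (Nat.mul a2 (Nat.add b1 b2))) (Nat.add (Nat.mul (Nat.add a0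
      (Nat.add a1 a2)) br) (Nat.mul (Nat.add (Nat.add b0 br) (Nat.add b1 b2)) ar))

noncomputable def m0 (A : TN) : Nat :=
  TN.casesOn (motive := fun _ => Nat) A (fun acp acn al1p al1n al2p al2n al3p al3n al4p al4n aq11p
      aq11n aq12p aq12n aq13p aq13n aq14p aq14n aq22p aq22n aq23p aq23n aq24p aq24n aq33p aq33n
      aq34p aq34n aq44p aq44n ar =>
    Nat.add acp acn)

noncomputable def m1 (A : TN) : Nat :=
  TN.casesOn (motive := fun _ => Nat) A (fun acp acn al1p al1n al2p al2n al3p al3n al4p al4n aq11p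
      aq11n aq12p aq12n aq13p aq13n aq14p aq14n aq22p aq22n aq23p aq23n aq24p aq24n aq33p aq33n
      aq34p aq34n aq44p aq44n ar =>
    (Nat.add (Nat.add (Nat.add al1p al1n) (Nat.add al2p al2n)) (Nat.add (Nat.add al3p al3n)
      (Nat.add al4p al4n))))

noncomputable def m2 (A : TN) : Nat :=
  TN.casesOn (motive := fun _ => Nat) A (fun acp acn al1p al1n al2p al2n al3p al3n al4p al4n aq11p
      aq11n aq12p aq12n aq13p aq13n aq14p aq14n aq22p aq22n aq23p aq23n aq24p aq24n aq33p aq33n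
      aq34p aq34n aq44p aq44n ar =>
    (Nat.add (Nat.add (Nat.add (Nat.add aq11p aq11n) (Nat.add aq12p (Nat.add aq12n aq13p)))
      (Nat.add (Nat.add aq13n aq14p) (Nat.add aq14n (Nat.add aq22p aq22n)))) (Nat.add (Nat.add
      (Nat.add aq23p aq23n) (Nat.add aq24p (Nat.add aq24n aq33p))) (Nat.add (Nat.add aq33n aq34p)
      (Nat.add aq34n (Nat.add aq44p aq44n))))))

noncomputable def mulN (A B : TN) : TN :=
  TN.casesOn (motive := fun _ => TN) A (fun acp acn al1p al1n al2p al2n al3p al3n al4p al4n aq11p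
      aq11n aq12p aq12n aq13p aq13n aq14p aq14n aq22p aq22n aq23p aq23n aq24p aq24n aq33p aq33n
      aq34p aq34n aq44p aq44n ar =>
    TN.casesOn (motive := fun _ => TN) B (fun bcp bcn bl1p bl1n bl2p bl2n bl3p bl3n bl4p bl4n bq11p
      bq11n bq12p bq12n bq13p bq13n bq14p bq14n bq22p bq22n bq23p bq23n bq24p bq24n bq33p bq33n
      bq34p bq34n bq44p bq44n br =>
    ⟨(Nat.add (Nat.mul acp bcp) (Nat.mul acn bcn)), (Nat.add (Nat.mul acp bcn) (Nat.mul acn bcp)),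
     (Nat.add (Nat.add (Nat.mul acp bl1p) (Nat.mul acn bl1n)) (Nat.add (Nat.mul al1p bcp) (Nat.mul
      al1n bcn))), (Nat.add (Nat.add (Nat.mul acp bl1n) (Nat.mul acn bl1p)) (Nat.add (Nat.mul al1p
      bcn) (Nat.mul al1n bcp))),
     (Nat.add (Nat.add (Nat.mul acp bl2p) (Nat.mul acn bl2n)) (Nat.add (Nat.mul al2p bcp) (Nat.mul
      al2n bcn))), (Nat.add (Nat.add (Nat.mul acp bl2n) (Nat.mul acn bl2p)) (Nat.add (Nat.mul al2p
      bcn) (Nat.mul al2n bcp))),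
     (Nat.add (Nat.add (Nat.mul acp bl3p) (Nat.mul acn bl3n)) (Nat.add (Nat.mul al3p bcp) (Nat.mul
      al3n bcn))), (Nat.add (Nat.add (Nat.mul acp bl3n) (Nat.mul acn bl3p)) (Nat.add (Nat.mul al3p
      bcn) (Nat.mul al3n bcp))),
     (Nat.add (Nat.add (Nat.mul acp bl4p) (Nat.mul acn bl4n)) (Nat.add (Nat.mul al4p bcp) (Nat.mul
      al4n bcn))), (Nat.add (Nat.add (Nat.mul acp bl4n) (Nat.mul acn bl4p)) (Nat.add (Nat.mul al4p
      bcn) (Nat.mul al4n bcp))),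
     (Nat.add (Nat.add (Nat.mul acp bq11p) (Nat.add (Nat.mul acn bq11n) (Nat.mul aq11p bcp)))
      (Nat.add (Nat.mul aq11n bcn) (Nat.add (Nat.mul al1p bl1p) (Nat.mul al1n bl1n)))), (Nat.add
      (Nat.add (Nat.mul acp bq11n) (Nat.add (Nat.mul acn bq11p) (Nat.mul aq11p bcn))) (Nat.add
      (Nat.mul aq11n bcp) (Nat.add (Nat.mul al1p bl1n) (Nat.mul al1n bl1p)))),
     (Nat.add (Nat.add (Nat.add (Nat.mul acp bq12p) (Nat.mul acn bq12n)) (Nat.add (Nat.mul aq12p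
      bcp) (Nat.mul aq12n bcn))) (Nat.add (Nat.add (Nat.mul al1p bl2p) (Nat.mul al1n bl2n))
      (Nat.add (Nat.mul al2p bl1p) (Nat.mul al2n bl1n)))), (Nat.add (Nat.add (Nat.add (Nat.mul acp
      bq12n) (Nat.mul acn bq12p)) (Nat.add (Nat.mul aq12p bcn) (Nat.mul aq12n bcp))) (Nat.add
      (Nat.add (Nat.mul al1p bl2n) (Nat.mul al1n bl2p)) (Nat.add (Nat.mul al2p bl1n) (Nat.mul al2n
      bl1p)))),
     (Nat.add (Nat.add (Nat.add (Nat.mul acp bq13p) (Nat.mul acn bq13n)) (Nat.add (Nat.mul aq13p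
      bcp) (Nat.mul aq13n bcn))) (Nat.add (Nat.add (Nat.mul al1p bl3p) (Nat.mul al1n bl3n))
      (Nat.add (Nat.mul al3p bl1p) (Nat.mul al3n bl1n)))), (Nat.add (Nat.add (Nat.add (Nat.mul acp
      bq13n) (Nat.mul acn bq13p)) (Nat.add (Nat.mul aq13p bcn) (Nat.mul aq13n bcp))) (Nat.add
      (Nat.add (Nat.mul al1p bl3n) (Nat.mul al1n bl3p)) (Nat.add (Nat.mul al3p bl1n) (Nat.mul al3n
      bl1p)))),
     (Nat.add (Nat.add (Nat.add (Nat.mul acp bq14p) (Nat.mul acn bq14n)) (Nat.add (Nat.mul aq14p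
      bcp) (Nat.mul aq14n bcn))) (Nat.add (Nat.add (Nat.mul al1p bl4p) (Nat.mul al1n bl4n))
      (Nat.add (Nat.mul al4p bl1p) (Nat.mul al4n bl1n)))), (Nat.add (Nat.add (Nat.add (Nat.mul acp
      bq14n) (Nat.mul acn bq14p)) (Nat.add (Nat.mul aq14p bcn) (Nat.mul aq14n bcp))) (Nat.add
      (Nat.add (Nat.mul al1p bl4n) (Nat.mul al1n bl4p)) (Nat.add (Nat.mul al4p bl1n) (Nat.mul al4n
      bl1p)))),
     (Nat.add (Nat.add (Nat.mul acp bq22p) (Nat.add (Nat.mul acn bq22n) (Nat.mul aq22p bcp)))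
      (Nat.add (Nat.mul aq22n bcn) (Nat.add (Nat.mul al2p bl2p) (Nat.mul al2n bl2n)))), (Nat.add
      (Nat.add (Nat.mul acp bq22n) (Nat.add (Nat.mul acn bq22p) (Nat.mul aq22p bcn))) (Nat.add
      (Nat.mul aq22n bcp) (Nat.add (Nat.mul al2p bl2n) (Nat.mul al2n bl2p)))),
     (Nat.add (Nat.add (Nat.add (Nat.mul acp bq23p) (Nat.mul acn bq23n)) (Nat.add (Nat.mul aq23p
      bcp) (Nat.mul aq23n bcn))) (Nat.add (Nat.add (Nat.mul al2p bl3p) (Nat.mul al2n bl3n))
      (Nat.add (Nat.mul al3p bl2p) (Nat.mul al3n bl2n)))), (Nat.add (Nat.add (Nat.add (Nat.mul acp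
      bq23n) (Nat.mul acn bq23p)) (Nat.add (Nat.mul aq23p bcn) (Nat.mul aq23n bcp))) (Nat.add
      (Nat.add (Nat.mul al2p bl3n) (Nat.mul al2n bl3p)) (Nat.add (Nat.mul al3p bl2n) (Nat.mul al3n
      bl2p)))),
     (Nat.add (Nat.add (Nat.add (Nat.mul acp bq24p) (Nat.mul acn bq24n)) (Nat.add (Nat.mul aq24p
      bcp) (Nat.mul aq24n bcn))) (Nat.add (Nat.add (Nat.mul al2p bl4p) (Nat.mul al2n bl4n))
      (Nat.add (Nat.mul al4p bl2p) (Nat.mul al4n bl2n)))), (Nat.add (Nat.add (Nat.add (Nat.mul acp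
      bq24n) (Nat.mul acn bq24p)) (Nat.add (Nat.mul aq24p bcn) (Nat.mul aq24n bcp))) (Nat.add
      (Nat.add (Nat.mul al2p bl4n) (Nat.mul al2n bl4p)) (Nat.add (Nat.mul al4p bl2n) (Nat.mul al4n
      bl2p)))),
     (Nat.add (Nat.add (Nat.mul acp bq33p) (Nat.add (Nat.mul acn bq33n) (Nat.mul aq33p bcp)))
      (Nat.add (Nat.mul aq33n bcn) (Nat.add (Nat.mul al3p bl3p) (Nat.mul al3n bl3n)))), (Nat.add
      (Nat.add (Nat.mul acp bq33n) (Nat.add (Nat.mul acn bq33p) (Nat.mul aq33p bcn))) (Nat.add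
      (Nat.mul aq33n bcp) (Nat.add (Nat.mul al3p bl3n) (Nat.mul al3n bl3p)))),
     (Nat.add (Nat.add (Nat.add (Nat.mul acp bq34p) (Nat.mul acn bq34n)) (Nat.add (Nat.mul aq34p
      bcp) (Nat.mul aq34n bcn))) (Nat.add (Nat.add (Nat.mul al3p bl4p) (Nat.mul al3n bl4n))
      (Nat.add (Nat.mul al4p bl3p) (Nat.mul al4n bl3n)))), (Nat.add (Nat.add (Nat.add (Nat.mul acp
      bq34n) (Nat.mul acn bq34p)) (Nat.add (Nat.mul aq34p bcn) (Nat.mul aq34n bcp))) (Nat.add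
      (Nat.add (Nat.mul al3p bl4n) (Nat.mul al3n bl4p)) (Nat.add (Nat.mul al4p bl3n) (Nat.mul al4n
      bl3p)))),
     (Nat.add (Nat.add (Nat.mul acp bq44p) (Nat.add (Nat.mul acn bq44n) (Nat.mul aq44p bcp)))
      (Nat.add (Nat.mul aq44n bcn) (Nat.add (Nat.mul al4p bl4p) (Nat.mul al4n bl4n)))), (Nat.add
      (Nat.add (Nat.mul acp bq44n) (Nat.add (Nat.mul acn bq44p) (Nat.mul aq44p bcn))) (Nat.add
      (Nat.mul aq44n bcp) (Nat.add (Nat.mul al4p bl4n) (Nat.mul al4n bl4p)))),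
     remN (Nat.add acp acn) (Nat.add (Nat.add (Nat.add al1p al1n) (Nat.add al2p al2n)) (Nat.add
      (Nat.add al3p al3n) (Nat.add al4p al4n))) (Nat.add (Nat.add (Nat.add (Nat.add aq11p aq11n)
      (Nat.add aq12p (Nat.add aq12n aq13p))) (Nat.add (Nat.add aq13n aq14p) (Nat.add aq14n (Nat.add
      aq22p aq22n)))) (Nat.add (Nat.add (Nat.add aq23p aq23n) (Nat.add aq24p (Nat.add aq24n
      aq33p))) (Nat.add (Nat.add aq33n aq34p) (Nat.add aq34n (Nat.add aq44p aq44n))))) ar (Nat.add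
      bcp bcn) (Nat.add (Nat.add (Nat.add bl1p bl1n) (Nat.add bl2p bl2n)) (Nat.add (Nat.add bl3p
      bl3n) (Nat.add bl4p bl4n))) (Nat.add (Nat.add (Nat.add (Nat.add bq11p bq11n) (Nat.add bq12p
      (Nat.add bq12n bq13p))) (Nat.add (Nat.add bq13n bq14p) (Nat.add bq14n (Nat.add bq22p
      bq22n)))) (Nat.add (Nat.add (Nat.add bq23p bq23n) (Nat.add bq24p (Nat.add bq24n bq33p)))
      (Nat.add (Nat.add bq33n bq34p) (Nat.add bq34n (Nat.add bq44p bq44n))))) br⟩))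

noncomputable def mulPN (pc ph : Nat) (A : TN) : TN :=
  TN.casesOn (motive := fun _ => TN) A (fun acp acn al1p al1n al2p al2n al3p al3n al4p al4n aq11p
      aq11n aq12p aq12n aq13p aq13n aq14p aq14n aq22p aq22n aq23p aq23n aq24p aq24n aq33p aq33n
      aq34p aq34n aq44p aq44n ar =>
    ⟨Nat.mul pc acp, Nat.mul pc acn, Nat.mul pc al1p, Nat.mul pc al1n, Nat.mul pc al2p, Nat.mul pc
      al2n, Nat.mul pc al3p, Nat.mul pc al3n, Nat.add (Nat.mul pc al4p) (Nat.mul ph acp), Nat.add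
      (Nat.mul pc al4n) (Nat.mul ph acn), Nat.mul pc aq11p, Nat.mul pc aq11n, Nat.mul pc aq12p,
      Nat.mul pc aq12n, Nat.mul pc aq13p, Nat.mul pc aq13n, Nat.add (Nat.mul pc aq14p) (Nat.mul ph
      al1p), Nat.add (Nat.mul pc aq14n) (Nat.mul ph al1n), Nat.mul pc aq22p, Nat.mul pc aq22n,
      Nat.mul pc aq23p, Nat.mul pc aq23n, Nat.add (Nat.mul pc aq24p) (Nat.mul ph al2p), Nat.add
      (Nat.mul pc aq24n) (Nat.mul ph al2n), Nat.mul pc aq33p, Nat.mul pc aq33n, Nat.add (Nat.mul pc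
      aq34p) (Nat.mul ph al3p), Nat.add (Nat.mul pc aq34n) (Nat.mul ph al3n), Nat.add (Nat.mul pc
      aq44p) (Nat.mul ph al4p), Nat.add (Nat.mul pc aq44n) (Nat.mul ph al4n), Nat.add (Nat.mul ph
      (Nat.add (Nat.add (Nat.add (Nat.add aq11p aq11n) (Nat.add aq12p (Nat.add aq12n aq13p)))
      (Nat.add (Nat.add aq13n aq14p) (Nat.add aq14n (Nat.add aq22p aq22n)))) (Nat.add (Nat.add
      (Nat.add aq23p aq23n) (Nat.add aq24p (Nat.add aq24n aq33p))) (Nat.add (Nat.add aq33n aq34p)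
      (Nat.add aq34n (Nat.add aq44p aq44n)))))) (Nat.mul (Nat.add pc ph) ar)⟩)

def qp (P N d : Nat) : Nat := Nat.div (Nat.sub P N) d

noncomputable def div2 (A B : TN) (d ocp ocn ol1p ol1n ol2p ol2n ol3p ol3n ol4p ol4n : Nat) : TN :=
  TN.casesOn (motive := fun _ => TN) A (fun acp acn al1p al1n al2p al2n al3p al3n al4p al4n aq11p
      aq11n aq12p aq12n aq13p aq13n aq14p aq14n aq22p aq22n aq23p aq23n aq24p aq24n aq33p aq33n
      aq34p aq34n aq44p aq44n ar =>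
    TN.casesOn (motive := fun _ => TN) B (fun bcp bcn bl1p bl1n bl2p bl2n bl3p bl3n bl4p bl4n bq11p
      bq11n bq12p bq12n bq13p bq13n bq14p bq14n bq22p bq22n bq23p bq23n bq24p bq24n bq33p bq33n
      bq34p bq34n bq44p bq44n br =>
    ⟨ocp, ocn, ol1p, ol1n, ol2p, ol2n, ol3p, ol3n, ol4p, ol4n,
     qp (Nat.add (Nat.add (Nat.mul 1000000000039 aq11p) (Nat.mul ocp bq11n)) (Nat.add (Nat.mul ocn
      bq11p) (Nat.add (Nat.mul ol1p bl1n) (Nat.mul ol1n bl1p)))) (Nat.add (Nat.add (Nat.mul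
      1000000000039 aq11n) (Nat.mul ocp bq11p)) (Nat.add (Nat.mul ocn bq11n) (Nat.add (Nat.mul ol1p
      bl1p) (Nat.mul ol1n bl1n)))) d, qp (Nat.add (Nat.add (Nat.mul 1000000000039 aq11n) (Nat.mul
      ocp bq11p)) (Nat.add (Nat.mul ocn bq11n) (Nat.add (Nat.mul ol1p bl1p) (Nat.mul ol1n bl1n))))
      (Nat.add (Nat.add (Nat.mul 1000000000039 aq11p) (Nat.mul ocp bq11n)) (Nat.add (Nat.mul ocn
      bq11p) (Nat.add (Nat.mul ol1p bl1n) (Nat.mul ol1n bl1p)))) d,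
     qp (Nat.add (Nat.add (Nat.mul 1000000000039 aq12p) (Nat.add (Nat.mul ocp bq12n) (Nat.mul ocn
      bq12p))) (Nat.add (Nat.add (Nat.mul ol1p bl2n) (Nat.mul ol1n bl2p)) (Nat.add (Nat.mul ol2p
      bl1n) (Nat.mul ol2n bl1p)))) (Nat.add (Nat.add (Nat.mul 1000000000039 aq12n) (Nat.add
      (Nat.mul ocp bq12p) (Nat.mul ocn bq12n))) (Nat.add (Nat.add (Nat.mul ol1p bl2p) (Nat.mul ol1n
      bl2n)) (Nat.add (Nat.mul ol2p bl1p) (Nat.mul ol2n bl1n)))) d, qp (Nat.add (Nat.add (Nat.mul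
      1000000000039 aq12n) (Nat.add (Nat.mul ocp bq12p) (Nat.mul ocn bq12n))) (Nat.add (Nat.add
      (Nat.mul ol1p bl2p) (Nat.mul ol1n bl2n)) (Nat.add (Nat.mul ol2p bl1p) (Nat.mul ol2n bl1n))))
      (Nat.add (Nat.add (Nat.mul 1000000000039 aq12p) (Nat.add (Nat.mul ocp bq12n) (Nat.mul ocn
      bq12p))) (Nat.add (Nat.add (Nat.mul ol1p bl2n) (Nat.mul ol1n bl2p)) (Nat.add (Nat.mul ol2p
      bl1n) (Nat.mul ol2n bl1p)))) d,
     qp (Nat.add (Nat.add (Nat.mul 1000000000039 aq13p) (Nat.add (Nat.mul ocp bq13n) (Nat.mul ocn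
      bq13p))) (Nat.add (Nat.add (Nat.mul ol1p bl3n) (Nat.mul ol1n bl3p)) (Nat.add (Nat.mul ol3p
      bl1n) (Nat.mul ol3n bl1p)))) (Nat.add (Nat.add (Nat.mul 1000000000039 aq13n) (Nat.add
      (Nat.mul ocp bq13p) (Nat.mul ocn bq13n))) (Nat.add (Nat.add (Nat.mul ol1p bl3p) (Nat.mul ol1n
      bl3n)) (Nat.add (Nat.mul ol3p bl1p) (Nat.mul ol3n bl1n)))) d, qp (Nat.add (Nat.add (Nat.mul
      1000000000039 aq13n) (Nat.add (Nat.mul ocp bq13p) (Nat.mul ocn bq13n))) (Nat.add (Nat.add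
      (Nat.mul ol1p bl3p) (Nat.mul ol1n bl3n)) (Nat.add (Nat.mul ol3p bl1p) (Nat.mul ol3n bl1n))))
      (Nat.add (Nat.add (Nat.mul 1000000000039 aq13p) (Nat.add (Nat.mul ocp bq13n) (Nat.mul ocn
      bq13p))) (Nat.add (Nat.add (Nat.mul ol1p bl3n) (Nat.mul ol1n bl3p)) (Nat.add (Nat.mul ol3p
      bl1n) (Nat.mul ol3n bl1p)))) d,
     qp (Nat.add (Nat.add (Nat.mul 1000000000039 aq14p) (Nat.add (Nat.mul ocp bq14n) (Nat.mul ocn
      bq14p))) (Nat.add (Nat.add (Nat.mul ol1p bl4n) (Nat.mul ol1n bl4p)) (Nat.add (Nat.mul ol4p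
      bl1n) (Nat.mul ol4n bl1p)))) (Nat.add (Nat.add (Nat.mul 1000000000039 aq14n) (Nat.add
      (Nat.mul ocp bq14p) (Nat.mul ocn bq14n))) (Nat.add (Nat.add (Nat.mul ol1p bl4p) (Nat.mul ol1n
      bl4n)) (Nat.add (Nat.mul ol4p bl1p) (Nat.mul ol4n bl1n)))) d, qp (Nat.add (Nat.add (Nat.mul
      1000000000039 aq14n) (Nat.add (Nat.mul ocp bq14p) (Nat.mul ocn bq14n))) (Nat.add (Nat.add
      (Nat.mul ol1p bl4p) (Nat.mul ol1n bl4n)) (Nat.add (Nat.mul ol4p bl1p) (Nat.mul ol4n bl1n))))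
      (Nat.add (Nat.add (Nat.mul 1000000000039 aq14p) (Nat.add (Nat.mul ocp bq14n) (Nat.mul ocn
      bq14p))) (Nat.add (Nat.add (Nat.mul ol1p bl4n) (Nat.mul ol1n bl4p)) (Nat.add (Nat.mul ol4p
      bl1n) (Nat.mul ol4n bl1p)))) d,
     qp (Nat.add (Nat.add (Nat.mul 1000000000039 aq22p) (Nat.mul ocp bq22n)) (Nat.add (Nat.mul ocn
      bq22p) (Nat.add (Nat.mul ol2p bl2n) (Nat.mul ol2n bl2p)))) (Nat.add (Nat.add (Nat.mul
      1000000000039 aq22n) (Nat.mul ocp bq22p)) (Nat.add (Nat.mul ocn bq22n) (Nat.add (Nat.mul ol2p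
      bl2p) (Nat.mul ol2n bl2n)))) d, qp (Nat.add (Nat.add (Nat.mul 1000000000039 aq22n) (Nat.mul
      ocp bq22p)) (Nat.add (Nat.mul ocn bq22n) (Nat.add (Nat.mul ol2p bl2p) (Nat.mul ol2n bl2n))))
      (Nat.add (Nat.add (Nat.mul 1000000000039 aq22p) (Nat.mul ocp bq22n)) (Nat.add (Nat.mul ocn
      bq22p) (Nat.add (Nat.mul ol2p bl2n) (Nat.mul ol2n bl2p)))) d,
     qp (Nat.add (Nat.add (Nat.mul 1000000000039 aq23p) (Nat.add (Nat.mul ocp bq23n) (Nat.mul ocn
      bq23p))) (Nat.add (Nat.add (Nat.mul ol2p bl3n) (Nat.mul ol2n bl3p)) (Nat.add (Nat.mul ol3p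
      bl2n) (Nat.mul ol3n bl2p)))) (Nat.add (Nat.add (Nat.mul 1000000000039 aq23n) (Nat.add
      (Nat.mul ocp bq23p) (Nat.mul ocn bq23n))) (Nat.add (Nat.add (Nat.mul ol2p bl3p) (Nat.mul ol2n
      bl3n)) (Nat.add (Nat.mul ol3p bl2p) (Nat.mul ol3n bl2n)))) d, qp (Nat.add (Nat.add (Nat.mul
      1000000000039 aq23n) (Nat.add (Nat.mul ocp bq23p) (Nat.mul ocn bq23n))) (Nat.add (Nat.add
      (Nat.mul ol2p bl3p) (Nat.mul ol2n bl3n)) (Nat.add (Nat.mul ol3p bl2p) (Nat.mul ol3n bl2n))))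
      (Nat.add (Nat.add (Nat.mul 1000000000039 aq23p) (Nat.add (Nat.mul ocp bq23n) (Nat.mul ocn
      bq23p))) (Nat.add (Nat.add (Nat.mul ol2p bl3n) (Nat.mul ol2n bl3p)) (Nat.add (Nat.mul ol3p
      bl2n) (Nat.mul ol3n bl2p)))) d,
     qp (Nat.add (Nat.add (Nat.mul 1000000000039 aq24p) (Nat.add (Nat.mul ocp bq24n) (Nat.mul ocn
      bq24p))) (Nat.add (Nat.add (Nat.mul ol2p bl4n) (Nat.mul ol2n bl4p)) (Nat.add (Nat.mul ol4p
      bl2n) (Nat.mul ol4n bl2p)))) (Nat.add (Nat.add (Nat.mul 1000000000039 aq24n) (Nat.add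
      (Nat.mul ocp bq24p) (Nat.mul ocn bq24n))) (Nat.add (Nat.add (Nat.mul ol2p bl4p) (Nat.mul ol2n
      bl4n)) (Nat.add (Nat.mul ol4p bl2p) (Nat.mul ol4n bl2n)))) d, qp (Nat.add (Nat.add (Nat.mul
      1000000000039 aq24n) (Nat.add (Nat.mul ocp bq24p) (Nat.mul ocn bq24n))) (Nat.add (Nat.add
      (Nat.mul ol2p bl4p) (Nat.mul ol2n bl4n)) (Nat.add (Nat.mul ol4p bl2p) (Nat.mul ol4n bl2n))))
      (Nat.add (Nat.add (Nat.mul 1000000000039 aq24p) (Nat.add (Nat.mul ocp bq24n) (Nat.mul ocn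
      bq24p))) (Nat.add (Nat.add (Nat.mul ol2p bl4n) (Nat.mul ol2n bl4p)) (Nat.add (Nat.mul ol4p
      bl2n) (Nat.mul ol4n bl2p)))) d,
     qp (Nat.add (Nat.add (Nat.mul 1000000000039 aq33p) (Nat.mul ocp bq33n)) (Nat.add (Nat.mul ocn
      bq33p) (Nat.add (Nat.mul ol3p bl3n) (Nat.mul ol3n bl3p)))) (Nat.add (Nat.add (Nat.mul
      1000000000039 aq33n) (Nat.mul ocp bq33p)) (Nat.add (Nat.mul ocn bq33n) (Nat.add (Nat.mul ol3p
      bl3p) (Nat.mul ol3n bl3n)))) d, qp (Nat.add (Nat.add (Nat.mul 1000000000039 aq33n) (Nat.mul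
      ocp bq33p)) (Nat.add (Nat.mul ocn bq33n) (Nat.add (Nat.mul ol3p bl3p) (Nat.mul ol3n bl3n))))
      (Nat.add (Nat.add (Nat.mul 1000000000039 aq33p) (Nat.mul ocp bq33n)) (Nat.add (Nat.mul ocn
      bq33p) (Nat.add (Nat.mul ol3p bl3n) (Nat.mul ol3n bl3p)))) d,
     qp (Nat.add (Nat.add (Nat.mul 1000000000039 aq34p) (Nat.add (Nat.mul ocp bq34n) (Nat.mul ocn
      bq34p))) (Nat.add (Nat.add (Nat.mul ol3p bl4n) (Nat.mul ol3n bl4p)) (Nat.add (Nat.mul ol4p
      bl3n) (Nat.mul ol4n bl3p)))) (Nat.add (Nat.add (Nat.mul 1000000000039 aq34n) (Nat.add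
      (Nat.mul ocp bq34p) (Nat.mul ocn bq34n))) (Nat.add (Nat.add (Nat.mul ol3p bl4p) (Nat.mul ol3n
      bl4n)) (Nat.add (Nat.mul ol4p bl3p) (Nat.mul ol4n bl3n)))) d, qp (Nat.add (Nat.add (Nat.mul
      1000000000039 aq34n) (Nat.add (Nat.mul ocp bq34p) (Nat.mul ocn bq34n))) (Nat.add (Nat.add
      (Nat.mul ol3p bl4p) (Nat.mul ol3n bl4n)) (Nat.add (Nat.mul ol4p bl3p) (Nat.mul ol4n bl3n))))
      (Nat.add (Nat.add (Nat.mul 1000000000039 aq34p) (Nat.add (Nat.mul ocp bq34n) (Nat.mul ocn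
      bq34p))) (Nat.add (Nat.add (Nat.mul ol3p bl4n) (Nat.mul ol3n bl4p)) (Nat.add (Nat.mul ol4p
      bl3n) (Nat.mul ol4n bl3p)))) d,
     qp (Nat.add (Nat.add (Nat.mul 1000000000039 aq44p) (Nat.mul ocp bq44n)) (Nat.add (Nat.mul ocn
      bq44p) (Nat.add (Nat.mul ol4p bl4n) (Nat.mul ol4n bl4p)))) (Nat.add (Nat.add (Nat.mul
      1000000000039 aq44n) (Nat.mul ocp bq44p)) (Nat.add (Nat.mul ocn bq44n) (Nat.add (Nat.mul ol4p
      bl4p) (Nat.mul ol4n bl4n)))) d, qp (Nat.add (Nat.add (Nat.mul 1000000000039 aq44n) (Nat.mul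
      ocp bq44p)) (Nat.add (Nat.mul ocn bq44n) (Nat.add (Nat.mul ol4p bl4p) (Nat.mul ol4n bl4n))))
      (Nat.add (Nat.add (Nat.mul 1000000000039 aq44p) (Nat.mul ocp bq44n)) (Nat.add (Nat.mul ocn
      bq44p) (Nat.add (Nat.mul ol4p bl4n) (Nat.mul ol4n bl4p)))) d, 0⟩))

noncomputable def div1 (A B : TN) (d ocp ocn : Nat) : TN :=
  TN.casesOn (motive := fun _ => TN) A (fun acp acn al1p al1n al2p al2n al3p al3n al4p al4n aq11p
      aq11n aq12p aq12n aq13p aq13n aq14p aq14n aq22p aq22n aq23p aq23n aq24p aq24n aq33p aq33n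
      aq34p aq34n aq44p aq44n ar =>
    TN.casesOn (motive := fun _ => TN) B (fun bcp bcn bl1p bl1n bl2p bl2n bl3p bl3n bl4p bl4n bq11p
      bq11n bq12p bq12n bq13p bq13n bq14p bq14n bq22p bq22n bq23p bq23n bq24p bq24n bq33p bq33n
      bq34p bq34n bq44p bq44n br =>
    div2 A B d ocp ocn (qp (Nat.add (Nat.mul 1000000000039 al1p) (Nat.add (Nat.mul ocp bl1n)
      (Nat.mul ocn bl1p))) (Nat.add (Nat.mul 1000000000039 al1n) (Nat.add (Nat.mul ocp bl1p)
      (Nat.mul ocn bl1n))) d) (qp (Nat.add (Nat.mul 1000000000039 al1n) (Nat.add (Nat.mul ocp bl1p)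
      (Nat.mul ocn bl1n))) (Nat.add (Nat.mul 1000000000039 al1p) (Nat.add (Nat.mul ocp bl1n)
      (Nat.mul ocn bl1p))) d) (qp (Nat.add (Nat.mul 1000000000039 al2p) (Nat.add (Nat.mul ocp bl2n)
      (Nat.mul ocn bl2p))) (Nat.add (Nat.mul 1000000000039 al2n) (Nat.add (Nat.mul ocp bl2p)
      (Nat.mul ocn bl2n))) d) (qp (Nat.add (Nat.mul 1000000000039 al2n) (Nat.add (Nat.mul ocp bl2p)
      (Nat.mul ocn bl2n))) (Nat.add (Nat.mul 1000000000039 al2p) (Nat.add (Nat.mul ocp bl2n)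
      (Nat.mul ocn bl2p))) d) (qp (Nat.add (Nat.mul 1000000000039 al3p) (Nat.add (Nat.mul ocp bl3n)
      (Nat.mul ocn bl3p))) (Nat.add (Nat.mul 1000000000039 al3n) (Nat.add (Nat.mul ocp bl3p)
      (Nat.mul ocn bl3n))) d) (qp (Nat.add (Nat.mul 1000000000039 al3n) (Nat.add (Nat.mul ocp bl3p)
      (Nat.mul ocn bl3n))) (Nat.add (Nat.mul 1000000000039 al3p) (Nat.add (Nat.mul ocp bl3n)
      (Nat.mul ocn bl3p))) d) (qp (Nat.add (Nat.mul 1000000000039 al4p) (Nat.add (Nat.mul ocp bl4n)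
      (Nat.mul ocn bl4p))) (Nat.add (Nat.mul 1000000000039 al4n) (Nat.add (Nat.mul ocp bl4p)
      (Nat.mul ocn bl4n))) d) (qp (Nat.add (Nat.mul 1000000000039 al4n) (Nat.add (Nat.mul ocp bl4p)
      (Nat.mul ocn bl4n))) (Nat.add (Nat.mul 1000000000039 al4p) (Nat.add (Nat.mul ocp bl4n)
      (Nat.mul ocn bl4p))) d)))

noncomputable def divCandN (A : TN) (B : TN) (d : Nat) : TN :=
  TN.casesOn (motive := fun _ => TN) A (fun acp acn al1p al1n al2p al2n al3p al3n al4p al4n aq11p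
      aq11n aq12p aq12n aq13p aq13n aq14p aq14n aq22p aq22n aq23p aq23n aq24p aq24n aq33p aq33n
      aq34p aq34n aq44p aq44n ar =>
    div1 A B d (qp (Nat.mul 1000000000039 acp) (Nat.mul 1000000000039 acn) d) (qp (Nat.mul
      1000000000039 acn) (Nat.mul 1000000000039 acp) d))

noncomputable def setRN (A : TN) (r : Nat) : TN :=
  TN.casesOn (motive := fun _ => TN) A (fun acp acn al1p al1n al2p al2n al3p al3n al4p al4n aq11p
      aq11n aq12p aq12n aq13p aq13n aq14p aq14n aq22p aq22n aq23p aq23n aq24p aq24n aq33p aq33n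
      aq34p aq34n aq44p aq44n ar =>
    ⟨acp, acn, al1p, al1n, al2p, al2n, al3p, al3n, al4p, al4n, aq11p, aq11n, aq12p, aq12n, aq13p,
      aq13n, aq14p, aq14n, aq22p, aq22n, aq23p, aq23n, aq24p, aq24n, aq33p, aq33n, aq34p, aq34n,
      aq44p, aq44n, r⟩)

noncomputable def cN (A : TN) : Nat :=
  TN.casesOn (motive := fun _ => Nat) A (fun acp acn al1p al1n al2p al2n al3p al3n al4p al4n aq11p
      aq11n aq12p aq12n aq13p aq13n aq14p aq14n aq22p aq22n aq23p aq23n aq24p aq24n aq33p aq33n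
      aq34p aq34n aq44p aq44n ar =>
    Nat.sub acp acn)

noncomputable def rN (A : TN) : Nat :=
  TN.casesOn (motive := fun _ => Nat) A (fun acp acn al1p al1n al2p al2n al3p al3n al4p al4n aq11p
      aq11n aq12p aq12n aq13p aq13n aq14p aq14n aq22p aq22n aq23p aq23n aq24p aq24n aq33p aq33n
      aq34p aq34n aq44p aq44n ar =>
    ar)

noncomputable def loN (A : TN) : Nat :=
  TN.casesOn (motive := fun _ => Nat) A (fun acp acn al1p al1n al2p al2n al3p al3n al4p al4n aq11p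
      aq11n aq12p aq12n aq13p aq13n aq14p aq14n aq22p aq22n aq23p aq23n aq24p aq24n aq33p aq33n
      aq34p aq34n aq44p aq44n ar =>
    Nat.sub (Nat.sub acp acn) (Nat.add (Nat.add (Nat.add (Nat.add (Nat.add al1p al1n) (Nat.add al2p
      al2n)) (Nat.add (Nat.add al3p al3n) (Nat.add al4p al4n))) (Nat.add (Nat.add (Nat.add (Nat.add
      aq11p aq11n) (Nat.add aq12p (Nat.add aq12n aq13p))) (Nat.add (Nat.add aq13n aq14p) (Nat.add
      aq14n (Nat.add aq22p aq22n)))) (Nat.add (Nat.add (Nat.add aq23p aq23n) (Nat.add aq24p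
      (Nat.add aq24n aq33p))) (Nat.add (Nat.add aq33n aq34p) (Nat.add aq34n (Nat.add aq44p
      aq44n)))))) ar))

noncomputable def lowNeg (a p n : Nat) : Nat :=
  Bool.rec (Nat.add n a) (Nat.add p (Nat.add (Nat.div (Nat.mul a a) (Nat.mul 4 (Nat.sub p n))) 1))
      (Nat.blt a (Nat.mul 2 (Nat.sub p n)))

noncomputable def geN (e : Nat) (A : TN) : Bool :=
  TN.casesOn (motive := fun _ => Bool) A (fun acp acn al1p al1n al2p al2n al3p al3n al4p al4n aq11p
      aq11n aq12p aq12n aq13p aq13n aq14p aq14n aq22p aq22n aq23p aq23n aq24p aq24n aq33p aq33n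
      aq34p aq34n aq44p aq44n ar =>
    Nat.ble (Nat.add (Nat.add (Nat.add (Nat.add e acn) (Nat.add ar aq12p)) (Nat.add (Nat.add aq12n
      aq13p) (Nat.add aq13n (Nat.add aq14p aq14n)))) (Nat.add (Nat.add (Nat.add aq23p aq23n)
      (Nat.add aq24p (Nat.add aq24n aq34p))) (Nat.add (Nat.add aq34n (lowNeg (Nat.add al1p al1n)
      aq11p aq11n)) (Nat.add (lowNeg (Nat.add al2p al2n) aq22p aq22n) (Nat.add (lowNeg (Nat.add
      al3p al3n) aq33p aq33n) (lowNeg (Nat.add al4p al4n) aq44p aq44n)))))) (Nat.add (Nat.add acp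
      aq11p) (Nat.add aq22p (Nat.add aq33p aq44p))))

theorem nsub (a b : Nat) : Nat.sub a b = a - b := rfl

def HasN (t : Pt) (σ : ℝ) (A : TN) (x : ℝ) : Prop := Has t σ (toTM A) x

theorem Has.congr {t : Pt} {σ x : ℝ} {A B : TM} (h : Has t σ A x) (hc : setR B 0 = setR A 0)
    (hr : A.r ≤ B.r) : Has t σ B x := by
  have e : B.ev t = A.ev t := by
    show (setR B 0).ev t = (setR A 0).ev t
    rw [hc]
  unfold Has at *
  rw [e]
  exact h.trans (by exact_mod_cast hr)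

theorem HasN.add {t : Pt} {σ x y : ℝ} {A B : TN} (hA : HasN t σ A x) (hB : HasN t σ B y) :
    HasN t σ (addN A B) (x + y) := by
  refine (Has.add hA hB).congr ?_ ?_
  · cases A; cases B
    simp only [toTM, addN, MP_d3fc00_an.add, setR, TM.mk.injEq, nadd, iadd, and_true]
    refine ⟨?_, ?_, ?_, ?_, ?_, ?_, ?_, ?_, ?_, ?_, ?_, ?_, ?_, ?_, ?_⟩ <;> (push_cast; ring)
  · cases A; cases B; exact le_rfl

theorem HasN.sub {t : Pt} {σ x y : ℝ} {A B : TN} (hA : HasN t σ A x) (hB : HasN t σ B y) :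
    HasN t σ (subN A B) (x - y) := by
  refine (Has.sub hA hB).congr ?_ ?_
  · cases A; cases B
    simp only [toTM, subN, MP_d3fc00_an.sub, setR, TM.mk.injEq, nadd, isub, and_true]
    refine ⟨?_, ?_, ?_, ?_, ?_, ?_, ?_, ?_, ?_, ?_, ?_, ?_, ?_, ?_, ?_⟩ <;> (push_cast; ring)
  · cases A; cases B; exact le_rfl

theorem HasN.scal {t : Pt} {σ x : ℝ} {A : TN} (m : Nat) (hA : HasN t σ A x) :
    HasN t σ (scalN m A) (m * x) := by
  refine (Has.scal (m : Int) hA).congr ?_ ?_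
  · cases A
    simp only [toTM, scalN, MP_d3fc00_an.scal, setR, TM.mk.injEq, nmul, imul, and_true]
    refine ⟨?_, ?_, ?_, ?_, ?_, ?_, ?_, ?_, ?_, ?_, ?_, ?_, ?_, ?_, ?_⟩ <;> (push_cast; ring)
  · cases A; exact le_rfl

theorem HasN.addc {t : Pt} {σ x y : ℝ} {A : TN} (m : Nat) (hy : y * σ = m) (hA : HasN t σ A x) :
    HasN t σ (addcN m A) (y + x) := by
  refine (Has.addc (m : Int) (by exact_mod_cast hy) hA).congr ?_ ?_
  · cases A
    simp only [toTM, addcN, MP_d3fc00_an.addc, setR, TM.mk.injEq, nadd, iadd, and_true]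
    push_cast; ring
  · cases A; exact le_rfl

theorem HasN.neg {t : Pt} {σ x : ℝ} {A : TN} (hA : HasN t σ A x) :
    HasN t σ (negN A) (-x) := by
  have h := Has.scal (-1) hA
  rw [show (((-1 : Int) : ℝ)) * x = -x by push_cast; ring] at h
  refine h.congr ?_ ?_
  · cases A
    simp only [toTM, negN, MP_d3fc00_an.scal, setR, TM.mk.injEq, imul, and_true]
    refine ⟨?_, ?_, ?_, ?_, ?_, ?_, ?_, ?_, ?_, ?_, ?_, ?_, ?_, ?_, ?_⟩ <;> ring
  · cases A; simp [toTM, negN, MP_d3fc00_an.scal]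

theorem HasN.nrm {t : Pt} {σ x : ℝ} {A : TN} (hA : HasN t σ A x) :
    HasN t σ (nrm A) x := by
  refine Has.congr hA ?_ ?_
  · cases A
    simp only [toTM, MP_d3fc00_an.nrm, setR, TM.mk.injEq, nsub, and_true]
    refine ⟨?_, ?_, ?_, ?_, ?_, ?_, ?_, ?_, ?_, ?_, ?_, ?_, ?_, ?_, ?_⟩ <;> omega
  · cases A; exact le_rfl

theorem m0_le (A : TN) : (toTM A).c.natAbs ≤ m0 A := by
  cases A; simp only [toTM, m0, nadd]; omega

theorem m1_le (A : TN) : n1 (toTM A) ≤ m1 A := by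
  cases A; simp only [toTM, m1, n1, nadd]; omega

theorem abs_pn (p n : Nat) : ((p : Int) - n).natAbs ≤ p + n := by omega

theorem m2_le (A : TN) : n2 (toTM A) ≤ m2 A := by
  cases A with
  | mk c c' l1 l1' l2 l2' l3 l3' l4 l4' a a' b b' d d' e e' f f' g g' h h' i i' j j' k k' r =>
    simp only [toTM, m2, n2, nadd]
    have := abs_pn a a'; have := abs_pn b b'; have := abs_pn d d'; have := abs_pn e e'
    have := abs_pn f f'; have := abs_pn g g'; have := abs_pn h h'; have := abs_pn i i'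
    have := abs_pn j j'; have := abs_pn k k'
    generalize ((a : Int) - a').natAbs = x1 at *
    generalize ((b : Int) - b').natAbs = x2 at *
    generalize ((d : Int) - d').natAbs = x3 at *
    generalize ((e : Int) - e').natAbs = x4 at *
    generalize ((f : Int) - f').natAbs = x5 at *
    generalize ((g : Int) - g').natAbs = x6 at *
    generalize ((h : Int) - h').natAbs = x7 at *
    generalize ((i : Int) - i').natAbs = x8 at *
    generalize ((j : Int) - j').natAbs = x9 at *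
    generalize ((k : Int) - k').natAbs = x10 at *
    omega

theorem remN_le (A B : TN) : mulRem (toTM A) (toTM B) ≤
    remN (m0 A) (m1 A) (m2 A) A.r (m0 B) (m1 B) (m2 B) B.r := by
  have a0 := m0_le A; have a1 := m1_le A; have a2 := m2_le A
  have b0 := m0_le B; have b1 := m1_le B; have b2 := m2_le B
  simp only [mulRem, forceN_eq, remN, nadd, nmul]
  have hA : (toTM A).r = A.r := rfl
  have hB : (toTM B).r = B.r := rfl
  rw [hA, hB]
  gcongr

theorem mulN_coef (A B : TN) :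
    setR (toTM (mulN A B)) 0 = setR (mulRaw (toTM A) (toTM B)) 0 := by
  cases A; cases B
  simp only [toTM, mulN, mulRaw, setR, TM.mk.injEq, nadd, nmul, iadd, imul, and_true]
  refine ⟨?_, ?_, ?_, ?_, ?_, ?_, ?_, ?_, ?_, ?_, ?_, ?_, ?_, ?_, ?_⟩ <;> (push_cast; ring)

theorem HasN.mul {t : Pt} {σ τ x y : ℝ} {A B : TN} (hA : HasN t σ A x) (hB : HasN t τ B y) :
    HasN t (σ * τ) (mulN A B) (x * y) := by
  refine (Has.mulRaw hA hB).congr (mulN_coef A B) ?_
  refine le_trans (remN_le A B) ?_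
  cases A; cases B; exact le_rfl

theorem HasN.mulP {t : Pt} {τ : ℝ} {A : TN} {x p σ : ℝ} {pc ph : Nat}
    (hp : p * σ = pc + ph * t.t4) (hA : HasN t τ A x) :
    HasN t (σ * τ) (mulPN pc ph A) (p * x) := by
  have hP : Has t σ ⟨pc, 0, 0, 0, ph, 0, 0, 0, 0, 0, 0, 0, 0, 0, 0, 0⟩ p := by
    simp [Has, TM.ev, TM.L, TM.Q, hp]
  refine (hP.mulRaw hA).congr ?_ ?_
  · cases A
    simp only [toTM, mulPN, mulRaw, setR, TM.mk.injEq, nadd, nmul, iadd, imul, and_true]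
    refine ⟨?_, ?_, ?_, ?_, ?_, ?_, ?_, ?_, ?_, ?_, ?_, ?_, ?_, ?_, ?_⟩ <;> (push_cast; ring)
  · have h2 := m2_le A
    have e : (toTM (mulPN pc ph A)).r = ph * m2 A + (pc + ph) * A.r := by cases A; rfl
    have hA : (toTM A).r = A.r := rfl
    rw [e]
    show mulRem _ _ ≤ _
    simp only [mulRem, forceN_eq, nadd, nmul, hA]
    simp only [n1, n2, nadd] at h2 ⊢
    simp only [Int.natAbs_zero, Int.natAbs_natCast, zero_add, add_zero, zero_mul, mul_zero]
    gcongr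

theorem qp_coef (P N d : Nat) (hd : 0 < d) :
    ((P : Int) - N - ((qp P N d : Int) - qp N P d) * d).natAbs ≤ d := by
  simp only [qp, ndiv, nsub]
  rcases le_total P N with h | h
  · obtain ⟨k, rfl⟩ := Nat.exists_eq_add_of_le h
    have h1 := Nat.div_add_mod k d
    have h2 := Nat.mod_lt k hd
    simp only [Nat.add_sub_cancel_left, Nat.sub_eq_zero_of_le h, Nat.zero_div]
    generalize k / d = a at *
    generalize k % d = b at *
    subst h1
    push_cast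
    rw [show (P : Int) - (P + (d * a + b)) - (0 - a) * d = -b by ring]
    omega
  · obtain ⟨k, rfl⟩ := Nat.exists_eq_add_of_le h
    have h1 := Nat.div_add_mod k d
    have h2 := Nat.mod_lt k hd
    simp only [Nat.add_sub_cancel_left, Nat.sub_eq_zero_of_le h, Nat.zero_div]
    generalize k / d = a at *
    generalize k % d = b at *
    subst h1
    push_cast
    rw [show (N : Int) + (d * a + b) - N - (a - 0) * d = b by ring]
    omega

theorem HasN.shr {t : Pt} {σ : ℝ} {A : TN} {x : ℝ} (hA : HasN t (σ * 1000000000039) A x) :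
    HasN t σ (shrN A) x := by
  unfold HasN Has at *
  have hs : Small (MP_d3fc00_an.sub (toTM A) (MP_d3fc00_an.scal 1000000000039 (toTM (shrN A))))
      1000000000039 := by
    cases A
    simp only [Small, MP_d3fc00_an.sub, MP_d3fc00_an.scal, shrN, toTM, isub, imul, nsub, ndiv]
    refine ⟨?_, ?_, ?_, ?_, ?_, ?_, ?_, ?_, ?_, ?_, ?_, ?_, ?_, ?_, ?_⟩ <;> omega
  have h1 := small_bd _ t _ hs
  rw [ev_sub, ev_scal] at h1
  have hr : ((toTM A).r : ℝ) ≤ 1000000000039 * (((toTM (shrN A)).r : ℝ) - 15) := by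
    have : (toTM A).r + 15 * 1000000000039 ≤ 1000000000039 * (toTM (shrN A)).r := by
      cases A
      simp only [toTM, shrN, nadd, ndiv]
      omega
    have h2 : ((toTM A).r : ℝ) + 15 * 1000000000039 ≤ 1000000000039 * (toTM (shrN A)).r := by
      exact_mod_cast this
    linarith
  push_cast at h1
  have h2 := abs_le.1 hA; have h3 := abs_le.1 h1
  rw [abs_le]; constructor <;> linarith [h2.1, h2.2, h3.1, h3.2]

theorem loN_le (A : TN) (h : 0 < loN A) :
    (loN A : Int) ≤ lo (toTM A) ∧ (toTM A).c = cN A := by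
  have a1 := m1_le A; have a2 := m2_le A
  have e : loN A = A.cp - A.cn - (m1 A + m2 A + A.r) := by cases A; rfl
  have e2 : cN A = A.cp - A.cn := by cases A; rfl
  have e3 : (toTM A).c = (A.cp : Int) - A.cn := rfl
  have e4 : (toTM A).r = A.r := rfl
  simp only [lo, isub, nadd, Int.ofNat_eq_natCast, e3, e4]
  omega

theorem HasN.lo_le {t : Pt} {σ : ℝ} {A : TN} {x : ℝ} (hA : HasN t σ A x) (h : 0 < loN A) :
    (loN A : ℝ) ≤ x * σ := by
  have h1 := Has.lo_le hA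
  have h2 : ((loN A : Int) : ℝ) ≤ (lo (toTM A) : ℝ) := Int.cast_le.2 (loN_le A h).1
  simp only [Int.cast_natCast] at h2
  linarith

theorem qp_coefC (P N d : Nat) (n : Int) (hd : 0 < d) (h : (P : Int) - N = n) :
    (n - ((qp P N d : Int) - qp N P d) * d).natAbs ≤ d := by
  rw [← h]; exact qp_coef P N d hd

theorem qp_coefA (P N d : Nat) (n u : Int) (hd : 0 < d) (h : (P : Int) - N = n - u) :
    (n - (u + ((qp P N d : Int) - qp N P d) * d)).natAbs ≤ d := by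
  have := qp_coef P N d hd
  rwa [h, show n - u - ((qp P N d : Int) - qp N P d) * d
    = n - (u + ((qp P N d : Int) - qp N P d) * d) by ring] at this

theorem qp_coefB (P N d : Nat) (n u v : Int) (hd : 0 < d) (h : (P : Int) - N = n - (u + v)) :
    (n - (u + ((qp P N d : Int) - qp N P d) * d + v)).natAbs ≤ d := by
  have := qp_coef P N d hd
  rwa [h, show n - (u + v) - ((qp P N d : Int) - qp N P d) * d
    = n - (u + ((qp P N d : Int) - qp N P d) * d + v) by ring] at this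

theorem divCandN_small (A B : TN) (d : Nat) (hd : 0 < d) (hc : (toTM B).c = d) :
    Small (sub (scal 1000000000039 (toTM A)) (mulRaw (toTM (divCandN A B d)) (toTM B))) d := by
  cases A; cases B
  simp only [toTM] at hc
  simp only [Small, sub, scal, mulRaw, divCandN, div1, div2, toTM, isub, imul, iadd, hc]
  refine ⟨qp_coefC _ _ _ _ hd ?_, qp_coefA _ _ _ _ _ hd ?_,
    qp_coefA _ _ _ _ _ hd ?_,
    qp_coefA _ _ _ _ _ hd ?_,
    qp_coefA _ _ _ _ _ hd ?_,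
    qp_coefB _ _ _ _ _ _ hd ?_,
    qp_coefB _ _ _ _ _ _ hd ?_,
    qp_coefB _ _ _ _ _ _ hd ?_,
    qp_coefB _ _ _ _ _ _ hd ?_,
    qp_coefB _ _ _ _ _ _ hd ?_,
    qp_coefB _ _ _ _ _ _ hd ?_,
    qp_coefB _ _ _ _ _ _ hd ?_,
    qp_coefB _ _ _ _ _ _ hd ?_,
    qp_coefB _ _ _ _ _ _ hd ?_,
    qp_coefB _ _ _ _ _ _ hd ?_⟩
  all_goals
    simp only [nadd, nmul]
    push_cast
    ring

noncomputable def divN (A B O : TN) (l : Nat) : TN :=
  setRN O (Nat.add (Nat.div (Nat.add (Nat.add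
    (remN (m0 O) (m1 O) (m2 O) 0 (m0 B) (m1 B) (m2 B) (rN B)) (Nat.mul 15 (cN B)))
    (Nat.mul 1000000000039 (rN A))) l) 1)

theorem HasN.div {t : Pt} {N D : TN} {x y : ℝ} (hN : HasN t 1000000000039 N x)
    (hD : HasN t 1000000000039 D y) (hl : 0 < loN D) :
    HasN t 1000000000039 (divN N D (divCandN N D (cN D)) (loN D)) (x / y) := by
  obtain ⟨hlo, hc⟩ := loN_le D hl
  have hcp : 0 < cN D := by
    have : lo (toTM D) ≤ (toTM D).c := by
      simp only [lo, isub, Int.ofNat_eq_natCast]; omega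
    omega
  have hy := hD.lo_le hl
  set l := loN D
  have hlp : (0 : ℝ) < l := by exact_mod_cast hl
  have hypos : 0 < y := by nlinarith
  have h2 := small_bd _ t _ (divCandN_small N D (cN D) hcp hc)
  set O := divCandN N D (cN D) with hO
  have hOr : O.r = 0 := by rw [hO]; cases N; cases D; rfl
  have hOh : Has t 1000000000039 (toTM O) ((toTM O).ev t / 1000000000039) := by
    unfold Has; rw [show (toTM O).r = 0 from hOr]; simp
  have h1 := hOh.mulRaw hD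
  rw [ev_sub, ev_scal] at h2
  unfold HasN Has at *
  have hr0 := remN_le O D
  rw [hOr] at hr0
  have hr1 : ((MP_d3fc00_an.mulRaw (toTM O) (toTM D)).r : ℝ)
      ≤ remN (m0 O) (m1 O) (m2 O) 0 (m0 D) (m1 D) (m2 D) D.r := by exact_mod_cast hr0
  have hev : (toTM (divN N D O l)).ev t = (toTM O).ev t := by cases O; rfl
  rw [hev]
  set R : Nat := remN (m0 O) (m1 O) (m2 O) 0 (m0 D) (m1 D) (m2 D) D.r + 15 * cN D
    + 1000000000039 * N.r with hR
  have hr2 : (toTM (divN N D O l)).r = R / l + 1 := by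
    rw [hR]; cases O; cases N; cases D; rfl
  have hr3 : (R : ℝ) ≤ ((toTM (divN N D O l)).r : ℝ) * l := by
    have : R ≤ (R / l + 1) * l := by
      have := Nat.lt_div_mul_add (a := R) hl
      nlinarith
    rw [hr2]; exact_mod_cast this
  have hRr : (R : ℝ) = (remN (m0 O) (m1 O) (m2 O) 0 (m0 D) (m1 D) (m2 D) D.r : ℝ)
      + 15 * (cN D : ℝ) + 1000000000039 * (toTM N).r := by
    rw [hR]; push_cast; rfl
  have key : |(x / y * 1000000000039 - (toTM O).ev t) * (y * 1000000000039)| ≤ R := by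
    have e : (x / y * 1000000000039 - (toTM O).ev t) * (y * 1000000000039)
        = 1000000000039 * (x * 1000000000039 - (toTM N).ev t)
          + (1000000000039 * (toTM N).ev t - (MP_d3fc00_an.mulRaw (toTM O) (toTM D)).ev t)
          - ((toTM O).ev t / 1000000000039 * y * (1000000000039 * 1000000000039)
            - (MP_d3fc00_an.mulRaw (toTM O) (toTM D)).ev t) := by
      field_simp; ring
    rw [e, hRr]
    push_cast at h2
    have a1 := abs_le.1 (h1.trans hr1); have a2 := abs_le.1 h2; have a3 := abs_le.1 hN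
    rw [abs_le]; constructor <;> linarith [a1.1, a1.2, a2.1, a2.2, a3.1, a3.2]
  rw [abs_mul, abs_of_pos (by positivity : 0 < y * 1000000000039)] at key
  have h5 : |x / y * 1000000000039 - (toTM O).ev t| * l ≤ ((toTM (divN N D O l)).r : ℝ) * l :=
    ((mul_le_mul_of_nonneg_left hy (abs_nonneg _)).trans key).trans hr3
  exact le_of_mul_le_mul_right h5 hlp

theorem lowNeg_le (lp ln p n : Nat) (s : ℝ) (hs : |s| ≤ 1) :
    (p : ℝ) - lowNeg (lp + ln) p n ≤ ((lp : ℝ) - ln) * s + ((p : ℝ) - n) * (s * s) := by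
  have hlp : (0 : ℝ) ≤ lp := Nat.cast_nonneg _
  have hln : (0 : ℝ) ≤ ln := Nat.cast_nonneg _
  have h0 := abs_nonneg s
  have hl : -((((lp + ln : ℕ)) : ℝ) * |s|) ≤ ((lp : ℝ) - ln) * s := by
    have h1 := neg_abs_le s; have h2 := le_abs_self s
    push_cast; nlinarith
  have hss : s * s = |s| * |s| := (abs_mul_abs_self s).symm
  rw [hss]
  generalize |s| = u at *
  generalize ((lp : ℝ) - ln) * s = w at *
  generalize lp + ln = a at *
  have ha : (0 : ℝ) ≤ a := Nat.cast_nonneg _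
  unfold lowNeg
  cases hb : Nat.blt a (Nat.mul 2 (Nat.sub p n)) with
  | false =>
    have h1 : ¬ a < 2 * (p - n) := by
      intro h
      have h' : Nat.blt a (Nat.mul 2 (Nat.sub p n)) = true := by rw [Nat.blt_eq]; exact h
      rw [hb] at h'; cases h'
    have h2 : 2 * (p : ℝ) ≤ a + 2 * n := by exact_mod_cast (by omega : 2 * p ≤ a + 2 * n)
    simp only [nadd]
    push_cast
    have h3 : (0 : ℝ) ≤ a - (p - n) * (1 + u) := by
      rcases le_total ((p : ℝ) - n) 0 with h | h <;> nlinarith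
    nlinarith [mul_nonneg (sub_nonneg.2 hs) h3]
  | true =>
    have h1 : a < 2 * (p - n) := by rw [Nat.blt_eq] at hb; exact hb
    obtain ⟨q, rfl⟩ : ∃ q, p = n + q := ⟨p - n, by omega⟩
    simp only [nadd, nmul, ndiv, nsub, Nat.add_sub_cancel_left] at h1 ⊢
    have hn : 0 < 4 * q := by omega
    have h2 : a * a ≤ (a * a / (4 * q) + 1) * (4 * q) := by
      have := Nat.lt_div_mul_add (a := a * a) hn
      nlinarith
    generalize a * a / (4 * q) + 1 = g at *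
    have h3 : (a : ℝ) * a ≤ g * (4 * q) := by exact_mod_cast h2
    have hn' : (0 : ℝ) < q := by exact_mod_cast (by omega : 0 < q)
    push_cast
    have : 0 ≤ (4 * q) * (-((a : ℝ) * u) + q * (u * u) + g) := by
      nlinarith [sq_nonneg (2 * q * u - a)]
    have h4 : 0 ≤ -((a : ℝ) * u) + q * (u * u) + g := by
      by_contra hc
      push Not at hc
      nlinarith
    linarith

theorem cross_le (p n : Nat) (m : ℝ) (hm : |m| ≤ 1) :
    -((p : ℝ) + n) ≤ ((p : ℝ) - n) * m := by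
  have hp : (0 : ℝ) ≤ p := Nat.cast_nonneg _
  have hn : (0 : ℝ) ≤ n := Nat.cast_nonneg _
  rw [abs_le] at hm
  nlinarith [hm.1, hm.2]

theorem HasN.ge {t : Pt} {σ : ℝ} {A : TN} {x : ℝ} {e : Nat} (hA : HasN t σ A x)
    (h : geN e A = true) : (e : ℝ) ≤ x * σ := by
  have h12 := cross_le A.q12p A.q12n _ (mul_bd t.h1 t.h2)
  have h13 := cross_le A.q13p A.q13n _ (mul_bd t.h1 t.h3)
  have h14 := cross_le A.q14p A.q14n _ (mul_bd t.h1 t.h4)
  have h23 := cross_le A.q23p A.q23n _ (mul_bd t.h2 t.h3)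
  have h24 := cross_le A.q24p A.q24n _ (mul_bd t.h2 t.h4)
  have h34 := cross_le A.q34p A.q34n _ (mul_bd t.h3 t.h4)
  have g1 := lowNeg_le A.l1p A.l1n A.q11p A.q11n _ t.h1
  have g2 := lowNeg_le A.l2p A.l2n A.q22p A.q22n _ t.h2
  have g3 := lowNeg_le A.l3p A.l3n A.q33p A.q33n _ t.h3
  have g4 := lowNeg_le A.l4p A.l4n A.q44p A.q44n _ t.h4
  have h3 := (abs_le.1 hA).1
  cases A
  simp only [geN, Nat.ble_eq, nadd] at h
  have h' := (Nat.cast_le (α := ℝ)).2 h
  simp only [toTM, TM.ev, TM.L, TM.Q] at *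
  push_cast at h' h3
  linarith

end Pool.Agent.Lib.MP_d3fc00_an
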